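import Mathlib

/-!
# Real inequalities used in the dyadic recursion for additive functionals of Markov chains
-/

set_option autoImplicit false

namespace H61CLT

/-- the truncated square `(|s| - R)_+ ^ 2` -/
noncomputable def qf (R s : ℝ) : ℝ := (max (|s| - R) 0) ^ 2

/-- the penalty -/
noncomputable def G (β lam t : ℝ) : ℝ := β * (t - 1) + lam * (t⁻¹ - 1)

lemma qf_nonneg (R s : ℝ) : 0 ≤ qf R s := sq_nonneg _

lemma qf_abs (R s : ℝ) : qf R |s| = qf R s := by unfold qf; rw [abs_abs]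

lemma qf_le_sq {R s : ℝ} (hR : 0 ≤ R) : qf R s ≤ s ^ 2 := by
  unfold qf
  rcases le_total (|s| - R) 0 with h | h
  · rw [max_eq_right h]; nlinarith [sq_nonneg s]
  · rw [max_eq_left h]
    have h1 : |s| - R ≤ |s| := by linarith
    calc (|s| - R) ^ 2 ≤ |s| ^ 2 := by gcongr
      _ = s ^ 2 := sq_abs s

lemma qf_mono {R s t : ℝ} (h : |s| ≤ |t|) : qf R s ≤ qf R t := by
  unfold qf
  gcongr

lemma qf_anti {R R' s : ℝ} (h : R ≤ R') : qf R' s ≤ qf R s := by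
  unfold qf
  gcongr

lemma qf_zero_of_le {R s : ℝ} (h : |s| ≤ R) : qf R s = 0 := by
  unfold qf
  rw [max_eq_right (by linarith)]; norm_num

/-- splitting inequality with a gap in the thresholds -/
lemma qf_add {R R' A C : ℝ} (hR : 0 < R) (hR' : 5 / 4 * R ≤ R') :
    qf R' (A + C) ≤ qf R A + qf R C + 64 / R ^ 2 * (A ^ 2 * C ^ 2) := by
  have hnn : 0 ≤ 64 / R ^ 2 * (A ^ 2 * C ^ 2) := by positivity
  by_cases hC : |C| ≤ R / 4
  · have : qf R' (A + C) ≤ qf R A := by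
      unfold qf
      have h1 : |A + C| ≤ |A| + |C| := abs_add_le A C
      have h2 : |A + C| - R' ≤ |A| - R := by linarith
      gcongr
    have := qf_nonneg R C
    linarith
  by_cases hA : |A| ≤ R / 4
  · have : qf R' (A + C) ≤ qf R C := by
      unfold qf
      have h1 : |A + C| ≤ |A| + |C| := abs_add_le A C
      have h2 : |A + C| - R' ≤ |C| - R := by linarith
      gcongr
    have := qf_nonneg R A
    linarith
  push Not at hC hA
  have hR'0 : 0 ≤ R' := by linarith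
  have h1 : qf R' (A + C) ≤ (A + C) ^ 2 := qf_le_sq hR'0
  have h2 : (A + C) ^ 2 ≤ 2 * A ^ 2 + 2 * C ^ 2 := by nlinarith [sq_nonneg (A - C)]
  have hA2 : R ^ 2 / 16 ≤ A ^ 2 := by
    have : (R / 4) ^ 2 ≤ |A| ^ 2 := by gcongr
    rw [sq_abs] at this; nlinarith
  have hC2 : R ^ 2 / 16 ≤ C ^ 2 := by
    have : (R / 4) ^ 2 ≤ |C| ^ 2 := by gcongr
    rw [sq_abs] at this; nlinarith
  have h3 : 2 * A ^ 2 ≤ 32 / R ^ 2 * (A ^ 2 * C ^ 2) := by
    rw [div_mul_eq_mul_div, le_div_iff₀ (by positivity)]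
    nlinarith [sq_nonneg A]
  have h4 : 2 * C ^ 2 ≤ 32 / R ^ 2 * (A ^ 2 * C ^ 2) := by
    rw [div_mul_eq_mul_div, le_div_iff₀ (by positivity)]
    nlinarith [sq_nonneg C]
  have h5 : 64 / R ^ 2 * (A ^ 2 * C ^ 2) =
      32 / R ^ 2 * (A ^ 2 * C ^ 2) + 32 / R ^ 2 * (A ^ 2 * C ^ 2) := by ring
  have := qf_nonneg R A
  have := qf_nonneg R C
  linarith

/-- Huber function is above its affine-quadratic minorants -/
lemma huber_ge {R z p : ℝ} (hz : 0 ≤ z) (hp : p ≤ R) :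
    2 * p * z - p ^ 2 ≤ z ^ 2 - qf R z := by
  unfold qf
  rw [abs_of_nonneg hz]
  rcases le_total (z - R) 0 with h | h
  · rw [max_eq_right h]; nlinarith [sq_nonneg (z - p)]
  · rw [max_eq_left h]
    nlinarith [mul_nonneg (sub_nonneg.2 hp) (sub_nonneg.2 hp), mul_nonneg (sub_nonneg.2 hp) h]

lemma huber_eq {R z : ℝ} (hz : 0 ≤ z) :
    2 * (min z R) * z - (min z R) ^ 2 = z ^ 2 - qf R z := by
  unfold qf
  rw [abs_of_nonneg hz]
  rcases le_total z R with h | h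
  · rw [min_eq_left h, max_eq_right (by linarith)]; ring
  · rw [min_eq_right h, max_eq_left (by linarith)]; ring

lemma amgm2 (u v : ℝ) : 2 * (u * v) ≤ 1 / 2 * u ^ 2 + 2 * v ^ 2 := by
  nlinarith [sq_nonneg (u - 2 * v)]

lemma amgm1 (u v : ℝ) : 2 * (u * v) ≤ u ^ 2 + v ^ 2 := by
  nlinarith [sq_nonneg (u - v)]

/-- the Cauchy-Schwarz and AM-GM bookkeeping, main part -/
lemma algA0 (aJ ar cJ cr dJ dr eJ er : ℝ)
    (haJ : 0 ≤ aJ) (har : 0 ≤ ar) (hcJ : 0 ≤ cJ) (hcr : 0 ≤ cr)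
    (hdJ : 0 ≤ dJ) (hdr : 0 ≤ dr) (heJ : 0 ≤ eJ) (her : 0 ≤ er) :
    2 * ((√dJ * √aJ + √dr * √ar) * (√eJ * √cJ + √er * √cr))
      ≤ (aJ + ar) * (eJ + er) + (cJ + cr) * (dJ + dr)
      - 1 / 2 * aJ * (eJ + er) - 1 / 2 * cJ * (dJ + dr)
      + (aJ + ar) * eJ + 3 / 2 * (cJ + cr) * dJ := by
  have s1 := Real.sq_sqrt haJ
  have s2 := Real.sq_sqrt har
  have s3 := Real.sq_sqrt hcJ
  have s4 := Real.sq_sqrt hcr
  have s5 := Real.sq_sqrt hdJ
  have s6 := Real.sq_sqrt hdr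
  have s7 := Real.sq_sqrt heJ
  have s8 := Real.sq_sqrt her
  have q1 := amgm2 (√aJ * √eJ) (√cJ * √dJ)
  have q2 := amgm2 (√aJ * √er) (√cr * √dJ)
  have q3 := amgm2 (√cJ * √dr) (√ar * √eJ)
  have q4 := amgm1 (√ar * √er) (√cr * √dr)
  rw [mul_pow, mul_pow, s1, s3, s5, s7] at q1
  rw [mul_pow, mul_pow, s1, s4, s5, s8] at q2
  rw [mul_pow, mul_pow, s2, s3, s6, s7] at q3
  rw [mul_pow, mul_pow, s2, s4, s6, s8] at q4
  have hcJdJ : 0 ≤ cJ * dJ := mul_nonneg hcJ hdJ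
  have haJeJ : 0 ≤ aJ * eJ := mul_nonneg haJ heJ
  have hcrdJ : 0 ≤ cr * dJ := mul_nonneg hcr hdJ
  have haJer : 0 ≤ aJ * er := mul_nonneg haJ her
  have hcJdr : 0 ≤ cJ * dr := mul_nonneg hcJ hdr
  have hareJ : 0 ≤ ar * eJ := mul_nonneg har heJ
  have zz : 2 * ((√dJ * √aJ + √dr * √ar) * (√eJ * √cJ + √er * √cr))
      = 2 * ((√aJ * √eJ) * (√cJ * √dJ)) + 2 * ((√aJ * √er) * (√cr * √dJ))
        + 2 * ((√cJ * √dr) * (√ar * √eJ)) + 2 * ((√ar * √er) * (√cr * √dr)) := by ring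
  rw [zz]
  linarith

lemma sqrt_add_le_cs {a b c d : ℝ} (ha : 0 ≤ a) (hb : 0 ≤ b) (hc : 0 ≤ c) (hd : 0 ≤ d) :
    √(d * a) + √(c * b) ≤ √((d + c) * (a + b)) := by
  apply Real.le_sqrt_of_sq_le
  have e1 : √(d * a) = √d * √a := Real.sqrt_mul hd _
  have e2 : √(c * b) = √c * √b := Real.sqrt_mul hc _
  rw [e1, e2]
  have s1 := Real.sq_sqrt ha
  have s2 := Real.sq_sqrt hb
  have s3 := Real.sq_sqrt hc
  have s4 := Real.sq_sqrt hd
  have q := sq_nonneg (√d * √b - √c * √a)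
  have e : (√d * √a + √c * √b) ^ 2 = (√d ^ 2 + √c ^ 2) * (√a ^ 2 + √b ^ 2)
      - (√d * √b - √c * √a) ^ 2 := by ring
  rw [e, s1, s2, s3, s4]
  linarith

/-- the Cauchy-Schwarz and AM-GM bookkeeping -/
lemma algA (aJ ar cJ cr dJ dr eJ er h k m1 m2 X Y : ℝ)
    (haJ : 0 ≤ aJ) (har : 0 ≤ ar) (hcJ : 0 ≤ cJ) (hcr : 0 ≤ cr)
    (hdJ : 0 ≤ dJ) (hdr : 0 ≤ dr) (heJ : 0 ≤ eJ) (her : 0 ≤ er)
    (hh : 0 ≤ h) (hh1 : h ≤ 1) (hk : 0 ≤ k) (hk1 : k ≤ 1)
    (hX : |X| ≤ h * |m1| + √(dJ * aJ) + √(dr * ar))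
    (hY : |Y| ≤ k * |m2| + √(eJ * cJ) + √(er * cr)) :
    2 * (|X| * |Y|) ≤ (aJ + ar) * (eJ + er) + (cJ + cr) * (dJ + dr)
      - 1 / 2 * aJ * (eJ + er) - 1 / 2 * cJ * (dJ + dr)
      + (aJ + ar) * eJ + 3 / 2 * (cJ + cr) * dJ
      + 2 * h * |m1| * √((eJ + er) * (cJ + cr)) + 2 * k * |m2| * √((dJ + dr) * (aJ + ar))
      + 2 * (|m1| * |m2|) := by
  have hda := sqrt_add_le_cs haJ har hdr hdJ
  have hec := sqrt_add_le_cs hcJ hcr her heJ
  have hPZ : 2 * ((√(dJ * aJ) + √(dr * ar)) * (√(eJ * cJ) + √(er * cr)))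
      ≤ (aJ + ar) * (eJ + er) + (cJ + cr) * (dJ + dr)
      - 1 / 2 * aJ * (eJ + er) - 1 / 2 * cJ * (dJ + dr)
      + (aJ + ar) * eJ + 3 / 2 * (cJ + cr) * dJ := by
    rw [Real.sqrt_mul hdJ, Real.sqrt_mul hdr, Real.sqrt_mul heJ, Real.sqrt_mul her]
    exact algA0 aJ ar cJ cr dJ dr eJ er haJ har hcJ hcr hdJ hdr heJ her
  have hP0 : 0 ≤ √(dJ * aJ) + √(dr * ar) := by positivity
  have hZ0 : 0 ≤ √(eJ * cJ) + √(er * cr) := by positivity
  have hm1 := abs_nonneg m1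
  have hm2 := abs_nonneg m2
  rw [add_assoc] at hX hY
  generalize √(dJ * aJ) + √(dr * ar) = P at *
  generalize √(eJ * cJ) + √(er * cr) = Z at *
  generalize √((dJ + dr) * (aJ + ar)) = P' at *
  generalize √((eJ + er) * (cJ + cr)) = Z' at *
  have hXY : |X| * |Y| ≤ (h * |m1| + P) * (k * |m2| + Z) :=
    mul_le_mul hX hY (abs_nonneg _) (by positivity)
  have t1 : h * |m1| * Z ≤ h * |m1| * Z' := by gcongr
  have t2 : k * |m2| * P ≤ k * |m2| * P' := by gcongr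
  have t3 : h * k * (|m1| * |m2|) ≤ 1 * (|m1| * |m2|) := by
    have : h * k ≤ 1 := mul_le_one₀ hh1 hk hk1
    gcongr
  have t4 : (h * |m1| + P) * (k * |m2| + Z) = h * k * (|m1| * |m2|) + h * |m1| * Z
      + k * |m2| * P + P * Z := by ring
  linarith

/-- control of the linear error term -/
lemma algT {β lam δ A k m : ℝ} (hl : 0 < lam) (hlb : lam ≤ β / 2)
    (hδ : 0 ≤ δ) (hδ1 : δ ≤ 1) (hA : 0 ≤ A) (hk : 0 < k) (hk1 : k ≤ 1) :
    2 * k * |m| * √(δ * A) ≤ lam * δ + 8 * β / lam * m ^ 2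
      + (if A * k ^ 2 ≤ 8 * β then 0 else 1 / 4 * (A * k)) := by
  have hβ : 0 < β := by linarith
  have hm := abs_nonneg m
  have hms : |m| ^ 2 = m ^ 2 := sq_abs m
  split_ifs with hc
  · have h1 : k * √(δ * A) ≤ √(8 * β * δ) := by
      apply Real.le_sqrt_of_sq_le
      rw [mul_pow, Real.sq_sqrt (by positivity)]
      nlinarith
    have h2 : 2 * |m| * √(8 * β * δ) ≤ lam * δ + 8 * β / lam * m ^ 2 := by
      have hs := Real.sq_sqrt (show 0 ≤ 8 * β * δ by positivity)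
      have hs0 := Real.sqrt_nonneg (8 * β * δ)
      -- with w = sqrt(8 β δ): 2|m| w ≤ lam w²/(8β) + 8β/lam m²
      have h3 : lam * δ = lam / (8 * β) * (√(8 * β * δ)) ^ 2 := by
        rw [hs]; field_simp
      rw [h3]
      have h4 : 0 ≤ lam / (8 * β) * (√(8 * β * δ) - 8 * β / lam * |m|) ^ 2 := by positivity
      have h5 : lam / (8 * β) * (√(8 * β * δ) - 8 * β / lam * |m|) ^ 2
          = lam / (8 * β) * (√(8 * β * δ)) ^ 2 - 2 * |m| * √(8 * β * δ)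
            + 8 * β / lam * m ^ 2 := by
        rw [← hms]; field_simp; ring
      linarith
    have h6 : 2 * k * |m| * √(δ * A) ≤ 2 * |m| * √(8 * β * δ) := by
      have : |m| * (k * √(δ * A)) ≤ |m| * √(8 * β * δ) := by gcongr
      linarith
    linarith
  · -- second case
    have h1 : k * √(δ * A) = √(k * δ) * √(k * A) := by
      have e1 : √(k ^ 2 * (δ * A)) = √(k ^ 2) * √(δ * A) := Real.sqrt_mul (sq_nonneg k) _
      have e2 : √(k * δ * (k * A)) = √(k * δ) * √(k * A) := Real.sqrt_mul (by positivity) _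
      rw [← e2, show k * δ * (k * A) = k ^ 2 * (δ * A) by ring, e1, Real.sqrt_sq hk.le]
    have s1 := Real.sq_sqrt (show 0 ≤ k * δ by positivity)
    have s2 := Real.sq_sqrt (show 0 ≤ k * A by positivity)
    have h2 : 2 * k * |m| * √(δ * A) = 2 * |m| * (√(k * δ) * √(k * A)) := by
      rw [← h1]; ring
    rw [h2]
    have h3 : 0 ≤ (1 / 2 * √(k * A) - 2 * (|m| * √(k * δ))) ^ 2 := sq_nonneg _
    have h4 : (|m| * √(k * δ)) ^ 2 ≤ m ^ 2 := by
      rw [mul_pow, s1, hms]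
      have : k * δ ≤ 1 := by nlinarith
      nlinarith [sq_nonneg m]
    have h5 : 4 * m ^ 2 ≤ 8 * β / lam * m ^ 2 := by
      have : 4 ≤ 8 * β / lam := by rw [le_div_iff₀ hl]; linarith
      nlinarith [sq_nonneg m]
    have h6 : 0 ≤ lam * δ := by positivity
    nlinarith

/-- gain from doubling a weight -/
lemma algG {β lam A k : ℝ} (hl : 0 < lam) (hk : 0 < k)
    (hc : ¬ A * k ^ 2 ≤ 8 * β) :
    3 / 8 * (A * k) ≤ A * (k - k / 2) + G β lam k⁻¹ - G β lam (2 * k⁻¹) := by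
  push Not at hc
  unfold G
  have h1 : (2 * k⁻¹)⁻¹ = k / 2 := by field_simp
  rw [h1, inv_inv]
  have h2 : β * k⁻¹ ≤ 1 / 8 * (A * k) := by
    rw [← div_eq_mul_inv, div_le_iff₀ hk]
    nlinarith
  nlinarith

end H61CLT
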