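import Mathlib

/-!
# Cauchy-Schwarz in a convenient form
-/

set_option autoImplicit false
open MeasureTheory

namespace H61CLT

/-- Cauchy-Schwarz for integrals, in the form `c ^ 2 ≤ a * b` implies `(∫ c) ^ 2 ≤ (∫ a) (∫ b)` -/
lemma cs_sq {α : Type*} [MeasurableSpace α] {μ : Measure α} {a b c : α → ℝ}
    (ha : Integrable a μ) (hb : Integrable b μ) (hc : Integrable c μ)
    (ha0 : ∀ᵐ x ∂μ, 0 ≤ a x) (hb0 : ∀ᵐ x ∂μ, 0 ≤ b x)
    (h : ∀ᵐ x ∂μ, c x ^ 2 ≤ a x * b x) :
    (∫ x, c x ∂μ) ^ 2 ≤ (∫ x, a x ∂μ) * (∫ x, b x ∂μ) := by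
  have key : ∀ t : ℝ, 0 ≤ (∫ x, a x ∂μ) * (t * t) + (2 * ∫ x, c x ∂μ) * t + ∫ x, b x ∂μ := by
    intro t
    have h1 : 0 ≤ ∫ x, (a x * (t * t) + (2 * c x) * t + b x) ∂μ := by
      apply integral_nonneg_of_ae
      filter_upwards [ha0, hb0, h] with x h0 h1 h2
      show 0 ≤ a x * (t * t) + (2 * c x) * t + b x
      have h3 : |c x * t| ≤ √(a x * (t * t) * b x) := by
        apply Real.abs_le_sqrt
        calc (c x * t) ^ 2 = c x ^ 2 * (t * t) := by ring
          _ ≤ (a x * b x) * (t * t) := by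
            apply mul_le_mul_of_nonneg_right h2 (mul_self_nonneg t)
          _ = a x * (t * t) * b x := by ring
      have h4 : 0 ≤ a x * (t * t) := mul_nonneg h0 (mul_self_nonneg t)
      have h5 : √(a x * (t * t) * b x) ≤ (a x * (t * t) + b x) / 2 := by
        rw [Real.sqrt_le_left (by positivity)]
        nlinarith [sq_nonneg (a x * (t * t) - b x)]
      have h6 := neg_abs_le (c x * t)
      nlinarith
    rw [integral_add, integral_add, integral_mul_const, integral_mul_const,
      integral_const_mul] at h1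
    · exact h1
    · exact ha.mul_const _
    · exact (hc.const_mul 2).mul_const _
    · exact (ha.mul_const _).add ((hc.const_mul 2).mul_const _)
    · exact hb
  have := discrim_le_zero key
  unfold discrim at this
  nlinarith

lemma cs_abs {α : Type*} [MeasurableSpace α] {μ : Measure α} {a b c : α → ℝ}
    (ha : Integrable a μ) (hb : Integrable b μ) (hc : Integrable c μ)
    (ha0 : ∀ᵐ x ∂μ, 0 ≤ a x) (hb0 : ∀ᵐ x ∂μ, 0 ≤ b x)
    (h : ∀ᵐ x ∂μ, c x ^ 2 ≤ a x * b x) :
    |∫ x, c x ∂μ| ≤ √((∫ x, a x ∂μ) * (∫ x, b x ∂μ)) :=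
  Real.abs_le_sqrt (cs_sq ha hb hc ha0 hb0 h)

/-- product of two functions with integrable squares is integrable -/
lemma integrable_mul_of_sq {α : Type*} [MeasurableSpace α] {μ : Measure α} {u v : α → ℝ}
    (hu : AEStronglyMeasurable u μ) (hv : AEStronglyMeasurable v μ)
    (hu2 : Integrable (fun x => u x ^ 2) μ) (hv2 : Integrable (fun x => v x ^ 2) μ) :
    Integrable (fun x => u x * v x) μ := by
  apply Integrable.mono' (hu2.add hv2) (hu.mul hv)
  filter_upwards with x
  show ‖u x * v x‖ ≤ u x ^ 2 + v x ^ 2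
  rw [Real.norm_eq_abs, abs_mul, ← sq_abs (u x), ← sq_abs (v x)]
  nlinarith [sq_nonneg (|u x| - |v x|), sq_nonneg (|u x|), sq_nonneg (|v x|)]

/-- `|∫ u v| ^ 2 ≤ ∫ u ^ 2 ∫ v ^ 2` -/
lemma cs_mul {α : Type*} [MeasurableSpace α] {μ : Measure α} {u v : α → ℝ}
    (hu : AEStronglyMeasurable u μ) (hv : AEStronglyMeasurable v μ)
    (hu2 : Integrable (fun x => u x ^ 2) μ) (hv2 : Integrable (fun x => v x ^ 2) μ) :
    (∫ x, u x * v x ∂μ) ^ 2 ≤ (∫ x, u x ^ 2 ∂μ) * (∫ x, v x ^ 2 ∂μ) := by
  apply cs_sq hu2 hv2 (integrable_mul_of_sq hu hv hu2 hv2)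
  · filter_upwards with x; positivity
  · filter_upwards with x; positivity
  · filter_upwards with x; rw [mul_pow]

/-- an integrable square gives integrability on a finite measure space -/
lemma integrable_of_sq {α : Type*} [MeasurableSpace α] {μ : Measure α} [IsFiniteMeasure μ]
    {u : α → ℝ} (hu : AEStronglyMeasurable u μ) (hu2 : Integrable (fun x => u x ^ 2) μ) :
    Integrable u μ := by
  apply Integrable.mono' ((integrable_const (1 : ℝ)).add hu2) hu
  filter_upwards with x
  rw [Real.norm_eq_abs]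
  show |u x| ≤ 1 + u x ^ 2
  rw [← sq_abs (u x)]
  nlinarith [sq_nonneg (|u x| - 1), sq_nonneg (|u x|)]

/-- Jensen for squares on a probability space -/
lemma sq_integral_le {α : Type*} [MeasurableSpace α] {μ : Measure α} [IsProbabilityMeasure μ]
    {u : α → ℝ} (hu : AEStronglyMeasurable u μ) (hu2 : Integrable (fun x => u x ^ 2) μ) :
    (∫ x, u x ∂μ) ^ 2 ≤ ∫ x, u x ^ 2 ∂μ := by
  have h := cs_sq (μ := μ) (a := fun x => u x ^ 2) (b := fun _ => (1 : ℝ)) (c := u) hu2
    (integrable_const _) (integrable_of_sq hu hu2) (by filter_upwards with x; positivity)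
    (by filter_upwards with x; positivity) (by filter_upwards with x; simp)
  simpa using h

lemma integral_lin {α : Type*} [MeasurableSpace α] {μ : Measure α} [IsProbabilityMeasure μ]
    {f g : α → ℝ} (hf : Integrable f μ) (hg : Integrable g μ) (a b c : ℝ) :
    ∫ x, (a * f x + b * g x + c) ∂μ = a * ∫ x, f x ∂μ + b * ∫ x, g x ∂μ + c := by
  have h1 : Integrable (fun x => a * f x + b * g x) μ := (hf.const_mul a).add (hg.const_mul b)
  rw [integral_add h1 (integrable_const _), integral_add (hf.const_mul a) (hg.const_mul b),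
    integral_const_mul, integral_const_mul]
  simp

lemma integrable_lin {α : Type*} [MeasurableSpace α] {μ : Measure α} [IsProbabilityMeasure μ]
    {f g : α → ℝ} (hf : Integrable f μ) (hg : Integrable g μ) (a b c : ℝ) :
    Integrable (fun x => a * f x + b * g x + c) μ :=
  ((hf.const_mul a).add (hg.const_mul b)).add (integrable_const _)

end H61CLT
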