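import Pool.Agent.H61.CLT.Defs
import Pool.Agent.H61.CLT.CS

/-!
# The central limit theorem from the dyadic block estimates
-/

set_option autoImplicit false
open MeasureTheory ProbabilityTheory
open scoped ENNReal Topology

namespace H61CLT

variable {S : Type*} [mS : MeasurableSpace S]

/-! ## Second order Taylor estimate -/

/-- the exponential -/
noncomputable def ex (θ s : ℝ) : ℂ := Complex.exp ((θ * s : ℝ) * Complex.I)

lemma norm_ex (θ s : ℝ) : ‖ex θ s‖ = 1 := by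
  unfold ex; exact Complex.norm_exp_ofReal_mul_I _

lemma ex_add (θ a b : ℝ) : ex θ (a + b) = ex θ a * ex θ b := by
  unfold ex
  rw [← Complex.exp_add]
  congr 1
  push_cast
  ring

lemma ex_zero (θ : ℝ) : ex θ 0 = 1 := by
  unfold ex; simp

lemma measurable_ex (θ : ℝ) : Measurable (ex θ) := by
  unfold ex
  fun_prop

lemma taylor2 (u : ℝ) :
    ‖Complex.exp (u * Complex.I) - 1 - u * Complex.I + (u ^ 2 / 2 : ℝ)‖ ≤ 4 * min (u ^ 2) (|u| ^ 3) := by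
  rcases le_or_gt |u| 1 with h | h
  · have h1 : ‖(u : ℂ) * Complex.I‖ ≤ 1 := by simpa using h
    have h2 := Complex.exp_bound h1 (n := 3) (by norm_num)
    have h3 : ∑ m ∈ Finset.range 3, ((u : ℂ) * Complex.I) ^ m / (m.factorial : ℂ)
        = 1 + u * Complex.I - (u ^ 2 / 2 : ℝ) := by
      simp only [Finset.sum_range_succ, Finset.sum_range_zero, Nat.factorial]
      push_cast
      have h0 : ((u : ℂ) * Complex.I) ^ 2 = - u ^ 2 := by
        rw [mul_pow, Complex.I_sq]; ring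
      rw [h0]
      simp only [pow_zero, pow_one]
      norm_num
      ring
    rw [h3] at h2
    have h4 : Complex.exp (u * Complex.I) - 1 - u * Complex.I + (u ^ 2 / 2 : ℝ)
        = Complex.exp (u * Complex.I) - (1 + u * Complex.I - (u ^ 2 / 2 : ℝ)) := by ring
    rw [h4]
    refine h2.trans ?_
    have h5 : ‖(u : ℂ) * Complex.I‖ = |u| := by simp
    rw [h5]
    have h6 : |u| ^ 3 ≤ u ^ 2 := by
      rw [← sq_abs u]
      have := abs_nonneg u
      nlinarith [pow_two_nonneg |u|]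
    rw [min_eq_right h6]
    have h7 : (((3 : ℕ).succ : ℝ) * (((3 : ℕ).factorial : ℝ) * (3 : ℕ))⁻¹) ≤ 4 := by
      norm_num [Nat.factorial]
    have h8 : 0 ≤ |u| ^ 3 := by positivity
    calc |u| ^ 3 * (((3 : ℕ).succ : ℝ) * (((3 : ℕ).factorial : ℝ) * (3 : ℕ))⁻¹)
        ≤ |u| ^ 3 * 4 := mul_le_mul_of_nonneg_left h7 h8
      _ = 4 * |u| ^ 3 := by ring
  · have h6 : u ^ 2 ≤ |u| ^ 3 := by
      rw [← sq_abs u]
      have := abs_nonneg u
      nlinarith [pow_two_nonneg |u|]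
    rw [min_eq_left h6]
    have h1 : ‖Complex.exp (u * Complex.I)‖ = 1 := Complex.norm_exp_ofReal_mul_I _
    have h2 : ‖(u : ℂ) * Complex.I‖ = |u| := by simp
    have h3 : ‖((u ^ 2 / 2 : ℝ) : ℂ)‖ = u ^ 2 / 2 := by
      rw [Complex.norm_real, Real.norm_eq_abs, abs_of_nonneg (by positivity)]
    calc ‖Complex.exp (u * Complex.I) - 1 - u * Complex.I + (u ^ 2 / 2 : ℝ)‖
        ≤ ‖Complex.exp (u * Complex.I) - 1 - u * Complex.I‖ + ‖((u ^ 2 / 2 : ℝ) : ℂ)‖ :=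
          norm_add_le _ _
      _ ≤ ‖Complex.exp (u * Complex.I) - 1‖ + ‖(u : ℂ) * Complex.I‖ + ‖((u ^ 2 / 2 : ℝ) : ℂ)‖ := by
          gcongr; exact norm_sub_le _ _
      _ ≤ ‖Complex.exp (u * Complex.I)‖ + ‖(1 : ℂ)‖ + ‖(u : ℂ) * Complex.I‖
          + ‖((u ^ 2 / 2 : ℝ) : ℂ)‖ := by
          gcongr; exact norm_sub_le _ _
      _ = 2 + |u| + u ^ 2 / 2 := by rw [h1, h2, h3, norm_one]; ring
      _ ≤ 4 * u ^ 2 := by
          rw [← sq_abs u]
          nlinarith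

/-! ## Gluing -/

lemma integrable_of_norm_le {α E : Type*} [MeasurableSpace α] [NormedAddCommGroup E]
    {μ : Measure α} [IsFiniteMeasure μ] {F : α → E} (hF : AEStronglyMeasurable F μ) {C : ℝ}
    (hC : ∀ x, ‖F x‖ ≤ C) : Integrable F μ :=
  (integrable_const C).mono' hF (Filter.Eventually.of_forall hC)

/-- characteristic function of the partial sum started at `x` -/
noncomputable def cf (Q : Kernel S S) (f : S → ℝ) (hf : Measurable f) (θ : ℝ) (n : ℕ) (x : S) : ℂ :=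
  ∫ q, ex θ q.2 ∂(KN Q f hf n x)

lemma stronglyMeasurable_cf (Q : Kernel S S) [IsMarkovKernel Q] (f : S → ℝ) (hf : Measurable f)
    (θ : ℝ) (n : ℕ) : StronglyMeasurable (cf Q f hf θ n) := by
  unfold cf
  have : StronglyMeasurable (fun p : S × (S × ℝ) => ex θ p.2.2) :=
    ((measurable_ex θ).comp (measurable_snd.comp measurable_snd)).stronglyMeasurable
  exact this.integral_kernel_prod_right'

lemma norm_cf_le (Q : Kernel S S) [IsMarkovKernel Q] (f : S → ℝ) (hf : Measurable f)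
    (θ : ℝ) (n : ℕ) (x : S) : ‖cf Q f hf θ n x‖ ≤ 1 := by
  unfold cf
  calc ‖∫ q, ex θ q.2 ∂(KN Q f hf n x)‖ ≤ ∫ q, ‖ex θ q.2‖ ∂(KN Q f hf n x) :=
        norm_integral_le_integral_norm _
    _ = 1 := by simp [norm_ex]

lemma integral_glue_ex (K L : Kernel S (S × ℝ)) [IsMarkovKernel K] [IsMarkovKernel L] (x : S)
    (θ : ℝ) : ∫ q, ex θ q.2 ∂(glue K L x)
      = ∫ p, ex θ p.2 * (∫ q, ex θ q.2 ∂(L p.1)) ∂(K x) := by
  unfold glue
  rw [Kernel.map_apply _ measurable_gluemap, integral_map measurable_gluemap.aemeasurable]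
  · have h : Measurable (fun a : (S × ℝ) × (S × ℝ) => ex θ (a.1.2 + a.2.2)) :=
      (measurable_ex θ).comp (measurable_snd.comp measurable_gluemap)
    rw [integral_compProd]
    · apply integral_congr_ae
      filter_upwards with p
      simp only [ex_add]
      rw [integral_const_mul]
      rfl
    · apply integrable_of_norm_le h.aestronglyMeasurable (C := 1)
      intro a
      rw [norm_ex]
  · exact ((measurable_ex θ).comp measurable_snd).aestronglyMeasurable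

lemma char_add (Q : Kernel S S) [IsMarkovKernel Q] (ν : Measure S) [IsProbabilityMeasure ν]
    (f : S → ℝ) (hf : Measurable f) (θ : ℝ) (k r : ℕ) :
    ∫ p, ex θ p.2.2 ∂(ν ⊗ₘ KN Q f hf (k + r))
      = ∫ p, ex θ p.2.2 * cf Q f hf θ r p.2.1 ∂(ν ⊗ₘ KN Q f hf k) := by
  have m1 : Measurable (fun p : S × (S × ℝ) => ex θ p.2.2) :=
    (measurable_ex θ).comp (measurable_snd.comp measurable_snd)
  have m2 : StronglyMeasurable (fun p : S × (S × ℝ) => cf Q f hf θ r p.2.1) :=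
    (stronglyMeasurable_cf Q f hf θ r).comp_measurable (measurable_fst.comp measurable_snd)
  rw [Measure.integral_compProd, Measure.integral_compProd]
  · apply integral_congr_ae
    filter_upwards with x
    show ∫ q, ex θ q.2 ∂(KN Q f hf (k + r) x) = _
    rw [KN_add, integral_glue_ex]
    rfl
  · apply integrable_of_norm_le (m1.stronglyMeasurable.mul m2).aestronglyMeasurable (C := 1)
    intro p
    show ‖ex θ p.2.2 * cf Q f hf θ r p.2.1‖ ≤ 1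
    rw [norm_mul, norm_ex, one_mul]
    exact norm_cf_le _ _ _ _ _ _
  · apply integrable_of_norm_le m1.aestronglyMeasurable (C := 1)
    intro p
    rw [norm_ex]

/-- one more block -/
lemma char_step (Q : Kernel S S) [IsMarkovKernel Q] (ν : Measure S) [IsProbabilityMeasure ν]
    (f : S → ℝ) (hf : Measurable f) (θ : ℝ) (k r : ℕ) (ρ : ℂ)
    (hm : (ν ⊗ₘ KN Q f hf k).map (fun p => p.2.1) = ν) :
    ‖(∫ p, ex θ p.2.2 ∂(ν ⊗ₘ KN Q f hf (k + r))) - ρ * ∫ p, ex θ p.2.2 ∂(ν ⊗ₘ KN Q f hf k)‖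
      ≤ ∫ x, ‖cf Q f hf θ r x - ρ‖ ∂ν := by
  have m1 : Measurable (fun p : S × (S × ℝ) => ex θ p.2.2) :=
    (measurable_ex θ).comp (measurable_snd.comp measurable_snd)
  have m2 : StronglyMeasurable (fun p : S × (S × ℝ) => cf Q f hf θ r p.2.1) :=
    (stronglyMeasurable_cf Q f hf θ r).comp_measurable (measurable_fst.comp measurable_snd)
  have i1 : Integrable (fun p : S × (S × ℝ) => ex θ p.2.2) (ν ⊗ₘ KN Q f hf k) := by
    apply integrable_of_norm_le m1.aestronglyMeasurable (C := 1)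
    intro p
    rw [norm_ex]
  have i2 : Integrable (fun p : S × (S × ℝ) => ex θ p.2.2 * cf Q f hf θ r p.2.1)
      (ν ⊗ₘ KN Q f hf k) := by
    apply integrable_of_norm_le (m1.stronglyMeasurable.mul m2).aestronglyMeasurable (C := 1)
    intro p
    show ‖ex θ p.2.2 * cf Q f hf θ r p.2.1‖ ≤ 1
    rw [norm_mul, norm_ex, one_mul]
    exact norm_cf_le _ _ _ _ _ _
  rw [char_add, ← integral_const_mul, ← integral_sub i2 (i1.const_mul ρ)]
  calc ‖∫ p, (ex θ p.2.2 * cf Q f hf θ r p.2.1 - ρ * ex θ p.2.2) ∂(ν ⊗ₘ KN Q f hf k)‖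
      ≤ ∫ p, ‖ex θ p.2.2 * cf Q f hf θ r p.2.1 - ρ * ex θ p.2.2‖ ∂(ν ⊗ₘ KN Q f hf k) :=
        norm_integral_le_integral_norm _
    _ = ∫ p, ‖cf Q f hf θ r p.2.1 - ρ‖ ∂(ν ⊗ₘ KN Q f hf k) := by
        apply integral_congr_ae
        filter_upwards with p
        rw [show ex θ p.2.2 * cf Q f hf θ r p.2.1 - ρ * ex θ p.2.2
          = ex θ p.2.2 * (cf Q f hf θ r p.2.1 - ρ) by ring, norm_mul, norm_ex, one_mul]
    _ = ∫ x, ‖cf Q f hf θ r x - ρ‖ ∂((ν ⊗ₘ KN Q f hf k).map (fun p => p.2.1)) := by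
        have hmeas : Measurable (fun p : S × (S × ℝ) => p.2.1) :=
          measurable_fst.comp measurable_snd
        rw [integral_map hmeas.aemeasurable]
        exact ((stronglyMeasurable_cf Q f hf θ r).sub
          stronglyMeasurable_const).norm.aestronglyMeasurable
    _ = ∫ x, ‖cf Q f hf θ r x - ρ‖ ∂ν := by rw [hm]

/-- `m` blocks -/
lemma char_blocks (Q : Kernel S S) [IsMarkovKernel Q] (ν : Measure S) [IsProbabilityMeasure ν]
    (f : S → ℝ) (hf : Measurable f) (θ : ℝ) (l : ℕ) (ρ : ℂ) (hρ : ‖ρ‖ ≤ 1)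
    (hm : ∀ k, (ν ⊗ₘ KN Q f hf k).map (fun p => p.2.1) = ν) (m : ℕ) :
    ‖(∫ p, ex θ p.2.2 ∂(ν ⊗ₘ KN Q f hf (m * l))) - ρ ^ m‖
      ≤ m * ∫ x, ‖cf Q f hf θ l x - ρ‖ ∂ν := by
  induction m with
  | zero =>
    have : ∫ p, ex θ p.2.2 ∂(ν ⊗ₘ KN Q f hf 0) = 1 := by
      rw [Measure.integral_compProd]
      · have : ∀ x, ∫ q, ex θ q.2 ∂(KN Q f hf 0 x) = 1 := by
          intro x
          show ∫ q, ex θ q.2 ∂(Kernel.deterministic (fun x => (x, (0:ℝ))) _ x) = 1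
          rw [Kernel.deterministic_apply, integral_dirac']
          · exact ex_zero θ
          · exact ((measurable_ex θ).comp measurable_snd).stronglyMeasurable
        simp [this]
      · apply integrable_of_norm_le ((measurable_ex θ).comp
          (measurable_snd.comp measurable_snd)).aestronglyMeasurable (C := 1)
        intro p
        show ‖ex θ p.2.2‖ ≤ 1
        rw [norm_ex]
    simp [this]
  | succ m ih =>
    rw [add_mul, one_mul]
    have h1 := char_step Q ν f hf θ (m * l) l ρ (hm _)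
    set D := ∫ x, ‖cf Q f hf θ l x - ρ‖ ∂ν
    calc ‖(∫ p, ex θ p.2.2 ∂(ν ⊗ₘ KN Q f hf (m * l + l))) - ρ ^ (m + 1)‖
        = ‖((∫ p, ex θ p.2.2 ∂(ν ⊗ₘ KN Q f hf (m * l + l)))
            - ρ * ∫ p, ex θ p.2.2 ∂(ν ⊗ₘ KN Q f hf (m * l)))
          + ρ * ((∫ p, ex θ p.2.2 ∂(ν ⊗ₘ KN Q f hf (m * l))) - ρ ^ m)‖ := by
          congr 1; ring
      _ ≤ D + 1 * (m * D) := by
          refine (norm_add_le _ _).trans (add_le_add h1 ?_)
          rw [norm_mul]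
          exact mul_le_mul hρ ih (norm_nonneg _) zero_le_one
      _ = ((m + 1 : ℕ) : ℝ) * D := by push_cast; ring

/-! ## Estimate for one block -/

lemma int_kernel {E : Type*} [NormedAddCommGroup E] [NormedSpace ℝ E] {ν : Measure S}
    [IsProbabilityMeasure ν] {K : Kernel S (S × ℝ)}
    [IsMarkovKernel K] {F : S × (S × ℝ) → E} (h : Integrable F (ν ⊗ₘ K)) :
    Integrable (fun x => ∫ q, F (x, q) ∂(K x)) ν := by
  have := Integrable.integral_compProd (κ := Kernel.const Unit ν)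
    (η := Kernel.prodMkLeft Unit K) (a := ()) h
  simpa using this

lemma ae_kernel {E : Type*} [NormedAddCommGroup E] {ν : Measure S}
    [IsProbabilityMeasure ν] {K : Kernel S (S × ℝ)}
    [IsMarkovKernel K] {F : S × (S × ℝ) → E} (h : Integrable F (ν ⊗ₘ K)) :
    ∀ᵐ x ∂ν, Integrable (fun q => F (x, q)) (K x) :=
  ((Measure.integrable_compProd_iff h.aestronglyMeasurable).mp h).1

lemma exp_neg_bound {a : ℝ} (ha : 0 ≤ a) : |Real.exp (-a) - 1 + a| ≤ a ^ 2 := by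
  rcases le_or_gt a 1 with h | h
  · have h1 : |(-a)| ≤ 1 := by rw [abs_neg, abs_of_nonneg ha]; exact h
    have h2 := Real.abs_exp_sub_one_sub_id_le h1
    rw [sub_neg_eq_add, neg_sq] at h2
    exact h2
  · have h1 : Real.exp (-a) ≤ 1 := by
      rw [Real.exp_le_one_iff]; linarith
    have h2 := Real.exp_pos (-a)
    rw [abs_le]
    constructor <;> nlinarith

lemma cf_sub_le {K : Measure (S × ℝ)} [IsProbabilityMeasure K] {θ w : ℝ}
    (h2 : Integrable (fun q : S × ℝ => q.2 ^ 2) K) (hw : 0 ≤ w) :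
    ‖(∫ q, ex θ q.2 ∂K) - (Real.exp (-(θ ^ 2 * w / 2)) : ℝ)‖
      ≤ 4 * (∫ q, min ((θ * q.2) ^ 2) (|θ * q.2| ^ 3) ∂K) + |θ| * |∫ q, q.2 ∂K|
        + θ ^ 2 / 2 * |(∫ q, q.2 ^ 2 ∂K) - w| + (θ ^ 2 * w / 2) ^ 2 := by
  have h1 : Integrable (fun q : S × ℝ => q.2) K :=
    integrable_of_sq measurable_snd.aestronglyMeasurable h2
  have h3 : Integrable (fun q : S × ℝ => ex θ q.2) K :=
    integrable_of_norm_le ((measurable_ex θ).comp measurable_snd).aestronglyMeasurable (C := 1)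
      (fun q => by rw [norm_ex])
  have h1c : Integrable (fun q : S × ℝ => ((q.2 : ℝ) : ℂ)) K := h1.ofReal
  have h2c : Integrable (fun q : S × ℝ => ((q.2 ^ 2 : ℝ) : ℂ)) K := h2.ofReal
  have i1 : Integrable (fun q : S × ℝ => (θ : ℂ) * Complex.I * ((q.2 : ℝ) : ℂ)) K :=
    h1c.const_mul _
  have i2 : Integrable (fun q : S × ℝ => ((θ ^ 2 / 2 : ℝ) : ℂ) * ((q.2 ^ 2 : ℝ) : ℂ)) K :=
    h2c.const_mul _
  have e0 : ∀ q : S × ℝ, ex θ q.2 - 1 - (θ : ℂ) * Complex.I * ((q.2 : ℝ) : ℂ)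
      + ((θ ^ 2 / 2 : ℝ) : ℂ) * ((q.2 ^ 2 : ℝ) : ℂ)
      = Complex.exp (((θ * q.2 : ℝ) : ℂ) * Complex.I) - 1 - ((θ * q.2 : ℝ) : ℂ) * Complex.I
        + (((θ * q.2) ^ 2 / 2 : ℝ) : ℂ) := by
    intro q
    unfold ex
    push_cast
    ring
  have hI : ∫ q, (ex θ q.2 - 1 - (θ : ℂ) * Complex.I * ((q.2 : ℝ) : ℂ)
      + ((θ ^ 2 / 2 : ℝ) : ℂ) * ((q.2 ^ 2 : ℝ) : ℂ)) ∂K
      = (∫ q, ex θ q.2 ∂K) - 1 - (θ : ℂ) * Complex.I * ((∫ q, q.2 ∂K : ℝ) : ℂ)
        + ((θ ^ 2 / 2 : ℝ) : ℂ) * ((∫ q, q.2 ^ 2 ∂K : ℝ) : ℂ) := by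
    have i3 : Integrable (fun q : S × ℝ => ex θ q.2 - 1) K := h3.sub (integrable_const _)
    have i4 : Integrable (fun q : S × ℝ => ex θ q.2 - 1
      - (θ : ℂ) * Complex.I * ((q.2 : ℝ) : ℂ)) K := i3.sub i1
    have j1 : ∫ q : S × ℝ, ((q.2 : ℝ) : ℂ) ∂K = ((∫ q, q.2 ∂K : ℝ) : ℂ) := integral_ofReal
    have j2 : ∫ q : S × ℝ, ((q.2 ^ 2 : ℝ) : ℂ) ∂K = ((∫ q, q.2 ^ 2 ∂K : ℝ) : ℂ) :=
      integral_ofReal
    rw [integral_add i4 i2, integral_sub i3 i1, integral_sub h3 (integrable_const _),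
      integral_const_mul, integral_const_mul, j1, j2]
    simp
  have hmin : Integrable (fun q : S × ℝ => min ((θ * q.2) ^ 2) (|θ * q.2| ^ 3)) K := by
    apply Integrable.mono' (h2.const_mul (θ ^ 2))
    · apply Measurable.aestronglyMeasurable
      fun_prop
    · filter_upwards with q
      rw [Real.norm_eq_abs, abs_of_nonneg (by positivity)]
      refine (min_le_left _ _).trans (le_of_eq ?_)
      ring
  have b1 : ‖∫ q, (ex θ q.2 - 1 - (θ : ℂ) * Complex.I * ((q.2 : ℝ) : ℂ)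
      + ((θ ^ 2 / 2 : ℝ) : ℂ) * ((q.2 ^ 2 : ℝ) : ℂ)) ∂K‖
      ≤ 4 * (∫ q, min ((θ * q.2) ^ 2) (|θ * q.2| ^ 3) ∂K) := by
    rw [← integral_const_mul]
    apply norm_integral_le_of_norm_le (hmin.const_mul 4)
    filter_upwards with q
    rw [e0 q]
    exact taylor2 (θ * q.2)
  rw [hI] at b1
  set A : ℂ := ∫ q, ex θ q.2 ∂K
  set a1 : ℝ := ∫ q, q.2 ∂K
  set a2 : ℝ := ∫ q, q.2 ^ 2 ∂K
  have b4 := exp_neg_bound (a := θ ^ 2 * w / 2) (by positivity)
  have e1 : A - (Real.exp (-(θ ^ 2 * w / 2)) : ℝ)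
      = (A - 1 - (θ : ℂ) * Complex.I * ((a1 : ℝ) : ℂ) + ((θ ^ 2 / 2 : ℝ) : ℂ) * ((a2 : ℝ) : ℂ))
        + (θ : ℂ) * Complex.I * ((a1 : ℝ) : ℂ)
        - ((θ ^ 2 / 2 * (a2 - w) : ℝ) : ℂ)
        - ((Real.exp (-(θ ^ 2 * w / 2)) - 1 + θ ^ 2 * w / 2 : ℝ) : ℂ) := by
    push_cast
    ring
  rw [e1]
  have b2 : ‖(θ : ℂ) * Complex.I * ((a1 : ℝ) : ℂ)‖ = |θ| * |a1| := by
    rw [norm_mul, norm_mul, Complex.norm_I, mul_one, Complex.norm_real, Complex.norm_real]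
    rfl
  have b3 : ‖((θ ^ 2 / 2 * (a2 - w) : ℝ) : ℂ)‖ = θ ^ 2 / 2 * |a2 - w| := by
    rw [Complex.norm_real, Real.norm_eq_abs, abs_mul, abs_of_nonneg (by positivity)]
  have b5 : ‖((Real.exp (-(θ ^ 2 * w / 2)) - 1 + θ ^ 2 * w / 2 : ℝ) : ℂ)‖
      ≤ (θ ^ 2 * w / 2) ^ 2 := by
    rw [Complex.norm_real, Real.norm_eq_abs]; exact b4
  refine (norm_sub_le _ _).trans (add_le_add ?_ b5)
  refine (norm_sub_le _ _).trans (add_le_add ?_ b3.le)
  exact (norm_add_le _ _).trans (add_le_add b1 b2.le)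


/-- integrated estimate for one block -/
lemma block_bound (Q : Kernel S S) [IsMarkovKernel Q] (ν : Measure S) [IsProbabilityMeasure ν]
    (f : S → ℝ) (hf : Measurable f) (l : ℕ)
    (h2 : Integrable (fun p : S × (S × ℝ) => p.2.2 ^ 2) (ν ⊗ₘ KN Q f hf l)) {θ w : ℝ}
    (hw : 0 ≤ w) :
    ∫ x, ‖cf Q f hf θ l x - (Real.exp (-(θ ^ 2 * w / 2)) : ℝ)‖ ∂ν
      ≤ 4 * (∫ p, min ((θ * p.2.2) ^ 2) (|θ * p.2.2| ^ 3) ∂(ν ⊗ₘ KN Q f hf l))
        + |θ| * √(Ef Q ν f hf l)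
        + θ ^ 2 / 2 * (∫ x, |(∫ q, q.2 ^ 2 ∂(KN Q f hf l x)) - w| ∂ν)
        + (θ ^ 2 * w / 2) ^ 2 := by
  set K := KN Q f hf l
  have m22 : Measurable (fun p : S × (S × ℝ) => p.2.2) := measurable_snd.comp measurable_snd
  have h1 : Integrable (fun p : S × (S × ℝ) => p.2.2) (ν ⊗ₘ K) :=
    integrable_of_sq m22.aestronglyMeasurable h2
  have hmin : Integrable (fun p : S × (S × ℝ) => min ((θ * p.2.2) ^ 2) (|θ * p.2.2| ^ 3))
      (ν ⊗ₘ K) := by
    apply Integrable.mono' (h2.const_mul (θ ^ 2))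
    · apply Measurable.aestronglyMeasurable
      fun_prop
    · filter_upwards with q
      rw [Real.norm_eq_abs, abs_of_nonneg (by positivity)]
      refine (min_le_left _ _).trans (le_of_eq ?_)
      ring
  have k2 := int_kernel h2
  have k1 := int_kernel h1
  have kmin := int_kernel hmin
  simp only at k1 k2 kmin
  have a2 := ae_kernel h2
  -- the conditional mean is square integrable
  have ksq : Integrable (fun x => (∫ q, q.2 ∂(K x)) ^ 2) ν := by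
    apply Integrable.mono' k2
    · exact (k1.aestronglyMeasurable.pow 2)
    · filter_upwards [a2] with x hx
      rw [Real.norm_eq_abs, abs_of_nonneg (sq_nonneg _)]
      exact sq_integral_le measurable_snd.aestronglyMeasurable hx
  have c1 : ∫ x, |∫ q, q.2 ∂(K x)| ∂ν ≤ √(Ef Q ν f hf l) := by
    apply Real.le_sqrt_of_sq_le
    unfold Ef
    have h := sq_integral_le (μ := ν) (u := fun x => |∫ q, q.2 ∂(K x)|)
      k1.aestronglyMeasurable.norm (by simpa only [sq_abs] using ksq)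
    simpa only [sq_abs] using h
  have j1 : Integrable (fun x => 4 * (∫ q, min ((θ * q.2) ^ 2) (|θ * q.2| ^ 3) ∂(K x))) ν :=
    kmin.const_mul 4
  have j2 : Integrable (fun x => |θ| * |∫ q, q.2 ∂(K x)|) ν := k1.norm.const_mul _
  have j3 : Integrable (fun x => θ ^ 2 / 2 * |(∫ q, q.2 ^ 2 ∂(K x)) - w|) ν :=
    (k2.sub (integrable_const w)).norm.const_mul _
  have j12 : Integrable (fun x => 4 * (∫ q, min ((θ * q.2) ^ 2) (|θ * q.2| ^ 3) ∂(K x))
    + |θ| * |∫ q, q.2 ∂(K x)|) ν := j1.add j2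
  have j123 : Integrable (fun x => 4 * (∫ q, min ((θ * q.2) ^ 2) (|θ * q.2| ^ 3) ∂(K x))
    + |θ| * |∫ q, q.2 ∂(K x)| + θ ^ 2 / 2 * |(∫ q, q.2 ^ 2 ∂(K x)) - w|) ν := j12.add j3
  have j4 : Integrable (fun x => 4 * (∫ q, min ((θ * q.2) ^ 2) (|θ * q.2| ^ 3) ∂(K x))
    + |θ| * |∫ q, q.2 ∂(K x)| + θ ^ 2 / 2 * |(∫ q, q.2 ^ 2 ∂(K x)) - w|
    + (θ ^ 2 * w / 2) ^ 2) ν := j123.add (integrable_const _)
  have jn : Integrable (fun x => ‖cf Q f hf θ l x - (Real.exp (-(θ ^ 2 * w / 2)) : ℝ)‖) ν := by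
    apply integrable_of_norm_le (C := 2)
    · exact ((stronglyMeasurable_cf Q f hf θ l).sub
          stronglyMeasurable_const).norm.aestronglyMeasurable
    · intro x
      rw [norm_norm]
      refine (norm_sub_le _ _).trans ?_
      have h1 := norm_cf_le Q f hf θ l x
      have h2 : ‖((Real.exp (-(θ ^ 2 * w / 2)) : ℝ) : ℂ)‖ ≤ 1 := by
        rw [Complex.norm_real, Real.norm_eq_abs, abs_of_pos (Real.exp_pos _), Real.exp_le_one_iff]
        have : 0 ≤ θ ^ 2 * w / 2 := by positivity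
        linarith
      linarith
  have main : ∫ x, ‖cf Q f hf θ l x - (Real.exp (-(θ ^ 2 * w / 2)) : ℝ)‖ ∂ν
      ≤ ∫ x, (4 * (∫ q, min ((θ * q.2) ^ 2) (|θ * q.2| ^ 3) ∂(K x))
    + |θ| * |∫ q, q.2 ∂(K x)| + θ ^ 2 / 2 * |(∫ q, q.2 ^ 2 ∂(K x)) - w|
    + (θ ^ 2 * w / 2) ^ 2) ∂ν := by
    apply integral_mono_ae jn j4
    filter_upwards [a2] with x hx
    exact cf_sub_le hx hw
  refine main.trans ?_
  rw [integral_add j123 (integrable_const _), integral_add j12 j3, integral_add j1 j2,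
    integral_const_mul, integral_const_mul, integral_const_mul, Measure.integral_compProd hmin]
  simp only [integral_const, probReal_univ, smul_eq_mul, one_mul]
  gcongr

/-- the remainder block -/
lemma rem_bound (Q : Kernel S S) [IsMarkovKernel Q] (ν : Measure S) [IsProbabilityMeasure ν]
    (f : S → ℝ) (hf : Measurable f) (r : ℕ)
    (h2 : Integrable (fun p : S × (S × ℝ) => p.2.2 ^ 2) (ν ⊗ₘ KN Q f hf r)) (θ : ℝ) :
    ∫ x, ‖cf Q f hf θ r x - 1‖ ∂ν ≤ |θ| * √(Vn Q ν f hf r) := by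
  set K := KN Q f hf r
  have m22 : Measurable (fun p : S × (S × ℝ) => p.2.2) := measurable_snd.comp measurable_snd
  have h1 : Integrable (fun p : S × (S × ℝ) => p.2.2) (ν ⊗ₘ K) :=
    integrable_of_sq m22.aestronglyMeasurable h2
  have h1a : Integrable (fun p : S × (S × ℝ) => |p.2.2|) (ν ⊗ₘ K) := h1.norm
  have a1 := ae_kernel h1
  have jn : Integrable (fun x => ‖cf Q f hf θ r x - 1‖) ν := by
    apply integrable_of_norm_le (C := 2)
    · exact ((stronglyMeasurable_cf Q f hf θ r).sub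
          stronglyMeasurable_const).norm.aestronglyMeasurable
    · intro x
      rw [norm_norm]
      refine (norm_sub_le _ _).trans ?_
      have h1 := norm_cf_le Q f hf θ r x
      rw [norm_one]
      linarith
  have k1 := int_kernel h1a
  have main : ∫ x, ‖cf Q f hf θ r x - 1‖ ∂ν ≤ ∫ x, |θ| * (∫ q, |q.2| ∂(K x)) ∂ν := by
    apply integral_mono_ae jn (k1.const_mul _)
    filter_upwards [a1] with x hx
    show ‖cf Q f hf θ r x - 1‖ ≤ |θ| * (∫ q, |q.2| ∂(K x))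
    have h3 : Integrable (fun q : S × ℝ => ex θ q.2) (K x) :=
      integrable_of_norm_le ((measurable_ex θ).comp measurable_snd).aestronglyMeasurable (C := 1)
        (fun q => by rw [norm_ex])
    have e1 : cf Q f hf θ r x - 1 = ∫ q, (ex θ q.2 - 1) ∂(K x) := by
      rw [integral_sub h3 (integrable_const _)]
      simp [cf, K]
    rw [e1, ← integral_const_mul]
    apply norm_integral_le_of_norm_le (hx.norm.const_mul _)
    filter_upwards with q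
    unfold ex
    have := Real.norm_exp_I_mul_ofReal_sub_one_le (x := θ * q.2)
    rw [mul_comm, ← Real.norm_eq_abs θ, ← norm_mul]
    exact this
  refine main.trans ?_
  rw [integral_const_mul, ← Measure.integral_compProd h1a]
  apply mul_le_mul_of_nonneg_left _ (abs_nonneg _)
  apply Real.le_sqrt_of_sq_le
  unfold Vn
  have h := sq_integral_le (μ := ν ⊗ₘ K) (u := fun p => |p.2.2|)
    h1a.aestronglyMeasurable (by simpa only [sq_abs] using h2)
  simpa only [sq_abs] using h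


lemma exp_sub_le {a b : ℝ} (ha : 0 ≤ a) (hab : a ≤ b) :
    |Real.exp (-a) - Real.exp (-b)| ≤ b - a := by
  have h1 : Real.exp (-b) ≤ Real.exp (-a) := Real.exp_le_exp.mpr (by linarith)
  rw [abs_of_nonneg (by linarith)]
  have h2 : Real.exp (-a) - Real.exp (-b) = Real.exp (-a) * (1 - Real.exp (-(b - a))) := by
    rw [mul_sub, mul_one, ← Real.exp_add]; congr 2; ring
  have h3 : Real.exp (-a) ≤ 1 := by rw [Real.exp_le_one_iff]; linarith
  have h4 := Real.add_one_le_exp (-(b - a))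
  have h5 : Real.exp (-(b - a)) ≤ 1 := by rw [Real.exp_le_one_iff]; linarith
  rw [h2]
  calc Real.exp (-a) * (1 - Real.exp (-(b - a))) ≤ 1 * (b - a) :=
        mul_le_mul h3 (by linarith) (by linarith) zero_le_one
    _ = b - a := one_mul _

/-- truncated third moments -/
lemma min_bound {μ : Measure (S × (S × ℝ))} [IsProbabilityMeasure μ] {l : ℝ} (hl : 0 < l)
    (h2 : Integrable (fun p : S × (S × ℝ) => p.2.2 ^ 2) μ) (θ R : ℝ) :
    ∫ p, min ((θ * p.2.2) ^ 2) (|θ * p.2.2| ^ 3) ∂μ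
      ≤ √(θ ^ 2 * l * |R|) * (θ ^ 2 * ∫ p, p.2.2 ^ 2 ∂μ)
        + θ ^ 2 * l * ∫ p, (if R ≤ p.2.2 ^ 2 / l then p.2.2 ^ 2 / l else 0) ∂μ := by
  have m22 : Measurable (fun p : S × (S × ℝ) => p.2.2) := measurable_snd.comp measurable_snd
  have hmin : Integrable (fun p : S × (S × ℝ) => min ((θ * p.2.2) ^ 2) (|θ * p.2.2| ^ 3)) μ := by
    apply Integrable.mono' (h2.const_mul (θ ^ 2))
    · apply Measurable.aestronglyMeasurable
      fun_prop
    · filter_upwards with q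
      rw [Real.norm_eq_abs, abs_of_nonneg (by positivity)]
      refine (min_le_left _ _).trans (le_of_eq ?_)
      ring
  have hU : Integrable (fun p : S × (S × ℝ) =>
      (if R ≤ p.2.2 ^ 2 / l then p.2.2 ^ 2 / l else 0)) μ := by
    apply Integrable.mono' (h2.div_const l)
    · apply Measurable.aestronglyMeasurable
      have h0 : Measurable (fun p : S × (S × ℝ) => p.2.2 ^ 2 / l) := (m22.pow_const 2).div_const l
      exact Measurable.ite (measurableSet_le measurable_const h0) h0 measurable_const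
    · filter_upwards with q
      have h0 : 0 ≤ q.2.2 ^ 2 / l := by positivity
      split_ifs
      · rw [Real.norm_eq_abs, abs_of_nonneg h0]
      · simpa using h0
  rw [← integral_const_mul, ← integral_const_mul, ← integral_const_mul,
    ← integral_add ((h2.const_mul _).const_mul _) (hU.const_mul _)]
  apply integral_mono hmin (((h2.const_mul _).const_mul _).add (hU.const_mul _))
  intro p
  show min ((θ * p.2.2) ^ 2) (|θ * p.2.2| ^ 3) ≤ √(θ ^ 2 * l * |R|) * (θ ^ 2 * p.2.2 ^ 2)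
    + θ ^ 2 * l * (if R ≤ p.2.2 ^ 2 / l then p.2.2 ^ 2 / l else 0)
  split_ifs with h
  · have h1 : θ ^ 2 * l * (p.2.2 ^ 2 / l) = (θ * p.2.2) ^ 2 := by field_simp
    rw [h1]
    refine (min_le_left _ _).trans ?_
    have : 0 ≤ √(θ ^ 2 * l * |R|) * (θ ^ 2 * p.2.2 ^ 2) := by positivity
    linarith
  · push Not at h
    rw [mul_zero, add_zero]
    refine (min_le_right _ _).trans ?_
    have h3 : |θ * p.2.2| ^ 3 = |θ * p.2.2| * (θ ^ 2 * p.2.2 ^ 2) := by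
      rw [pow_succ', sq_abs]; ring
    rw [h3]
    apply mul_le_mul_of_nonneg_right _ (by positivity)
    apply Real.abs_le_sqrt
    have h4 : p.2.2 ^ 2 < R * l := (div_lt_iff₀ hl).mp h
    have h5 : p.2.2 ^ 2 ≤ |R| * l := h4.le.trans
      (mul_le_mul_of_nonneg_right (le_abs_self R) hl.le)
    calc (θ * p.2.2) ^ 2 = θ ^ 2 * p.2.2 ^ 2 := by ring
      _ ≤ θ ^ 2 * (|R| * l) := mul_le_mul_of_nonneg_left h5 (sq_nonneg θ)
      _ = θ ^ 2 * l * |R| := by ring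

/-- the whole estimate at one time `n` -/
lemma total_bound (Q : Kernel S S) [IsMarkovKernel Q] (ν : Measure S) [IsProbabilityMeasure ν]
    (f : S → ℝ) (hf : Measurable f) (Eb : ℕ → ℝ) (hs : Setup Q ν f hf Eb)
    (v C : ℝ) (hv : 0 ≤ v) (hC : ∀ n : ℕ, Vn Q ν f hf n ≤ C * n) (t R ε : ℝ) {M m q n : ℕ}
    (hM : 0 < M) (hMm : M ≤ m) (hmM : m ≤ 2 * M) (h1 : m * 2 ^ q ≤ n)
    (h2 : n ≤ m * 2 ^ q + 2 ^ q)
    (hU : ∫ p, (if R ≤ p.2.2 ^ 2 / 2 ^ q then p.2.2 ^ 2 / 2 ^ q else 0)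
        ∂(ν ⊗ₘ KN Q f hf (2 ^ q)) ≤ ε) :
    ‖(∫ p, ex (t * (√n)⁻¹) p.2.2 ∂(ν ⊗ₘ KN Q f hf n)) - (Real.exp (-(t ^ 2 * v / 2)) : ℝ)‖
      ≤ (√(C * t ^ 2 / M) + 4 * t ^ 2 * (C * √(t ^ 2 * |R| / M))
          + t ^ 4 * v ^ 2 / (4 * M) + t ^ 2 * v / (2 * M)) + 4 * t ^ 2 * ε
        + (√(2 * M * t ^ 2 * (Ef Q ν f hf (2 ^ q) / 2 ^ q))
          + t ^ 2 / 2 * ∫ x, |(∫ p, p.2 ^ 2 ∂(KN Q f hf (2 ^ q) x)) / 2 ^ q - v| ∂ν) := by
  set l : ℕ := 2 ^ q with hl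
  have hl0 : (0 : ℝ) < (l : ℝ) := by rw [hl]; positivity
  have hlc : (2 : ℝ) ^ q = (l : ℝ) := by rw [hl]; push_cast; rfl
  rw [hlc] at hU ⊢
  have hm0 : (0 : ℝ) < (m : ℝ) := by exact_mod_cast (by omega : 0 < m)
  have hM0 : (0 : ℝ) < (M : ℝ) := by exact_mod_cast hM
  have hMm' : (M : ℝ) ≤ (m : ℝ) := by exact_mod_cast hMm
  have hmM' : (m : ℝ) ≤ 2 * (M : ℝ) := by exact_mod_cast hmM
  have h1' : (m : ℝ) * l ≤ n := by exact_mod_cast h1
  have h2' : (n : ℝ) ≤ m * l + l := by exact_mod_cast h2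
  have hn0 : (0 : ℝ) < (n : ℝ) := lt_of_lt_of_le (by positivity) h1'
  have hC0 : 0 ≤ C := by
    have h := hC 1
    have h' : 0 ≤ Vn Q ν f hf 1 := by
      unfold Vn
      exact integral_nonneg (fun p => sq_nonneg _)
    push_cast at h
    linarith
  set θ : ℝ := t * (√n)⁻¹ with hθ
  have hθ2 : θ ^ 2 * n = t ^ 2 := by
    rw [hθ, mul_pow, inv_pow, Real.sq_sqrt hn0.le]
    field_simp
  have hθt : θ ^ 2 * (m * l) ≤ t ^ 2 := by
    rw [← hθ2]; exact mul_le_mul_of_nonneg_left h1' (sq_nonneg _)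
  have hθl : θ ^ 2 * l ≤ t ^ 2 / M := by
    rw [le_div_iff₀ hM0]
    calc θ ^ 2 * l * M ≤ θ ^ 2 * l * m := by gcongr
      _ = θ ^ 2 * (m * l) := by ring
      _ ≤ t ^ 2 := hθt
  -- remainder
  obtain ⟨r, hr⟩ : ∃ r, n = m * l + r := ⟨n - m * l, by omega⟩
  have hrl : r ≤ l := by omega
  have hrl' : (r : ℝ) ≤ l := by exact_mod_cast hrl
  have A0 := char_step Q ν f hf θ (m * l) r 1 (hs.marg _)
  have A0' := A0.trans (rem_bound Q ν f hf r (hs.int2 r) θ)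
  rw [one_mul, ← hr] at A0'
  have B0 : |θ| * √(Vn Q ν f hf r) ≤ √(C * t ^ 2 / M) := by
    rw [← Real.sqrt_sq_eq_abs, ← Real.sqrt_mul (sq_nonneg _)]
    apply Real.sqrt_le_sqrt
    calc θ ^ 2 * Vn Q ν f hf r ≤ θ ^ 2 * (C * l) := by
          apply mul_le_mul_of_nonneg_left _ (sq_nonneg _)
          exact (hC r).trans (mul_le_mul_of_nonneg_left hrl' hC0)
      _ = C * (θ ^ 2 * l) := by ring
      _ ≤ C * (t ^ 2 / M) := mul_le_mul_of_nonneg_left hθl hC0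
      _ = C * t ^ 2 / M := by ring
  -- the blocks
  have hw : 0 ≤ v * l := by positivity
  have A1 := char_blocks Q ν f hf θ l ((Real.exp (-(θ ^ 2 * (v * l) / 2)) : ℝ) : ℂ)
    (by
      rw [Complex.norm_real, Real.norm_eq_abs, abs_of_pos (Real.exp_pos _), Real.exp_le_one_iff]
      have : 0 ≤ θ ^ 2 * (v * l) / 2 := by positivity
      linarith) hs.marg m
  have A2 := block_bound Q ν f hf l (hs.int2 l) (θ := θ) hw
  have A3 := min_bound hl0 (hs.int2 l) θ R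
  have hVl : Vn Q ν f hf l ≤ C * l := hC l
  have hV0 : 0 ≤ Vn Q ν f hf l := by
    unfold Vn
    exact integral_nonneg (fun p => sq_nonneg _)
  -- (1)
  have B1 : m * (4 * (∫ p, min ((θ * p.2.2) ^ 2) (|θ * p.2.2| ^ 3) ∂(ν ⊗ₘ KN Q f hf l)))
      ≤ 4 * t ^ 2 * (C * √(t ^ 2 * |R| / M)) + 4 * t ^ 2 * ε := by
    have c1 : √(θ ^ 2 * l * |R|) ≤ √(t ^ 2 * |R| / M) := by
      apply Real.sqrt_le_sqrt
      calc θ ^ 2 * l * |R| ≤ t ^ 2 / M * |R| := mul_le_mul_of_nonneg_right hθl (abs_nonneg _)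
        _ = t ^ 2 * |R| / M := by ring
    have hU0 : 0 ≤ ∫ p, (if R ≤ p.2.2 ^ 2 / (l : ℝ) then p.2.2 ^ 2 / (l : ℝ) else 0)
        ∂(ν ⊗ₘ KN Q f hf l) := by
      apply integral_nonneg
      intro p
      show (0 : ℝ) ≤ (if R ≤ p.2.2 ^ 2 / (l : ℝ) then p.2.2 ^ 2 / (l : ℝ) else 0)
      split_ifs
      · positivity
      · exact le_rfl
    have hε0 : 0 ≤ ε := hU0.trans hU
    have c2 : ∫ p, min ((θ * p.2.2) ^ 2) (|θ * p.2.2| ^ 3) ∂(ν ⊗ₘ KN Q f hf l)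
        ≤ √(t ^ 2 * |R| / M) * (θ ^ 2 * (C * l)) + θ ^ 2 * l * ε := by
      refine A3.trans ?_
      apply add_le_add
      · apply mul_le_mul c1 _ (mul_nonneg (sq_nonneg _) hV0) (Real.sqrt_nonneg _)
        exact mul_le_mul_of_nonneg_left hVl (sq_nonneg _)
      · exact mul_le_mul_of_nonneg_left hU (by positivity)
    calc m * (4 * (∫ p, min ((θ * p.2.2) ^ 2) (|θ * p.2.2| ^ 3) ∂(ν ⊗ₘ KN Q f hf l)))
        ≤ m * (4 * (√(t ^ 2 * |R| / M) * (θ ^ 2 * (C * l)) + θ ^ 2 * l * ε)) := by gcongr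
      _ = 4 * (θ ^ 2 * (m * l)) * (C * √(t ^ 2 * |R| / M) + ε) := by ring
      _ ≤ 4 * t ^ 2 * (C * √(t ^ 2 * |R| / M) + ε) := by gcongr
      _ = _ := by ring
  -- (2)
  have B2 : m * (|θ| * √(Ef Q ν f hf l)) ≤ √(2 * M * t ^ 2 * (Ef Q ν f hf l / l)) := by
    have hE0 : 0 ≤ Ef Q ν f hf l := by
      unfold Ef
      exact integral_nonneg (fun p => sq_nonneg _)
    apply Real.le_sqrt_of_sq_le
    calc (m * (|θ| * √(Ef Q ν f hf l))) ^ 2 = m * (θ ^ 2 * (m * l)) * (Ef Q ν f hf l / l) := by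
          rw [mul_pow, mul_pow, sq_abs, Real.sq_sqrt hE0]; field_simp
      _ ≤ 2 * M * t ^ 2 * (Ef Q ν f hf l / l) := by gcongr
  -- (3)
  have B3 : m * (θ ^ 2 / 2 * (∫ x, |(∫ q, q.2 ^ 2 ∂(KN Q f hf l x)) - v * l| ∂ν))
      ≤ t ^ 2 / 2 * ∫ x, |(∫ p, p.2 ^ 2 ∂(KN Q f hf l x)) / l - v| ∂ν := by
    have e1 : ∫ x, |(∫ q, q.2 ^ 2 ∂(KN Q f hf l x)) - v * l| ∂ν
        = l * ∫ x, |(∫ p, p.2 ^ 2 ∂(KN Q f hf l x)) / l - v| ∂ν := by
      rw [← integral_const_mul]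
      apply integral_congr_ae
      filter_upwards with x
      nth_rewrite 2 [← abs_of_pos hl0]
      rw [← abs_mul]
      congr 1
      field_simp
    rw [e1]
    have h0 : 0 ≤ ∫ x, |(∫ p, p.2 ^ 2 ∂(KN Q f hf l x)) / l - v| ∂ν :=
      integral_nonneg (fun p => abs_nonneg _)
    calc m * (θ ^ 2 / 2 * (l * ∫ x, |(∫ p, p.2 ^ 2 ∂(KN Q f hf l x)) / l - v| ∂ν))
        = (θ ^ 2 * (m * l)) / 2 * ∫ x, |(∫ p, p.2 ^ 2 ∂(KN Q f hf l x)) / l - v| ∂ν := by ring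
      _ ≤ _ := by gcongr
  -- (4)
  have B4 : m * (θ ^ 2 * (v * l) / 2) ^ 2 ≤ t ^ 4 * v ^ 2 / (4 * M) := by
    calc m * (θ ^ 2 * (v * l) / 2) ^ 2 = (θ ^ 2 * (m * l)) * (θ ^ 2 * l) * v ^ 2 / 4 := by ring
      _ ≤ t ^ 2 * (t ^ 2 / M) * v ^ 2 / 4 := by gcongr
      _ = t ^ 4 * v ^ 2 / (4 * M) := by field_simp
  -- (5)
  have B5 : ‖((Real.exp (-(θ ^ 2 * (v * l) / 2)) : ℝ) : ℂ) ^ m
      - (Real.exp (-(t ^ 2 * v / 2)) : ℝ)‖ ≤ t ^ 2 * v / (2 * M) := by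
    rw [← Complex.ofReal_pow, ← Complex.ofReal_sub, Complex.norm_real, Real.norm_eq_abs,
      ← Real.exp_nat_mul]
    have e1 : (m : ℝ) * -(θ ^ 2 * (v * l) / 2) = -(θ ^ 2 * (m * l) * v / 2) := by ring
    rw [e1]
    refine (exp_sub_le (by positivity) (by gcongr)).trans ?_
    have e2 : t ^ 2 * v / 2 - θ ^ 2 * (m * l) * v / 2 = θ ^ 2 * (n - m * l) * v / 2 := by
      rw [← hθ2]; ring
    rw [e2]
    calc θ ^ 2 * (n - m * l) * v / 2 ≤ θ ^ 2 * l * v / 2 := by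
          have : (n : ℝ) - m * l ≤ l := by linarith
          gcongr
      _ ≤ t ^ 2 / M * v / 2 := by gcongr
      _ = t ^ 2 * v / (2 * M) := by field_simp
  -- assembly
  have A4 : ‖(∫ p, ex θ p.2.2 ∂(ν ⊗ₘ KN Q f hf (m * l)))
      - ((Real.exp (-(θ ^ 2 * (v * l) / 2)) : ℝ) : ℂ) ^ m‖
      ≤ (4 * t ^ 2 * (C * √(t ^ 2 * |R| / M)) + 4 * t ^ 2 * ε)
        + √(2 * M * t ^ 2 * (Ef Q ν f hf l / l))
        + t ^ 2 / 2 * (∫ x, |(∫ p, p.2 ^ 2 ∂(KN Q f hf l x)) / l - v| ∂ν)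
        + t ^ 4 * v ^ 2 / (4 * M) := by
    refine A1.trans ((mul_le_mul_of_nonneg_left A2 hm0.le).trans ?_)
    rw [mul_add, mul_add, mul_add]
    exact add_le_add (add_le_add (add_le_add B1 B2) B3) B4
  have tri : ‖(∫ p, ex θ p.2.2 ∂(ν ⊗ₘ KN Q f hf n)) - (Real.exp (-(t ^ 2 * v / 2)) : ℝ)‖
      ≤ ‖(∫ p, ex θ p.2.2 ∂(ν ⊗ₘ KN Q f hf n)) - ∫ p, ex θ p.2.2 ∂(ν ⊗ₘ KN Q f hf (m * l))‖
        + ‖(∫ p, ex θ p.2.2 ∂(ν ⊗ₘ KN Q f hf (m * l)))
          - ((Real.exp (-(θ ^ 2 * (v * l) / 2)) : ℝ) : ℂ) ^ m‖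
        + ‖((Real.exp (-(θ ^ 2 * (v * l) / 2)) : ℝ) : ℂ) ^ m
          - (Real.exp (-(t ^ 2 * v / 2)) : ℝ)‖ := by
    refine (norm_sub_le_norm_sub_add_norm_sub _
      (((Real.exp (-(θ ^ 2 * (v * l) / 2)) : ℝ) : ℂ) ^ m) _).trans ?_
    gcongr
    exact norm_sub_le_norm_sub_add_norm_sub _ _ _
  have A5 := A0'.trans B0
  linarith


/-! ## The limit -/

lemma tendsto_const_div_nat (c : ℝ) :
    Filter.Tendsto (fun M : ℕ => c / (M : ℝ)) Filter.atTop (𝓝 0) :=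
  tendsto_const_div_atTop_nhds_zero_nat c

lemma sqrt_lim (c : ℝ) :
    Filter.Tendsto (fun M : ℕ => √(c / (M : ℝ))) Filter.atTop (𝓝 0) := by
  have h := (Real.continuous_sqrt.tendsto 0).comp (tendsto_const_div_nat c)
  rw [Real.sqrt_zero] at h
  exact h

/-- dyadic decomposition of a large time -/
lemma dyadic {M : ℕ} (hM : 0 < M) (q1 : ℕ) : ∀ᶠ n : ℕ in Filter.atTop,
    ∃ q m : ℕ, q1 ≤ q ∧ M ≤ m ∧ m ≤ 2 * M ∧ m * 2 ^ q ≤ n ∧ n ≤ m * 2 ^ q + 2 ^ q := by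
  filter_upwards [Filter.eventually_ge_atTop (M * 2 ^ q1)] with n hn
  have hk : 2 ^ q1 ≤ n / M := by
    rw [Nat.le_div_iff_mul_le hM]; linarith [mul_comm M (2 ^ q1)]
  have hk0 : n / M ≠ 0 := by
    have : 0 < 2 ^ q1 := by positivity
    omega
  set q := Nat.log 2 (n / M) with hq
  have h1 : 2 ^ q ≤ n / M := Nat.pow_log_le_self 2 hk0
  have h2 : n / M < 2 ^ (q + 1) := Nat.lt_pow_succ_log_self (by norm_num) _
  have hq0 : 0 < 2 ^ q := by positivity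
  refine ⟨q, n / 2 ^ q, ?_, ?_, ?_, Nat.div_mul_le_self _ _, ?_⟩
  · rw [hq]
    exact Nat.le_log_of_pow_le (by norm_num) hk
  · rw [Nat.le_div_iff_mul_le hq0]
    calc M * 2 ^ q ≤ M * (n / M) := Nat.mul_le_mul_left _ h1
      _ ≤ n := Nat.mul_div_le _ _
  · apply Nat.le_of_lt
    rw [Nat.div_lt_iff_lt_mul hq0]
    rw [Nat.div_lt_iff_lt_mul hM] at h2
    calc n < 2 ^ (q + 1) * M := h2
      _ = 2 * M * 2 ^ q := by rw [pow_succ]; ring
  · have := Nat.div_add_mod n (2 ^ q)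
    have h3 := Nat.mod_lt n hq0
    have h4 : n / 2 ^ q * 2 ^ q = 2 ^ q * (n / 2 ^ q) := mul_comm _ _
    omega

theorem char_lim (Q : Kernel S S) [IsMarkovKernel Q] (ν : Measure S) [IsProbabilityMeasure ν]
    (f : S → ℝ) (hf : Measurable f) (Eb : ℕ → ℝ) (hs : Setup Q ν f hf Eb)
    (v C : ℝ) (hv : 0 ≤ v) (hC : ∀ n : ℕ, Vn Q ν f hf n ≤ C * n)
    (hV : Filter.Tendsto (fun q : ℕ =>
      ∫ x, |(∫ p, p.2 ^ 2 ∂(KN Q f hf (2 ^ q) x)) / 2 ^ q - v| ∂ν) Filter.atTop (𝓝 0))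
    (hUI : ∀ ε : ℝ, 0 < ε → ∃ R : ℝ, ∀ᶠ q : ℕ in Filter.atTop,
      ∫ p, (if R ≤ p.2.2 ^ 2 / 2 ^ q then p.2.2 ^ 2 / 2 ^ q else 0)
        ∂(ν ⊗ₘ KN Q f hf (2 ^ q)) ≤ ε) (t : ℝ) :
    Filter.Tendsto (fun n : ℕ => ∫ p, ex (t * (√n)⁻¹) p.2.2 ∂(ν ⊗ₘ KN Q f hf n))
      Filter.atTop (𝓝 ((Real.exp (-(t ^ 2 * v / 2)) : ℝ) : ℂ)) := by
  rw [tendsto_iff_norm_sub_tendsto_zero]
  rw [Metric.tendsto_atTop']
  intro δ hδ
  set ε : ℝ := δ / (16 * (t ^ 2 + 1)) with hε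
  have ht1 : 0 < t ^ 2 + 1 := by positivity
  have hε0 : 0 < ε := by positivity
  have hε1 : 4 * t ^ 2 * ε ≤ δ / 4 := by
    rw [hε]
    rw [show 4 * t ^ 2 * (δ / (16 * (t ^ 2 + 1))) = (δ / 4) * (t ^ 2 / (t ^ 2 + 1)) by
      field_simp; ring]
    have : t ^ 2 / (t ^ 2 + 1) ≤ 1 := by
      rw [div_le_one ht1]; linarith
    calc δ / 4 * (t ^ 2 / (t ^ 2 + 1)) ≤ δ / 4 * 1 := by gcongr
      _ = δ / 4 := mul_one _
  obtain ⟨R, hR⟩ := hUI ε hε0
  -- choose M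
  have lM : Filter.Tendsto (fun M : ℕ => √(C * t ^ 2 / M) + 4 * t ^ 2 * (C * √(t ^ 2 * |R| / M))
          + t ^ 4 * v ^ 2 / (4 * M) + t ^ 2 * v / (2 * M)) Filter.atTop (𝓝 0) := by
    have h1 := sqrt_lim (C * t ^ 2)
    have h2 := ((sqrt_lim (t ^ 2 * |R|)).const_mul C).const_mul (4 * t ^ 2)
    have h3 := tendsto_const_div_nat (t ^ 4 * v ^ 2 / 4)
    have h4 := tendsto_const_div_nat (t ^ 2 * v / 2)
    have h := ((h1.add h2).add h3).add h4
    simp only [mul_zero, add_zero] at h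
    refine h.congr (fun M => ?_)
    simp only [div_div]
  obtain ⟨M, hMb, hM⟩ := ((lM.eventually_lt_const (show (0 : ℝ) < δ / 4 by positivity)).and
    (Filter.eventually_gt_atTop 0)).exists
  -- choose q
  have lq : Filter.Tendsto (fun q : ℕ => √(2 * M * t ^ 2 * (Ef Q ν f hf (2 ^ q) / 2 ^ q))
          + t ^ 2 / 2 * ∫ x, |(∫ p, p.2 ^ 2 ∂(KN Q f hf (2 ^ q) x)) / 2 ^ q - v| ∂ν)
      Filter.atTop (𝓝 0) := by
    have h1 := hs.forwS.tendsto_atTop_zero.const_mul (2 * M * t ^ 2)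
    have h2 := (Real.continuous_sqrt.tendsto _).comp h1
    have h3 := hV.const_mul (t ^ 2 / 2)
    have h := h2.add h3
    simp only [mul_zero, Real.sqrt_zero, add_zero] at h
    exact h
  obtain ⟨q1, hq1⟩ := Filter.eventually_atTop.mp
    ((lq.eventually_lt_const (show (0 : ℝ) < δ / 4 by positivity)).and hR)
  have hd := dyadic hM q1
  obtain ⟨N, hN⟩ := Filter.eventually_atTop.mp hd
  refine ⟨N, fun n hn => ?_⟩
  obtain ⟨q, m, hq, hm1, hm2, hm3, hm4⟩ := hN n hn.le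
  have hb := total_bound Q ν f hf Eb hs v C hv hC t R ε hM hm1 hm2 hm3 hm4 (hq1 q hq).2
  have hb2 := (hq1 q hq).1
  rw [Real.dist_eq, sub_zero, abs_of_nonneg (norm_nonneg _)]
  linarith

theorem clt_step (Q : Kernel S S) [IsMarkovKernel Q] (ν : Measure S) [IsProbabilityMeasure ν]
    (f : S → ℝ) (hf : Measurable f) (Eb : ℕ → ℝ) (hs : Setup Q ν f hf Eb)
    (v : NNReal) (C : ℝ) (hC : ∀ n : ℕ, Vn Q ν f hf n ≤ C * n)
    (hV : Filter.Tendsto (fun q : ℕ =>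
      ∫ x, |(∫ p, p.2 ^ 2 ∂(KN Q f hf (2 ^ q) x)) / 2 ^ q - v| ∂ν) Filter.atTop (𝓝 0))
    (hUI : ∀ ε : ℝ, 0 < ε → ∃ R : ℝ, ∀ᶠ q : ℕ in Filter.atTop,
      ∫ p, (if R ≤ p.2.2 ^ 2 / 2 ^ q then p.2.2 ^ 2 / 2 ^ q else 0)
        ∂(ν ⊗ₘ KN Q f hf (2 ^ q)) ≤ ε) :
    ∀ g : ℝ → ℝ, Continuous g → (∃ C : ℝ, ∀ x, |g x| ≤ C) →
      Filter.Tendsto (fun n : ℕ => ∫ p, g ((Real.sqrt n)⁻¹ * p.2.2) ∂(ν ⊗ₘ KN Q f hf n))
        Filter.atTop (𝓝 (∫ x, g x ∂(gaussianReal 0 v))) := by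
  intro g hg hgb
  obtain ⟨B, hB⟩ := hgb
  have hmeas : ∀ n : ℕ, Measurable (fun p : S × (S × ℝ) => (Real.sqrt n)⁻¹ * p.2.2) :=
    fun n => (measurable_snd.comp measurable_snd).const_mul _
  let μs : ℕ → ProbabilityMeasure ℝ := fun n =>
    ⟨(ν ⊗ₘ KN Q f hf n).map (fun p => (Real.sqrt n)⁻¹ * p.2.2),
      Measure.isProbabilityMeasure_map (hmeas n).aemeasurable⟩
  let μ0 : ProbabilityMeasure ℝ := ⟨gaussianReal 0 v, inferInstance⟩
  have hconv : Filter.Tendsto μs Filter.atTop (𝓝 μ0) := by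
    rw [ProbabilityMeasure.tendsto_iff_tendsto_charFun]
    intro t
    have h1 : charFun (μ0 : Measure ℝ) t = ((Real.exp (-(t ^ 2 * v / 2)) : ℝ) : ℂ) := by
      show charFun (gaussianReal 0 v) t = _
      rw [charFun_gaussianReal]
      push_cast
      congr 1
      ring
    rw [h1]
    refine (char_lim Q ν f hf Eb hs v C v.2 hC hV hUI t).congr (fun n => ?_)
    show _ = charFun ((ν ⊗ₘ KN Q f hf n).map (fun p => (Real.sqrt n)⁻¹ * p.2.2)) t
    rw [charFun_apply_real, integral_map (hmeas n).aemeasurable]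
    · apply integral_congr_ae
      filter_upwards with p
      unfold ex
      push_cast
      congr 1
      ring
    · apply Measurable.aestronglyMeasurable
      fun_prop
  rw [ProbabilityMeasure.tendsto_iff_forall_integral_tendsto] at hconv
  have h := hconv (BoundedContinuousFunction.ofNormedAddCommGroup g hg B
    (fun x => by rw [Real.norm_eq_abs]; exact hB x))
  refine h.congr (fun n => ?_)
  show ∫ x, g x ∂((ν ⊗ₘ KN Q f hf n).map (fun p => (Real.sqrt n)⁻¹ * p.2.2)) = _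
  rw [integral_map (hmeas n).aemeasurable]
  exact hg.measurable.aestronglyMeasurable

end H61CLT
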