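import Pool.Agent.H61.CLT.Defs
import Pool.Agent.H61.CLT.CS

/-!
# Basic integrals for an admissible law
-/

set_option autoImplicit false
open MeasureTheory

namespace H61CLT

lemma measurable_qf (R : ℝ) : Measurable (qf R) := by
  unfold qf
  fun_prop

namespace Good

variable {μ : Measure (ℝ × ℝ)}

lemma x_int (h : Good μ) : Integrable (fun p : ℝ × ℝ => p.2) μ := by
  have := h.prob
  exact integrable_of_sq measurable_snd.aestronglyMeasurable h.int2

lemma inv_int (h : Good μ) : Integrable (fun p : ℝ × ℝ => p.1⁻¹) μ := by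
  have := h.prob
  apply Integrable.mono' (integrable_const (1 : ℝ)) measurable_fst.inv.aestronglyMeasurable
  filter_upwards [h.one_le] with p hp
  show ‖p.1⁻¹‖ ≤ 1
  rw [Real.norm_eq_abs, abs_of_nonneg (by positivity)]
  exact inv_le_one_of_one_le₀ hp

lemma A_int (h : Good μ) : Integrable (fun p : ℝ × ℝ => p.2 ^ 2 / p.1) μ := by
  apply Integrable.mono' h.int2
    ((measurable_snd.pow_const 2).div measurable_fst).aestronglyMeasurable
  filter_upwards [h.one_le] with p hp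
  show ‖p.2 ^ 2 / p.1‖ ≤ p.2 ^ 2
  rw [Real.norm_eq_abs, abs_of_nonneg (by positivity)]
  exact div_le_self (sq_nonneg _) hp

lemma A2_int (h : Good μ) : Integrable (fun p : ℝ × ℝ => p.2 ^ 2 / p.1 ^ 2) μ := by
  apply Integrable.mono' h.int2
    ((measurable_snd.pow_const 2).div (measurable_fst.pow_const 2)).aestronglyMeasurable
  filter_upwards [h.one_le] with p hp
  show ‖p.2 ^ 2 / p.1 ^ 2‖ ≤ p.2 ^ 2
  rw [Real.norm_eq_abs, abs_of_nonneg (by positivity)]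
  exact div_le_self (sq_nonneg _) (one_le_pow₀ hp)

lemma X_int (h : Good μ) : Integrable (fun p : ℝ × ℝ => p.2 / p.1) μ := by
  apply Integrable.mono' h.x_int.norm (measurable_snd.div measurable_fst).aestronglyMeasurable
  filter_upwards [h.one_le] with p hp
  show ‖p.2 / p.1‖ ≤ ‖p.2‖
  rw [norm_div, Real.norm_eq_abs p.1]
  exact div_le_self (norm_nonneg _) (hp.trans (le_abs_self _))

lemma one_le_T (h : Good μ) : 1 ≤ mT μ := by
  have := h.prob
  unfold mT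
  calc (1 : ℝ) = ∫ _p, (1 : ℝ) ∂μ := by simp
    _ ≤ _ := integral_mono_ae (integrable_const _) h.int1 h.one_le

lemma A_nonneg (h : Good μ) : 0 ≤ mA μ := by
  apply integral_nonneg_of_ae
  filter_upwards [h.one_le] with p hp
  show 0 ≤ p.2 ^ 2 / p.1
  positivity

lemma A_le_V (h : Good μ) : mA μ ≤ mV μ := by
  apply integral_mono_ae h.A_int h.int2
  filter_upwards [h.one_le] with p hp
  exact div_le_self (sq_nonneg _) hp

lemma V_nonneg (_h : Good μ) : 0 ≤ mV μ := by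
  apply integral_nonneg_of_ae
  filter_upwards with p
  show 0 ≤ p.2 ^ 2
  positivity

lemma U_le_one (h : Good μ) : mU μ ≤ 1 := by
  have := h.prob
  unfold mU
  calc _ ≤ ∫ _p, (1 : ℝ) ∂μ := by
        apply integral_mono_ae h.inv_int (integrable_const _)
        filter_upwards [h.one_le] with p hp
        exact inv_le_one_of_one_le₀ hp
    _ = 1 := by simp

/-- the defect function -/
lemma d_eq (h : Good μ) (c : ℝ) : (fun p : ℝ × ℝ => p.1 * (p.1⁻¹ - c) ^ 2)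
    =ᵐ[μ] fun p => 1 * p.1⁻¹ + c ^ 2 * p.1 + (-(2 * c)) := by
  filter_upwards [h.one_le] with p hp
  have : p.1 ≠ 0 := by positivity
  field_simp
  ring

lemma d_int (h : Good μ) (c : ℝ) : Integrable (fun p : ℝ × ℝ => p.1 * (p.1⁻¹ - c) ^ 2) μ := by
  have := h.prob
  refine (Integrable.congr ?_ (h.d_eq c).symm)
  exact integrable_lin h.inv_int h.int1 _ _ _

lemma d_integral (h : Good μ) :
    ∫ p, p.1 * (p.1⁻¹ - (mT μ)⁻¹) ^ 2 ∂μ = mU μ - (mT μ)⁻¹ := by
  have := h.prob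
  rw [integral_congr_ae (h.d_eq _), integral_lin h.inv_int h.int1]
  have hT : mT μ ≠ 0 := by have := h.one_le_T; positivity
  show 1 * mU μ + (mT μ)⁻¹ ^ 2 * mT μ + _ = _
  field_simp
  ring

lemma d_nonneg (h : Good μ) (c : ℝ) : ∀ᵐ p ∂μ, 0 ≤ p.1 * (p.1⁻¹ - c) ^ 2 := by
  filter_upwards [h.one_le] with p hp
  positivity

lemma delta_nonneg (h : Good μ) : 0 ≤ mU μ - (mT μ)⁻¹ := by
  rw [← h.d_integral]
  exact integral_nonneg_of_ae (h.d_nonneg _)

lemma inv_sqrt_int (h : Good μ) : Integrable (fun p : ℝ × ℝ => (√p.1)⁻¹) μ := by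
  have := h.prob
  apply Integrable.mono' (integrable_const (1 : ℝ)) measurable_fst.sqrt.inv.aestronglyMeasurable
  filter_upwards [h.one_le] with p hp
  show ‖(√p.1)⁻¹‖ ≤ 1
  rw [Real.norm_eq_abs, abs_of_nonneg (by positivity)]
  apply inv_le_one_of_one_le₀
  rw [Real.one_le_sqrt]; exact hp

/-- Jensen for `1/√` -/
lemma inv_sqrt_ge (h : Good μ) : (√(mT μ))⁻¹ ≤ ∫ p, (√p.1)⁻¹ ∂μ := by
  have := h.prob
  have hT := h.one_le_T
  set T := mT μ with hTdef
  set w := √T with hw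
  have hw0 : 0 < w := by positivity
  have hwT : w ^ 2 = T := Real.sq_sqrt (by positivity)
  have h1 : ∀ᵐ p ∂μ, w⁻¹ - (p.1 - T) / (2 * w ^ 3) ≤ (√p.1)⁻¹ := by
    filter_upwards [h.one_le] with p hp
    have hs0 : 0 < √p.1 := by positivity
    have hsp : √p.1 ^ 2 = p.1 := Real.sq_sqrt (by positivity)
    generalize √p.1 = s at *
    rw [← hsp, ← hwT]
    have h2 : 0 ≤ (s - w) ^ 2 * (s + 2 * w) / (2 * w ^ 3 * s) := by positivity
    have h3 : s⁻¹ - (w⁻¹ - (s ^ 2 - w ^ 2) / (2 * w ^ 3))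
        = (s - w) ^ 2 * (s + 2 * w) / (2 * w ^ 3 * s) := by
      field_simp
      ring
    linarith
  have h3 : ∀ p : ℝ × ℝ, w⁻¹ - (p.1 - T) / (2 * w ^ 3)
      = (-(1 / (2 * w ^ 3))) * p.1 + 0 * p.1 + (w⁻¹ + T / (2 * w ^ 3)) := by
    intro p; ring
  have h2 : ∫ p, (w⁻¹ - (p.1 - T) / (2 * w ^ 3)) ∂μ = w⁻¹ := by
    simp_rw [h3]
    rw [integral_lin h.int1 h.int1]
    have : ∫ p, p.1 ∂μ = T := rfl
    rw [this]
    ring
  rw [← h2]
  refine integral_mono_ae ?_ h.inv_sqrt_int h1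
  simp_rw [h3]
  exact integrable_lin h.int1 h.int1 _ _ _

/-- the refined Cauchy-Schwarz bound of the weighted mean -/
lemma X_bound (h : Good μ) {J : Set (ℝ × ℝ)} (hJ : MeasurableSet J) :
    |∫ p, p.2 / p.1 ∂μ| ≤ (mT μ)⁻¹ * |mM μ|
      + √((∫ p in J, p.1 * (p.1⁻¹ - (mT μ)⁻¹) ^ 2 ∂μ) * (∫ p in J, p.2 ^ 2 / p.1 ∂μ))
      + √((∫ p in Jᶜ, p.1 * (p.1⁻¹ - (mT μ)⁻¹) ^ 2 ∂μ) * (∫ p in Jᶜ, p.2 ^ 2 / p.1 ∂μ)) := by
  have := h.prob
  have hT := h.one_le_T
  set c := (mT μ)⁻¹ with hc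
  have hc0 : 0 ≤ c := by positivity
  have hcint : Integrable (fun p : ℝ × ℝ => p.2 / p.1 - c * p.2) μ :=
    h.X_int.sub (h.x_int.const_mul c)
  have e1 : ∫ p, p.2 / p.1 ∂μ = c * mM μ + ∫ p, (p.2 / p.1 - c * p.2) ∂μ := by
    rw [integral_sub h.X_int (h.x_int.const_mul c), integral_const_mul]
    unfold mM; ring
  have e2 : ∫ p, (p.2 / p.1 - c * p.2) ∂μ = ∫ p in J, (p.2 / p.1 - c * p.2) ∂μ
      + ∫ p in Jᶜ, (p.2 / p.1 - c * p.2) ∂μ := (integral_add_compl hJ hcint).symm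
  have pw : ∀ᵐ p ∂μ, (p.2 / p.1 - c * p.2) ^ 2
      ≤ (p.1 * (p.1⁻¹ - c) ^ 2) * (p.2 ^ 2 / p.1) := by
    filter_upwards [h.one_le] with p hp
    have : p.1 ≠ 0 := by positivity
    apply le_of_eq
    field_simp
  have hAn : ∀ᵐ p ∂μ, 0 ≤ p.2 ^ 2 / p.1 := by
    filter_upwards [h.one_le] with p hp
    positivity
  have b1 := cs_abs (μ := μ.restrict J) (h.d_int c).integrableOn h.A_int.integrableOn
    hcint.integrableOn (ae_restrict_of_ae (h.d_nonneg c)) (ae_restrict_of_ae hAn)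
    (ae_restrict_of_ae pw)
  have b2 := cs_abs (μ := μ.restrict Jᶜ) (h.d_int c).integrableOn h.A_int.integrableOn
    hcint.integrableOn (ae_restrict_of_ae (h.d_nonneg c)) (ae_restrict_of_ae hAn)
    (ae_restrict_of_ae pw)
  rw [e1, e2]
  have t1 := abs_add_le (c * mM μ) (∫ p in J, (p.2 / p.1 - c * p.2) ∂μ
      + ∫ p in Jᶜ, (p.2 / p.1 - c * p.2) ∂μ)
  have t2 := abs_add_le (∫ p in J, (p.2 / p.1 - c * p.2) ∂μ)
    (∫ p in Jᶜ, (p.2 / p.1 - c * p.2) ∂μ)
  have t3 : |c * mM μ| = c * |mM μ| := by rw [abs_mul, abs_of_nonneg hc0]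
  linarith

/-- on the set where `x ^ 2 ≥ R ^ 2 τ` the defect is small -/
lemma dJ_le (h : Good μ) {R : ℝ} (hR : 0 < R) :
    ∫ p in {p : ℝ × ℝ | R ^ 2 * p.1 ≤ p.2 ^ 2}, p.1 * (p.1⁻¹ - (mT μ)⁻¹) ^ 2 ∂μ
      ≤ mV μ / R ^ 2 := by
  have := h.prob
  have hT := h.one_le_T
  set c := (mT μ)⁻¹ with hc
  have hc0 : 0 ≤ c := by positivity
  have hc1 : c ≤ 1 := inv_le_one_of_one_le₀ hT
  have hJ : MeasurableSet {p : ℝ × ℝ | R ^ 2 * p.1 ≤ p.2 ^ 2} :=
    measurableSet_le (measurable_fst.const_mul _) (measurable_snd.pow_const 2)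
  rw [← integral_indicator hJ]
  unfold mV
  rw [← integral_div]
  apply integral_mono_ae ((h.d_int c).indicator hJ) (h.int2.div_const _)
  filter_upwards [h.one_le] with p hp
  by_cases hpJ : p ∈ {p : ℝ × ℝ | R ^ 2 * p.1 ≤ p.2 ^ 2}
  · rw [Set.indicator_of_mem hpJ]
    have hpJ' : R ^ 2 * p.1 ≤ p.2 ^ 2 := hpJ
    rw [le_div_iff₀ (by positivity)]
    have h1 : (p.1⁻¹ - c) ^ 2 ≤ 1 := by
      rw [sq_le_one_iff_abs_le_one, abs_le]
      have : p.1⁻¹ ≤ 1 := inv_le_one_of_one_le₀ hp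
      have : 0 ≤ p.1⁻¹ := by positivity
      constructor <;> linarith
    calc p.1 * (p.1⁻¹ - c) ^ 2 * R ^ 2 = (R ^ 2 * p.1) * (p.1⁻¹ - c) ^ 2 := by ring
      _ ≤ (R ^ 2 * p.1) * 1 := by gcongr
      _ ≤ p.2 ^ 2 := by linarith
  · rw [Set.indicator_of_notMem hpJ]
    positivity

/-- average of the truncated square over the other weight -/
lemma qf_avg (h : Good μ) {R z : ℝ} (hR : 0 < R) (hz : 0 ≤ z) :
    ∫ p, qf R (z / √p.1) ∂μ ≤ qf R (z / √(mT μ))
      + (if R ≤ z then z ^ 2 * (mU μ - (mT μ)⁻¹) else 0) := by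
  have := h.prob
  have hT := h.one_le_T
  have hmeas : Measurable (fun p : ℝ × ℝ => qf R (z / √p.1)) :=
    (measurable_qf R).comp (measurable_const.div measurable_fst.sqrt)
  have hle : ∀ᵐ p ∂μ, z / √p.1 ≤ z := by
    filter_upwards [h.one_le] with p hp
    apply div_le_self hz
    rw [Real.one_le_sqrt]; exact hp
  have hint : Integrable (fun p : ℝ × ℝ => qf R (z / √p.1)) μ := by
    apply Integrable.mono' (integrable_const (z ^ 2)) hmeas.aestronglyMeasurable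
    filter_upwards [hle] with p hp
    rw [Real.norm_eq_abs, abs_of_nonneg (qf_nonneg _ _)]
    refine (qf_le_sq hR.le).trans ?_
    have : 0 ≤ z / √p.1 := by positivity
    gcongr
  split_ifs with hc
  · set w := √(mT μ) with hw
    have hw0 : 0 < w := by positivity
    have hwT : w ^ 2 = mT μ := Real.sq_sqrt (by positivity)
    set q := min (z / w) R with hq
    have hq0 : 0 ≤ q := le_min (by positivity) hR.le
    have h1 : ∀ᵐ p ∂μ, qf R (z / √p.1)
        ≤ z ^ 2 * p.1⁻¹ + (-(2 * q * z)) * (√p.1)⁻¹ + q ^ 2 := by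
      filter_upwards [h.one_le] with p hp
      have h2 := huber_ge (R := R) (z := z / √p.1) (p := q) (by positivity) (min_le_right _ _)
      have h3 : (z / √p.1) ^ 2 = z ^ 2 * p.1⁻¹ := by
        rw [div_pow, Real.sq_sqrt (by positivity)]; rfl
      have h4 : 2 * q * (z / √p.1) = 2 * q * z * (√p.1)⁻¹ := by
        rw [div_eq_mul_inv]; ring
      linarith
    have h2 : ∫ p, qf R (z / √p.1) ∂μ
        ≤ ∫ p, (z ^ 2 * p.1⁻¹ + (-(2 * q * z)) * (√p.1)⁻¹ + q ^ 2) ∂μ :=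
      integral_mono_ae hint (integrable_lin h.inv_int h.inv_sqrt_int _ _ _) h1
    rw [integral_lin h.inv_int h.inv_sqrt_int] at h2
    have h4 := h.inv_sqrt_ge
    have h5 : 2 * q * z * w⁻¹ ≤ 2 * q * z * ∫ p, (√p.1)⁻¹ ∂μ := by gcongr
    have h6 := huber_eq (R := R) (z := z / w) (by positivity)
    have h7 : (z / w) ^ 2 = z ^ 2 * (mT μ)⁻¹ := by
      rw [div_pow, hwT]; rfl
    have h8 : 2 * q * (z / w) = 2 * q * z * w⁻¹ := by rw [div_eq_mul_inv]; ring
    have h9 : ∫ p, p.1⁻¹ ∂μ = mU μ := rfl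
    rw [h9] at h2
    rw [← hq] at h6
    linarith
  · push Not at hc
    have h1 : ∫ p, qf R (z / √p.1) ∂μ = 0 := by
      apply integral_eq_zero_of_ae
      filter_upwards [hle] with p hp
      apply qf_zero_of_le
      rw [abs_of_nonneg (by positivity)]
      linarith
    rw [h1]
    have := qf_nonneg R (z / √(mT μ))
    linarith

end Good

end H61CLT
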