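import Pool.Agent.H61.CLT.Core1

/-!
# The core inequality for two independent admissible laws
-/

set_option autoImplicit false
open MeasureTheory

namespace H61CLT

/-! ## real algebra for one side -/

/-- replace the mean weight by the updated weight -/
lemma side {β lam A T : ℝ} (hl : 0 < lam) (hT : 1 ≤ T) :
    A / upd β A T + G β lam (upd β A T) + β * (upd β A T - T)
      + (if A * T⁻¹ ^ 2 ≤ 8 * β then 0 else 1 / 4 * (A * T⁻¹)) ≤ A * T⁻¹ + G β lam T := by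
  unfold upd
  split_ifs with hc
  · rw [div_eq_mul_inv]; linarith
  · have hT0 : 0 < T := by linarith
    have hk : 0 < T⁻¹ := by positivity
    have h1 := algG (β := β) (lam := lam) hl hk hc
    rw [inv_inv] at h1
    have h2 : β * T ≤ 1 / 8 * (A * T⁻¹) := by
      push Not at hc
      have h3 : 8 * β * T ≤ A * T⁻¹ ^ 2 * T := by gcongr
      have h4 : A * T⁻¹ ^ 2 * T = A * T⁻¹ := by field_simp
      linarith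
    have h5 : A / (2 * T) = A * (T⁻¹ / 2) := by field_simp
    rw [h5]
    nlinarith

/-- the same, leaving room for one sixteenth -/
lemma sideJ {β lam A T : ℝ} (hl : 0 < lam) (hT : 1 ≤ T) :
    A / upd β A T + G β lam (upd β A T)
      + (if A * T⁻¹ ^ 2 ≤ 8 * β then 0 else 1 / 4 * (A * T⁻¹))
      + (if A * T⁻¹ ^ 2 ≤ 8 * β then 0 else 1 / 8 * (A * T⁻¹)) ≤ A * T⁻¹ + G β lam T := by
  unfold upd
  split_ifs with hc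
  · rw [div_eq_mul_inv]; linarith
  · have hT0 : 0 < T := by linarith
    have hk : 0 < T⁻¹ := by positivity
    have h1 := algG (β := β) (lam := lam) hl hk hc
    rw [inv_inv] at h1
    have h5 : A / (2 * T) = A * (T⁻¹ / 2) := by field_simp
    rw [h5]
    nlinarith

lemma sideSmall {β A T V : ℝ} (hA : 0 ≤ A) (hT : 1 ≤ T) (hAV : A ≤ V)
    (hc : A * T⁻¹ ^ 2 ≤ 8 * β) : A * T⁻¹ ≤ √(8 * β * V) := by
  apply Real.le_sqrt_of_sq_le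
  have hT0 : 0 < T := by linarith
  have h0 : 0 ≤ A * T⁻¹ ^ 2 := by positivity
  calc (A * T⁻¹) ^ 2 = (A * T⁻¹ ^ 2) * A := by ring
    _ ≤ (8 * β) * A := by gcongr
    _ ≤ 8 * β * V := by
      have : 0 ≤ 8 * β := h0.trans hc
      gcongr

/-- integral of the penalty -/
lemma G_integral {μ : Measure (ℝ × ℝ)} (h : Good μ) (β lam : ℝ) :
    ∫ p, G β lam p.1 ∂μ = G β lam (mT μ) + lam * (mU μ - (mT μ)⁻¹) := by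
  have := h.prob
  have e : ∀ p : ℝ × ℝ, G β lam p.1 = β * p.1 + lam * p.1⁻¹ + (-(β + lam)) := by
    intro p; unfold G; ring
  simp_rw [e]
  rw [integral_lin h.int1 h.inv_int]
  show β * mT μ + lam * mU μ + _ = _
  unfold G
  ring

/-- expansion of the double integral -/
lemma prod_expand (μ1 μ2 : Measure (ℝ × ℝ)) (h1 : Good μ1) (h2 : Good μ2) :
    ∫ z, (z.1.2 + z.2.2) ^ 2 / (z.1.1 * z.2.1) ∂(μ1.prod μ2)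
      = mA μ1 * mU μ2 + 2 * ((∫ p, p.2 / p.1 ∂μ1) * (∫ p, p.2 / p.1 ∂μ2)) + mU μ1 * mA μ2 := by
  have := h1.prob
  have := h2.prob
  have e : ∀ z : (ℝ × ℝ) × (ℝ × ℝ), (z.1.2 + z.2.2) ^ 2 / (z.1.1 * z.2.1)
      = (z.1.2 ^ 2 / z.1.1) * (z.2.1⁻¹) + 2 * ((z.1.2 / z.1.1) * (z.2.2 / z.2.1))
        + z.1.1⁻¹ * (z.2.2 ^ 2 / z.2.1) := by
    intro z
    simp only [div_eq_mul_inv, mul_inv]
    ring
  simp_rw [e]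
  have i1 : Integrable (fun z : (ℝ × ℝ) × (ℝ × ℝ) => (z.1.2 ^ 2 / z.1.1) * (z.2.1⁻¹))
      (μ1.prod μ2) := h1.A_int.mul_prod h2.inv_int
  have i2 : Integrable (fun z : (ℝ × ℝ) × (ℝ × ℝ) => (z.1.2 / z.1.1) * (z.2.2 / z.2.1))
      (μ1.prod μ2) := h1.X_int.mul_prod h2.X_int
  have i3 : Integrable (fun z : (ℝ × ℝ) × (ℝ × ℝ) => z.1.1⁻¹ * (z.2.2 ^ 2 / z.2.1))
      (μ1.prod μ2) := h1.inv_int.mul_prod h2.A_int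
  have i2' := i2.const_mul 2
  have i12 : Integrable (fun z : (ℝ × ℝ) × (ℝ × ℝ) => (z.1.2 ^ 2 / z.1.1) * (z.2.1⁻¹)
      + 2 * ((z.1.2 / z.1.1) * (z.2.2 / z.2.1))) (μ1.prod μ2) := i1.add i2'
  rw [integral_add i12 i3, integral_add i1 i2', integral_const_mul,
    integral_prod_mul (fun p : ℝ × ℝ => p.2 ^ 2 / p.1) (fun p : ℝ × ℝ => p.1⁻¹),
    integral_prod_mul (fun p : ℝ × ℝ => p.2 / p.1) (fun p : ℝ × ℝ => p.2 / p.1),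
    integral_prod_mul (fun p : ℝ × ℝ => p.1⁻¹) (fun p : ℝ × ℝ => p.2 ^ 2 / p.1)]
  rfl

lemma prod_int (μ1 μ2 : Measure (ℝ × ℝ)) (h1 : Good μ1) (h2 : Good μ2) :
    Integrable (fun z : (ℝ × ℝ) × (ℝ × ℝ) => (z.1.2 + z.2.2) ^ 2 / (z.1.1 * z.2.1))
      (μ1.prod μ2) := by
  have := h1.prob
  have := h2.prob
  have e : ∀ z : (ℝ × ℝ) × (ℝ × ℝ), (z.1.2 + z.2.2) ^ 2 / (z.1.1 * z.2.1)
      = (z.1.2 ^ 2 / z.1.1) * (z.2.1⁻¹) + 2 * ((z.1.2 / z.1.1) * (z.2.2 / z.2.1))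
        + z.1.1⁻¹ * (z.2.2 ^ 2 / z.2.1) := by
    intro z
    simp only [div_eq_mul_inv, mul_inv]
    ring
  simp_rw [e]
  exact ((h1.A_int.mul_prod h2.inv_int).add ((h1.X_int.mul_prod h2.X_int).const_mul 2)).add
    (h1.inv_int.mul_prod h2.A_int)

/-- the basic bound of the cross term, with the refined splitting -/
lemma cross_bound {μ1 μ2 : Measure (ℝ × ℝ)} (h1 : Good μ1) (h2 : Good μ2)
    {J1 J2 : Set (ℝ × ℝ)} (hJ1 : MeasurableSet J1) (hJ2 : MeasurableSet J2) :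
    -(2 * ((∫ p, p.2 / p.1 ∂μ1) * (∫ p, p.2 / p.1 ∂μ2)))
      ≤ mA μ1 * (mU μ2 - (mT μ2)⁻¹) + mA μ2 * (mU μ1 - (mT μ1)⁻¹)
      - 1 / 2 * (∫ p in J1, p.2 ^ 2 / p.1 ∂μ1) * (mU μ2 - (mT μ2)⁻¹)
      - 1 / 2 * (∫ p in J2, p.2 ^ 2 / p.1 ∂μ2) * (mU μ1 - (mT μ1)⁻¹)
      + mA μ1 * (∫ p in J2, p.1 * (p.1⁻¹ - (mT μ2)⁻¹) ^ 2 ∂μ2)
      + 3 / 2 * mA μ2 * (∫ p in J1, p.1 * (p.1⁻¹ - (mT μ1)⁻¹) ^ 2 ∂μ1)
      + 2 * (mT μ1)⁻¹ * |mM μ1| * √((mU μ2 - (mT μ2)⁻¹) * mA μ2)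
      + 2 * (mT μ2)⁻¹ * |mM μ2| * √((mU μ1 - (mT μ1)⁻¹) * mA μ1)
      + 2 * (|mM μ1| * |mM μ2|) := by
  have p1 := h1.prob
  have p2 := h2.prob
  have hT1 := h1.one_le_T
  have hT2 := h2.one_le_T
  have b1 := h1.X_bound hJ1
  have b2 := h2.X_bound hJ2
  have A1n : ∀ᵐ p ∂μ1, 0 ≤ p.2 ^ 2 / p.1 := by
    filter_upwards [h1.one_le] with p hp; positivity
  have A2n : ∀ᵐ p ∂μ2, 0 ≤ p.2 ^ 2 / p.1 := by
    filter_upwards [h2.one_le] with p hp; positivity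
  have sA1 : ∫ p in J1, p.2 ^ 2 / p.1 ∂μ1 + ∫ p in J1ᶜ, p.2 ^ 2 / p.1 ∂μ1 = mA μ1 :=
    integral_add_compl hJ1 h1.A_int
  have sA2 : ∫ p in J2, p.2 ^ 2 / p.1 ∂μ2 + ∫ p in J2ᶜ, p.2 ^ 2 / p.1 ∂μ2 = mA μ2 :=
    integral_add_compl hJ2 h2.A_int
  have sD1 : ∫ p in J1, p.1 * (p.1⁻¹ - (mT μ1)⁻¹) ^ 2 ∂μ1
      + ∫ p in J1ᶜ, p.1 * (p.1⁻¹ - (mT μ1)⁻¹) ^ 2 ∂μ1 = mU μ1 - (mT μ1)⁻¹ := by
    rw [integral_add_compl hJ1 (h1.d_int _), h1.d_integral]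
  have sD2 : ∫ p in J2, p.1 * (p.1⁻¹ - (mT μ2)⁻¹) ^ 2 ∂μ2
      + ∫ p in J2ᶜ, p.1 * (p.1⁻¹ - (mT μ2)⁻¹) ^ 2 ∂μ2 = mU μ2 - (mT μ2)⁻¹ := by
    rw [integral_add_compl hJ2 (h2.d_int _), h2.d_integral]
  have key := algA _ _ _ _ _ _ _ _ (mT μ1)⁻¹ (mT μ2)⁻¹ (mM μ1) (mM μ2) _ _
    (integral_nonneg_of_ae (ae_restrict_of_ae A1n) : 0 ≤ ∫ p in J1, p.2 ^ 2 / p.1 ∂μ1)
    (integral_nonneg_of_ae (ae_restrict_of_ae A1n) : 0 ≤ ∫ p in J1ᶜ, p.2 ^ 2 / p.1 ∂μ1)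
    (integral_nonneg_of_ae (ae_restrict_of_ae A2n) : 0 ≤ ∫ p in J2, p.2 ^ 2 / p.1 ∂μ2)
    (integral_nonneg_of_ae (ae_restrict_of_ae A2n) : 0 ≤ ∫ p in J2ᶜ, p.2 ^ 2 / p.1 ∂μ2)
    (integral_nonneg_of_ae (ae_restrict_of_ae (h1.d_nonneg (mT μ1)⁻¹)) :
      0 ≤ ∫ p in J1, p.1 * (p.1⁻¹ - (mT μ1)⁻¹) ^ 2 ∂μ1)
    (integral_nonneg_of_ae (ae_restrict_of_ae (h1.d_nonneg (mT μ1)⁻¹)) :
      0 ≤ ∫ p in J1ᶜ, p.1 * (p.1⁻¹ - (mT μ1)⁻¹) ^ 2 ∂μ1)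
    (integral_nonneg_of_ae (ae_restrict_of_ae (h2.d_nonneg (mT μ2)⁻¹)) :
      0 ≤ ∫ p in J2, p.1 * (p.1⁻¹ - (mT μ2)⁻¹) ^ 2 ∂μ2)
    (integral_nonneg_of_ae (ae_restrict_of_ae (h2.d_nonneg (mT μ2)⁻¹)) :
      0 ≤ ∫ p in J2ᶜ, p.1 * (p.1⁻¹ - (mT μ2)⁻¹) ^ 2 ∂μ2)
    (by positivity) (inv_le_one_of_one_le₀ hT1) (by positivity) (inv_le_one_of_one_le₀ hT2)
    b1 b2
  rw [sA1, sA2, sD1, sD2] at key
  have hneg := neg_abs_le ((∫ p, p.2 / p.1 ∂μ1) * (∫ p, p.2 / p.1 ∂μ2))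
  rw [abs_mul] at hneg
  linarith

/-- real algebra: the linear errors, one side -/
lemma algT' {β lam δ A T m : ℝ} (hl : 0 < lam) (hlb : lam ≤ β / 2)
    (hδ : 0 ≤ δ) (hδ1 : δ ≤ 1) (hA : 0 ≤ A) (hT : 1 ≤ T) :
    2 * T⁻¹ * |m| * √(δ * A) ≤ lam * δ + 8 * β / lam * m ^ 2
      + (if A * T⁻¹ ^ 2 ≤ 8 * β then 0 else 1 / 4 * (A * T⁻¹)) :=
  algT hl hlb hδ hδ1 hA (by positivity) (inv_le_one_of_one_le₀ hT)

lemma two_abs_mul_le (a b : ℝ) : 2 * (|a| * |b|) ≤ a ^ 2 + b ^ 2 := by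
  rw [← sq_abs a, ← sq_abs b]
  exact amgm1 _ _

theorem coreF {μ1 μ2 : Measure (ℝ × ℝ)} (h1 : Good μ1) (h2 : Good μ2) {β lam : ℝ}
    (hl : 0 < lam) (hlb : lam ≤ β / 2) :
    mA μ1 / upd β (mA μ1) (mT μ2) + G β lam (upd β (mA μ1) (mT μ2))
      + mA μ2 / upd β (mA μ2) (mT μ1) + G β lam (upd β (mA μ2) (mT μ1))
      + β * ((upd β (mA μ1) (mT μ2) - mT μ2) + (upd β (mA μ2) (mT μ1) - mT μ1))
      - 9 * β / lam * (mM μ1 ^ 2 + mM μ2 ^ 2)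
    ≤ ∫ z, (z.1.2 + z.2.2) ^ 2 / (z.1.1 * z.2.1) ∂(μ1.prod μ2)
      + ∫ p, G β lam p.1 ∂μ1 + ∫ p, G β lam p.1 ∂μ2 := by
  have p1 := h1.prob
  have p2 := h2.prob
  have hT1 := h1.one_le_T
  have hT2 := h2.one_le_T
  have hA1 := h1.A_nonneg
  have hA2 := h2.A_nonneg
  have hd1 := h1.delta_nonneg
  have hd2 := h2.delta_nonneg
  have hU1 := h1.U_le_one
  have hU2 := h2.U_le_one
  have c := cross_bound h1 h2 (J1 := ∅) (J2 := ∅) MeasurableSet.empty MeasurableSet.empty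
  simp only [Measure.restrict_empty, integral_zero_measure, mul_zero, zero_mul, sub_zero,
    add_zero] at c
  rw [prod_expand μ1 μ2 h1 h2, G_integral h1, G_integral h2]
  generalize (∫ p, p.2 / p.1 ∂μ1) * (∫ p, p.2 / p.1 ∂μ2) = XY at *
  have hi1 : 0 < (mT μ1)⁻¹ := by positivity
  have hi2 : 0 < (mT μ2)⁻¹ := by positivity
  have a1 := algT' (m := mM μ2) hl hlb hd1 (by linarith) hA1 hT2
  have a2 := algT' (m := mM μ1) hl hlb hd2 (by linarith) hA2 hT1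
  have s1 := side (β := β) (A := mA μ1) hl hT2
  have s2 := side (β := β) (A := mA μ2) hl hT1
  have m12 := two_abs_mul_le (mM μ1) (mM μ2)
  have hr : 8 * β / lam * (mM μ1 ^ 2 + mM μ2 ^ 2) + (mM μ1 ^ 2 + mM μ2 ^ 2)
      ≤ 9 * β / lam * (mM μ1 ^ 2 + mM μ2 ^ 2) := by
    have h3 : (1 : ℝ) ≤ β / lam := by rw [le_div_iff₀ hl]; linarith
    have h4 : 0 ≤ mM μ1 ^ 2 + mM μ2 ^ 2 := by positivity
    have h5 : 1 * (mM μ1 ^ 2 + mM μ2 ^ 2) ≤ β / lam * (mM μ1 ^ 2 + mM μ2 ^ 2) := by gcongr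
    have h6 : 9 * β / lam * (mM μ1 ^ 2 + mM μ2 ^ 2)
        = 8 * β / lam * (mM μ1 ^ 2 + mM μ2 ^ 2) + β / lam * (mM μ1 ^ 2 + mM μ2 ^ 2) := by ring
    linarith
  have e1 : mA μ1 * mU μ2 = mA μ1 * (mU μ2 - (mT μ2)⁻¹) + mA μ1 * (mT μ2)⁻¹ := by ring
  have e2 : mU μ1 * mA μ2 = mA μ2 * (mU μ1 - (mT μ1)⁻¹) + mA μ2 * (mT μ1)⁻¹ := by ring
  rw [e1, e2]
  linarith

end H61CLT
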