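import Pool.Agent.H61.CLT.Core2

/-!
# The core inequality with the truncated square
-/

set_option autoImplicit false
open MeasureTheory

namespace H61CLT

lemma qf_div_le {R s t : ℝ} (hR : 0 ≤ R) (ht : 0 < t) : qf R (s / √t) ≤ s ^ 2 / t := by
  have h1 : (s / √t) ^ 2 = s ^ 2 / t := by rw [div_pow, Real.sq_sqrt ht.le]
  rw [← h1]
  exact qf_le_sq hR

lemma measurable_qf_fun (R : ℝ) {α : Type*} [MeasurableSpace α] {s t : α → ℝ}
    (hs : Measurable s) (ht : Measurable t) : Measurable (fun x => qf R (s x / √(t x))) :=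
  (measurable_qf R).comp (hs.div ht.sqrt)

/-- integrability of the truncated square with a fixed second weight -/
lemma q_int {μ : Measure (ℝ × ℝ)} (h : Good μ) {R w : ℝ} (hR : 0 ≤ R) (hw : 1 ≤ w) :
    Integrable (fun p : ℝ × ℝ => qf R (p.2 / √(p.1 * w))) μ := by
  apply Integrable.mono' h.int2
    (measurable_qf_fun R measurable_snd (measurable_fst.mul_const w)).aestronglyMeasurable
  filter_upwards [h.one_le] with p hp
  rw [Real.norm_eq_abs, abs_of_nonneg (qf_nonneg _ _)]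
  have hw0 : 0 < p.1 * w := by positivity
  refine (qf_div_le hR hw0).trans (div_le_self (sq_nonneg _) ?_)
  nlinarith

lemma Psi_integral {μ : Measure (ℝ × ℝ)} (h : Good μ) {ϑ R w : ℝ} (hR : 0 ≤ R) (hw : 1 ≤ w) :
    ∫ p, Psi ϑ R p.2 (p.1 * w) ∂μ = mA μ / w - ϑ * ∫ p, qf R (p.2 / √(p.1 * w)) ∂μ := by
  unfold Psi
  have e : ∀ p : ℝ × ℝ, p.2 ^ 2 / (p.1 * w) = p.2 ^ 2 / p.1 / w := fun p => by rw [div_div]
  simp_rw [e]
  rw [integral_sub (h.A_int.div_const w) ((q_int h hR hw).const_mul ϑ), integral_div,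
    integral_const_mul]
  rfl

lemma q_nonneg {μ : Measure (ℝ × ℝ)} (R w : ℝ) :
    0 ≤ ∫ p : ℝ × ℝ, qf R (p.2 / √(p.1 * w)) ∂μ :=
  integral_nonneg (fun p => qf_nonneg _ _)

lemma q_le {μ : Measure (ℝ × ℝ)} (h : Good μ) {R w : ℝ} (hR : 0 ≤ R) (hw : 1 ≤ w) :
    ∫ p, qf R (p.2 / √(p.1 * w)) ∂μ ≤ mA μ * w⁻¹ := by
  rw [← div_eq_mul_inv]
  unfold mA
  rw [← integral_div]
  apply integral_mono_ae (q_int h hR hw) (h.A_int.div_const w)
  filter_upwards [h.one_le] with p hp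
  have hw0 : 0 < p.1 * w := by positivity
  refine (qf_div_le hR hw0).trans ?_
  rw [div_div]

lemma measurableSet_J (R : ℝ) : MeasurableSet {p : ℝ × ℝ | R ^ 2 * p.1 ≤ p.2 ^ 2} :=
  measurableSet_le (measurable_fst.const_mul _) (measurable_snd.pow_const 2)

lemma qf_prod_int {μ1 μ2 : Measure (ℝ × ℝ)} (h1 : Good μ1) (h2 : Good μ2) {R : ℝ} (hR : 0 ≤ R) :
    Integrable (fun z : (ℝ × ℝ) × (ℝ × ℝ) => qf R (z.1.2 / √(z.1.1 * z.2.1)))
      (μ1.prod μ2) := by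
  have := h1.prob
  have := h2.prob
  have i1 : Integrable (fun z : (ℝ × ℝ) × (ℝ × ℝ) => z.1.2 ^ 2) (μ1.prod μ2) :=
    h1.int2.comp_fst μ2
  apply Integrable.mono' i1
  · exact (measurable_qf_fun R (measurable_snd.comp measurable_fst)
      ((measurable_fst.comp measurable_fst).mul
        (measurable_fst.comp measurable_snd))).aestronglyMeasurable
  · filter_upwards [Measure.quasiMeasurePreserving_fst.ae h1.one_le,
      Measure.quasiMeasurePreserving_snd.ae h2.one_le] with z hz1 hz2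
    rw [Real.norm_eq_abs, abs_of_nonneg (qf_nonneg _ _)]
    have hw0 : 0 < z.1.1 * z.2.1 := by positivity
    refine (qf_div_le hR hw0).trans (div_le_self (sq_nonneg _) ?_)
    nlinarith

lemma qf_prod_le {μ1 μ2 : Measure (ℝ × ℝ)} (h1 : Good μ1) (h2 : Good μ2) {R : ℝ} (hR : 0 < R) :
    ∫ z, qf R (z.1.2 / √(z.1.1 * z.2.1)) ∂(μ1.prod μ2)
      ≤ ∫ p, qf R (p.2 / √(p.1 * mT μ2)) ∂μ1
        + (∫ p in {p : ℝ × ℝ | R ^ 2 * p.1 ≤ p.2 ^ 2}, p.2 ^ 2 / p.1 ∂μ1)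
          * (mU μ2 - (mT μ2)⁻¹) := by
  have p1 := h1.prob
  have p2 := h2.prob
  have hT2 := h2.one_le_T
  have hi := qf_prod_int h1 h2 hR.le
  rw [integral_prod _ hi, ← integral_indicator (measurableSet_J R), ← integral_mul_const,
    ← integral_add (q_int h1 hR.le hT2) ((h1.A_int.indicator (measurableSet_J R)).mul_const _)]
  apply integral_mono_ae hi.integral_prod_left
  · exact (q_int h1 hR.le hT2).add ((h1.A_int.indicator (measurableSet_J R)).mul_const _)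
  filter_upwards [h1.one_le] with p hp
  have hp0 : 0 < p.1 := by positivity
  have hsp : 0 < √p.1 := by positivity
  have hz : 0 ≤ |p.2| / √p.1 := by positivity
  have key := h2.qf_avg hR hz
  have e1 : ∀ q : ℝ × ℝ, qf R (p.2 / √(p.1 * q.1)) = qf R (|p.2| / √p.1 / √q.1) := by
    intro q
    rw [← qf_abs R (p.2 / √(p.1 * q.1)), abs_div, abs_of_nonneg (Real.sqrt_nonneg _),
      Real.sqrt_mul hp0.le, div_div]
  have e2 : qf R (p.2 / √(p.1 * mT μ2)) = qf R (|p.2| / √p.1 / √(mT μ2)) := by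
    rw [← qf_abs R (p.2 / √(p.1 * mT μ2)), abs_div, abs_of_nonneg (Real.sqrt_nonneg _),
      Real.sqrt_mul hp0.le, div_div]
  show ∫ q, qf R (p.2 / √(p.1 * q.1)) ∂μ2 ≤ qf R (p.2 / √(p.1 * mT μ2))
    + Set.indicator _ (fun p : ℝ × ℝ => p.2 ^ 2 / p.1) p * (mU μ2 - (mT μ2)⁻¹)
  simp_rw [e1]
  rw [e2]
  refine key.trans ?_
  have hzz : (|p.2| / √p.1) ^ 2 = p.2 ^ 2 / p.1 := by
    rw [div_pow, sq_abs, Real.sq_sqrt hp0.le]
  by_cases hJ : p ∈ {p : ℝ × ℝ | R ^ 2 * p.1 ≤ p.2 ^ 2}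
  · rw [Set.indicator_of_mem hJ]
    have hJ' : R ^ 2 * p.1 ≤ p.2 ^ 2 := hJ
    have hRz : R ≤ |p.2| / √p.1 := by
      apply le_of_sq_le_sq _ hz
      rw [hzz, le_div_iff₀ hp0]; exact hJ'
    rw [if_pos hRz, hzz]
  · rw [Set.indicator_of_notMem hJ]
    have hRz : ¬ R ≤ |p.2| / √p.1 := by
      intro hcon
      apply hJ
      show R ^ 2 * p.1 ≤ p.2 ^ 2
      rw [← le_div_iff₀ hp0, ← hzz]
      gcongr
    rw [if_neg hRz]
    simp

lemma qf_prod_le' {μ1 μ2 : Measure (ℝ × ℝ)} (h1 : Good μ1) (h2 : Good μ2) {R : ℝ} (hR : 0 < R) :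
    ∫ z, qf R (z.2.2 / √(z.1.1 * z.2.1)) ∂(μ1.prod μ2)
      ≤ ∫ p, qf R (p.2 / √(p.1 * mT μ1)) ∂μ2
        + (∫ p in {p : ℝ × ℝ | R ^ 2 * p.1 ≤ p.2 ^ 2}, p.2 ^ 2 / p.1 ∂μ2)
          * (mU μ1 - (mT μ1)⁻¹) := by
  have p1 := h1.prob
  have p2 := h2.prob
  have := qf_prod_le h2 h1 hR
  rw [← integral_prod_swap] at this
  refine le_trans (le_of_eq ?_) this
  apply integral_congr_ae
  filter_upwards with z
  show _ = qf R (z.swap.1.2 / √(z.swap.1.1 * z.swap.2.1))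
  simp only [Prod.fst_swap, Prod.snd_swap]
  rw [mul_comm]

/-- lower bound of the functional by the quadratic one -/
lemma Psi_prod_ge {μ1 μ2 : Measure (ℝ × ℝ)} (h1 : Good μ1) (h2 : Good μ2) {ϑ R R' : ℝ}
    (hϑ : 0 ≤ ϑ) (hR : 0 < R) (hR' : 5 / 4 * R ≤ R') :
    ∫ z, (z.1.2 + z.2.2) ^ 2 / (z.1.1 * z.2.1) ∂(μ1.prod μ2)
      - ϑ * ((∫ p, qf R (p.2 / √(p.1 * mT μ2)) ∂μ1
        + (∫ p in {p : ℝ × ℝ | R ^ 2 * p.1 ≤ p.2 ^ 2}, p.2 ^ 2 / p.1 ∂μ1)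
          * (mU μ2 - (mT μ2)⁻¹))
        + (∫ p, qf R (p.2 / √(p.1 * mT μ1)) ∂μ2
        + (∫ p in {p : ℝ × ℝ | R ^ 2 * p.1 ≤ p.2 ^ 2}, p.2 ^ 2 / p.1 ∂μ2)
          * (mU μ1 - (mT μ1)⁻¹))
        + 64 / R ^ 2 * (mV μ1 * mV μ2))
      ≤ ∫ z, Psi ϑ R' (z.1.2 + z.2.2) (z.1.1 * z.2.1) ∂(μ1.prod μ2) := by
  have p1 := h1.prob
  have p2 := h2.prob
  have hR'0 : 0 ≤ R' := by linarith
  have i0 := prod_int μ1 μ2 h1 h2
  have i1 := qf_prod_int h1 h2 hR.le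
  have i2 : Integrable (fun z : (ℝ × ℝ) × (ℝ × ℝ) => qf R (z.2.2 / √(z.1.1 * z.2.1)))
      (μ1.prod μ2) := by
    have := (qf_prod_int h2 h1 hR.le).swap
    refine this.congr ?_
    filter_upwards with z
    show qf R (z.swap.1.2 / √(z.swap.1.1 * z.swap.2.1)) = _
    simp only [Prod.fst_swap, Prod.snd_swap]
    rw [mul_comm]
  have i3 : Integrable (fun z : (ℝ × ℝ) × (ℝ × ℝ) =>
      (z.1.2 ^ 2 / z.1.1 ^ 2) * (z.2.2 ^ 2 / z.2.1 ^ 2)) (μ1.prod μ2) :=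
    h1.A2_int.mul_prod h2.A2_int
  have hae : ∀ᵐ z ∂(μ1.prod μ2), 1 ≤ z.1.1 ∧ 1 ≤ z.2.1 := by
    filter_upwards [Measure.quasiMeasurePreserving_fst.ae h1.one_le,
      Measure.quasiMeasurePreserving_snd.ae h2.one_le] with z hz1 hz2
    exact ⟨hz1, hz2⟩
  have iq : Integrable (fun z : (ℝ × ℝ) × (ℝ × ℝ) =>
      qf R' ((z.1.2 + z.2.2) / √(z.1.1 * z.2.1))) (μ1.prod μ2) := by
    apply Integrable.mono' i0
    · exact (measurable_qf_fun R' ((measurable_snd.comp measurable_fst).add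
        (measurable_snd.comp measurable_snd)) ((measurable_fst.comp measurable_fst).mul
        (measurable_fst.comp measurable_snd))).aestronglyMeasurable
    · filter_upwards [hae] with z hz
      rw [Real.norm_eq_abs, abs_of_nonneg (qf_nonneg _ _)]
      have hw0 : 0 < z.1.1 * z.2.1 := by
        have := hz.1; have := hz.2; positivity
      exact qf_div_le hR'0 hw0
  have hle : ∫ z, qf R' ((z.1.2 + z.2.2) / √(z.1.1 * z.2.1)) ∂(μ1.prod μ2)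
      ≤ ∫ z, ((qf R (z.1.2 / √(z.1.1 * z.2.1)) + qf R (z.2.2 / √(z.1.1 * z.2.1)))
        + 64 / R ^ 2 * ((z.1.2 ^ 2 / z.1.1 ^ 2) * (z.2.2 ^ 2 / z.2.1 ^ 2))) ∂(μ1.prod μ2) := by
    apply integral_mono_ae iq ((i1.add i2).add (i3.const_mul _))
    filter_upwards [hae] with z hz
    have hz1 := hz.1
    have hz2 := hz.2
    have hw0 : 0 < z.1.1 * z.2.1 := by positivity
    have h3 := qf_add (A := z.1.2 / √(z.1.1 * z.2.1)) (C := z.2.2 / √(z.1.1 * z.2.1)) hR hR'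
    rw [← add_div] at h3
    refine h3.trans (le_of_eq ?_)
    show _ = (qf R (z.1.2 / √(z.1.1 * z.2.1)) + qf R (z.2.2 / √(z.1.1 * z.2.1)))
        + 64 / R ^ 2 * ((z.1.2 ^ 2 / z.1.1 ^ 2) * (z.2.2 ^ 2 / z.2.1 ^ 2))
    congr 2
    rw [div_pow, div_pow, Real.sq_sqrt hw0.le]
    have : z.1.1 ≠ 0 := by positivity
    have : z.2.1 ≠ 0 := by positivity
    field_simp
  have i12 : Integrable (fun z : (ℝ × ℝ) × (ℝ × ℝ) => qf R (z.1.2 / √(z.1.1 * z.2.1))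
    + qf R (z.2.2 / √(z.1.1 * z.2.1))) (μ1.prod μ2) := i1.add i2
  rw [integral_add i12 (i3.const_mul _), integral_add i1 i2, integral_const_mul,
    integral_prod_mul (fun p : ℝ × ℝ => p.2 ^ 2 / p.1 ^ 2)
      (fun p : ℝ × ℝ => p.2 ^ 2 / p.1 ^ 2)] at hle
  have b1 := qf_prod_le h1 h2 hR
  have b2 := qf_prod_le' h1 h2 hR
  have v1 : ∫ p, p.2 ^ 2 / p.1 ^ 2 ∂μ1 ≤ mV μ1 := by
    apply integral_mono_ae h1.A2_int h1.int2
    filter_upwards [h1.one_le] with p hp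
    exact div_le_self (sq_nonneg _) (one_le_pow₀ hp)
  have v2 : ∫ p, p.2 ^ 2 / p.1 ^ 2 ∂μ2 ≤ mV μ2 := by
    apply integral_mono_ae h2.A2_int h2.int2
    filter_upwards [h2.one_le] with p hp
    exact div_le_self (sq_nonneg _) (one_le_pow₀ hp)
  have v0 : 0 ≤ ∫ p, p.2 ^ 2 / p.1 ^ 2 ∂μ1 := integral_nonneg (fun p => by positivity)
  have v02 : 0 ≤ ∫ p, p.2 ^ 2 / p.1 ^ 2 ∂μ2 := integral_nonneg (fun p => by positivity)
  have v3 : (∫ p, p.2 ^ 2 / p.1 ^ 2 ∂μ1) * (∫ p, p.2 ^ 2 / p.1 ^ 2 ∂μ2) ≤ mV μ1 * mV μ2 :=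
    mul_le_mul v1 v2 v02 (v0.trans v1)
  have v4 : 64 / R ^ 2 * ((∫ p, p.2 ^ 2 / p.1 ^ 2 ∂μ1) * (∫ p, p.2 ^ 2 / p.1 ^ 2 ∂μ2))
      ≤ 64 / R ^ 2 * (mV μ1 * mV μ2) := by gcongr
  unfold Psi
  rw [integral_sub i0 (iq.const_mul ϑ), integral_const_mul]
  have h4 : ∫ z, qf R' ((z.1.2 + z.2.2) / √(z.1.1 * z.2.1)) ∂(μ1.prod μ2) ≤
      ((∫ p, qf R (p.2 / √(p.1 * mT μ2)) ∂μ1
        + (∫ p in {p : ℝ × ℝ | R ^ 2 * p.1 ≤ p.2 ^ 2}, p.2 ^ 2 / p.1 ∂μ1)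
          * (mU μ2 - (mT μ2)⁻¹))
        + (∫ p, qf R (p.2 / √(p.1 * mT μ1)) ∂μ2
        + (∫ p in {p : ℝ × ℝ | R ^ 2 * p.1 ≤ p.2 ^ 2}, p.2 ^ 2 / p.1 ∂μ2)
          * (mU μ1 - (mT μ1)⁻¹))
        + 64 / R ^ 2 * (mV μ1 * mV μ2)) := by linarith
  have h5 := mul_le_mul_of_nonneg_left h4 hϑ
  linarith

/-- crude lower bound -/
lemma Psi_prod_ge' {μ1 μ2 : Measure (ℝ × ℝ)} (h1 : Good μ1) (h2 : Good μ2) {ϑ R' : ℝ}
    (hϑ : 0 ≤ ϑ) (hR' : 0 ≤ R') :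
    (1 - ϑ) * ∫ z, (z.1.2 + z.2.2) ^ 2 / (z.1.1 * z.2.1) ∂(μ1.prod μ2)
      ≤ ∫ z, Psi ϑ R' (z.1.2 + z.2.2) (z.1.1 * z.2.1) ∂(μ1.prod μ2) := by
  have p1 := h1.prob
  have p2 := h2.prob
  have i0 := prod_int μ1 μ2 h1 h2
  have hae : ∀ᵐ z ∂(μ1.prod μ2), 1 ≤ z.1.1 ∧ 1 ≤ z.2.1 := by
    filter_upwards [Measure.quasiMeasurePreserving_fst.ae h1.one_le,
      Measure.quasiMeasurePreserving_snd.ae h2.one_le] with z hz1 hz2
    exact ⟨hz1, hz2⟩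
  have hpt : ∀ᵐ z ∂(μ1.prod μ2), qf R' ((z.1.2 + z.2.2) / √(z.1.1 * z.2.1))
      ≤ (z.1.2 + z.2.2) ^ 2 / (z.1.1 * z.2.1) := by
    filter_upwards [hae] with z hz
    have hw0 : 0 < z.1.1 * z.2.1 := by
      have := hz.1; have := hz.2; positivity
    exact qf_div_le hR' hw0
  have iq : Integrable (fun z : (ℝ × ℝ) × (ℝ × ℝ) =>
      qf R' ((z.1.2 + z.2.2) / √(z.1.1 * z.2.1))) (μ1.prod μ2) := by
    apply Integrable.mono' i0
    · exact (measurable_qf_fun R' ((measurable_snd.comp measurable_fst).add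
        (measurable_snd.comp measurable_snd)) ((measurable_fst.comp measurable_fst).mul
        (measurable_fst.comp measurable_snd))).aestronglyMeasurable
    · filter_upwards [hpt] with z hz
      rw [Real.norm_eq_abs, abs_of_nonneg (qf_nonneg _ _)]
      exact hz
  unfold Psi
  rw [integral_sub i0 (iq.const_mul ϑ), integral_const_mul]
  have h3 := integral_mono_ae iq i0 hpt
  have h4 := mul_le_mul_of_nonneg_left h3 hϑ
  linarith

end H61CLT
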