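import Pool.Agent.H61.CLT.Core3

/-!
# The core inequality with the truncated square: conclusion
-/

set_option autoImplicit false
open MeasureTheory

namespace H61CLT

/-- the side condition on the truncated part when the weight is updated -/
lemma q_side {μ : Measure (ℝ × ℝ)} (h : Good μ) {R β T : ℝ} (hR : 0 ≤ R) (hT : 1 ≤ T) :
    ∫ p, qf R (p.2 / √(p.1 * T)) ∂μ ≤ ∫ p, qf R (p.2 / √(p.1 * upd β (mA μ) T)) ∂μ
      + 2 * (if mA μ * T⁻¹ ^ 2 ≤ 8 * β then 0 else 1 / 8 * (mA μ * T⁻¹)) * 8 := by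
  unfold upd
  split_ifs with hc
  · linarith
  · have h1 := q_le h hR hT
    have h2 := q_nonneg (μ := μ) R (2 * T)
    have h3 : 0 ≤ mA μ * T⁻¹ := mul_nonneg h.A_nonneg (by positivity)
    linarith

lemma upd_ge {β A T : ℝ} (hT : 1 ≤ T) : T ≤ upd β A T := by
  unfold upd
  split_ifs <;> linarith

/-- quadratic losses in region I -/
lemma regI {V1 V2 R s t : ℝ} (hV1 : 0 ≤ V1) (hV2 : 0 ≤ V2) (hR : 0 < R) (hs : s = R * t ^ 2)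
    (h1 : V1 ≤ R * s) (h2 : V2 ≤ R * s) (ht : 0 < t) (ht1 : t ≤ 1) :
    13 / 2 * (V1 * V2) / R ^ 2 ≤ 4 * t * (V1 + V2) := by
  subst hs
  rw [div_le_iff₀ (by positivity)]
  have a1 : V1 * V2 ≤ (R * (R * t ^ 2)) * V2 := by gcongr
  have a2 : V1 * V2 ≤ V1 * (R * (R * t ^ 2)) := by gcongr
  have a3 : t ^ 2 ≤ t := by nlinarith
  have a4 : V1 * V2 ≤ 1 / 2 * (R ^ 2 * t ^ 2) * (V1 + V2) := by nlinarith
  have a5 : 1 / 2 * (R ^ 2 * t ^ 2) * (V1 + V2) ≤ 1 / 2 * (R ^ 2 * t) * (V1 + V2) := by gcongr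
  have a6 : 0 ≤ R ^ 2 * t * (V1 + V2) := by positivity
  nlinarith

lemma regII {V W R s t : ℝ} {β : ℝ} (hβ : 0 ≤ β) (hW : 0 ≤ W)
    (hs : s = R * t ^ 2) (hsβ : s = √β) (h1 : R * s < W) (hVW : V ≤ W) (ht : 0 < t) :
    √(8 * β * V) ≤ 3 * t * W := by
  apply Real.sqrt_le_iff.2
  refine ⟨by positivity, ?_⟩
  have hβ2 : β = s ^ 2 := by rw [hsβ, Real.sq_sqrt hβ]
  have hs0 : 0 ≤ s := by rw [hsβ]; positivity
  have h2 : R * s * (t ^ 2 * W) ≤ W * (t ^ 2 * W) := by gcongr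
  have h3 : R * s * (t ^ 2 * W) = s ^ 2 * W := by
    have : R * s * (t ^ 2 * W) = (R * t ^ 2) * s * W := by ring
    rw [this, ← hs]; ring
  have h4 : 8 * β * V ≤ 8 * β * W := by gcongr
  rw [hβ2] at *
  nlinarith

theorem coreJ {μ1 μ2 : Measure (ℝ × ℝ)} (h1 : Good μ1) (h2 : Good μ2) {β t R R' : ℝ}
    (hβ : 0 < β) (ht : 0 < t) (ht1 : t ≤ 1) (hRt : R * t ^ 2 = √β) (hR' : 5 / 4 * R ≤ R') :
    ∫ p, Psi (1 / 16) R p.2 (p.1 * upd β (mA μ1) (mT μ2)) ∂μ1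
      + G β (β / 2) (upd β (mA μ1) (mT μ2))
      + ∫ p, Psi (1 / 16) R p.2 (p.1 * upd β (mA μ2) (mT μ1)) ∂μ2
      + G β (β / 2) (upd β (mA μ2) (mT μ1))
      - 18 * (mM μ1 ^ 2 + mM μ2 ^ 2) - 4 * t * (mV μ1 + mV μ2)
    ≤ ∫ z, Psi (1 / 16) R' (z.1.2 + z.2.2) (z.1.1 * z.2.1) ∂(μ1.prod μ2)
      + ∫ p, G β (β / 2) p.1 ∂μ1 + ∫ p, G β (β / 2) p.1 ∂μ2 := by
  have p1 := h1.prob
  have p2 := h2.prob
  have hT1 := h1.one_le_T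
  have hT2 := h2.one_le_T
  have hA1 := h1.A_nonneg
  have hA2 := h2.A_nonneg
  have hd1 := h1.delta_nonneg
  have hd2 := h2.delta_nonneg
  have hU1 := h1.U_le_one
  have hU2 := h2.U_le_one
  have hV1 := h1.V_nonneg
  have hV2 := h2.V_nonneg
  have hAV1 := h1.A_le_V
  have hAV2 := h2.A_le_V
  have hsβ : 0 < √β := by positivity
  have hR : 0 < R := by
    by_contra hcon
    push Not at hcon
    have : R * t ^ 2 ≤ 0 := mul_nonpos_of_nonpos_of_nonneg hcon (by positivity)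
    linarith
  have hR'0 : 0 ≤ R' := by linarith
  have hl : 0 < β / 2 := by positivity
  have hi1 : 0 < (mT μ1)⁻¹ := by positivity
  have hi2 : 0 < (mT μ2)⁻¹ := by positivity
  have hw1 : 1 ≤ upd β (mA μ1) (mT μ2) := hT2.trans (upd_ge hT2)
  have hw2 : 1 ≤ upd β (mA μ2) (mT μ1) := hT1.trans (upd_ge hT1)
  have a1 := algT' (m := mM μ2) hl le_rfl hd1 (by linarith) hA1 hT2
  have a2 := algT' (m := mM μ1) hl le_rfl hd2 (by linarith) hA2 hT1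
  have e16 : 8 * β / (β / 2) = 16 := by field_simp; norm_num
  rw [e16] at a1 a2
  have s1 := sideJ (β := β) (A := mA μ1) hl hT2
  have s2 := sideJ (β := β) (A := mA μ2) hl hT1
  have m12 := two_abs_mul_le (mM μ1) (mM μ2)
  have mm1 : 0 ≤ mM μ1 ^ 2 := sq_nonneg _
  have mm2 : 0 ≤ mM μ2 ^ 2 := sq_nonneg _
  rw [Psi_integral h1 hR.le hw1, Psi_integral h2 hR.le hw2, G_integral h1, G_integral h2]
  by_cases hreg : mV μ1 ≤ R * √β ∧ mV μ2 ≤ R * √β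
  · -- region I
    have c := cross_bound h1 h2 (measurableSet_J R) (measurableSet_J R)
    have P := Psi_prod_ge h1 h2 (ϑ := 1 / 16) (by norm_num) hR hR'
    rw [prod_expand μ1 μ2 h1 h2] at P
    have dj1 := h1.dJ_le hR
    have dj2 := h2.dJ_le hR
    have q1 := q_side (β := β) (T := mT μ2) h1 hR.le hT2
    have q2 := q_side (β := β) (T := mT μ1) h2 hR.le hT1
    have ql1 := q_le h1 hR.le hT2
    have ql2 := q_le h2 hR.le hT1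
    have qn1 := q_nonneg (μ := μ1) R (upd β (mA μ1) (mT μ2))
    have qn2 := q_nonneg (μ := μ2) R (upd β (mA μ2) (mT μ1))
    have reg := regI hV1 hV2 hR hRt.symm hreg.1 hreg.2 ht ht1
    have hn1 : 0 ≤ ∫ p in {p : ℝ × ℝ | R ^ 2 * p.1 ≤ p.2 ^ 2}, p.2 ^ 2 / p.1 ∂μ1 := by
      apply integral_nonneg_of_ae
      apply ae_restrict_of_ae
      filter_upwards [h1.one_le] with p hp
      show 0 ≤ p.2 ^ 2 / p.1
      positivity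
    have hn2 : 0 ≤ ∫ p in {p : ℝ × ℝ | R ^ 2 * p.1 ≤ p.2 ^ 2}, p.2 ^ 2 / p.1 ∂μ2 := by
      apply integral_nonneg_of_ae
      apply ae_restrict_of_ae
      filter_upwards [h2.one_le] with p hp
      show 0 ≤ p.2 ^ 2 / p.1
      positivity
    -- quadratic losses
    have l1 : mA μ1 * (∫ p in {p : ℝ × ℝ | R ^ 2 * p.1 ≤ p.2 ^ 2},
        p.1 * (p.1⁻¹ - (mT μ2)⁻¹) ^ 2 ∂μ2) ≤ mV μ1 * (mV μ2 / R ^ 2) := by
      apply mul_le_mul hAV1 dj2 _ hV1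
      exact integral_nonneg_of_ae (ae_restrict_of_ae (h2.d_nonneg _))
    have l2 : mA μ2 * (∫ p in {p : ℝ × ℝ | R ^ 2 * p.1 ≤ p.2 ^ 2},
        p.1 * (p.1⁻¹ - (mT μ1)⁻¹) ^ 2 ∂μ1) ≤ mV μ2 * (mV μ1 / R ^ 2) := by
      apply mul_le_mul hAV2 dj1 _ hV2
      exact integral_nonneg_of_ae (ae_restrict_of_ae (h1.d_nonneg _))
    have l3 : 13 / 2 * (mV μ1 * mV μ2) / R ^ 2 = mV μ1 * (mV μ2 / R ^ 2)
        + 3 / 2 * (mV μ2 * (mV μ1 / R ^ 2)) + 1 / 16 * (64 / R ^ 2 * (mV μ1 * mV μ2)) := by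
      field_simp
      ring
    have r1 : 0 ≤ (∫ p in {p : ℝ × ℝ | R ^ 2 * p.1 ≤ p.2 ^ 2}, p.2 ^ 2 / p.1 ∂μ1)
        * (mU μ2 - (mT μ2)⁻¹) := mul_nonneg hn1 hd2
    have r2 : 0 ≤ (∫ p in {p : ℝ × ℝ | R ^ 2 * p.1 ≤ p.2 ^ 2}, p.2 ^ 2 / p.1 ∂μ2)
        * (mU μ1 - (mT μ1)⁻¹) := mul_nonneg hn2 hd1
    have e1 : mA μ1 * mU μ2 = mA μ1 * (mU μ2 - (mT μ2)⁻¹) + mA μ1 * (mT μ2)⁻¹ := by ring
    have e2 : mU μ1 * mA μ2 = mA μ2 * (mU μ1 - (mT μ1)⁻¹) + mA μ2 * (mT μ1)⁻¹ := by ring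
    rw [e1, e2] at P
    rw [mul_assoc (1 / 2 : ℝ), mul_assoc (1 / 2 : ℝ), mul_assoc (3 / 2 : ℝ)] at c
    generalize (∫ p, p.2 / p.1 ∂μ1) * (∫ p, p.2 / p.1 ∂μ2) = XY at *
    generalize (∫ p in {p : ℝ × ℝ | R ^ 2 * p.1 ≤ p.2 ^ 2}, p.2 ^ 2 / p.1 ∂μ1)
        * (mU μ2 - (mT μ2)⁻¹) = aJe at *
    generalize (∫ p in {p : ℝ × ℝ | R ^ 2 * p.1 ≤ p.2 ^ 2}, p.2 ^ 2 / p.1 ∂μ2)
        * (mU μ1 - (mT μ1)⁻¹) = cJd at *
    generalize mA μ1 * (∫ p in {p : ℝ × ℝ | R ^ 2 * p.1 ≤ p.2 ^ 2},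
        p.1 * (p.1⁻¹ - (mT μ2)⁻¹) ^ 2 ∂μ2) = L1 at *
    generalize mA μ2 * (∫ p in {p : ℝ × ℝ | R ^ 2 * p.1 ≤ p.2 ^ 2},
        p.1 * (p.1⁻¹ - (mT μ1)⁻¹) ^ 2 ∂μ1) = L2 at *
    generalize mV μ1 * (mV μ2 / R ^ 2) = VV1 at *
    generalize mV μ2 * (mV μ1 / R ^ 2) = VV2 at *
    generalize 64 / R ^ 2 * (mV μ1 * mV μ2) = VV3 at *
    generalize 13 / 2 * (mV μ1 * mV μ2) / R ^ 2 = VV4 at *
    generalize (if mA μ1 * (mT μ2)⁻¹ ^ 2 ≤ 8 * β then 0 else 1 / 4 * (mA μ1 * (mT μ2)⁻¹)) = I1 at *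
    generalize (if mA μ1 * (mT μ2)⁻¹ ^ 2 ≤ 8 * β then 0 else 1 / 8 * (mA μ1 * (mT μ2)⁻¹)) = I2 at *
    generalize (if mA μ2 * (mT μ1)⁻¹ ^ 2 ≤ 8 * β then 0 else 1 / 4 * (mA μ2 * (mT μ1)⁻¹)) = I3 at *
    generalize (if mA μ2 * (mT μ1)⁻¹ ^ 2 ≤ 8 * β then 0 else 1 / 8 * (mA μ2 * (mT μ1)⁻¹)) = I4 at *
    linarith
  · -- region II
    have c := cross_bound h1 h2 (J1 := ∅) (J2 := ∅) MeasurableSet.empty MeasurableSet.empty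
    simp only [Measure.restrict_empty, integral_zero_measure, mul_zero, zero_mul, sub_zero,
      add_zero] at c
    have P := Psi_prod_ge' h1 h2 (ϑ := 1 / 16) (by norm_num) hR'0
    rw [prod_expand μ1 μ2 h1 h2] at P
    have qn1 := q_nonneg (μ := μ1) R (upd β (mA μ1) (mT μ2))
    have qn2 := q_nonneg (μ := μ2) R (upd β (mA μ2) (mT μ1))
    -- the maximum of the variances
    obtain ⟨W, hW1, hW2, hW3, hWs⟩ : ∃ W, mV μ1 ≤ W ∧ mV μ2 ≤ W ∧ R * √β < W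
        ∧ W ≤ mV μ1 + mV μ2 := by
      refine ⟨max (mV μ1) (mV μ2), le_max_left _ _, le_max_right _ _, ?_, ?_⟩
      · rw [lt_max_iff]
        by_contra hcon
        push Not at hcon
        exact hreg hcon
      · exact max_le (by linarith) (by linarith)
    have hW0 : 0 ≤ W := hV1.trans hW1
    have k1 := regII hβ.le hW0 hRt.symm rfl hW3 hW1 ht
    have k2 := regII hβ.le hW0 hRt.symm rfl hW3 hW2 ht
    have k3 : t * W ≤ t * (mV μ1 + mV μ2) := by gcongr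
    have k4 : 0 ≤ t * (mV μ1 + mV μ2) := by positivity
    -- the loss of the main terms
    have u1 : 1 / 16 * (mA μ1 * (mT μ2)⁻¹) ≤ 1 / 16 * √(8 * β * mV μ1)
        + (if mA μ1 * (mT μ2)⁻¹ ^ 2 ≤ 8 * β then 0 else 1 / 8 * (mA μ1 * (mT μ2)⁻¹)) := by
      have h0 : 0 ≤ mA μ1 * (mT μ2)⁻¹ := by positivity
      have h00 := Real.sqrt_nonneg (8 * β * mV μ1)
      split_ifs with hc
      · have := sideSmall hA1 hT2 hAV1 hc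
        linarith
      · linarith
    have u2 : 1 / 16 * (mA μ2 * (mT μ1)⁻¹) ≤ 1 / 16 * √(8 * β * mV μ2)
        + (if mA μ2 * (mT μ1)⁻¹ ^ 2 ≤ 8 * β then 0 else 1 / 8 * (mA μ2 * (mT μ1)⁻¹)) := by
      have h0 : 0 ≤ mA μ2 * (mT μ1)⁻¹ := by positivity
      have h00 := Real.sqrt_nonneg (8 * β * mV μ2)
      split_ifs with hc
      · have := sideSmall hA2 hT1 hAV2 hc
        linarith
      · linarith
    have e1 : mA μ1 * mU μ2 = mA μ1 * (mU μ2 - (mT μ2)⁻¹) + mA μ1 * (mT μ2)⁻¹ := by ring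
    have e2 : mU μ1 * mA μ2 = mA μ2 * (mU μ1 - (mT μ1)⁻¹) + mA μ2 * (mT μ1)⁻¹ := by ring
    rw [e1, e2] at P
    have n1 : 0 ≤ 2 * (mT μ1)⁻¹ * |mM μ1| * √((mU μ2 - (mT μ2)⁻¹) * mA μ2) := by positivity
    have n2 : 0 ≤ 2 * (mT μ2)⁻¹ * |mM μ2| * √((mU μ1 - (mT μ1)⁻¹) * mA μ1) := by positivity
    have n3 : 0 ≤ 2 * (|mM μ1| * |mM μ2|) := by positivity
    generalize (∫ p, p.2 / p.1 ∂μ1) * (∫ p, p.2 / p.1 ∂μ2) = XY at *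
    generalize 2 * (mT μ1)⁻¹ * |mM μ1| * √((mU μ2 - (mT μ2)⁻¹) * mA μ2) = E1 at *
    generalize 2 * (mT μ2)⁻¹ * |mM μ2| * √((mU μ1 - (mT μ1)⁻¹) * mA μ1) = E2 at *
    generalize 2 * (|mM μ1| * |mM μ2|) = E3 at *
    generalize mA μ1 * (mU μ2 - (mT μ2)⁻¹) = B1 at *
    generalize mA μ2 * (mU μ1 - (mT μ1)⁻¹) = B2 at *
    generalize (if mA μ1 * (mT μ2)⁻¹ ^ 2 ≤ 8 * β then 0 else 1 / 4 * (mA μ1 * (mT μ2)⁻¹)) = I1 at *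
    generalize (if mA μ1 * (mT μ2)⁻¹ ^ 2 ≤ 8 * β then 0 else 1 / 8 * (mA μ1 * (mT μ2)⁻¹)) = I2 at *
    generalize (if mA μ2 * (mT μ1)⁻¹ ^ 2 ≤ 8 * β then 0 else 1 / 4 * (mA μ2 * (mT μ1)⁻¹)) = I3 at *
    generalize (if mA μ2 * (mT μ1)⁻¹ ^ 2 ≤ 8 * β then 0 else 1 / 8 * (mA μ2 * (mT μ1)⁻¹)) = I4 at *
    have P' : 15 / 16 * (B1 + mA μ1 * (mT μ2)⁻¹ + 2 * XY + (B2 + mA μ2 * (mT μ1)⁻¹))
        ≤ ∫ z, Psi (1 / 16) R' (z.1.2 + z.2.2) (z.1.1 * z.2.1) ∂(μ1.prod μ2) := by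
      refine le_trans (le_of_eq ?_) P
      ring
    generalize ∫ z, Psi (1 / 16) R' (z.1.2 + z.2.2) (z.1.1 * z.2.1) ∂(μ1.prod μ2) = PP at *
    have c' : -(E1 + E2 + E3) ≤ B1 + 2 * XY + B2 := by linarith
    linarith

end H61CLT
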