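import Pool.Agent.H61.CLT.Ker
import Pool.Agent.H61.CLT.Alg

/-!
# Definitions for the central limit theorem under two-sided square-summable projections
-/

set_option autoImplicit false
open MeasureTheory ProbabilityTheory
open scoped ENNReal Topology

namespace H61CLT

/-! ## Laws on the plane: first coordinate a weight `≥ 1`, second coordinate a partial sum -/

/-- admissible law of (weight, partial sum) -/
structure Good (μ : Measure (ℝ × ℝ)) : Prop where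
  prob : IsProbabilityMeasure μ
  one_le : ∀ᵐ p ∂μ, 1 ≤ p.1
  int1 : Integrable (fun p : ℝ × ℝ => p.1) μ
  int2 : Integrable (fun p : ℝ × ℝ => p.2 ^ 2) μ

/-- mean weight -/
noncomputable def mT (μ : Measure (ℝ × ℝ)) : ℝ := ∫ p, p.1 ∂μ
/-- mean inverse weight -/
noncomputable def mU (μ : Measure (ℝ × ℝ)) : ℝ := ∫ p, p.1⁻¹ ∂μ
/-- weighted second moment -/
noncomputable def mA (μ : Measure (ℝ × ℝ)) : ℝ := ∫ p, p.2 ^ 2 / p.1 ∂μ
/-- second moment -/
noncomputable def mV (μ : Measure (ℝ × ℝ)) : ℝ := ∫ p, p.2 ^ 2 ∂μ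
/-- mean -/
noncomputable def mM (μ : Measure (ℝ × ℝ)) : ℝ := ∫ p, p.2 ∂μ

/-- the updated weight -/
noncomputable def upd (β A T : ℝ) : ℝ := if A * T⁻¹ ^ 2 ≤ 8 * β then T else 2 * T

/-- the integrand of the functional -/
noncomputable def Psi (ϑ R s t : ℝ) : ℝ := s ^ 2 / t - ϑ * qf R (s / √t)

/-! ## Functionals of the chain -/

variable {S : Type*} [mS : MeasurableSpace S]

/-- admissible weights on the state space -/
structure Wt (ν : Measure S) (τ : S → ℝ) : Prop where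
  meas : Measurable τ
  one_le : ∀ x, 1 ≤ τ x
  int : Integrable τ ν

/-- the functional (without the penalties) -/
noncomputable def JN (Q : Kernel S S) (ν : Measure S) (f : S → ℝ) (hf : Measurable f)
    (ϑ R : ℝ) (n : ℕ) (τu τw : S → ℝ) : ℝ :=
  ∫ p, Psi ϑ R p.2.2 (τu p.1 * τw p.2.1) ∂(ν ⊗ₘ KN Q f hf n)

/-- the mean penalty -/
noncomputable def EG (ν : Measure S) (β lam : ℝ) (τ : S → ℝ) : ℝ := ∫ x, G β lam (τ x) ∂ν

/-- second moment of the partial sum -/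
noncomputable def Vn (Q : Kernel S S) (ν : Measure S) (f : S → ℝ) (hf : Measurable f)
    (n : ℕ) : ℝ := ∫ p, p.2.2 ^ 2 ∂(ν ⊗ₘ KN Q f hf n)

/-- squared norm of the forward conditional mean -/
noncomputable def Ef (Q : Kernel S S) (ν : Measure S) (f : S → ℝ) (hf : Measurable f)
    (n : ℕ) : ℝ := ∫ x, (∫ p, p.2 ∂(KN Q f hf n x)) ^ 2 ∂ν

/-- standing assumptions -/
structure Setup (Q : Kernel S S) (ν : Measure S) (f : S → ℝ) (hf : Measurable f)
    (Eb : ℕ → ℝ) : Prop where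
  inv : ν.bind Q = ν
  int2 : ∀ n, Integrable (fun p : S × (S × ℝ) => p.2.2 ^ 2) (ν ⊗ₘ KN Q f hf n)
  marg : ∀ n, (ν ⊗ₘ KN Q f hf n).map (fun p => p.2.1) = ν
  back : ∀ n (g : S → ℝ), Measurable g → (∃ C : ℝ, ∀ x, |g x| ≤ C) →
    (∫ p, p.2.2 * g p.2.1 ∂(ν ⊗ₘ KN Q f hf n)) ^ 2 ≤ Eb n * ∫ x, g x ^ 2 ∂ν
  backN : ∀ n, 0 ≤ Eb n
  backS : Summable (fun q : ℕ => Eb (2 ^ q) / 2 ^ q)
  forwS : Summable (fun q : ℕ => Ef Q ν f hf (2 ^ q) / 2 ^ q)

end H61CLT
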