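import Pool.Agent.H61.CLT.Defs

/-!
# Module LINK: the law of `(X_n, S_n)`
-/

set_option autoImplicit false
open MeasureTheory ProbabilityTheory
open scoped ENNReal Topology

namespace H61CLT

lemma link_aux {Ω : Type*} {m mΩ : MeasurableSpace Ω} (μ : Measure Ω) [IsProbabilityMeasure μ]
    (hmle : m ≤ mΩ) (Y : Set Ω) (hY : MeasurableSet Y) (q : Ω → ℝ≥0∞) (hq : Measurable q)
    (hq1 : ∀ ω, q ω ≤ 1)
    (hc : condExp m μ (Y.indicator (fun _ => (1 : ℝ))) =ᵐ[μ] fun ω => (q ω).toReal)
    (E : Set Ω) (hE : MeasurableSet[m] E) : μ (Y ∩ E) = ∫⁻ ω in E, q ω ∂μ := by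
  have hfin : ∫⁻ ω in E, q ω ∂μ ≠ ∞ := by
    apply ne_of_lt
    calc ∫⁻ ω in E, q ω ∂μ ≤ ∫⁻ ω in E, 1 ∂μ := lintegral_mono fun ω => hq1 ω
      _ = μ E := by rw [lintegral_one, Measure.restrict_apply_univ]
      _ < ∞ := measure_lt_top μ E
  rw [← ENNReal.toReal_eq_toReal_iff' (measure_ne_top μ _) hfin]
  have h1 := setIntegral_condExp (μ := μ) hmle
    (f := Y.indicator (fun _ => (1 : ℝ))) ((integrable_const (1:ℝ)).indicator hY) hE
  have h2 : ∫ ω in E, Y.indicator (fun _ => (1 : ℝ)) ω ∂μ = (μ (Y ∩ E)).toReal := by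
    rw [integral_indicator_const _ hY, smul_eq_mul, mul_one, Measure.real,
      Measure.restrict_apply hY]
  have h3 : ∫ ω in E, (condExp m μ (Y.indicator (fun _ => (1 : ℝ)))) ω ∂μ =
      ∫ ω in E, (q ω).toReal ∂μ :=
    integral_congr_ae (ae_restrict_of_ae hc)
  have h4 : ∫ ω in E, (q ω).toReal ∂μ = (∫⁻ ω in E, q ω ∂μ).toReal := by
    apply integral_toReal
    · exact hq.aemeasurable
    · exact Filter.Eventually.of_forall fun ω => (hq1 ω).trans_lt ENNReal.one_lt_top
  rw [← h2, ← h1, h3, h4]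

variable {S : Type*} [mS : MeasurableSpace S]

/-- MODULE LINK -/
theorem link (Q : Kernel S S) [IsMarkovKernel Q] (ν : Measure S) [IsProbabilityMeasure ν]
    (f : S → ℝ) (hf : Measurable f)
    {Ω : Type*} [mΩ : MeasurableSpace Ω] (μ : Measure Ω) [IsProbabilityMeasure μ]
    (X : ℕ → Ω → S) (hX : ∀ i, Measurable (X i)) (h0 : μ.map (X 0) = ν)
    (hM : ∀ n : ℕ, ∀ A : Set S, MeasurableSet A →
        condExp (⨆ i ≤ n, MeasurableSpace.comap (X i) mS) μ
          ((X (n+1) ⁻¹' A).indicator (fun _ => (1 : ℝ)))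
          =ᵐ[μ] fun ω => (Q (X n ω) A).toReal) (n : ℕ) :
    μ.map (fun ω => (X n ω, ∑ i ∈ Finset.range n, f (X i ω))) = (KN Q f hf n) ∘ₘ ν := by
  have hS : ∀ n, Measurable (fun ω => ∑ i ∈ Finset.range n, f (X i ω)) := fun n =>
    Finset.measurable_sum _ (fun i _ => hf.comp (hX i))
  have hXS : ∀ n, Measurable (fun ω => (X n ω, ∑ i ∈ Finset.range n, f (X i ω))) := fun n =>
    (hX n).prodMk (hS n)
  induction n with
  | zero =>
    have e0 : KN Q f hf 0 = Kernel.deterministic (fun x => (x, (0:ℝ)))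
      (measurable_id.prodMk measurable_const) := rfl
    have hm : Measurable (fun x : S => (x, (0:ℝ))) := measurable_id.prodMk measurable_const
    rw [e0, Measure.deterministic_comp_eq_map, ← h0, Measure.map_map hm (hX 0)]
    congr 1
  | succ n ih =>
    have : IsProbabilityMeasure (μ.map (fun ω => (X (n + 1) ω,
        ∑ i ∈ Finset.range (n + 1), f (X i ω)))) :=
      Measure.isProbabilityMeasure_map (hXS (n + 1)).aemeasurable
    apply Measure.ext_prod
    intro A B hA hB
    set G : S × ℝ → ℝ≥0∞ := fun p => B.indicator (fun _ => (1 : ℝ≥0∞)) (p.2 + f p.1) * Q p.1 A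
      with hG
    have hGm : Measurable G := by
      apply Measurable.mul
      · exact (measurable_const.indicator hB).comp
          (measurable_snd.add (hf.comp measurable_fst))
      · exact (Kernel.measurable_coe Q hA).comp measurable_fst
    -- right hand side
    have hR : ((KN Q f hf (n + 1)) ∘ₘ ν) (A ×ˢ B) = ∫⁻ p, G p ∂((KN Q f hf n) ∘ₘ ν) := by
      rw [Measure.bind_apply (hA.prod hB) (KN Q f hf (n + 1)).aemeasurable,
        Measure.lintegral_bind (KN Q f hf n).aemeasurable hGm.aemeasurable]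
      apply lintegral_congr
      intro x
      rw [← lintegral_indicator_one (hA.prod hB),
        lintegral_KN_succ Q f hf n x (measurable_one.indicator (hA.prod hB))]
      apply lintegral_congr
      intro p
      have e1 : ∀ z, (A ×ˢ B).indicator (1 : S × ℝ → ℝ≥0∞) (z, p.2 + f p.1) =
          B.indicator (fun _ => (1 : ℝ≥0∞)) (p.2 + f p.1) * A.indicator 1 z := by
        intro z
        by_cases hz : z ∈ A <;> by_cases hb : p.2 + f p.1 ∈ B <;>
          simp [Set.indicator, hz, hb]
      simp only [e1]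
      rw [lintegral_const_mul _ (measurable_one.indicator hA), lintegral_indicator_one hA]
    -- left hand side
    have hmle : (⨆ i ≤ n, MeasurableSpace.comap (X i) mS) ≤ mΩ :=
      iSup₂_le fun i _ => (hX i).comap_le
    set E : Set Ω := (fun ω => ∑ i ∈ Finset.range (n + 1), f (X i ω)) ⁻¹' B with hE
    have hEm : MeasurableSet[⨆ i ≤ n, MeasurableSpace.comap (X i) mS] E := by
      have h1 : Measurable[⨆ i ≤ n, MeasurableSpace.comap (X i) mS]
          (fun ω => ∑ i ∈ Finset.range (n + 1), f (X i ω)) := by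
        refine Finset.measurable_sum _ (fun i hi => ?_)
        have hi' : i ≤ n := by have := Finset.mem_range.1 hi; omega
        have h2 : Measurable[⨆ i ≤ n, MeasurableSpace.comap (X i) mS] (X i) :=
          Measurable.mono (comap_measurable (X i))
            (le_iSup₂ (f := fun i (_ : i ≤ n) => MeasurableSpace.comap (X i) mS) i hi') le_rfl
        exact hf.comp h2
      exact h1 hB
    have hEm' : MeasurableSet E := (hS (n + 1)) hB
    have hL : (μ.map (fun ω => (X (n + 1) ω, ∑ i ∈ Finset.range (n + 1), f (X i ω)))) (A ×ˢ B) =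
        ∫⁻ ω in E, Q (X n ω) A ∂μ := by
      rw [Measure.map_apply (hXS (n + 1)) (hA.prod hB)]
      have e1 : (fun ω => (X (n + 1) ω, ∑ i ∈ Finset.range (n + 1), f (X i ω))) ⁻¹' (A ×ˢ B) =
          X (n + 1) ⁻¹' A ∩ E := by
        ext ω
        simp [hE]
      rw [e1]
      exact link_aux μ hmle _ ((hX (n + 1)) hA) (fun ω => Q (X n ω) A)
        ((Kernel.measurable_coe Q hA).comp (hX n)) (fun ω => prob_le_one) (hM n A hA) E hEm
    rw [hL, hR, ← ih, lintegral_map hGm (hXS n), ← lintegral_indicator hEm']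
    apply lintegral_congr
    intro ω
    rw [hG]
    by_cases hω : ω ∈ E
    · have : (∑ i ∈ Finset.range n, f (X i ω)) + f (X n ω) ∈ B := by
        rw [← Finset.sum_range_succ]; exact hω
      simp [Set.indicator, hω, this]
    · have : (∑ i ∈ Finset.range n, f (X i ω)) + f (X n ω) ∉ B := by
        rw [← Finset.sum_range_succ]; exact hω
      simp [Set.indicator, hω, this]

end H61CLT
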