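import Mathlib

/-!
# A dyadic Hardy inequality
-/

set_option autoImplicit false

namespace H61CLT

/-- dyadic Hardy inequality -/
theorem hardy_dyadic (a : ℕ → ℝ) (hs : Summable (fun k => a k ^ 2)) :
    Summable (fun q : ℕ => (∑ k ∈ Finset.range (2 ^ q), a k) ^ 2 / 2 ^ q) := by
  set u : ℕ → ℝ := fun q => (∑ k ∈ Finset.range (2 ^ q), a k) ^ 2 / 2 ^ q with hu
  set w : ℕ → ℝ := fun q => ∑ k ∈ Finset.Ico (2 ^ q) (2 ^ (q + 1)), a k ^ 2 with hw
  have hu0 : ∀ q, 0 ≤ u q := fun q => by rw [hu]; positivity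
  have hrec : ∀ q, u (q + 1) ≤ 3 / 4 * u q + 3 / 2 * w q := by
    intro q
    have h1 : (∑ k ∈ Finset.range (2 ^ (q + 1)), a k)
        = (∑ k ∈ Finset.range (2 ^ q), a k) + ∑ k ∈ Finset.Ico (2 ^ q) (2 ^ (q + 1)), a k := by
      rw [Finset.sum_range_add_sum_Ico]
      exact Nat.pow_le_pow_right (by norm_num) (Nat.le_succ q)
    have h2 : (∑ k ∈ Finset.Ico (2 ^ q) (2 ^ (q + 1)), a k) ^ 2 ≤ 2 ^ q * w q := by
      have := sq_sum_le_card_mul_sum_sq (s := Finset.Ico (2 ^ q) (2 ^ (q + 1))) (f := a)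
      rw [Nat.card_Ico] at this
      have hc : 2 ^ (q + 1) - 2 ^ q = 2 ^ q := by rw [pow_succ]; omega
      rw [hc] at this
      push_cast at this
      exact this
    show (∑ k ∈ Finset.range (2 ^ (q + 1)), a k) ^ 2 / 2 ^ (q + 1)
      ≤ 3 / 4 * ((∑ k ∈ Finset.range (2 ^ q), a k) ^ 2 / 2 ^ q) + 3 / 2 * w q
    rw [h1]
    generalize (∑ k ∈ Finset.range (2 ^ q), a k) = s at *
    generalize (∑ k ∈ Finset.Ico (2 ^ q) (2 ^ (q + 1)), a k) = b at *
    generalize w q = W at *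
    have hp : (0 : ℝ) < 2 ^ q := by positivity
    rw [pow_succ (2 : ℝ) q]
    generalize (2 : ℝ) ^ q = P at *
    rw [div_le_iff₀ (by positivity)]
    have e : (3 / 4 * (s ^ 2 / P) + 3 / 2 * W) * (P * 2) = 3 / 2 * s ^ 2 + 3 * (P * W) := by
      field_simp
      ring
    rw [e]
    nlinarith [sq_nonneg (s - 2 * b)]
  -- summation of the recursion
  set T : ℝ := ∑' k, a k ^ 2 with hT
  have hwsum : ∀ N : ℕ, ∑ q ∈ Finset.range N, w q ≤ T := by
    intro N
    have h1 : ∑ q ∈ Finset.range N, w q = ∑ k ∈ Finset.Ico 1 (2 ^ N), a k ^ 2 := by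
      induction N with
      | zero => simp
      | succ N ih =>
        rw [Finset.sum_range_succ, ih, hw]
        show _ + ∑ k ∈ Finset.Ico (2 ^ N) (2 ^ (N + 1)), a k ^ 2 = _
        rw [Finset.sum_Ico_consecutive]
        · exact Nat.one_le_two_pow
        · exact Nat.pow_le_pow_right (by norm_num) (Nat.le_succ N)
    rw [h1]
    exact hs.sum_le_tsum _ (fun k _ => sq_nonneg _)
  have hU : ∀ N : ℕ, ∑ q ∈ Finset.range N, u q ≤ 4 * u 0 + 6 * T := by
    intro N
    have h1 : ∑ q ∈ Finset.range N, u (q + 1)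
        ≤ 3 / 4 * ∑ q ∈ Finset.range N, u q + 3 / 2 * ∑ q ∈ Finset.range N, w q := by
      rw [Finset.mul_sum, Finset.mul_sum, ← Finset.sum_add_distrib]
      exact Finset.sum_le_sum (fun q _ => hrec q)
    have h2 : ∑ q ∈ Finset.range (N + 1), u q = ∑ q ∈ Finset.range N, u (q + 1) + u 0 :=
      Finset.sum_range_succ' u N
    have h3 : ∑ q ∈ Finset.range (N + 1), u q = ∑ q ∈ Finset.range N, u q + u N :=
      Finset.sum_range_succ u N
    have h4 := hwsum N
    have h5 := hu0 N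
    linarith
  exact summable_of_sum_range_le hu0 hU

end H61CLT
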