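import Pool.Agent.H61.CLT.Setup1
import Pool.Agent.H61.CLT.Hardy

/-!
# The standing assumptions follow from the hypotheses of the frozen statement
-/

set_option autoImplicit false
open MeasureTheory ProbabilityTheory
open scoped ENNReal Topology

namespace H61CLT

variable {S : Type*} [mS : MeasurableSpace S]

lemma measurable_Pop (Q : Kernel S S) [IsMarkovKernel Q] {h : S → ℝ} (hh : Measurable h) :
    Measurable (Pop Q h) :=
  (StronglyMeasurable.integral_kernel hh.stronglyMeasurable).measurable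

lemma measurable_Pop_iter (Q : Kernel S S) [IsMarkovKernel Q] {h : S → ℝ} (hh : Measurable h)
    (k : ℕ) : Measurable ((Pop Q)^[k] h) := by
  induction k with
  | zero => exact hh
  | succ k ih => rw [Function.iterate_succ_apply']; exact measurable_Pop Q ih

lemma Pop_bdd (Q : Kernel S S) [IsMarkovKernel Q] {h : S → ℝ} {C : ℝ} (hC : ∀ x, |h x| ≤ C)
    (x : S) : |Pop Q h x| ≤ C := by
  have h1 : ‖∫ z, h z ∂(Q x)‖ ≤ C * (Q x).real Set.univ :=
    norm_integral_le_of_norm_le_const (by filter_upwards with z; exact hC z)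
  simpa [Pop] using h1

lemma Pop_const_mul (Q : Kernel S S) (h : S → ℝ) (c : ℝ) (k : ℕ) :
    (Pop Q)^[k] (fun x => c * h x) = fun x => c * (Pop Q)^[k] h x := by
  induction k with
  | zero => rfl
  | succ k ih =>
    rw [Function.iterate_succ_apply', ih, Function.iterate_succ_apply']
    funext x
    exact integral_const_mul c _

lemma ae_integrable_kernel (Q : Kernel S S) [IsMarkovKernel Q] (ν : Measure S)
    [IsProbabilityMeasure ν] (hinv : ν.bind Q = ν) {h : S → ℝ} (hh : Integrable h ν) :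
    ∀ᵐ x ∂ν, Integrable h (Q x) := by
  rw [← hinv] at hh
  exact Measure.ae_integrable_of_integrable_comp hh

lemma integrable_Pop (Q : Kernel S S) [IsMarkovKernel Q] (ν : Measure S)
    [IsProbabilityMeasure ν] (hinv : ν.bind Q = ν) {h : S → ℝ} (hm : Measurable h)
    (hh : Integrable h ν) : Integrable (Pop Q h) ν := by
  rw [← hinv] at hh
  have h1 : Integrable (fun x ↦ ∫ y, ‖h y‖ ∂Q x) ν :=
    Measure.integrable_integral_norm_of_integrable_comp hh
  exact Integrable.mono' h1 (measurable_Pop Q hm).aestronglyMeasurable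
    (by filter_upwards with x; exact norm_integral_le_integral_norm _)

lemma integral_Pop (Q : Kernel S S) [IsMarkovKernel Q] (ν : Measure S)
    [IsProbabilityMeasure ν] (hinv : ν.bind Q = ν) {h : S → ℝ}
    (hh : Integrable h ν) : ∫ x, Pop Q h x ∂ν = ∫ x, h x ∂ν := by
  have hi : Integrable h (ν.bind Q) := by rw [hinv]; exact hh
  have h1 : Integrable h ((Q ∘ₖ (Kernel.const Unit ν)) ()) := by
    rw [← Measure.comp_eq_comp_const_apply]; exact hi
  have := Kernel.integral_comp h1
  rw [← Measure.comp_eq_comp_const_apply, hinv, Kernel.const_apply] at this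
  exact this.symm

lemma integrable_Pop_sq (Q : Kernel S S) [IsMarkovKernel Q] (ν : Measure S)
    [IsProbabilityMeasure ν] (hinv : ν.bind Q = ν) {h : S → ℝ} (hm : Measurable h)
    (hh : Integrable (fun x => h x ^ 2) ν) : Integrable (fun x => Pop Q h x ^ 2) ν := by
  have h1 : Integrable (Pop Q (fun x => h x ^ 2)) ν := integrable_Pop Q ν hinv (hm.pow_const 2) hh
  apply Integrable.mono' h1 ((measurable_Pop Q hm).pow_const 2).aestronglyMeasurable
  filter_upwards [ae_integrable_kernel Q ν hinv hh] with x hx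
  rw [Real.norm_of_nonneg (sq_nonneg _)]
  exact sq_integral_le hm.aestronglyMeasurable hx

lemma integrable_Pop_iter_sq (Q : Kernel S S) [IsMarkovKernel Q] (ν : Measure S)
    [IsProbabilityMeasure ν] (hinv : ν.bind Q = ν) {h : S → ℝ} (hm : Measurable h)
    (hh : Integrable (fun x => h x ^ 2) ν) (k : ℕ) :
    Integrable (fun x => (Pop Q)^[k] h x ^ 2) ν := by
  induction k with
  | zero => exact hh
  | succ k ih =>
    rw [Function.iterate_succ_apply']
    exact integrable_Pop_sq Q ν hinv (measurable_Pop_iter Q hm k) ih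

/-! ## conditional means started at a point -/

lemma KN_mean_end (Q : Kernel S S) [IsMarkovKernel Q] (ν : Measure S) [IsProbabilityMeasure ν]
    (hinv : ν.bind Q = ν) (f : S → ℝ) (hf : Measurable f) (n : ℕ) :
    ∀ h : S → ℝ, Measurable h → Integrable h ν →
      ∀ᵐ x ∂ν, ∫ p, h p.1 ∂(KN Q f hf n x) = (Pop Q)^[n] h x := by
  induction n with
  | zero =>
    intro h hm _
    filter_upwards with x
    show ∫ p : S × ℝ, h p.1 ∂(Kernel.deterministic (fun x => (x, (0 : ℝ))) _ x) = h x
    rw [Kernel.deterministic_apply, integral_dirac']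
    exact (hm.comp measurable_fst).stronglyMeasurable
  | succ n ih =>
    intro h hm hi
    have h1 := ih (Pop Q h) (measurable_Pop Q hm) (integrable_Pop Q ν hinv hm hi)
    have h2 : Integrable (fun p : S × (S × ℝ) => h p.2.1) (ν ⊗ₘ KN Q f hf (n + 1)) :=
      integrable_mid (joint_marg Q ν hinv f hf (n + 1)) hm hi
    have h3 := ((Measure.integrable_compProd_iff h2.1).1 h2).1
    filter_upwards [h1, h3] with x hx1 hx3
    rw [Function.iterate_succ_apply, ← hx1]
    have hm1 : Measurable (fun p : S × ℝ => h p.1) := hm.comp measurable_fst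
    rw [KN_succ_apply] at hx3 ⊢
    rw [integrable_map_measure hm1.aestronglyMeasurable (measurable_stepmap hf).aemeasurable] at hx3
    have hx3' : Integrable (fun t : (S × ℝ) × S => h (stepmap f t).1)
        ((KN Q f hf n x) ⊗ₘ (Q.comap Prod.fst measurable_fst)) := hx3
    rw [integral_map (measurable_stepmap hf).aemeasurable hm1.aestronglyMeasurable,
      Measure.integral_compProd hx3']
    rfl

lemma KN_mean (Q : Kernel S S) [IsMarkovKernel Q] (ν : Measure S) [IsProbabilityMeasure ν]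
    (hinv : ν.bind Q = ν) (f : S → ℝ) (hf : Measurable f) (hfL : MemLp f 2 ν) (n : ℕ) :
    ∀ᵐ x ∂ν, ∫ p, p.2 ∂(KN Q f hf n x) = ∑ k ∈ Finset.range n, (Pop Q)^[k] f x := by
  induction n with
  | zero =>
    filter_upwards with x
    show ∫ p : S × ℝ, p.2 ∂(Kernel.deterministic (fun x => (x, (0 : ℝ))) _ x) = _
    rw [Kernel.deterministic_apply, integral_dirac']
    · simp
    · exact measurable_snd.stronglyMeasurable
  | succ n ih =>
    have hfi : Integrable f ν := hfL.integrable (by norm_num)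
    have h1 := KN_mean_end Q ν hinv f hf n f hf hfi
    have h2 : Integrable (fun p : S × (S × ℝ) => f p.2.1) (ν ⊗ₘ KN Q f hf n) :=
      integrable_mid (joint_marg Q ν hinv f hf n) hf hfi
    have h3 := ((Measure.integrable_compProd_iff h2.1).1 h2).1
    have h4 : Integrable (fun p : S × (S × ℝ) => p.2.2) (ν ⊗ₘ KN Q f hf n) := by
      have hm : Measurable (fun p : S × (S × ℝ) => p.2.2) := by fun_prop
      exact integrable_of_sq hm.aestronglyMeasurable (joint_int2 Q ν hinv f hf hfL n)
    have h5 := ((Measure.integrable_compProd_iff h4.1).1 h4).1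
    filter_upwards [ih, h1, h3, h5] with x hx hx1 hx3 hx5
    rw [Finset.sum_range_succ, ← hx, ← hx1, KN_succ_apply,
      integral_map (measurable_stepmap hf).aemeasurable measurable_snd.aestronglyMeasurable,
      ← integral_add hx5 hx3]
    show ∫ t : (S × ℝ) × S, (t.1.2 + f t.1.1) ∂_ = _
    have hfst : ((KN Q f hf n x) ⊗ₘ (Q.comap Prod.fst measurable_fst)).map Prod.fst
        = KN Q f hf n x := Measure.fst_compProd _ _
    conv_rhs => rw [← hfst]
    rw [integral_map measurable_fst.aemeasurable]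
    exact (measurable_snd.add (hf.comp measurable_fst)).aestronglyMeasurable

/-! ## the backward functional -/

lemma joint_back (Q : Kernel S S) [IsMarkovKernel Q] (ν : Measure S) [IsProbabilityMeasure ν]
    (hinv : ν.bind Q = ν) (f : S → ℝ) (hf : Measurable f) (hfL : MemLp f 2 ν) (n : ℕ) :
    ∀ g : S → ℝ, Measurable g → (∃ C : ℝ, ∀ x, |g x| ≤ C) →
      ∫ p, p.2.2 * g p.2.1 ∂(ν ⊗ₘ KN Q f hf n)
        = ∑ k ∈ Finset.range n, ∫ x, f x * (Pop Q)^[k + 1] g x ∂ν := by
  induction n with
  | zero =>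
    intro g hg _
    have hm : Measurable (fun x : S => (x, (x, (0 : ℝ)))) :=
      measurable_id.prodMk (measurable_id.prodMk measurable_const)
    have hm2 : Measurable (fun p : S × (S × ℝ) => p.2.2 * g p.2.1) := by
      have : Measurable (fun p : S × (S × ℝ) => p.2.2) := by fun_prop
      exact this.mul (hg.comp measurable_mid)
    rw [joint_zero_eq, integral_map hm.aemeasurable hm2.aestronglyMeasurable]
    simp
  | succ n ih =>
    intro g hg hb
    obtain ⟨C, hC⟩ := hb
    have hgP := measurable_Pop Q hg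
    have hCP : ∀ x, |Pop Q g x| ≤ C := Pop_bdd Q hC
    have hm1 : Measurable (fun p : S × (S × ℝ) => p.2.2) := by fun_prop
    have hm2 : Measurable (fun p : S × (S × ℝ) => p.2.2 * g p.2.1) :=
      hm1.mul (hg.comp measurable_mid)
    have hfm : Measurable (fun p : S × (S × ℝ) => f p.2.1) := hf.comp measurable_mid
    have hfi : Integrable f ν := hfL.integrable (by norm_num)
    have i1 : Integrable (fun p : S × (S × ℝ) => p.2.2) (ν ⊗ₘ KN Q f hf n) :=
      integrable_of_sq hm1.aestronglyMeasurable (joint_int2 Q ν hinv f hf hfL n)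
    have i2 : Integrable (fun p : S × (S × ℝ) => f p.2.1) (ν ⊗ₘ KN Q f hf n) :=
      integrable_mid (joint_marg Q ν hinv f hf n) hf hfi
    have hmg : Measurable (fun p : S × (S × ℝ) => Pop Q g p.2.1) := hgP.comp measurable_mid
    have i3 : Integrable (fun p : S × (S × ℝ) => p.2.2 * Pop Q g p.2.1) (ν ⊗ₘ KN Q f hf n) :=
      i1.mul_bdd (c := C) hmg.aestronglyMeasurable (by filter_upwards with p; exact hCP _)
    have i4 : Integrable (fun p : S × (S × ℝ) => f p.2.1 * Pop Q g p.2.1) (ν ⊗ₘ KN Q f hf n) :=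
      i2.mul_bdd (c := C) hmg.aestronglyMeasurable (by filter_upwards with p; exact hCP _)
    -- the integrand on the extended space
    have i5 : Integrable (fun t : (S × (S × ℝ)) × S => (t.1.2.2 + f t.1.2.1) * g t.2)
        ((ν ⊗ₘ KN Q f hf n) ⊗ₘ
          (Q.comap (fun p : S × (S × ℝ) => p.2.1) measurable_mid)) := by
      have hfst : ((ν ⊗ₘ KN Q f hf n) ⊗ₘ
          (Q.comap (fun p : S × (S × ℝ) => p.2.1) measurable_mid)).map Prod.fst
          = ν ⊗ₘ KN Q f hf n := Measure.fst_compProd _ _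
      have i6 := i1.add i2
      rw [← hfst] at i6
      have i7 := (integrable_map_measure (hm1.add hfm).aestronglyMeasurable
        measurable_fst.aemeasurable).1 i6
      exact i7.mul_bdd (c := C) (hg.comp measurable_snd).aestronglyMeasurable
        (by filter_upwards with p; exact hC _)
    have step : ∫ p, p.2.2 * g p.2.1 ∂(ν ⊗ₘ KN Q f hf (n + 1))
        = ∫ p, p.2.2 * Pop Q g p.2.1 ∂(ν ⊗ₘ KN Q f hf n) + ∫ x, f x * Pop Q g x ∂ν := by
      rw [joint_succ, integral_map (measurable_stepmap' hf).aemeasurable hm2.aestronglyMeasurable]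
      show ∫ t : (S × (S × ℝ)) × S, (t.1.2.2 + f t.1.2.1) * g t.2 ∂_ = _
      rw [Measure.integral_compProd i5, ← integral_mid (joint_marg Q ν hinv f hf n)
        (g := fun x => f x * Pop Q g x) (hf.mul hgP), ← integral_add i3 i4]
      apply integral_congr_ae
      filter_upwards with p
      show ∫ z, (p.2.2 + f p.2.1) * g z ∂(Q p.2.1) = _
      rw [integral_const_mul]
      show (p.2.2 + f p.2.1) * Pop Q g p.2.1 = _
      ring
    rw [step, ih (Pop Q g) hgP ⟨C, hCP⟩, Finset.sum_range_succ']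
    rfl

lemma sqrt_sum_aux {ν : Measure S} [IsProbabilityMeasure ν] (u : ℕ → S → ℝ)
    (hu : ∀ k, Measurable (u k)) (hi : ∀ k, Integrable (fun x => u k x ^ 2) ν) (n : ℕ) :
    Integrable (fun x => (∑ k ∈ Finset.range n, u k x) ^ 2) ν ∧
    ∫ x, (∑ k ∈ Finset.range n, u k x) ^ 2 ∂ν
      ≤ (∑ k ∈ Finset.range n, √(∫ x, u k x ^ 2 ∂ν)) ^ 2 := by
  induction n with
  | zero => simp
  | succ n ih =>
    obtain ⟨ih1, ih2⟩ := ih
    have hm : Measurable (fun x => ∑ k ∈ Finset.range n, u k x) :=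
      Finset.measurable_sum _ (fun k _ => hu k)
    have hc : Integrable (fun x => (∑ k ∈ Finset.range n, u k x) * u n x) ν :=
      integrable_mul_of_sq hm.aestronglyMeasurable (hu n).aestronglyMeasurable ih1 (hi n)
    have e : (fun x => (∑ k ∈ Finset.range (n + 1), u k x) ^ 2)
        = fun x => ((∑ k ∈ Finset.range n, u k x) ^ 2
          + 2 * ((∑ k ∈ Finset.range n, u k x) * u n x)) + u n x ^ 2 := by
      funext x
      rw [Finset.sum_range_succ]; ring
    have hcs := cs_mul hm.aestronglyMeasurable (hu n).aestronglyMeasurable ih1 (hi n)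
    rw [e, Finset.sum_range_succ]
    have i1 : Integrable (fun x => (∑ k ∈ Finset.range n, u k x) ^ 2
          + 2 * ((∑ k ∈ Finset.range n, u k x) * u n x)) ν := ih1.add (hc.const_mul 2)
    refine ⟨i1.add (hi n), ?_⟩
    rw [integral_add i1 (hi n), integral_add ih1 (hc.const_mul 2), integral_const_mul]
    have hA : 0 ≤ ∫ x, (∑ k ∈ Finset.range n, u k x) ^ 2 ∂ν :=
      integral_nonneg (fun x => sq_nonneg _)
    have hB : 0 ≤ ∫ x, u n x ^ 2 ∂ν := integral_nonneg (fun x => sq_nonneg _)
    have hs0 : 0 ≤ ∑ k ∈ Finset.range n, √(∫ x, u k x ^ 2 ∂ν) :=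
      Finset.sum_nonneg (fun k _ => Real.sqrt_nonneg _)
    have hb0 := Real.sqrt_nonneg (∫ x, u n x ^ 2 ∂ν)
    have hbs := Real.sq_sqrt hB
    generalize ∑ k ∈ Finset.range n, √(∫ x, u k x ^ 2 ∂ν) = s at *
    generalize √(∫ x, u n x ^ 2 ∂ν) = b at *
    generalize ∫ x, (∑ k ∈ Finset.range n, u k x) ^ 2 ∂ν = A at *
    generalize ∫ x, (∑ k ∈ Finset.range n, u k x) * u n x ∂ν = c at *
    generalize ∫ x, u n x ^ 2 ∂ν = B at *
    have hcle : c ≤ s * b := by
      apply le_of_sq_le_sq _ (by positivity)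
      nlinarith
    nlinarith

/-- MODULE SETUP -/
theorem setup_of (Q : Kernel S S) [IsMarkovKernel Q] (ν : Measure S) [IsProbabilityMeasure ν]
    (f : S → ℝ) (hinv : ν.bind Q = ν)
    (hf : Measurable f) (hfL : MemLp f 2 ν)
    (h1 : Summable (fun k : ℕ => ∫ x, ((Pop Q)^[k+1] f x) ^ 2 ∂ν))
    (h2 : ∃ c : ℕ → ℝ, Summable c ∧ ∀ k : ℕ, ∀ g : S → ℝ, Measurable g →
        (∃ C : ℝ, ∀ x, |g x| ≤ C) → ∫ x, g x ^ 2 ∂ν ≤ 1 →
        (∫ x, f x * (Pop Q)^[k+1] g x ∂ν) ^ 2 ≤ c k) :
    ∃ Eb : ℕ → ℝ, Setup Q ν f hf Eb := by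
  obtain ⟨c, hc, hck⟩ := h2
  have hc0 : ∀ k, 0 ≤ c k := by
    intro k
    have := hck k (fun _ => 0) measurable_const ⟨0, by simp⟩ (by simp)
    exact le_trans (sq_nonneg _) this
  -- homogeneity
  have hhom : ∀ k : ℕ, ∀ g : S → ℝ, Measurable g → (∃ C : ℝ, ∀ x, |g x| ≤ C) →
      (∫ x, f x * (Pop Q)^[k+1] g x ∂ν) ^ 2 ≤ c k * ∫ x, g x ^ 2 ∂ν := by
    intro k g hg hb
    obtain ⟨C, hC⟩ := hb
    set N := ∫ x, g x ^ 2 ∂ν with hN
    have hN0 : 0 ≤ N := integral_nonneg (fun x => sq_nonneg _)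
    set I := ∫ x, f x * (Pop Q)^[k+1] g x ∂ν with hI
    have key : ∀ a : ℝ, a ^ 2 * N ≤ 1 → a ^ 2 * I ^ 2 ≤ c k := by
      intro a ha
      have h := hck k (fun x => a * g x) (hg.const_mul a) ⟨|a| * C, fun x => by
        rw [abs_mul]; exact mul_le_mul_of_nonneg_left (hC x) (abs_nonneg a)⟩ (by
          have : (fun x => (a * g x) ^ 2) = fun x => a ^ 2 * g x ^ 2 := by
            funext x; ring
          rw [this, integral_const_mul]; exact ha)
      rw [Pop_const_mul] at h
      have e : (fun x => f x * (a * (Pop Q)^[k+1] g x))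
          = fun x => a * (f x * (Pop Q)^[k+1] g x) := by funext x; ring
      rw [e, integral_const_mul, mul_pow] at h
      exact h
    rcases hN0.eq_or_lt with h0 | h0
    · -- N = 0
      rw [← h0, mul_zero]
      by_contra hcon
      push Not at hcon
      have h3 := key (√((c k + 1) / I ^ 2)) (by rw [← h0]; simp)
      rw [Real.sq_sqrt (by have := hc0 k; positivity), div_mul_cancel₀ _ hcon.ne'] at h3
      linarith
    · have h3 := key (√(1 / N)) (by
        rw [Real.sq_sqrt (by positivity)]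
        rw [div_mul_cancel₀ _ h0.ne'])
      rw [Real.sq_sqrt (by positivity), div_mul_eq_mul_div, one_mul, div_le_iff₀ h0] at h3
      exact h3
  refine ⟨fun n => (∑ k ∈ Finset.range n, √(c k)) ^ 2, ?_⟩
  refine ⟨hinv, joint_int2 Q ν hinv f hf hfL, joint_marg Q ν hinv f hf, ?_, fun n => sq_nonneg _,
    ?_, ?_⟩
  · intro n g hg hb
    rw [joint_back Q ν hinv f hf hfL n g hg hb]
    set N := ∫ x, g x ^ 2 ∂ν with hN
    have hN0 : 0 ≤ N := integral_nonneg (fun x => sq_nonneg _)
    have h3 : |∑ k ∈ Finset.range n, ∫ x, f x * (Pop Q)^[k+1] g x ∂ν|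
        ≤ (∑ k ∈ Finset.range n, √(c k)) * √N := by
      refine (Finset.abs_sum_le_sum_abs _ _).trans ?_
      rw [Finset.sum_mul]
      apply Finset.sum_le_sum
      intro k _
      rw [← Real.sqrt_mul (hc0 k)]
      exact Real.abs_le_sqrt (hhom k g hg hb)
    rw [← sq_abs]
    calc |∑ k ∈ Finset.range n, ∫ x, f x * (Pop Q)^[k+1] g x ∂ν| ^ 2
        ≤ ((∑ k ∈ Finset.range n, √(c k)) * √N) ^ 2 := by gcongr
      _ = (∑ k ∈ Finset.range n, √(c k)) ^ 2 * N := by rw [mul_pow, Real.sq_sqrt hN0]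
  · apply hardy_dyadic
    refine hc.congr (fun k => ?_)
    rw [Real.sq_sqrt (hc0 k)]
  · -- forward
    have hfsq : Integrable (fun x => f x ^ 2) ν := hfL.integrable_sq
    have hk0 : ∀ k, 0 ≤ ∫ x, (Pop Q)^[k] f x ^ 2 ∂ν :=
      fun k => integral_nonneg (fun x => sq_nonneg _)
    have hS : Summable (fun k : ℕ => √(∫ x, (Pop Q)^[k] f x ^ 2 ∂ν) ^ 2) := by
      have h3 : Summable (fun k : ℕ => ∫ x, (Pop Q)^[k] f x ^ 2 ∂ν) :=
        (summable_nat_add_iff 1).1 h1
      refine h3.congr (fun k => ?_)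
      rw [Real.sq_sqrt (hk0 k)]
    have hH := hardy_dyadic _ hS
    apply Summable.of_nonneg_of_le _ _ hH
    · intro q
      apply div_nonneg _ (by positivity)
      exact integral_nonneg (fun x => sq_nonneg _)
    · intro q
      apply div_le_div_of_nonneg_right _ (by positivity)
      have e : Ef Q ν f hf (2 ^ q)
          = ∫ x, (∑ k ∈ Finset.range (2 ^ q), (Pop Q)^[k] f x) ^ 2 ∂ν := by
        apply integral_congr_ae
        filter_upwards [KN_mean Q ν hinv f hf hfL (2 ^ q)] with x hx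
        rw [hx]
      rw [e]
      exact (sqrt_sum_aux (fun k => (Pop Q)^[k] f) (measurable_Pop_iter Q hf)
        (integrable_Pop_iter_sq Q ν hinv hf hfsq) (2 ^ q)).2

end H61CLT
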