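import Pool.Agent.H61.CLT.Rec4

/-!
# Module UI: uniform integrability of the normalised squares along the dyadic blocks
-/

set_option autoImplicit false
open MeasureTheory ProbabilityTheory
open scoped ENNReal Topology

namespace H61CLT

variable {S : Type*} [mS : MeasurableSpace S]

lemma G_scale (N β x : ℝ) : G (N * β) (N * β / 2) x = N * G β (β / 2) x := by
  unfold G; ring

lemma EG_scale (ν : Measure S) (N β : ℝ) (τ : S → ℝ) :
    EG ν (N * β) (N * β / 2) τ = N * EG ν β (β / 2) τ := by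
  unfold EG
  simp_rw [G_scale]
  rw [integral_const_mul]

/-- truncated square -/
noncomputable def tr (B s : ℝ) : ℝ := if s ^ 2 ≤ B then s ^ 2 else 0

lemma tr_nonneg (B s : ℝ) : 0 ≤ tr B s := by
  unfold tr; split_ifs; exacts [sq_nonneg _, le_rfl]

lemma tr_le (B s : ℝ) : tr B s ≤ s ^ 2 := by
  unfold tr; split_ifs; exacts [le_rfl, sq_nonneg _]

lemma measurable_tr (B : ℝ) : Measurable (tr B) := by
  unfold tr
  exact Measurable.ite (measurableSet_le (measurable_id.pow_const 2) measurable_const)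
    (measurable_id.pow_const 2) measurable_const

lemma leaf_pt {B R R0 s a c : ℝ} (hB : 0 ≤ B) (ha : 1 ≤ a) (hc : 1 ≤ c) (hR : R0 ≤ R) :
    tr B s - (1 / 16) * qf R0 s
      ≤ Psi (1 / 16) R s (a * c) + G (2 * B) B a + G (2 * B) B c := by
  have ha0 : 0 < a := by linarith
  have hc0 : 0 < c := by linarith
  have hac : 1 ≤ a * c := mul_one_le ha hc
  have hac0 : 0 < a * c := by positivity
  have hG : ∀ x : ℝ, 1 ≤ x → B * (x - 1) ≤ G (2 * B) B x := by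
    intro x hx
    have hx0 : 0 < x := by linarith
    have h1 : 0 ≤ x + x⁻¹ - 2 := by
      have : x + x⁻¹ - 2 = (x - 1) ^ 2 / x := by field_simp; ring
      rw [this]; positivity
    unfold G
    have h2 : 0 ≤ B * (x + x⁻¹ - 2) := mul_nonneg hB h1
    nlinarith
  have hq : qf R (s / √(a * c)) ≤ qf R0 s := by
    refine le_trans (qf_mono ?_) (qf_anti hR)
    rw [abs_div, abs_of_nonneg (Real.sqrt_nonneg _)]
    apply div_le_self (abs_nonneg _)
    rw [Real.one_le_sqrt]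
    exact hac
  have hmain : tr B s ≤ s ^ 2 / (a * c) + G (2 * B) B a + G (2 * B) B c := by
    have h1 := hG a ha
    have h2 := hG c hc
    have h3 : 0 ≤ B * (a - 1) := mul_nonneg hB (by linarith)
    have h4 : 0 ≤ B * (c - 1) := mul_nonneg hB (by linarith)
    have h5 : 0 ≤ s ^ 2 / (a * c) := by positivity
    unfold tr
    split_ifs with hs
    · have h6 : 1 - (a * c)⁻¹ ≤ (a - 1) + (c - 1) := by
        have e1 : 1 - a⁻¹ ≤ a - 1 := by
          have : a + a⁻¹ - 2 = (a - 1) ^ 2 / a := by field_simp; ring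
          have h7 : 0 ≤ a + a⁻¹ - 2 := by rw [this]; positivity
          linarith
        have e2 : 1 - c⁻¹ ≤ c - 1 := by
          have : c + c⁻¹ - 2 = (c - 1) ^ 2 / c := by field_simp; ring
          have h7 : 0 ≤ c + c⁻¹ - 2 := by rw [this]; positivity
          linarith
        have e3 : 0 ≤ 1 - c⁻¹ := by
          have := inv_le_one_of_one_le₀ hc; linarith
        have e4 : a⁻¹ ≤ 1 := inv_le_one_of_one_le₀ ha
        have e5 : a⁻¹ * (1 - c⁻¹) ≤ 1 * (1 - c⁻¹) := by gcongr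
        have e6 : (a * c)⁻¹ = a⁻¹ * c⁻¹ := mul_inv a c
        rw [e6]
        nlinarith
      have h7 : 0 ≤ 1 - (a * c)⁻¹ := by
        have := inv_le_one_of_one_le₀ hac; linarith
      have h8 : s ^ 2 * (1 - (a * c)⁻¹) ≤ B * (1 - (a * c)⁻¹) := by gcongr
      have h9 : B * (1 - (a * c)⁻¹) ≤ B * ((a - 1) + (c - 1)) := by gcongr
      have h10 : s ^ 2 / (a * c) = s ^ 2 * (a * c)⁻¹ := div_eq_mul_inv _ _
      rw [h10]
      nlinarith
    · linarith
  unfold Psi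
  linarith

section
variable {Q : Kernel S S} [IsMarkovKernel Q] {ν : Measure S} [IsProbabilityMeasure ν]
    {f : S → ℝ} {hf : Measurable f} {Eb : ℕ → ℝ}

lemma s_meas : Measurable (fun p : S × (S × ℝ) => p.2.2) :=
  measurable_snd.comp measurable_snd

lemma tr_int (hs : Setup Q ν f hf Eb) (n : ℕ) (B : ℝ) :
    Integrable (fun p : S × (S × ℝ) => tr B p.2.2) (ν ⊗ₘ KN Q f hf n) := by
  apply Integrable.mono' (hs.int2 n) ((measurable_tr B).comp s_meas).aestronglyMeasurable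
  filter_upwards with p
  show ‖tr B p.2.2‖ ≤ _
  rw [Real.norm_eq_abs, abs_of_nonneg (tr_nonneg _ _)]
  exact tr_le _ _

lemma qf_int (hs : Setup Q ν f hf Eb) (n : ℕ) {R : ℝ} (hR : 0 ≤ R) :
    Integrable (fun p : S × (S × ℝ) => qf R p.2.2) (ν ⊗ₘ KN Q f hf n) := by
  apply Integrable.mono' (hs.int2 n) ((measurable_qf R).comp s_meas).aestronglyMeasurable
  filter_upwards with p
  show ‖qf R p.2.2‖ ≤ _
  rw [Real.norm_eq_abs, abs_of_nonneg (qf_nonneg _ _)]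
  exact qf_le_sq hR

lemma leaf (hs : Setup Q ν f hf Eb) (n : ℕ) {B R R0 : ℝ} (hB : 0 ≤ B) (hR0 : 0 ≤ R0)
    (hR : R0 ≤ R) {τu τw : S → ℝ} (hu : Wt ν τu) (hw : Wt ν τw) :
    ∫ p, tr B p.2.2 ∂(ν ⊗ₘ KN Q f hf n) - (1 / 16) * ∫ p, qf R0 p.2.2 ∂(ν ⊗ₘ KN Q f hf n)
      ≤ JN Q ν f hf (1 / 16) R n τu τw + EG ν (2 * B) B τu + EG ν (2 * B) B τw := by
  have hB2 : 0 ≤ 2 * B := by linarith
  have iu : Integrable (fun p : S × (S × ℝ) => G (2 * B) B (τu p.1)) (ν ⊗ₘ KN Q f hf n) :=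
    int_fst (g := fun x => G (2 * B) B (τu x)) (G_integrable hu hB2 hB) n
  have iw : Integrable (fun p : S × (S × ℝ) => G (2 * B) B (τw p.2.1)) (ν ⊗ₘ KN Q f hf n) :=
    int_end hs (g := fun x => G (2 * B) B (τw x)) (G_integrable hw hB2 hB) n
  have eu : EG ν (2 * B) B τu = ∫ p, G (2 * B) B (τu p.1) ∂(ν ⊗ₘ KN Q f hf n) :=
    (integral_fst (g := fun x => G (2 * B) B (τu x)) ((measurable_G _ _).comp hu.meas) n).symm
  have ew : EG ν (2 * B) B τw = ∫ p, G (2 * B) B (τw p.2.1) ∂(ν ⊗ₘ KN Q f hf n) :=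
    (integral_end hs (g := fun x => G (2 * B) B (τw x)) ((measurable_G _ _).comp hw.meas) n).symm
  have mt : Measurable (fun p : S × (S × ℝ) => τu p.1 * τw p.2.1) :=
    (hu.meas.comp measurable_fst).mul (hw.meas.comp (measurable_fst.comp measurable_snd))
  have iP : Integrable (fun p : S × (S × ℝ) => Psi (1 / 16) R p.2.2 (τu p.1 * τw p.2.1))
      (ν ⊗ₘ KN Q f hf n) := by
    apply Psi_integrable s_meas mt (hs.int2 n) _ (by norm_num) (hR0.trans hR)
    filter_upwards with p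
    exact mul_one_le (hu.one_le _) (hw.one_le _)
  have iPu : Integrable (fun p : S × (S × ℝ) => Psi (1 / 16) R p.2.2 (τu p.1 * τw p.2.1)
      + G (2 * B) B (τu p.1)) (ν ⊗ₘ KN Q f hf n) := iP.add iu
  unfold JN
  rw [eu, ew, ← integral_const_mul, ← integral_sub (tr_int hs n B)
    ((qf_int hs n hR0).const_mul (1 / 16)), ← integral_add iP iu,
    ← integral_add iPu iw]
  apply integral_mono ((tr_int hs n B).sub ((qf_int hs n hR0).const_mul (1 / 16)))
    (iPu.add iw)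
  intro p
  exact leaf_pt hB (hu.one_le _) (hw.one_le _) hR

/-- the normalised functional -/
noncomputable def jn (Q : Kernel S S) (ν : Measure S) (f : S → ℝ) (hf : Measurable f)
    (β : ℝ) (q : ℕ) (r : ℝ) (τu τw : S → ℝ) : ℝ :=
  JN Q ν f hf (1 / 16) (√(2 ^ q) * r) (2 ^ q) τu τw / 2 ^ q
    + EG ν β (β / 2) τu + EG ν β (β / 2) τw

/-- one dyadic step for the normalised functional -/
lemma jn_step (hs : Setup Q ν f hf Eb) {C : ℝ} (hC : ∀ n : ℕ, Vn Q ν f hf n ≤ C * n)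
    {β t r : ℝ} (hβ : 0 < β) (ht : 0 < t) (ht1 : t ≤ 1) (hr : r * t ^ 2 = √β)
    (q : ℕ) {τu τw : S → ℝ} (hu : Wt ν τu) (hw : Wt ν τw) :
    ∃ τu' τw' : S → ℝ, Wt ν τu' ∧ Wt ν τw' ∧
      (1 / 2) * (jn Q ν f hf β q (400 / 361 * r) τu τw'
        + jn Q ν f hf β q (400 / 361 * r) τu' τw)
        - 9 * ((Ef Q ν f hf (2 ^ q) + Eb (2 ^ q)) / 2 ^ q) - 4 * (19 / 20 * t) * C
      ≤ jn Q ν f hf β (q + 1) r τu τw := by
  set N : ℝ := 2 ^ q with hN
  have hN0 : 0 < N := by positivity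
  have hr0 : 0 ≤ r := by
    by_contra hcon
    push Not at hcon
    have h1 : r * t ^ 2 < 0 := mul_neg_of_neg_of_pos hcon (by positivity)
    have h2 := Real.sqrt_nonneg β
    linarith
  have h1 : (√N * (400 / 361 * r)) * (19 / 20 * t) ^ 2 = √(N * β) := by
    rw [Real.sqrt_mul hN0.le, ← hr]
    ring
  have hpow : (2 : ℝ) ^ (q + 1) = 2 * N := by rw [pow_succ, hN]; ring
  have h2 : 5 / 4 * (√N * (400 / 361 * r)) ≤ √(2 ^ (q + 1)) * r := by
    rw [hpow, Real.sqrt_mul (by norm_num)]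
    have h3 : (500 / 361 : ℝ) ≤ √2 := by
      apply Real.le_sqrt_of_sq_le
      norm_num
    have h4 : 0 ≤ √N * r := by positivity
    have h5 : 500 / 361 * (√N * r) ≤ √2 * (√N * r) := by gcongr
    nlinarith
  obtain ⟨τu', τw', a1, a2, a3⟩ := recJ Q ν f hf Eb hs (β := N * β) (t := 19 / 20 * t)
    (R := √N * (400 / 361 * r)) (R' := √(2 ^ (q + 1)) * r) (by positivity) (by positivity)
    (by linarith) h1 h2 (2 ^ q) τu τw hu hw
  refine ⟨τu', τw', a1, a2, ?_⟩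
  rw [EG_scale, EG_scale, EG_scale, EG_scale] at a3
  have hV := hC (2 ^ q)
  have hcast : ((2 ^ q : ℕ) : ℝ) = N := by push_cast; rfl
  rw [hcast] at hV
  have hnn : 2 ^ q + 2 ^ q = 2 ^ (q + 1) := by ring
  rw [hnn] at a3
  unfold jn
  rw [hpow]
  rw [← hN]
  rw [hpow] at a3
  generalize JN Q ν f hf (1 / 16) (√(2 * N) * r) (2 ^ (q + 1)) τu τw = J0 at *
  generalize JN Q ν f hf (1 / 16) (√N * (400 / 361 * r)) (2 ^ q) τu τw' = J1 at *
  generalize JN Q ν f hf (1 / 16) (√N * (400 / 361 * r)) (2 ^ q) τu' τw = J2 at *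
  generalize EG ν β (β / 2) τu = e1 at *
  generalize EG ν β (β / 2) τw = e2 at *
  generalize EG ν β (β / 2) τu' = e3 at *
  generalize EG ν β (β / 2) τw' = e4 at *
  generalize Ef Q ν f hf (2 ^ q) = E1 at *
  generalize Eb (2 ^ q) = E2 at *
  generalize Vn Q ν f hf (2 ^ q) = V at *
  have h6 : 8 * (19 / 20 * t) * V ≤ 8 * (19 / 20 * t) * (C * N) := by gcongr
  have h7 : J0 / (2 * N) = (J0 / 2) / N := by field_simp
  rw [h7]
  have h8 : (1 / 2) * (J1 / N + e1 + e4 + (J2 / N + e3 + e2)) - 9 * ((E1 + E2) / N)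
      - 4 * (19 / 20 * t) * C
      = ((J1 + J2) / 2 - 9 * (E1 + E2) - 4 * (19 / 20 * t) * (C * N)
        + N * ((e1 + e2 + e3 + e4) / 2)) / N := by
    field_simp
    ring
  have h9 : J0 / 2 / N + e1 + e2 = (J0 / 2 + N * (e1 + e2)) / N := by
    field_simp
    ring
  rw [h8, h9]
  apply div_le_div_of_nonneg_right _ hN0.le
  nlinarith

/-- all the dyadic steps -/
lemma jn_iter (hs : Setup Q ν f hf Eb) {C : ℝ} (hC0 : 0 ≤ C)
    (hC : ∀ n : ℕ, Vn Q ν f hf n ≤ C * n)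
    {β r0 : ℝ} (hβ : 0 < β) (hr0 : 0 ≤ r0) (q0 : ℕ) (K : ℕ) :
    ∀ (t r : ℝ), 0 < t → t ≤ 1 → r * t ^ 2 = √β → r0 ≤ r →
    ∀ (τu τw : S → ℝ), Wt ν τu → Wt ν τw →
      (∫ p, tr (2 ^ q0 * (β / 2)) p.2.2 ∂(ν ⊗ₘ KN Q f hf (2 ^ q0))
          - (1 / 16) * ∫ p, qf (√(2 ^ q0) * r0) p.2.2 ∂(ν ⊗ₘ KN Q f hf (2 ^ q0))) / 2 ^ q0
        - 9 * ∑ j ∈ Finset.range K,
            (Ef Q ν f hf (2 ^ (q0 + j)) + Eb (2 ^ (q0 + j))) / 2 ^ (q0 + j)
        - 80 * C * t
      ≤ jn Q ν f hf β (q0 + K) r τu τw := by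
  induction K with
  | zero =>
    intro t r ht ht1 hr hrr τu τw hu hw
    have h1 := leaf hs (2 ^ q0) (B := 2 ^ q0 * (β / 2)) (R := √(2 ^ q0) * r)
      (R0 := √(2 ^ q0) * r0) (by positivity) (by positivity)
      (mul_le_mul_of_nonneg_left hrr (Real.sqrt_nonneg _)) hu hw
    have e1 : 2 * ((2 : ℝ) ^ q0 * (β / 2)) = 2 ^ q0 * β := by ring
    have e2 : (2 : ℝ) ^ q0 * (β / 2) = 2 ^ q0 * β / 2 := by ring
    rw [e1] at h1
    rw [e2] at h1
    rw [EG_scale, EG_scale] at h1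
    have hN0 : (0 : ℝ) < 2 ^ q0 := by positivity
    rw [Finset.range_zero, Finset.sum_empty, mul_zero, sub_zero, add_zero, e2]
    unfold jn
    have h2 : 0 ≤ 80 * C * t := by positivity
    generalize JN Q ν f hf (1 / 16) (√(2 ^ q0) * r) (2 ^ q0) τu τw = J at *
    generalize EG ν β (β / 2) τu = e1 at *
    generalize EG ν β (β / 2) τw = e2 at *
    have h3 : J / 2 ^ q0 + e1 + e2 = (J + 2 ^ q0 * e1 + 2 ^ q0 * e2) / 2 ^ q0 := by
      field_simp
    rw [h3]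
    have h4 := div_le_div_of_nonneg_right h1 hN0.le
    linarith
  | succ K ih =>
    intro t r ht ht1 hr hrr τu τw hu hw
    obtain ⟨τu', τw', a1, a2, a3⟩ := jn_step hs hC hβ ht ht1 hr (q0 + K) hu hw
    have hr00 : 0 ≤ r := hr0.trans hrr
    have hr' : (400 / 361 * r) * (19 / 20 * t) ^ 2 = √β := by rw [← hr]; ring
    have b1 := ih (19 / 20 * t) (400 / 361 * r) (by positivity) (by linarith) hr'
      (by nlinarith) τu τw' hu a2
    have b2 := ih (19 / 20 * t) (400 / 361 * r) (by positivity) (by linarith) hr'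
      (by nlinarith) τu' τw a1 hw
    rw [Finset.sum_range_succ]
    have hCt : 0 ≤ C * t := by positivity
    have e : q0 + (K + 1) = q0 + K + 1 := rfl
    rw [e]
    nlinarith

lemma G_one (β lam : ℝ) : G β lam 1 = 0 := by unfold G; norm_num

lemma wt_one : Wt ν (fun _ : S => (1 : ℝ)) :=
  ⟨measurable_const, fun _ => le_rfl, integrable_const _⟩

lemma EG_one (β lam : ℝ) : EG ν β lam (fun _ : S => (1 : ℝ)) = 0 := by
  unfold EG
  simp [G_one]

lemma jn_top (hs : Setup Q ν f hf Eb) {β r : ℝ} (hr : 0 ≤ r) (q : ℕ) :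
    jn Q ν f hf β q r (fun _ => 1) (fun _ => 1)
      = (Vn Q ν f hf (2 ^ q)
        - (1 / 16) * ∫ p, qf (√(2 ^ q) * r) p.2.2 ∂(ν ⊗ₘ KN Q f hf (2 ^ q))) / 2 ^ q := by
  unfold jn
  rw [EG_one, add_zero, add_zero]
  congr 1
  unfold JN Vn
  rw [← integral_const_mul, ← integral_sub (hs.int2 _)
    ((qf_int hs _ (by positivity)).const_mul (1 / 16))]
  apply integral_congr_ae
  filter_upwards with p
  unfold Psi
  norm_num

/-- tails of the second moment of a fixed block -/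
lemma tail_tendsto (hs : Setup Q ν f hf Eb) (n : ℕ) :
    Filter.Tendsto (fun B : ℝ => ∫ p, (p.2.2 ^ 2 - tr B p.2.2) ∂(ν ⊗ₘ KN Q f hf n))
      Filter.atTop (𝓝 0) := by
  have h0 : (0 : ℝ) = ∫ _p : S × (S × ℝ), (0 : ℝ) ∂(ν ⊗ₘ KN Q f hf n) := by simp
  rw [h0]
  apply tendsto_integral_filter_of_dominated_convergence (fun p => p.2.2 ^ 2)
  · filter_upwards with B
    exact ((s_meas.pow_const 2).sub ((measurable_tr B).comp s_meas)).aestronglyMeasurable
  · filter_upwards with B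
    filter_upwards with p
    rw [Real.norm_eq_abs, abs_of_nonneg (by have := tr_le B p.2.2; linarith)]
    have := tr_nonneg B p.2.2
    linarith
  · exact hs.int2 n
  · filter_upwards with p
    apply tendsto_const_nhds.congr'
    filter_upwards [Filter.eventually_ge_atTop (p.2.2 ^ 2)] with B hB
    unfold tr
    rw [if_pos hB, sub_self]

lemma qf_le_tail {R B s : ℝ} (hR : 0 ≤ R) (hB : B ≤ R ^ 2) : qf R s ≤ s ^ 2 - tr B s := by
  unfold tr
  split_ifs with h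
  · have h1 : |s| ≤ R := by
      apply abs_le_of_sq_le_sq (by linarith) hR
    rw [qf_zero_of_le h1]
    simp
  · rw [sub_zero]
    exact qf_le_sq hR

lemma four_qf {r s : ℝ} (hr : 0 ≤ r) (hs : 4 * r ^ 2 ≤ s ^ 2) : s ^ 2 ≤ 4 * qf r s := by
  have h1 : 2 * r ≤ |s| := by
    by_contra hcon
    push Not at hcon
    have h2 : |s| ^ 2 < (2 * r) ^ 2 := by gcongr
    rw [sq_abs] at h2
    nlinarith
  unfold qf
  have h2 : |s| / 2 ≤ max (|s| - r) 0 := le_max_of_le_left (by linarith)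
  have h3 : 0 ≤ |s| := abs_nonneg s
  have h4 : (|s| / 2) ^ 2 ≤ (max (|s| - r) 0) ^ 2 := by gcongr
  have h5 := sq_abs s
  nlinarith

end

/-- MODULE UI -/
theorem ui' (Q : Kernel S S) [IsMarkovKernel Q] (ν : Measure S) [IsProbabilityMeasure ν]
    (f : S → ℝ) (hf : Measurable f) (Eb : ℕ → ℝ) (hs : Setup Q ν f hf Eb)
    (C : ℝ) (hC : ∀ n : ℕ, Vn Q ν f hf n ≤ C * n) (v : ℝ)
    (hv : Filter.Tendsto (fun q : ℕ => Vn Q ν f hf (2 ^ q) / 2 ^ q) Filter.atTop (𝓝 v)) :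
    ∀ ε : ℝ, 0 < ε → ∃ R : ℝ, ∀ᶠ q : ℕ in Filter.atTop,
      ∫ p, (if R ≤ p.2.2 ^ 2 / 2 ^ q then p.2.2 ^ 2 / 2 ^ q else 0)
        ∂(ν ⊗ₘ KN Q f hf (2 ^ q)) ≤ ε := by
  intro ε hε
  have hC0 : 0 ≤ C := by
    have h1 := hC 1
    have h2 : 0 ≤ Vn Q ν f hf 1 := integral_nonneg (fun p => sq_nonneg _)
    push_cast at h1
    linarith
  have hefn : ∀ n, 0 ≤ Ef Q ν f hf n := fun n => integral_nonneg (fun x => sq_nonneg _)
  set ε' : ℝ := ε / 256 with hε'
  have hε'0 : 0 < ε' := by positivity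
  -- choose t
  obtain ⟨t, ht, ht1, htC⟩ : ∃ t : ℝ, 0 < t ∧ t ≤ 1 ∧ 80 * C * t ≤ ε' := by
    refine ⟨min 1 (ε' / (80 * C + 1)), by positivity, min_le_left _ _, ?_⟩
    calc 80 * C * min 1 (ε' / (80 * C + 1)) ≤ 80 * C * (ε' / (80 * C + 1)) := by
          apply mul_le_mul_of_nonneg_left (min_le_right _ _) (by positivity)
      _ = (80 * C) / (80 * C + 1) * ε' := by ring
      _ ≤ 1 * ε' := by
          apply mul_le_mul_of_nonneg_right _ hε'0.le
          rw [div_le_one (by positivity)]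
          linarith
      _ = ε' := one_mul _
  -- summability of the errors
  have hsum : Summable (fun q : ℕ => (Ef Q ν f hf (2 ^ q) + Eb (2 ^ q)) / 2 ^ q) := by
    refine (hs.forwS.add hs.backS).congr (fun q => ?_)
    rw [add_div]
  set E : ℕ → ℝ := fun q => (Ef Q ν f hf (2 ^ q) + Eb (2 ^ q)) / 2 ^ q with hE
  have hE0 : ∀ q, 0 ≤ E q := fun q => by
    have h1 := hefn (2 ^ q)
    have h2 := hs.backN (2 ^ q)
    show 0 ≤ (Ef Q ν f hf (2 ^ q) + Eb (2 ^ q)) / 2 ^ q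
    positivity
  have htail : Filter.Tendsto (fun i => ∑' k, E (k + i)) Filter.atTop (𝓝 0) :=
    tendsto_sum_nat_add E
  have hev1 : ∀ᶠ i in Filter.atTop, ∑' k, E (k + i) < ε' / 9 :=
    htail.eventually (gt_mem_nhds (by positivity))
  have hev2 : ∀ᶠ q in Filter.atTop, |Vn Q ν f hf (2 ^ q) / 2 ^ q - v| < ε' / 2 := by
    have := Metric.tendsto_atTop.1 hv (ε' / 2) (by positivity)
    obtain ⟨N, hN⟩ := this
    filter_upwards [Filter.eventually_ge_atTop N] with q hq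
    exact hN q hq
  obtain ⟨q0, hq0⟩ := Filter.eventually_atTop.1 (hev1.and hev2)
  have hp : (0 : ℝ) < 2 ^ q0 := by positivity
  -- choose β
  have hev3 : ∀ᶠ B in Filter.atTop,
      ∫ p, (p.2.2 ^ 2 - tr B p.2.2) ∂(ν ⊗ₘ KN Q f hf (2 ^ q0)) < 2 ^ q0 * (ε' / 2) :=
    (tail_tendsto hs (2 ^ q0)).eventually (gt_mem_nhds (by positivity))
  obtain ⟨B0, hB0⟩ := Filter.eventually_atTop.1 hev3
  set β : ℝ := 2 * (max B0 1) / 2 ^ q0 with hβ
  have hβ0 : 0 < β := by positivity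
  have hB : (2 : ℝ) ^ q0 * (β / 2) = max B0 1 := by rw [hβ]; field_simp
  set r : ℝ := √β / t ^ 2 with hr
  have hr0 : 0 ≤ r := by positivity
  have hrt : r * t ^ 2 = √β := by rw [hr]; field_simp
  have htailB := hB0 (max B0 1) (le_max_left _ _)
  have hrβ : β ≤ r ^ 2 := by
    rw [hr, div_pow, Real.sq_sqrt hβ0.le, le_div_iff₀ (by positivity)]
    have : (t ^ 2) ^ 2 ≤ 1 := pow_le_one₀ (by positivity) (pow_le_one₀ ht.le ht1)
    nlinarith
  refine ⟨4 * r ^ 2, ?_⟩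
  filter_upwards [Filter.eventually_ge_atTop q0] with q hq
  obtain ⟨K, rfl⟩ := Nat.exists_eq_add_of_le hq
  have hN0 : (0 : ℝ) < 2 ^ (q0 + K) := by positivity
  have key := jn_iter hs hC0 hC hβ0 hr0 q0 K t r ht ht1 hrt le_rfl (fun _ => 1) (fun _ => 1)
    wt_one wt_one
  rw [jn_top hs hr0, hB] at key
  -- the tail at q0
  have hQ0 : ∫ p, qf (√(2 ^ q0) * r) p.2.2 ∂(ν ⊗ₘ KN Q f hf (2 ^ q0))
      ≤ ∫ p, (p.2.2 ^ 2 - tr (max B0 1) p.2.2) ∂(ν ⊗ₘ KN Q f hf (2 ^ q0)) := by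
    apply integral_mono (qf_int hs _ (by positivity)) ((hs.int2 _).sub (tr_int hs _ _))
    intro p
    apply qf_le_tail (by positivity)
    rw [← hB, mul_pow, Real.sq_sqrt hp.le]
    apply mul_le_mul_of_nonneg_left _ hp.le
    linarith
  have hsub : ∫ p, (p.2.2 ^ 2 - tr (max B0 1) p.2.2) ∂(ν ⊗ₘ KN Q f hf (2 ^ q0))
      = Vn Q ν f hf (2 ^ q0) - ∫ p, tr (max B0 1) p.2.2 ∂(ν ⊗ₘ KN Q f hf (2 ^ q0)) := by
    rw [integral_sub (hs.int2 _) (tr_int hs _ _)]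
    rfl
  have hsumle : ∑ j ∈ Finset.range K, E (q0 + j) ≤ ε' / 9 := by
    have h1 := (hq0 q0 le_rfl).1
    have h2 : Summable (fun k => E (k + q0)) := (summable_nat_add_iff q0).2 hsum
    have h3 := h2.sum_le_tsum (Finset.range K) (fun k _ => hE0 _)
    have h4 : ∑ j ∈ Finset.range K, E (q0 + j) = ∑ j ∈ Finset.range K, E (j + q0) := by
      apply Finset.sum_congr rfl
      intro j _
      rw [add_comm]
    rw [h4]
    linarith
  have hv1 := (hq0 (q0 + K) (by omega)).2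
  have hv0 := (hq0 q0 le_rfl).2
  -- final estimate
  have hfin : ∫ p, (if 4 * r ^ 2 ≤ p.2.2 ^ 2 / 2 ^ (q0 + K) then p.2.2 ^ 2 / 2 ^ (q0 + K) else 0)
        ∂(ν ⊗ₘ KN Q f hf (2 ^ (q0 + K)))
      ≤ 4 * (∫ p, qf (√(2 ^ (q0 + K)) * r) p.2.2 ∂(ν ⊗ₘ KN Q f hf (2 ^ (q0 + K))))
        / 2 ^ (q0 + K) := by
    rw [← integral_const_mul, ← integral_div]
    apply integral_mono_of_nonneg
    · filter_upwards with p
      show 0 ≤ (if 4 * r ^ 2 ≤ p.2.2 ^ 2 / 2 ^ (q0 + K) then p.2.2 ^ 2 / 2 ^ (q0 + K) else 0)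
      split_ifs
      · positivity
      · exact le_rfl
    · exact ((qf_int hs _ (by positivity)).const_mul 4).div_const _
    · filter_upwards with p
      show (if 4 * r ^ 2 ≤ p.2.2 ^ 2 / 2 ^ (q0 + K) then p.2.2 ^ 2 / 2 ^ (q0 + K) else 0)
        ≤ 4 * qf (√(2 ^ (q0 + K)) * r) p.2.2 / 2 ^ (q0 + K)
      split_ifs with h
      · apply div_le_div_of_nonneg_right _ hN0.le
        apply four_qf (by positivity)
        rw [mul_pow, Real.sq_sqrt hN0.le]
        rw [le_div_iff₀ hN0] at h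
        linarith
      · have := qf_nonneg (√(2 ^ (q0 + K)) * r) p.2.2
        positivity
  refine hfin.trans ?_
  change _ - 9 * ∑ j ∈ Finset.range K, E (q0 + j) - 80 * C * t ≤ _ at key
  rw [sub_div, sub_div] at key
  rw [hsub] at hQ0 htailB
  rw [abs_lt] at hv1 hv0
  generalize ∫ p, qf (√(2 ^ (q0 + K)) * r) p.2.2 ∂(ν ⊗ₘ KN Q f hf (2 ^ (q0 + K))) = I1 at *
  generalize ∫ p, qf (√(2 ^ q0) * r) p.2.2 ∂(ν ⊗ₘ KN Q f hf (2 ^ q0)) = I0 at *
  generalize ∫ p, tr (max B0 1) p.2.2 ∂(ν ⊗ₘ KN Q f hf (2 ^ q0)) = T0 at *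
  generalize Vn Q ν f hf (2 ^ (q0 + K)) / 2 ^ (q0 + K) = w1 at *
  have e1 : 4 * I1 / 2 ^ (q0 + K) = 64 * (1 / 16 * I1 / 2 ^ (q0 + K)) := by ring
  rw [e1]
  have e2 : (1 / 16 * I0) / 2 ^ q0 ≤ (1 / 16) * (ε' / 2) := by
    rw [div_le_iff₀ hp]
    linarith
  have e3 : Vn Q ν f hf (2 ^ q0) / 2 ^ q0 - T0 / 2 ^ q0 ≤ ε' / 2 := by
    rw [← sub_div, div_le_iff₀ hp]
    linarith
  linarith

end H61CLT
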