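import Pool.Agent.H61.CLT.CS

/-!
# From the one-sided variational bound to L1 convergence
-/

set_option autoImplicit false
open MeasureTheory ProbabilityTheory Filter
open scoped ENNReal Topology
namespace H61CLT

lemma vl_fixed {S : Type*} [MeasurableSpace S] {ν : Measure S} [IsProbabilityMeasure ν]
    {V : S → ℝ} (hm : Measurable V) (h0 : ∀ x, 0 ≤ V x) (hi : Integrable V ν) {v s ε : ℝ}
    (hv0 : 0 ≤ v) (hs0 : 0 < s) (hs1 : s ≤ 1)
    (hkey : ∀ τ : S → ℝ, Measurable τ → (∀ x, 1 ≤ τ x) → (∀ x, τ x ≤ 2) →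
      v / (∫ x, τ x ∂ν) - ε ≤ ∫ x, V x / τ x ∂ν) :
    ∫ x, |V x - v| ∂ν ≤ 4 / s * (|∫ x, V x ∂ν - v| + |ε|) + 2 * s * v
      + |∫ x, V x ∂ν - v| := by
  classical
  set A : Set S := {x | v < V x} with hA
  have hAm : MeasurableSet A := measurableSet_lt measurable_const hm
  set χ : S → ℝ := A.indicator (fun _ => (1 : ℝ)) with hχ
  have hχm : Measurable χ := measurable_const.indicator hAm
  have hχ0 : ∀ x, 0 ≤ χ x := fun x => Set.indicator_nonneg (fun _ _ => zero_le_one) x
  have hχ1 : ∀ x, χ x ≤ 1 := by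
    intro x
    rw [hχ]
    by_cases hx : x ∈ A
    · rw [Set.indicator_of_mem hx]
    · rw [Set.indicator_of_notMem hx]; exact zero_le_one
  have hχi : Integrable χ ν := Integrable.mono' (integrable_const (1 : ℝ)) hχm.aestronglyMeasurable
    (Filter.Eventually.of_forall fun x => by
      rw [Real.norm_eq_abs, abs_of_nonneg (hχ0 x)]; exact hχ1 x)
  have hVχ : Integrable (fun x => V x * χ x) ν :=
    Integrable.mul_bdd (c := 1) hi hχm.aestronglyMeasurable
      (Filter.Eventually.of_forall fun x => by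
        rw [Real.norm_eq_abs, abs_of_nonneg (hχ0 x)]; exact hχ1 x)
  have k := hkey (fun x => 1 + s * χ x) (measurable_const.add (hχm.const_mul s))
    (fun x => by have := hχ0 x; nlinarith) (fun x => by
      have h1 := hχ0 x
      have h2 := hχ1 x
      nlinarith)
  have e1 : ∫ x, (1 + s * χ x) ∂ν = 1 + s * ∫ x, χ x ∂ν := by
    rw [integral_add (integrable_const _) (hχi.const_mul s), integral_const_mul]
    simp
  have hs' : 0 < 1 + s := by linarith
  have e2 : ∀ x, V x / (1 + s * χ x) = V x - s / (1 + s) * (V x * χ x) := by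
    intro x
    rw [hχ]
    by_cases hx : x ∈ A
    · rw [Set.indicator_of_mem hx]
      field_simp
      ring
    · rw [Set.indicator_of_notMem hx]
      simp
  simp_rw [e2] at k
  rw [e1, integral_sub hi (hVχ.const_mul _), integral_const_mul] at k
  set p := ∫ x, χ x ∂ν with hp
  have hp0 : 0 ≤ p := integral_nonneg hχ0
  have hp1 : p ≤ 1 := by
    calc p ≤ ∫ _x, (1 : ℝ) ∂ν := integral_mono hχi (integrable_const _) hχ1
      _ = 1 := by simp
  have h1 : v * (1 - s * p) ≤ v / (1 + s * p) := by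
    rw [le_div_iff₀ (by positivity)]
    have : 0 ≤ v * (s * p) ^ 2 := by positivity
    nlinarith
  set W := ∫ x, V x * χ x ∂ν with hW
  set E := ∫ x, V x ∂ν with hE
  have h2 : s / (1 + s) * W ≤ E - v + v * s * p + ε := by nlinarith
  have h3 : W ≤ (1 + s) / s * (E - v + v * s * p + ε) := by
    have h4 : (1 + s) / s * (s / (1 + s) * W) ≤ (1 + s) / s * (E - v + v * s * p + ε) := by
      gcongr
    have h5 : (1 + s) / s * (s / (1 + s) * W) = W := by field_simp
    linarith
  have e3 : ∀ x, |V x - v| = 2 * (V x * χ x) - 2 * v * χ x - (V x - v) := by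
    intro x
    rw [hχ]
    by_cases hx : x ∈ A
    · rw [Set.indicator_of_mem hx]
      have : v < V x := hx
      rw [abs_of_pos (by linarith)]; ring
    · rw [Set.indicator_of_notMem hx]
      have : ¬ v < V x := hx
      rw [abs_of_nonpos (by linarith)]; ring
  simp_rw [e3]
  have i1 : Integrable (fun x => 2 * (V x * χ x) - 2 * v * χ x) ν :=
    (hVχ.const_mul 2).sub (hχi.const_mul (2 * v))
  have i2 : Integrable (fun x => V x - v) ν := hi.sub (integrable_const _)
  rw [integral_sub i1 i2, integral_sub (hVχ.const_mul 2) (hχi.const_mul (2 * v)),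
    integral_const_mul, integral_const_mul, integral_sub hi (integrable_const _)]
  have e4 : ∫ _x : S, v ∂ν = v := by simp
  rw [e4]
  have h6 : (1 + s) / s * (v * s * p) = v * p + s * v * p := by field_simp
  have h7 : (1 + s) / s ≤ 2 / s := by gcongr; linarith
  have h8 : (1 + s) / s * (E - v + ε) ≤ 2 / s * (|E - v| + |ε|) := by
    have h9 : E - v + ε ≤ |E - v| + |ε| := add_le_add (le_abs_self _) (le_abs_self _)
    calc (1 + s) / s * (E - v + ε) ≤ (1 + s) / s * (|E - v| + |ε|) := by gcongr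
      _ ≤ 2 / s * (|E - v| + |ε|) := by gcongr
  have h10 : (1 + s) / s * (E - v + v * s * p + ε)
      = (1 + s) / s * (E - v + ε) + (1 + s) / s * (v * s * p) := by ring
  have h11 : s * v * p ≤ s * v := by
    have : 0 ≤ s * v := by positivity
    nlinarith
  have h12 : -(E - v) ≤ |E - v| := neg_le_abs _
  have h13 : 4 / s * (|E - v| + |ε|) = 2 * (2 / s * (|E - v| + |ε|)) := by ring
  rw [h13]
  linarith

theorem vl_final {S : Type*} [MeasurableSpace S] {nu : Measure S} [IsProbabilityMeasure nu]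
    {V : ℕ → S → ℝ} (hm : ∀ q, Measurable (V q)) (h0 : ∀ q x, 0 ≤ V q x)
    (hi : ∀ q, Integrable (V q) nu) (v : ℝ) (hv0 : 0 ≤ v)
    (hv : Tendsto (fun q => ∫ x, V q x ∂nu) atTop (nhds v))
    (hkey : ∀ eps : ℝ, 0 < eps → ∀ᶠ q in atTop, ∀ tau : S → ℝ, Measurable tau →
      (∀ x, 1 ≤ tau x) → (∀ x, tau x ≤ 2) →
      v / (∫ x, tau x ∂nu) - eps ≤ ∫ x, V q x / tau x ∂nu) :
    Tendsto (fun q => ∫ x, |V q x - v| ∂nu) atTop (nhds 0) := by
  rw [Metric.tendsto_nhds]
  intro η hη
  set s := min 1 (η / (8 * (v + 1))) with hs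
  have hs0 : 0 < s := lt_min one_pos (by positivity)
  have hs1 : s ≤ 1 := min_le_left _ _
  have hs2 : s * v ≤ η / 8 := by
    have h1 : s ≤ η / (8 * (v + 1)) := min_le_right _ _
    rw [le_div_iff₀ (by positivity)] at h1
    nlinarith
  set ε := s * η / 32 with hε
  have hε0 : 0 < ε := by positivity
  have ev1 : ∀ᶠ q in atTop, |∫ x, V q x ∂nu - v| < ε := by
    have := Metric.tendsto_nhds.1 hv ε hε0
    simpa [Real.dist_eq] using this
  filter_upwards [ev1, hkey ε hε0] with q hq1 hq2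
  have h1 := vl_fixed (hm q) (h0 q) (hi q) hv0 hs0 hs1 hq2
  have h2 : 0 ≤ ∫ x, |V q x - v| ∂nu := integral_nonneg fun x => abs_nonneg _
  rw [Real.dist_eq, sub_zero, abs_of_nonneg h2]
  have h3 : |ε| = ε := abs_of_pos hε0
  rw [h3] at h1
  have h4 : 4 / s * (|∫ x, V q x ∂nu - v| + ε) ≤ 4 / s * (ε + ε) := by gcongr
  have h5 : 4 / s * (ε + ε) = η / 4 := by
    rw [hε]; field_simp; norm_num
  have h6 : ε ≤ η / 32 := by
    rw [hε]
    have : s * η ≤ 1 * η := by gcongr
    linarith
  linarith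

end H61CLT
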