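import Pool.Agent.H61.CLT.VL4

/-!
# The conditional second moment is almost invariant
-/

set_option autoImplicit false
set_option linter.unusedSectionVars false
open MeasureTheory ProbabilityTheory Filter
open scoped ENNReal Topology

namespace H61CLT

variable {S : Type*} [mS : MeasurableSpace S]
variable {Q : Kernel S S} [IsMarkovKernel Q] {ν : Measure S} [IsProbabilityMeasure ν]
    {f : S → ℝ} {hf : Measurable f}

/-- gluing map on the joint law -/
def addmap (t : (S × (S × ℝ)) × (S × ℝ)) : S × (S × ℝ) := (t.1.1, (t.2.1, t.1.2.2 + t.2.2))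

lemma measurable_addmap : Measurable (addmap : (S × (S × ℝ)) × (S × ℝ) → S × (S × ℝ)) := by
  unfold addmap
  fun_prop

lemma joint_addL (Q : Kernel S S) [IsMarkovKernel Q] (ν : Measure S) [IsProbabilityMeasure ν]
    (f : S → ℝ) (hf : Measurable f) (a b : ℕ) :
    ν ⊗ₘ KN Q f hf (a + b)
      = ((ν ⊗ₘ KN Q f hf a) ⊗ₘ
          ((KN Q f hf b).comap (fun p : S × (S × ℝ) => p.2.1) measurable_mid)).map addmap := by
  apply Measure.ext_of_lintegral
  intro F hF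
  have m1 : Measurable (fun t : (S × (S × ℝ)) × (S × ℝ) => F (addmap t)) :=
    hF.comp measurable_addmap
  rw [lintegral_map hF measurable_addmap, Measure.lintegral_compProd m1,
    Measure.lintegral_compProd hF]
  have m2 : Measurable (fun p : S × (S × ℝ) => ∫⁻ q, F (addmap (p, q))
      ∂((KN Q f hf b).comap (fun p : S × (S × ℝ) => p.2.1) measurable_mid p)) :=
    measurable_lintegral_aux (KN Q f hf b) measurable_mid m1
  rw [Measure.lintegral_compProd m2]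
  apply lintegral_congr
  intro x
  have m3 : Measurable (fun b : S × ℝ => F (x, b)) := hF.comp measurable_prodMk_left
  rw [KN_add, lintegral_glue _ _ _ m3]
  rfl

/-- integral against the joint law of a longer block -/
lemma integral_addL (Q : Kernel S S) [IsMarkovKernel Q] (ν : Measure S) [IsProbabilityMeasure ν]
    (f : S → ℝ) (hf : Measurable f) (a b : ℕ) {F : S × (S × ℝ) → ℝ} (hF : Measurable F)
    (hi : Integrable F (ν ⊗ₘ KN Q f hf (a + b))) :
    Integrable (fun p => ∫ q, F (p.1, (q.1, p.2.2 + q.2)) ∂(KN Q f hf b p.2.1))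
      (ν ⊗ₘ KN Q f hf a) ∧
    ∫ p, F p ∂(ν ⊗ₘ KN Q f hf (a + b))
      = ∫ p, ∫ q, F (p.1, (q.1, p.2.2 + q.2)) ∂(KN Q f hf b p.2.1) ∂(ν ⊗ₘ KN Q f hf a) := by
  rw [joint_addL] at hi
  have h1 : Integrable (fun t : (S × (S × ℝ)) × (S × ℝ) => F (addmap t))
      ((ν ⊗ₘ KN Q f hf a) ⊗ₘ
          ((KN Q f hf b).comap (fun p : S × (S × ℝ) => p.2.1) measurable_mid)) :=
    (integrable_map_measure hF.aestronglyMeasurable measurable_addmap.aemeasurable).1 hi
  constructor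
  · exact cp_int (T := S × ℝ) h1
  · rw [joint_addL, integral_map measurable_addmap.aemeasurable hF.aestronglyMeasurable,
      Measure.integral_compProd h1]
    rfl

lemma KN_one_ae (Q : Kernel S S) [IsMarkovKernel Q] (f : S → ℝ) (hf : Measurable f) (x : S) :
    ∀ᵐ p ∂(KN Q f hf 1 x), p.2 = f x := by
  have hm : MeasurableSet {p : S × ℝ | ¬ p.2 = f x} :=
    (measurableSet_eq_fun measurable_snd measurable_const).compl
  rw [ae_iff]
  rw [← lintegral_indicator_one hm,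
    lintegral_KN_succ Q f hf 0 x (measurable_one.indicator hm)]
  have m3 : Measurable (fun t : (S × ℝ) × S =>
      {p : S × ℝ | ¬ p.2 = f x}.indicator (1 : S × ℝ → ℝ≥0∞) (t.2, t.1.2 + f t.1.1)) :=
    (measurable_one.indicator hm).comp (measurable_stepmap hf)
  have m2 : Measurable (fun p : S × ℝ => ∫⁻ z, {p : S × ℝ | ¬ p.2 = f x}.indicator
      (1 : S × ℝ → ℝ≥0∞) (z, p.2 + f p.1) ∂(Q p.1)) :=
    Measurable.lintegral_kernel_prod_right'
      (κ := Q.comap (Prod.fst : S × ℝ → S) measurable_fst) m3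
  rw [lintegral_KN_zero Q f hf x m2]
  simp

lemma sq_int_fst (hfi : Integrable (fun x => f x ^ 2) ν) (n : ℕ) :
    Integrable (fun p : S × (S × ℝ) => f p.1 ^ 2) (ν ⊗ₘ KN Q f hf n) :=
  int_fst (g := fun x => f x ^ 2) hfi n

/-- one-step shift, tested against a bounded function -/
lemma shift_id {Eb : ℕ → ℝ} (hs : Setup Q ν f hf Eb) (hfi : Integrable (fun x => f x ^ 2) ν)
    (N : ℕ) {φ : S → ℝ} (hφ : Measurable φ) (hb : ∀ x, |φ x| ≤ 1) :
    ∫ x, φ x * Pop Q (fun y => ∫ p, p.2 ^ 2 ∂(KN Q f hf N y)) x ∂ν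
      = ∫ p, φ p.1 * (p.2.2 + f p.2.1 - f p.1) ^ 2 ∂(ν ⊗ₘ KN Q f hf N) := by
  set W : S → ℝ := fun y => ∫ p, p.2 ^ 2 ∂(KN Q f hf N y) with hW
  have hWm : Measurable W := cp_meas (κ := KN Q f hf N)
    (F := fun z : S × (S × ℝ) => z.2.2 ^ 2) (by fun_prop)
  have hWi : Integrable W ν := cp_int (hs.int2 N)
  have mF : Measurable (fun p : S × (S × ℝ) => φ p.1 * (p.2.2 - f p.1) ^ 2) :=
    (hφ.comp measurable_fst).mul
      (((measurable_snd.comp measurable_snd).sub (hf.comp measurable_fst)).pow_const 2)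
  have iF : Integrable (fun p : S × (S × ℝ) => φ p.1 * (p.2.2 - f p.1) ^ 2)
      (ν ⊗ₘ KN Q f hf (1 + N)) := by
    apply Integrable.mono' (((hs.int2 (1 + N)).const_mul 2).add
      ((sq_int_fst hfi (1 + N)).const_mul 2)) mF.aestronglyMeasurable
    filter_upwards with p
    show ‖φ p.1 * (p.2.2 - f p.1) ^ 2‖ ≤ 2 * p.2.2 ^ 2 + 2 * f p.1 ^ 2
    rw [Real.norm_eq_abs, abs_mul, abs_of_nonneg (sq_nonneg (p.2.2 - f p.1))]
    have h1 : |φ p.1| * (p.2.2 - f p.1) ^ 2 ≤ 1 * (p.2.2 - f p.1) ^ 2 := by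
      gcongr; exact hb _
    nlinarith [sq_nonneg (p.2.2 + f p.1)]
  -- first step first
  have A : ∫ p, φ p.1 * (p.2.2 - f p.1) ^ 2 ∂(ν ⊗ₘ KN Q f hf (1 + N))
      = ∫ x, φ x * Pop Q W x ∂ν := by
    rw [(integral_addL Q ν f hf 1 N mF iF).2]
    have hae : ∀ᵐ p ∂(ν ⊗ₘ KN Q f hf 1), p.2.2 = f p.1 := by
      rw [Measure.ae_compProd_iff]
      · filter_upwards with x
        exact KN_one_ae Q f hf x
      · exact measurableSet_eq_fun (measurable_snd.comp measurable_snd) (hf.comp measurable_fst)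
    have h1 : ∫ p, ∫ q, φ p.1 * (p.2.2 + q.2 - f p.1) ^ 2 ∂(KN Q f hf N p.2.1)
        ∂(ν ⊗ₘ KN Q f hf 1) = ∫ p, φ p.1 * W p.2.1 ∂(ν ⊗ₘ KN Q f hf 1) := by
      apply integral_congr_ae
      filter_upwards [hae] with p hp
      have : ∀ q : S × ℝ, φ p.1 * (p.2.2 + q.2 - f p.1) ^ 2 = φ p.1 * q.2 ^ 2 := by
        intro q; rw [hp]; ring
      simp_rw [this]
      rw [integral_const_mul]
    have i2 : Integrable (fun p : S × (S × ℝ) => φ p.1 * W p.2.1) (ν ⊗ₘ KN Q f hf 1) := by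
      refine Integrable.bdd_mul (c := 1) (int_end hs hWi 1) ?_ ?_
      · exact (hφ.comp measurable_fst).aestronglyMeasurable
      · filter_upwards with p
        exact hb _
    refine h1.trans ?_
    rw [Measure.integral_compProd i2]
    apply integral_congr_ae
    filter_upwards [KN_mean_end Q ν hs.inv f hf 1 W hWm hWi] with x hx
    show ∫ p, φ x * W p.1 ∂(KN Q f hf 1 x) = _
    rw [integral_const_mul, hx]
    rfl
  -- last step last
  have B : ∫ p, φ p.1 * (p.2.2 - f p.1) ^ 2 ∂(ν ⊗ₘ KN Q f hf (1 + N))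
      = ∫ p, φ p.1 * (p.2.2 + f p.2.1 - f p.1) ^ 2 ∂(ν ⊗ₘ KN Q f hf N) := by
    rw [add_comm 1 N] at iF ⊢
    rw [(integral_addL Q ν f hf N 1 mF iF).2]
    apply integral_congr_ae
    filter_upwards with p
    have h1 : ∫ q, φ p.1 * (p.2.2 + q.2 - f p.1) ^ 2 ∂(KN Q f hf 1 p.2.1)
        = ∫ _q, φ p.1 * (p.2.2 + f p.2.1 - f p.1) ^ 2 ∂(KN Q f hf 1 p.2.1) := by
      apply integral_congr_ae
      filter_upwards [KN_one_ae Q f hf p.2.1] with q hq
      rw [hq]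
    refine h1.trans ?_
    rw [integral_const, probReal_univ, one_smul]
  rw [← A, B]

/-- one-step shift bound -/
lemma shift_bound {Eb : ℕ → ℝ} (hs : Setup Q ν f hf Eb) (hfi : Integrable (fun x => f x ^ 2) ν)
    (N : ℕ) {φ : S → ℝ} (hφ : Measurable φ) (hb : ∀ x, |φ x| ≤ 1) :
    ∫ x, φ x * (Pop Q (fun y => ∫ p, p.2 ^ 2 ∂(KN Q f hf N y)) x
        - ∫ p, p.2 ^ 2 ∂(KN Q f hf N x)) ∂ν
      ≤ 2 * √(Vn Q ν f hf N * (4 * ∫ x, f x ^ 2 ∂ν)) + 4 * ∫ x, f x ^ 2 ∂ν := by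
  set W : S → ℝ := fun y => ∫ p, p.2 ^ 2 ∂(KN Q f hf N y) with hW
  have hWm : Measurable W := cp_meas (κ := KN Q f hf N)
    (F := fun z : S × (S × ℝ) => z.2.2 ^ 2) (by fun_prop)
  have hWi : Integrable W ν := cp_int (hs.int2 N)
  have hbdd : ∀ g : S → ℝ, Integrable g ν → Integrable (fun x => φ x * g x) ν := fun g hg =>
    Integrable.bdd_mul (c := 1) hg hφ.aestronglyMeasurable (Filter.Eventually.of_forall hb)
  have hPW := integrable_Pop Q ν hs.inv hWm hWi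
  have e1 : ∫ x, φ x * (Pop Q W x - W x) ∂ν = ∫ x, φ x * Pop Q W x ∂ν - ∫ x, φ x * W x ∂ν := by
    rw [← integral_sub (hbdd _ hPW) (hbdd _ hWi)]
    apply integral_congr_ae
    filter_upwards with x
    ring
  have i0 : Integrable (fun p : S × (S × ℝ) => φ p.1 * p.2.2 ^ 2) (ν ⊗ₘ KN Q f hf N) := by
    refine Integrable.bdd_mul (c := 1) (hs.int2 N) ?_ ?_
    · exact (hφ.comp measurable_fst).aestronglyMeasurable
    · filter_upwards with p
      exact hb _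
  have e2 : ∫ x, φ x * W x ∂ν = ∫ p, φ p.1 * p.2.2 ^ 2 ∂(ν ⊗ₘ KN Q f hf N) := by
    rw [Measure.integral_compProd i0]
    apply integral_congr_ae
    filter_upwards with x
    show φ x * W x = ∫ p, φ x * p.2 ^ 2 ∂(KN Q f hf N x)
    rw [integral_const_mul]
  set P := ν ⊗ₘ KN Q f hf N with hP
  have if1 : Integrable (fun p : S × (S × ℝ) => f p.1 ^ 2) P := sq_int_fst hfi N
  have if2 : Integrable (fun p : S × (S × ℝ) => f p.2.1 ^ 2) P :=
    int_end hs (g := fun x => f x ^ 2) hfi N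
  have ma : Measurable (fun p : S × (S × ℝ) => f p.2.1 - f p.1) :=
    (hf.comp (measurable_fst.comp measurable_snd)).sub (hf.comp measurable_fst)
  have ia : Integrable (fun p : S × (S × ℝ) => (f p.2.1 - f p.1) ^ 2) P := by
    apply Integrable.mono' ((if2.const_mul 2).add (if1.const_mul 2))
      (ma.pow_const 2).aestronglyMeasurable
    filter_upwards with p
    show ‖(f p.2.1 - f p.1) ^ 2‖ ≤ 2 * f p.2.1 ^ 2 + 2 * f p.1 ^ 2
    rw [Real.norm_eq_abs, abs_of_nonneg (sq_nonneg _)]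
    nlinarith [sq_nonneg (f p.2.1 + f p.1)]
  have ea : ∫ p : S × (S × ℝ), (f p.2.1 - f p.1) ^ 2 ∂P ≤ 4 * ∫ x, f x ^ 2 ∂ν := by
    have h1 : ∫ p : S × (S × ℝ), (f p.2.1 - f p.1) ^ 2 ∂P
        ≤ ∫ p : S × (S × ℝ), (2 * f p.2.1 ^ 2 + 2 * f p.1 ^ 2) ∂P := by
      apply integral_mono ia ((if2.const_mul 2).add (if1.const_mul 2))
      intro p
      show (f p.2.1 - f p.1) ^ 2 ≤ 2 * f p.2.1 ^ 2 + 2 * f p.1 ^ 2
      nlinarith [sq_nonneg (f p.2.1 + f p.1)]
    rw [integral_add (if2.const_mul 2) (if1.const_mul 2), integral_const_mul,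
      integral_const_mul, integral_end hs (g := fun x => f x ^ 2) (hf.pow_const 2) N,
      integral_fst (g := fun x => f x ^ 2) (hf.pow_const 2) N] at h1
    linarith
  have iU := hs.int2 N
  have mU' : Measurable (fun p : S × (S × ℝ) => p.2.2) := measurable_snd.comp measurable_snd
  have iUa : Integrable (fun p : S × (S × ℝ) => p.2.2 * (f p.2.1 - f p.1)) P :=
    integrable_mul_of_sq mU'.aestronglyMeasurable ma.aestronglyMeasurable iU ia
  have hcs : ∫ p : S × (S × ℝ), |p.2.2 * (f p.2.1 - f p.1)| ∂P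
      ≤ √(Vn Q ν f hf N * (4 * ∫ x, f x ^ 2 ∂ν)) := by
    have h1 := cs_abs iU ia iUa.abs (by filter_upwards with p; positivity)
      (by filter_upwards with p; positivity)
      (by filter_upwards with p; rw [sq_abs, mul_pow])
    refine (le_abs_self _).trans (h1.trans ?_)
    apply Real.sqrt_le_sqrt
    have h2 : 0 ≤ ∫ p : S × (S × ℝ), p.2.2 ^ 2 ∂P := integral_nonneg fun p => sq_nonneg _
    exact mul_le_mul_of_nonneg_left ea h2
  have i3 : Integrable (fun p : S × (S × ℝ) => φ p.1 * (p.2.2 + f p.2.1 - f p.1) ^ 2) P := by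
    have m3 : Measurable (fun p : S × (S × ℝ) => (p.2.2 + f p.2.1 - f p.1) ^ 2) :=
      ((mU'.add (hf.comp (measurable_fst.comp measurable_snd))).sub
        (hf.comp measurable_fst)).pow_const 2
    apply Integrable.mono' ((iU.const_mul 2).add (ia.const_mul 2))
      ((hφ.comp measurable_fst).mul m3).aestronglyMeasurable
    filter_upwards with p
    show ‖φ p.1 * (p.2.2 + f p.2.1 - f p.1) ^ 2‖
      ≤ 2 * p.2.2 ^ 2 + 2 * (f p.2.1 - f p.1) ^ 2
    rw [Real.norm_eq_abs, abs_mul, abs_of_nonneg (sq_nonneg (p.2.2 + f p.2.1 - f p.1))]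
    have h1 : |φ p.1| * (p.2.2 + f p.2.1 - f p.1) ^ 2
        ≤ 1 * (p.2.2 + f p.2.1 - f p.1) ^ 2 := by
      gcongr; exact hb _
    nlinarith [sq_nonneg (p.2.2 - (f p.2.1 - f p.1))]
  rw [e1, e2, shift_id hs hfi N hφ hb, ← integral_sub i3 i0]
  have h5 : ∫ p, (φ p.1 * (p.2.2 + f p.2.1 - f p.1) ^ 2 - φ p.1 * p.2.2 ^ 2) ∂P
      ≤ ∫ p, (2 * |p.2.2 * (f p.2.1 - f p.1)| + (f p.2.1 - f p.1) ^ 2) ∂P := by
    apply integral_mono (i3.sub i0) ((iUa.abs.const_mul 2).add ia)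
    intro p
    show φ p.1 * (p.2.2 + f p.2.1 - f p.1) ^ 2 - φ p.1 * p.2.2 ^ 2
      ≤ 2 * |p.2.2 * (f p.2.1 - f p.1)| + (f p.2.1 - f p.1) ^ 2
    have h6 : φ p.1 * (p.2.2 + f p.2.1 - f p.1) ^ 2 - φ p.1 * p.2.2 ^ 2
        = φ p.1 * (2 * (p.2.2 * (f p.2.1 - f p.1)) + (f p.2.1 - f p.1) ^ 2) := by ring
    rw [h6]
    have h7 : φ p.1 * (2 * (p.2.2 * (f p.2.1 - f p.1)) + (f p.2.1 - f p.1) ^ 2)
        ≤ |φ p.1| * |2 * (p.2.2 * (f p.2.1 - f p.1)) + (f p.2.1 - f p.1) ^ 2| := by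
      rw [← abs_mul]; exact le_abs_self _
    have h8 : |φ p.1| * |2 * (p.2.2 * (f p.2.1 - f p.1)) + (f p.2.1 - f p.1) ^ 2|
        ≤ 1 * |2 * (p.2.2 * (f p.2.1 - f p.1)) + (f p.2.1 - f p.1) ^ 2| := by
      gcongr; exact hb _
    have h9 := abs_add_le (2 * (p.2.2 * (f p.2.1 - f p.1))) ((f p.2.1 - f p.1) ^ 2)
    rw [abs_mul 2, abs_of_pos (show (0:ℝ) < 2 by norm_num),
      abs_of_nonneg (sq_nonneg (f p.2.1 - f p.1))] at h9
    linarith
  rw [integral_add (iUa.abs.const_mul 2) ia, integral_const_mul] at h5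
  linarith

/-- one-step shift in `L¹` -/
lemma shift_L1 {Eb : ℕ → ℝ} (hs : Setup Q ν f hf Eb) (hfi : Integrable (fun x => f x ^ 2) ν)
    (N : ℕ) :
    ∫ x, |Pop Q (fun y => ∫ p, p.2 ^ 2 ∂(KN Q f hf N y)) x
        - ∫ p, p.2 ^ 2 ∂(KN Q f hf N x)| ∂ν
      ≤ 2 * √(Vn Q ν f hf N * (4 * ∫ x, f x ^ 2 ∂ν)) + 4 * ∫ x, f x ^ 2 ∂ν := by
  set W : S → ℝ := fun y => ∫ p, p.2 ^ 2 ∂(KN Q f hf N y) with hW
  have hWm : Measurable W := cp_meas (κ := KN Q f hf N)
    (F := fun z : S × (S × ℝ) => z.2.2 ^ 2) (by fun_prop)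
  have hum : Measurable (fun x => Pop Q W x - W x) := (measurable_Pop Q hWm).sub hWm
  let φ : S → ℝ := fun x => if 0 ≤ Pop Q W x - W x then 1 else -1
  have hφm : Measurable φ :=
    Measurable.ite (measurableSet_le measurable_const hum) measurable_const measurable_const
  have hφb : ∀ x, |φ x| ≤ 1 := by
    intro x
    show |if 0 ≤ Pop Q W x - W x then (1 : ℝ) else -1| ≤ 1
    split_ifs <;> simp
  refine le_trans (le_of_eq ?_) (shift_bound hs hfi N hφm hφb)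
  apply integral_congr_ae
  filter_upwards with x
  show |Pop Q W x - W x| = (if 0 ≤ Pop Q W x - W x then 1 else -1) * (Pop Q W x - W x)
  split_ifs with hc
  · rw [abs_of_nonneg hc, one_mul]
  · rw [abs_of_nonpos (le_of_not_ge hc)]; ring

/-- normalised conditional second moment -/
noncomputable def VQ (Q : Kernel S S) (f : S → ℝ) (hf : Measurable f) (q : ℕ) (x : S) : ℝ :=
  (∫ p, p.2 ^ 2 ∂(KN Q f hf (2 ^ q) x)) / 2 ^ q

lemma VQ_meas (q : ℕ) : Measurable (VQ Q f hf q) :=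
  (cp_meas (κ := KN Q f hf (2 ^ q)) (F := fun z : S × (S × ℝ) => z.2.2 ^ 2)
      (by fun_prop)).div_const _

lemma VQ_int {Eb : ℕ → ℝ} (hs : Setup Q ν f hf Eb) (q : ℕ) : Integrable (VQ Q f hf q) ν :=
  (cp_int (hs.int2 (2 ^ q))).div_const _

lemma pop_shift_one {Eb : ℕ → ℝ} (hs : Setup Q ν f hf Eb)
    (hfi : Integrable (fun x => f x ^ 2) ν) (C : ℝ) (hC : ∀ n : ℕ, Vn Q ν f hf n ≤ C * n) :
    Tendsto (fun q => ∫ x, |Pop Q (VQ Q f hf q) x - VQ Q f hf q x| ∂ν) atTop (nhds 0) := by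
  set F := ∫ x, f x ^ 2 ∂ν with hF
  have hF0 : 0 ≤ F := integral_nonneg fun x => sq_nonneg _
  have hC0 : 0 ≤ C := by
    have h1 := hC 1
    have h2 : 0 ≤ Vn Q ν f hf 1 := integral_nonneg (fun p => sq_nonneg _)
    push_cast at h1
    linarith
  have hbound : ∀ q : ℕ, ∫ x, |Pop Q (VQ Q f hf q) x - VQ Q f hf q x| ∂ν
      ≤ 2 * √(C * (4 * F)) * (√(2 ^ q))⁻¹ + 4 * F * (2 ^ q)⁻¹ := by
    intro q
    have hn : (0 : ℝ) < 2 ^ q := by positivity
    have e1 : ∀ x, |Pop Q (VQ Q f hf q) x - VQ Q f hf q x|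
        = |Pop Q (fun y => ∫ p, p.2 ^ 2 ∂(KN Q f hf (2 ^ q) y)) x
          - ∫ p, p.2 ^ 2 ∂(KN Q f hf (2 ^ q) x)| * (2 ^ q)⁻¹ := by
      intro x
      have e2 : Pop Q (VQ Q f hf q) x
          = Pop Q (fun y => ∫ p, p.2 ^ 2 ∂(KN Q f hf (2 ^ q) y)) x / 2 ^ q := by
        unfold Pop VQ
        rw [integral_div]
      rw [e2]
      unfold VQ
      rw [← sub_div, abs_div, abs_of_pos hn]
      rfl
    simp_rw [e1]
    rw [integral_mul_const]
    have h1 := shift_L1 hs hfi (2 ^ q)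
    have h2 : √(Vn Q ν f hf (2 ^ q) * (4 * F)) ≤ √(C * (4 * F)) * √(2 ^ q) := by
      rw [← Real.sqrt_mul (by positivity)]
      apply Real.sqrt_le_sqrt
      have h3 := hC (2 ^ q)
      push_cast at h3
      calc Vn Q ν f hf (2 ^ q) * (4 * F) ≤ (C * 2 ^ q) * (4 * F) := by gcongr
        _ = C * (4 * F) * 2 ^ q := by ring
    have h4 : (∫ x, |Pop Q (fun y => ∫ p, p.2 ^ 2 ∂(KN Q f hf (2 ^ q) y)) x
          - ∫ p, p.2 ^ 2 ∂(KN Q f hf (2 ^ q) x)| ∂ν) * (2 ^ q)⁻¹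
        ≤ (2 * (√(C * (4 * F)) * √(2 ^ q)) + 4 * F) * (2 ^ q)⁻¹ := by
      gcongr
      linarith
    refine h4.trans (le_of_eq ?_)
    have h5 : √(2 ^ q) * (2 ^ q)⁻¹ = (√((2 : ℝ) ^ q))⁻¹ := by
      have h6 : √((2 : ℝ) ^ q) * √(2 ^ q) = 2 ^ q := Real.mul_self_sqrt hn.le
      have h7 : 0 < √((2 : ℝ) ^ q) := Real.sqrt_pos.2 hn
      field_simp
      rw [sq]; linarith
    rw [add_mul, ← h5]
    ring
  have hlim : Tendsto (fun q : ℕ => 2 * √(C * (4 * F)) * (√((2 : ℝ) ^ q))⁻¹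
      + 4 * F * ((2 : ℝ) ^ q)⁻¹) atTop (nhds (2 * √(C * (4 * F)) * 0 + 4 * F * 0)) := by
    have h1 : Tendsto (fun q : ℕ => (2 : ℝ) ^ q) atTop atTop :=
      tendsto_pow_atTop_atTop_of_one_lt (by norm_num)
    have h2 : Tendsto (fun q : ℕ => ((2 : ℝ) ^ q)⁻¹) atTop (nhds 0) :=
      tendsto_inv_atTop_zero.comp h1
    have h3 : Tendsto (fun q : ℕ => (√((2 : ℝ) ^ q))⁻¹) atTop (nhds 0) :=
      tendsto_inv_atTop_zero.comp (Real.tendsto_sqrt_atTop.comp h1)
    exact (h3.const_mul _).add (h2.const_mul _)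
  simp only [mul_zero, add_zero] at hlim
  exact squeeze_zero (fun q => integral_nonneg fun x => abs_nonneg _) hbound hlim

lemma pop_L1 (hinv : ν.bind Q = ν) {u w : S → ℝ} (hum : Measurable u) (hwm : Measurable w)
    (hu : Integrable u ν) (hw : Integrable w ν) :
    ∫ x, |Pop Q u x - Pop Q w x| ∂ν ≤ ∫ x, |u x - w x| ∂ν := by
  have hd : Integrable (fun x => |u x - w x|) ν := (hu.sub hw).abs
  have hdm : Measurable (fun x => |u x - w x|) := (hum.sub hwm).abs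
  rw [← integral_Pop Q ν hinv hd]
  apply integral_mono_ae
  · exact ((integrable_Pop Q ν hinv hum hu).sub (integrable_Pop Q ν hinv hwm hw)).abs
  · exact integrable_Pop Q ν hinv hdm hd
  · filter_upwards [ae_integrable_kernel Q ν hinv hu, ae_integrable_kernel Q ν hinv hw]
      with x h1 h2
    show |Pop Q u x - Pop Q w x| ≤ ∫ y, |u y - w y| ∂(Q x)
    unfold Pop
    rw [← integral_sub h1 h2]
    exact abs_integral_le_integral_abs

theorem pop_shift {Eb : ℕ → ℝ} (hs : Setup Q ν f hf Eb)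
    (hfi : Integrable (fun x => f x ^ 2) ν)
    (C : ℝ) (hC : ∀ n : ℕ, Vn Q ν f hf n ≤ C * n) (r : ℕ) :
    Tendsto (fun q => ∫ x, |(Pop Q)^[r] (VQ Q f hf q) x - VQ Q f hf q x| ∂ν) atTop
      (nhds 0) := by
  have hPV : ∀ q r, Measurable ((Pop Q)^[r] (VQ Q f hf q)) ∧
      Integrable ((Pop Q)^[r] (VQ Q f hf q)) ν := by
    intro q r
    induction r with
    | zero => exact ⟨VQ_meas q, VQ_int hs q⟩
    | succ r ih =>
      rw [Function.iterate_succ_apply']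
      exact ⟨measurable_Pop Q ih.1, integrable_Pop Q ν hs.inv ih.1 ih.2⟩
  induction r with
  | zero => simp
  | succ r ih =>
    have h1 := ih.add (pop_shift_one hs hfi C hC)
    rw [add_zero] at h1
    refine squeeze_zero (fun q => integral_nonneg fun x => abs_nonneg _) (fun q => ?_) h1
    have h2 := pop_L1 hs.inv (hPV q r).1 (VQ_meas q) (hPV q r).2 (VQ_int hs q)
    have i1 : Integrable (fun x => |Pop Q ((Pop Q)^[r] (VQ Q f hf q)) x
        - Pop Q (VQ Q f hf q) x|) ν :=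
      ((integrable_Pop Q ν hs.inv (hPV q r).1 (hPV q r).2).sub
        (integrable_Pop Q ν hs.inv (VQ_meas q) (VQ_int hs q))).abs
    have i2 : Integrable (fun x => |Pop Q (VQ Q f hf q) x - VQ Q f hf q x|) ν :=
      ((integrable_Pop Q ν hs.inv (VQ_meas q) (VQ_int hs q)).sub (VQ_int hs q)).abs
    have h3 : ∫ x, |(Pop Q)^[r + 1] (VQ Q f hf q) x - VQ Q f hf q x| ∂ν
        ≤ ∫ x, (|Pop Q ((Pop Q)^[r] (VQ Q f hf q)) x - Pop Q (VQ Q f hf q) x|
          + |Pop Q (VQ Q f hf q) x - VQ Q f hf q x|) ∂ν := by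
      apply integral_mono (((hPV q (r + 1)).2.sub (VQ_int hs q)).abs) (i1.add i2)
      intro x
      show |(Pop Q)^[r + 1] (VQ Q f hf q) x - VQ Q f hf q x| ≤ _ + _
      rw [Function.iterate_succ_apply']
      exact abs_sub_le _ _ _
    rw [integral_add i1 i2] at h3
    linarith

end H61CLT
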