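import Pool.Agent.H61.CLT.VL7
import Pool.Agent.H61.CLT.VLFinal
import Pool.Agent.H61.CLT.VLShift

/-!
# Convergence of the conditional second moments
-/

set_option autoImplicit false
set_option linter.unusedSectionVars false
open MeasureTheory ProbabilityTheory Filter
open scoped ENNReal Topology

namespace H61CLT

variable {S : Type*} [mS : MeasurableSpace S]

theorem vlim (Q : Kernel S S) [IsMarkovKernel Q] (ν : Measure S) [IsProbabilityMeasure ν]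
    (f : S → ℝ) (hf : Measurable f) (hfL : MemLp f 2 ν) (Eb : ℕ → ℝ) (hs : Setup Q ν f hf Eb)
    (herg : ∀ A : Set S, MeasurableSet A →
      (∀ᵐ x ∂ν, Q x A = A.indicator (fun _ => (1 : ENNReal)) x) → ν A = 0 ∨ ν A = 1)
    (C : ℝ) (hC : ∀ n : ℕ, Vn Q ν f hf n ≤ C * n)
    (v : NNReal) (hv : Filter.Tendsto (fun q : ℕ => Vn Q ν f hf (2 ^ q) / 2 ^ q) Filter.atTop
      (𝓝 (v : ℝ)))
    (hUI : ∀ ε : ℝ, 0 < ε → ∃ R : ℝ, ∀ᶠ q : ℕ in atTop,
      ∫ p, (if R ≤ p.2.2 ^ 2 / 2 ^ q then p.2.2 ^ 2 / 2 ^ q else 0)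
        ∂(ν ⊗ₘ KN Q f hf (2 ^ q)) ≤ ε) :
    Filter.Tendsto (fun q : ℕ =>
      ∫ x, |(∫ p, p.2 ^ 2 ∂(KN Q f hf (2 ^ q) x)) / 2 ^ q - v| ∂ν) Filter.atTop (𝓝 0) := by
  have hVi : ∀ q, Integrable (fun x => (∫ p, p.2 ^ 2 ∂(KN Q f hf (2 ^ q) x)) / 2 ^ q) ν := by
    intro q
    exact (cp_int (hs.int2 (2 ^ q))).div_const _
  apply vl_final (V := fun q x => (∫ p, p.2 ^ 2 ∂(KN Q f hf (2 ^ q) x)) / 2 ^ q)
  · intro q
    exact (cp_meas (κ := KN Q f hf (2 ^ q)) (F := fun z : S × (S × ℝ) => z.2.2 ^ 2)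
      (by fun_prop)).div_const _
  · intro q x
    have : 0 ≤ ∫ p, p.2 ^ 2 ∂(KN Q f hf (2 ^ q) x) := integral_nonneg fun p => sq_nonneg _
    positivity
  · exact hVi
  · exact v.2
  · refine hv.congr (fun q => ?_)
    unfold Vn
    rw [Measure.integral_compProd (hs.int2 (2 ^ q)), integral_div]
  · have hfi : Integrable (fun x => f x ^ 2) ν :=
      (memLp_two_iff_integrable_sq hf.aestronglyMeasurable).1 hfL
    exact vl_key hs herg v hv hUI _ (fun q x => rfl) (pop_shift hs hfi C hC)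

end H61CLT
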