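import Pool.Agent.H61.CLT.VLShift

/-!
# Second moments of the partial sums
-/

set_option autoImplicit false
set_option linter.unusedSectionVars false
open MeasureTheory ProbabilityTheory Filter
open scoped ENNReal Topology

namespace H61CLT

variable {S : Type*} [mS : MeasurableSpace S]
variable {Q : Kernel S S} [IsMarkovKernel Q] {ν : Measure S} [IsProbabilityMeasure ν]
    {f : S → ℝ} {hf : Measurable f}

/-- forward conditional mean -/
noncomputable def mN (Q : Kernel S S) (f : S → ℝ) (hf : Measurable f) (n : ℕ) (y : S) : ℝ :=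
  ∫ p, p.2 ∂(KN Q f hf n y)

lemma mN_meas (n : ℕ) : Measurable (mN Q f hf n) :=
  cp_meas (κ := KN Q f hf n) (F := fun z : S × (S × ℝ) => z.2.2) (by fun_prop)

lemma mN_sq {Eb : ℕ → ℝ} (hs : Setup Q ν f hf Eb) (n : ℕ) :
    Integrable (fun y => mN Q f hf n y ^ 2) ν ∧ Ef Q ν f hf n ≤ Vn Q ν f hf n := by
  have hWi : Integrable (fun y => ∫ p, p.2 ^ 2 ∂(KN Q f hf n y)) ν := cp_int (hs.int2 n)
  have hle : ∀ᵐ y ∂ν, mN Q f hf n y ^ 2 ≤ ∫ p, p.2 ^ 2 ∂(KN Q f hf n y) := by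
    filter_upwards [cp_ae_int (hs.int2 n)] with y hy
    exact sq_integral_le measurable_snd.aestronglyMeasurable hy
  have hi : Integrable (fun y => mN Q f hf n y ^ 2) ν := by
    apply Integrable.mono' hWi ((mN_meas n).pow_const 2).aestronglyMeasurable
    filter_upwards [hle] with y hy
    rw [Real.norm_eq_abs, abs_of_nonneg (sq_nonneg _)]
    exact hy
  refine ⟨hi, ?_⟩
  unfold Vn
  rw [Measure.integral_compProd (hs.int2 n)]
  exact integral_mono_ae hi hWi hle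

lemma cross_int {Eb : ℕ → ℝ} (hs : Setup Q ν f hf Eb) (a b : ℕ) :
    Integrable (fun p : S × (S × ℝ) => p.2.2 * mN Q f hf b p.2.1) (ν ⊗ₘ KN Q f hf a) := by
  have mU' : Measurable (fun p : S × (S × ℝ) => p.2.2) := measurable_snd.comp measurable_snd
  exact integrable_mul_of_sq mU'.aestronglyMeasurable
    ((mN_meas b).comp (measurable_fst.comp measurable_snd)).aestronglyMeasurable (hs.int2 a)
    (int_end hs (g := fun y => mN Q f hf b y ^ 2) (mN_sq hs b).1 a)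

lemma Vn_add {Eb : ℕ → ℝ} (hs : Setup Q ν f hf Eb) (a b : ℕ) :
    Vn Q ν f hf (a + b) = Vn Q ν f hf a + Vn Q ν f hf b
      + 2 * ∫ p, p.2.2 * mN Q f hf b p.2.1 ∂(ν ⊗ₘ KN Q f hf a) := by
  have mF : Measurable (fun p : S × (S × ℝ) => p.2.2 ^ 2) := by fun_prop
  have h1 := (integral_addL Q ν f hf a b mF (hs.int2 (a + b))).2
  have hWi : Integrable (fun y => ∫ p, p.2 ^ 2 ∂(KN Q f hf b y)) ν := cp_int (hs.int2 b)
  have hWm : Measurable (fun y => ∫ p, p.2 ^ 2 ∂(KN Q f hf b y)) := cp_meas (κ := KN Q f hf b)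
    (F := fun z : S × (S × ℝ) => z.2.2 ^ 2) (by fun_prop)
  have hae0 : ∀ᵐ y ∂ν, Integrable (fun q : S × ℝ => q.2 ^ 2) (KN Q f hf b y) :=
    cp_ae_int (hs.int2 b)
  have hae : ∀ᵐ p ∂(ν ⊗ₘ KN Q f hf a),
      Integrable (fun q : S × ℝ => q.2 ^ 2) (KN Q f hf b p.2.1) := by
    rw [← hs.marg a] at hae0
    exact ae_of_ae_map measurable_mid.aemeasurable hae0
  have h2 : ∫ p, ∫ q, (p.2.2 + q.2) ^ 2 ∂(KN Q f hf b p.2.1) ∂(ν ⊗ₘ KN Q f hf a)
      = ∫ p, (p.2.2 ^ 2 + 2 * (p.2.2 * mN Q f hf b p.2.1)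
        + ∫ q, q.2 ^ 2 ∂(KN Q f hf b p.2.1)) ∂(ν ⊗ₘ KN Q f hf a) := by
    apply integral_congr_ae
    filter_upwards [hae] with p hp
    have hp1 : Integrable (fun q : S × ℝ => q.2) (KN Q f hf b p.2.1) :=
      integrable_of_sq measurable_snd.aestronglyMeasurable hp
    have e : ∀ q : S × ℝ, (p.2.2 + q.2) ^ 2 = 1 * q.2 ^ 2 + (2 * p.2.2) * q.2 + p.2.2 ^ 2 := by
      intro q; ring
    simp_rw [e]
    rw [integral_lin hp hp1]
    unfold mN
    ring
  have i1 := hs.int2 a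
  have i2 := (cross_int hs a b).const_mul 2
  have i12 : Integrable (fun p : S × (S × ℝ) => p.2.2 ^ 2 + 2 * (p.2.2 * mN Q f hf b p.2.1))
      (ν ⊗ₘ KN Q f hf a) := i1.add i2
  have i3 : Integrable (fun p : S × (S × ℝ) => ∫ q, q.2 ^ 2 ∂(KN Q f hf b p.2.1))
      (ν ⊗ₘ KN Q f hf a) := int_end hs hWi a
  rw [integral_add i12 i3, integral_add i1 i2, integral_const_mul] at h2
  have h3 : ∫ p, ∫ q, q.2 ^ 2 ∂(KN Q f hf b p.2.1) ∂(ν ⊗ₘ KN Q f hf a) = Vn Q ν f hf b := by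
    have := integral_end hs hWm a
    refine this.trans ?_
    unfold Vn
    rw [Measure.integral_compProd (hs.int2 b)]
  rw [h3] at h2
  have h4 : Vn Q ν f hf (a + b)
      = ∫ p, ∫ q, (p.2.2 + q.2) ^ 2 ∂(KN Q f hf b p.2.1) ∂(ν ⊗ₘ KN Q f hf a) := h1
  have h5 : Vn Q ν f hf a = ∫ p, p.2.2 ^ 2 ∂(ν ⊗ₘ KN Q f hf a) := rfl
  rw [h4, h2, h5]
  ring

lemma Vn_nonneg (n : ℕ) : 0 ≤ Vn Q ν f hf n := integral_nonneg fun p => sq_nonneg _

lemma cross_cs {Eb : ℕ → ℝ} (hs : Setup Q ν f hf Eb) (a b : ℕ) :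
    ∫ p, p.2.2 * mN Q f hf b p.2.1 ∂(ν ⊗ₘ KN Q f hf a)
      ≤ √(Vn Q ν f hf a) * √(Vn Q ν f hf b) := by
  have mU' : Measurable (fun p : S × (S × ℝ) => p.2.2) := measurable_snd.comp measurable_snd
  have h1 := cs_mul (μ := ν ⊗ₘ KN Q f hf a) mU'.aestronglyMeasurable
    ((mN_meas b).comp (measurable_fst.comp measurable_snd)).aestronglyMeasurable (hs.int2 a)
    (int_end hs (g := fun y => mN Q f hf b y ^ 2) (mN_sq hs b).1 a)
  have h2 : ∫ p : S × (S × ℝ), mN Q f hf b p.2.1 ^ 2 ∂(ν ⊗ₘ KN Q f hf a) = Ef Q ν f hf b :=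
    integral_end hs (g := fun y => mN Q f hf b y ^ 2) ((mN_meas b).pow_const 2) a
  rw [← Real.sqrt_mul (Vn_nonneg a)]
  apply Real.le_sqrt_of_sq_le
  refine le_trans h1 ?_
  have h3 : (∫ p : S × (S × ℝ), mN Q f hf b (Prod.fst (Prod.snd p)) ^ 2 ∂(ν ⊗ₘ KN Q f hf a))
      ≤ Vn Q ν f hf b := by
    rw [h2]; exact (mN_sq hs b).2
  have h0 : 0 ≤ ∫ p : S × (S × ℝ), p.2.2 ^ 2 ∂(ν ⊗ₘ KN Q f hf a) :=
    integral_nonneg fun p => sq_nonneg _
  exact mul_le_mul_of_nonneg_left h3 h0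

lemma sqrt_Vn_add {Eb : ℕ → ℝ} (hs : Setup Q ν f hf Eb) (a b : ℕ) :
    √(Vn Q ν f hf (a + b)) ≤ √(Vn Q ν f hf a) + √(Vn Q ν f hf b) := by
  apply Real.sqrt_le_iff.2
  refine ⟨by positivity, ?_⟩
  rw [Vn_add hs]
  have h1 := cross_cs hs a b
  have h2 := Real.sq_sqrt (Vn_nonneg (Q := Q) (ν := ν) (f := f) (hf := hf) a)
  have h3 := Real.sq_sqrt (Vn_nonneg (Q := Q) (ν := ν) (f := f) (hf := hf) b)
  nlinarith

/-- the dual bound of the cross term -/
lemma cross_dual {Eb : ℕ → ℝ} (hs : Setup Q ν f hf Eb) (n : ℕ) :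
    (∫ p, p.2.2 * mN Q f hf n p.2.1 ∂(ν ⊗ₘ KN Q f hf n)) ^ 2
      ≤ Eb n * Ef Q ν f hf n := by
  set h : S → ℝ := mN Q f hf n with hh
  have hm : Measurable h := mN_meas n
  have hi : Integrable (fun x => h x ^ 2) ν := (mN_sq hs n).1
  let g : ℕ → S → ℝ := fun N x => if |h x| ≤ N then h x else 0
  have hgm : ∀ N, Measurable (g N) := fun N =>
    Measurable.ite (measurableSet_le hm.abs measurable_const) hm measurable_const
  have hgb : ∀ N, ∀ x, |g N x| ≤ N := by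
    intro N x
    show |if |h x| ≤ N then h x else 0| ≤ N
    split_ifs with hc
    · exact hc
    · simp
  have hgle : ∀ N x, |g N x| ≤ |h x| := by
    intro N x
    show |if |h x| ≤ N then h x else 0| ≤ |h x|
    split_ifs
    · exact le_rfl
    · simp
  have hlim : Tendsto (fun N : ℕ => ∫ p, p.2.2 * g N p.2.1 ∂(ν ⊗ₘ KN Q f hf n)) atTop
      (𝓝 (∫ p, p.2.2 * h p.2.1 ∂(ν ⊗ₘ KN Q f hf n))) := by
    apply tendsto_integral_of_dominated_convergence
      (fun p : S × (S × ℝ) => ‖p.2.2 * h p.2.1‖)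
    · intro N
      exact ((measurable_snd.comp measurable_snd).mul
        ((hgm N).comp (measurable_fst.comp measurable_snd))).aestronglyMeasurable
    · exact (cross_int hs n n).norm
    · intro N
      filter_upwards with p
      rw [norm_mul, norm_mul]
      gcongr
      exact hgle N _
    · filter_upwards with p
      apply Tendsto.const_mul
      obtain ⟨N0, hN0⟩ := exists_nat_ge |h p.2.1|
      apply tendsto_const_nhds.congr'
      filter_upwards [Filter.eventually_ge_atTop N0] with N hN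
      show h p.2.1 = (if |h p.2.1| ≤ N then h p.2.1 else 0)
      rw [if_pos]
      have : (N0 : ℝ) ≤ N := by exact_mod_cast hN
      linarith
  have hle : ∀ N : ℕ, (∫ p, p.2.2 * g N p.2.1 ∂(ν ⊗ₘ KN Q f hf n)) ^ 2
      ≤ Eb n * Ef Q ν f hf n := by
    intro N
    have h1 := hs.back n (g N) (hgm N) ⟨N, hgb N⟩
    refine h1.trans ?_
    apply mul_le_mul_of_nonneg_left _ (hs.backN n)
    show ∫ x, g N x ^ 2 ∂ν ≤ ∫ x, h x ^ 2 ∂ν
    apply integral_mono_of_nonneg
    · filter_upwards with x; positivity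
    · exact hi
    · filter_upwards with x
      exact sq_le_sq.2 (hgle N x)
  exact le_of_tendsto' (hlim.pow 2) hle

theorem var_tendsto (Q : Kernel S S) [IsMarkovKernel Q] (ν : Measure S) [IsProbabilityMeasure ν]
    (f : S → ℝ) (hf : Measurable f) (Eb : ℕ → ℝ) (hs : Setup Q ν f hf Eb) :
    ∃ v : NNReal, Filter.Tendsto (fun q : ℕ => Vn Q ν f hf (2 ^ q) / 2 ^ q) Filter.atTop
      (𝓝 (v : ℝ)) := by
  have hdiff : ∀ q : ℕ, |Vn Q ν f hf (2 ^ (q + 1)) / 2 ^ (q + 1) - Vn Q ν f hf (2 ^ q) / 2 ^ q|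
      ≤ Ef Q ν f hf (2 ^ q) / 2 ^ q + Eb (2 ^ q) / 2 ^ q := by
    intro q
    have hn : (0 : ℝ) < 2 ^ q := by positivity
    have h1 := Vn_add hs (2 ^ q) (2 ^ q)
    have h2 : (2 ^ q + 2 ^ q : ℕ) = 2 ^ (q + 1) := by ring
    rw [h2] at h1
    have h3 := cross_dual hs (2 ^ q)
    set X := ∫ p, p.2.2 * mN Q f hf (2 ^ q) p.2.1 ∂(ν ⊗ₘ KN Q f hf (2 ^ q)) with hX
    have h4 : |X| ≤ Ef Q ν f hf (2 ^ q) + Eb (2 ^ q) := by
      have hE1 : 0 ≤ Ef Q ν f hf (2 ^ q) := integral_nonneg fun x => sq_nonneg _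
      have hE2 := hs.backN (2 ^ q)
      apply abs_le_of_sq_le_sq _ (by positivity)
      nlinarith [mul_nonneg hE1 hE2, sq_nonneg (Ef Q ν f hf (2 ^ q)),
        sq_nonneg (Eb (2 ^ q))]
    have h5 : Vn Q ν f hf (2 ^ (q + 1)) / 2 ^ (q + 1) - Vn Q ν f hf (2 ^ q) / 2 ^ q
        = X / 2 ^ q := by
      rw [h1]
      have : (2 : ℝ) ^ (q + 1) = 2 * 2 ^ q := by ring
      rw [this]
      field_simp
      ring
    rw [h5, abs_div, abs_of_pos hn, ← add_div]
    gcongr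
  have hsum : Summable (fun q : ℕ => Ef Q ν f hf (2 ^ q) / 2 ^ q + Eb (2 ^ q) / 2 ^ q) :=
    hs.forwS.add hs.backS
  have hcau : CauchySeq (fun q : ℕ => Vn Q ν f hf (2 ^ q) / 2 ^ q) := by
    apply cauchySeq_of_summable_dist
    apply Summable.of_nonneg_of_le (fun q => dist_nonneg) _ hsum
    intro q
    rw [dist_comm, Real.dist_eq]
    exact hdiff q
  obtain ⟨v, hv⟩ := cauchySeq_tendsto_of_complete hcau
  have hv0 : 0 ≤ v := ge_of_tendsto' hv fun q => div_nonneg (Vn_nonneg _) (by positivity)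
  exact ⟨⟨v, hv0⟩, hv⟩

theorem var_growth (Q : Kernel S S) [IsMarkovKernel Q] (ν : Measure S) [IsProbabilityMeasure ν]
    (f : S → ℝ) (hf : Measurable f) (Eb : ℕ → ℝ) (hs : Setup Q ν f hf Eb) :
    ∃ C : ℝ, ∀ n : ℕ, Vn Q ν f hf n ≤ C * n := by
  obtain ⟨v, hv⟩ := var_tendsto Q ν f hf Eb hs
  obtain ⟨B, hB⟩ := hv.bddAbove_range
  have hB' : ∀ q : ℕ, Vn Q ν f hf (2 ^ q) ≤ B * 2 ^ q := by
    intro q
    have h1 : Vn Q ν f hf (2 ^ q) / 2 ^ q ≤ B := hB ⟨q, rfl⟩
    rwa [div_le_iff₀ (by positivity)] at h1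
  have hB0 : 0 ≤ B := by
    have := hB' 0
    have h2 := Vn_nonneg (Q := Q) (ν := ν) (f := f) (hf := hf) (2 ^ 0)
    simp only [pow_zero, mul_one] at this h2
    linarith
  -- square roots: w(n) ≤ 4 √B √n by strong induction
  have key : ∀ k : ℕ, ∀ n : ℕ, n < 2 ^ k → √(Vn Q ν f hf n) ≤ 3 * √B * √((2 : ℝ) ^ k) := by
    intro k
    induction k with
    | zero =>
      intro n hn
      have : n = 0 := by simpa using hn
      subst this
      have h0 : Vn Q ν f hf 0 = 0 := by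
        have h1 := Vn_add hs 0 0
        have h2 := cross_cs hs 0 0
        have h3 : Vn Q ν f hf (0 + 0) = Vn Q ν f hf 0 := rfl
        have h4 := Vn_nonneg (Q := Q) (ν := ν) (f := f) (hf := hf) 0
        -- direct computation
        unfold Vn
        rw [joint_zero_eq, integral_map]
        · simp
        · exact (measurable_id.prodMk (measurable_id.prodMk measurable_const)).aemeasurable
        · exact ((measurable_snd.comp measurable_snd).pow_const 2).aestronglyMeasurable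
      rw [h0]
      simp only [Real.sqrt_zero]
      positivity
    | succ k ih =>
      intro n hn
      have hk2 : √((2 : ℝ) ^ (k + 1)) = √2 * √((2 : ℝ) ^ k) := by
        rw [pow_succ, mul_comm, Real.sqrt_mul (by norm_num)]
      rcases lt_or_ge n (2 ^ k) with h1 | h1
      · refine (ih n h1).trans ?_
        have : √((2 : ℝ) ^ k) ≤ √((2 : ℝ) ^ (k + 1)) := by
          apply Real.sqrt_le_sqrt
          rw [pow_succ]
          have : (0 : ℝ) < 2 ^ k := by positivity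
          linarith
        gcongr
      · obtain ⟨r, rfl⟩ := Nat.exists_eq_add_of_le h1
        have hr : r < 2 ^ k := by
          rw [pow_succ] at hn; omega
        have h2 := sqrt_Vn_add hs (2 ^ k) r
        have h3 := ih r hr
        have h4 : √(Vn Q ν f hf (2 ^ k)) ≤ √B * √((2 : ℝ) ^ k) := by
          rw [← Real.sqrt_mul hB0]
          exact Real.sqrt_le_sqrt (hB' k)
        rw [hk2]
        have h5 : (4 : ℝ) / 3 ≤ √2 := by
          apply Real.le_sqrt_of_sq_le; norm_num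
        have h6 : 0 ≤ √B * √((2 : ℝ) ^ k) := by positivity
        nlinarith
  refine ⟨18 * B, fun n => ?_⟩
  rcases Nat.eq_zero_or_pos n with h0 | h0
  · subst h0
    have := key 0 0 (by norm_num)
    have h1 : Vn Q ν f hf 0 = 0 := by
      unfold Vn
      rw [joint_zero_eq, integral_map]
      · simp
      · exact (measurable_id.prodMk (measurable_id.prodMk measurable_const)).aemeasurable
      · exact ((measurable_snd.comp measurable_snd).pow_const 2).aestronglyMeasurable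
    rw [h1]; simp
  · have h1 : n < 2 ^ (Nat.log 2 n + 1) := Nat.lt_pow_succ_log_self (by norm_num) n
    have h2 : 2 ^ Nat.log 2 n ≤ n := Nat.pow_log_le_self 2 h0.ne'
    have h3 := key _ n h1
    have h4 : (2 : ℝ) ^ Nat.log 2 n ≤ n := by exact_mod_cast h2
    have h5 : Vn Q ν f hf n ≤ (3 * √B * √((2 : ℝ) ^ (Nat.log 2 n + 1))) ^ 2 := by
      rw [← Real.sq_sqrt (Vn_nonneg (Q := Q) (ν := ν) (f := f) (hf := hf) n)]
      gcongr
    have h6 : (3 * √B * √((2 : ℝ) ^ (Nat.log 2 n + 1))) ^ 2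
        = 18 * B * 2 ^ Nat.log 2 n := by
      rw [mul_pow, mul_pow, Real.sq_sqrt hB0, Real.sq_sqrt (by positivity), pow_succ]
      ring
    rw [h6] at h5
    refine h5.trans ?_
    gcongr

end H61CLT
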