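import Pool.Agent.H61.CLT.Defs
import Pool.Agent.H61.CLT.CS

/-!
# Integrals against composition products
-/

set_option autoImplicit false
open MeasureTheory ProbabilityTheory
open scoped ENNReal Topology

namespace H61CLT

variable {S : Type*} [mS : MeasurableSpace S] {T : Type*} [mT : MeasurableSpace T]

lemma cp_ae_int {ν : Measure S} [IsProbabilityMeasure ν] {κ : Kernel S T} [IsMarkovKernel κ]
    {F : S × T → ℝ} (hF : Integrable F (ν ⊗ₘ κ)) :
    ∀ᵐ x ∂ν, Integrable (fun y => F (x, y)) (κ x) :=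
  ((Measure.integrable_compProd_iff hF.aestronglyMeasurable).1 hF).1

lemma cp_int {ν : Measure S} [IsProbabilityMeasure ν] {κ : Kernel S T} [IsMarkovKernel κ]
    {F : S × T → ℝ} (hF : Integrable F (ν ⊗ₘ κ)) :
    Integrable (fun x => ∫ y, F (x, y) ∂(κ x)) ν := by
  have := Integrable.integral_compProd (κ := Kernel.const Unit ν)
    (η := Kernel.prodMkLeft Unit κ) (a := ()) (f := F) hF
  simpa using this

lemma cp_meas {κ : Kernel S T} [IsMarkovKernel κ] {F : S × T → ℝ} (hF : Measurable F) :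
    Measurable (fun x => ∫ y, F (x, y) ∂(κ x)) :=
  (StronglyMeasurable.integral_kernel_prod_right' (κ := κ) hF.stronglyMeasurable).measurable

lemma measurable_Psi (ϑ R : ℝ) : Measurable (fun p : ℝ × ℝ => Psi ϑ R p.1 p.2) := by
  unfold Psi
  have h1 : Measurable (qf R) := by unfold qf; fun_prop
  refine Measurable.sub ?_ ?_
  · exact (measurable_fst.pow_const 2).div measurable_snd
  · exact (h1.comp (measurable_fst.div measurable_snd.sqrt)).const_mul ϑ

lemma Psi_abs_le {ϑ R s t : ℝ} (hϑ : 0 ≤ ϑ) (hR : 0 ≤ R) (ht : 1 ≤ t) :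
    |Psi ϑ R s t| ≤ (1 + ϑ) * s ^ 2 := by
  unfold Psi
  have ht0 : 0 < t := by linarith
  have h1 : s ^ 2 / t ≤ s ^ 2 := div_le_self (sq_nonneg _) ht
  have h0 : 0 ≤ s ^ 2 / t := by positivity
  have h2 : qf R (s / √t) ≤ s ^ 2 / t := by
    have h1 : (s / √t) ^ 2 = s ^ 2 / t := by rw [div_pow, Real.sq_sqrt ht0.le]
    rw [← h1]
    exact qf_le_sq hR
  have h3 := qf_nonneg R (s / √t)
  have h4 : ϑ * qf R (s / √t) ≤ ϑ * s ^ 2 := by
    apply mul_le_mul_of_nonneg_left _ hϑ
    linarith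
  have h5 : 0 ≤ ϑ * qf R (s / √t) := mul_nonneg hϑ h3
  have h6 : 0 ≤ ϑ * s ^ 2 := by positivity
  rw [abs_le]
  constructor <;> nlinarith

lemma measurable_G (β lam : ℝ) : Measurable (G β lam) := by
  unfold G
  fun_prop

lemma G_abs_le {β lam t : ℝ} (hβ : 0 ≤ β) (hl : 0 ≤ lam) (ht : 1 ≤ t) :
    |G β lam t| ≤ β * t + lam := by
  unfold G
  have h1 : t⁻¹ ≤ 1 := inv_le_one_of_one_le₀ ht
  have h2 : 0 ≤ t⁻¹ := by positivity
  have h3 : lam * t⁻¹ ≤ lam * 1 := by gcongr
  have h4 : 0 ≤ lam * t⁻¹ := by positivity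
  have h5 : 0 ≤ β * t := by positivity
  have h6 : β * 1 ≤ β * t := by gcongr
  rw [abs_le]
  constructor <;> nlinarith

lemma G_integrable {ν : Measure S} [IsProbabilityMeasure ν] {τ : S → ℝ} (hτ : Wt ν τ)
    {β lam : ℝ} (hβ : 0 ≤ β) (hl : 0 ≤ lam) : Integrable (fun x => G β lam (τ x)) ν := by
  apply Integrable.mono' ((hτ.int.const_mul β).add (integrable_const lam))
    ((measurable_G β lam).comp hτ.meas).aestronglyMeasurable
  filter_upwards with x
  exact G_abs_le hβ hl (hτ.one_le x)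

/-- integrability of the functional's integrand -/
lemma Psi_integrable {α : Type*} [MeasurableSpace α] {μ : Measure α} {s t : α → ℝ}
    (hs : Measurable s) (ht : Measurable t) (hs2 : Integrable (fun x => s x ^ 2) μ)
    (ht1 : ∀ᵐ x ∂μ, 1 ≤ t x) {ϑ R : ℝ} (hϑ : 0 ≤ ϑ) (hR : 0 ≤ R) :
    Integrable (fun x => Psi ϑ R (s x) (t x)) μ := by
  apply Integrable.mono' (hs2.const_mul (1 + ϑ))
    ((measurable_Psi ϑ R).comp (hs.prodMk ht)).aestronglyMeasurable
  filter_upwards [ht1] with x hx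
  exact Psi_abs_le hϑ hR hx

lemma mul_one_le {a b : ℝ} (ha : 1 ≤ a) (hb : 1 ≤ b) : 1 ≤ a * b := by nlinarith

/-- extend the duality bound by truncation -/
lemma dual_bound {ν : Measure S} [IsProbabilityMeasure ν] {h : S → ℝ} (hm : Measurable h)
    (hi : Integrable (fun x => h x ^ 2) ν) {B : ℝ} (hB : 0 ≤ B)
    (hd : ∀ g : S → ℝ, Measurable g → (∃ C : ℝ, ∀ x, |g x| ≤ C) →
      (∫ x, h x * g x ∂ν) ^ 2 ≤ B * ∫ x, g x ^ 2 ∂ν) :
    ∫ x, h x ^ 2 ∂ν ≤ B := by
  -- truncations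
  let g : ℕ → S → ℝ := fun N x => if |h x| ≤ N then h x else 0
  have hgm : ∀ N, Measurable (g N) := fun N =>
    Measurable.ite (measurableSet_le hm.abs measurable_const) hm measurable_const
  have hgb : ∀ N, ∀ x, |g N x| ≤ N := by
    intro N x
    show |if |h x| ≤ N then h x else 0| ≤ N
    split_ifs with hc
    · exact hc
    · simp
  have hgg : ∀ N x, h x * g N x = g N x ^ 2 := by
    intro N x
    show h x * (if |h x| ≤ N then h x else 0) = (if |h x| ≤ N then h x else 0) ^ 2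
    split_ifs <;> ring
  have hle : ∀ N : ℕ, ∫ x, g N x ^ 2 ∂ν ≤ B := by
    intro N
    have h1 := hd (g N) (hgm N) ⟨N, hgb N⟩
    simp_rw [hgg] at h1
    have h2 : 0 ≤ ∫ x, g N x ^ 2 ∂ν := integral_nonneg (fun x => sq_nonneg _)
    rcases h2.lt_or_eq with h3 | h3
    · have h4 : (∫ x, g N x ^ 2 ∂ν) * (∫ x, g N x ^ 2 ∂ν) ≤ B * ∫ x, g N x ^ 2 ∂ν := by
        rw [← sq]; exact h1
      exact le_of_mul_le_mul_right h4 h3
    · rw [← h3]; exact hB
  have hlim : Filter.Tendsto (fun N : ℕ => ∫ x, g N x ^ 2 ∂ν) Filter.atTop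
      (𝓝 (∫ x, h x ^ 2 ∂ν)) := by
    apply tendsto_integral_of_dominated_convergence (fun x => h x ^ 2)
    · intro N
      exact ((hgm N).pow_const 2).aestronglyMeasurable
    · exact hi
    · intro N
      filter_upwards with x
      rw [Real.norm_eq_abs, abs_of_nonneg (sq_nonneg _)]
      show (if |h x| ≤ N then h x else 0) ^ 2 ≤ h x ^ 2
      split_ifs
      · exact le_rfl
      · simp only [ne_eq, OfNat.ofNat_ne_zero, not_false_eq_true, zero_pow]; positivity
    · filter_upwards with x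
      obtain ⟨N0, hN0⟩ := exists_nat_ge |h x|
      apply tendsto_const_nhds.congr'
      filter_upwards [Filter.eventually_ge_atTop N0] with N hN
      show h x ^ 2 = (if |h x| ≤ N then h x else 0) ^ 2
      rw [if_pos]
      have : (N0 : ℝ) ≤ N := by exact_mod_cast hN
      linarith
  exact le_of_tendsto' hlim hle

end H61CLT
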