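import Mathlib

/-!
# Kernels for a Markov chain together with an additive functional
-/

set_option autoImplicit false

open MeasureTheory ProbabilityTheory
open scoped ENNReal

namespace H61CLT

variable {S : Type*} [MeasurableSpace S]

/-- first `K`, then `L`, adding the real coordinates -/
noncomputable def glue (K L : Kernel S (S × ℝ)) : Kernel S (S × ℝ) :=
  (K ⊗ₖ (L.comap (fun p : S × (S × ℝ) => p.2.1) (measurable_fst.comp measurable_snd))).map
    (fun q : (S × ℝ) × (S × ℝ) => (q.2.1, q.1.2 + q.2.2))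

lemma measurable_gluemap :
    Measurable (fun q : (S × ℝ) × (S × ℝ) => (q.2.1, q.1.2 + q.2.2)) :=
  (measurable_fst.comp measurable_snd).prodMk
    ((measurable_snd.comp measurable_fst).add (measurable_snd.comp measurable_snd))

instance (K L : Kernel S (S × ℝ)) [IsMarkovKernel K] [IsMarkovKernel L] :
    IsMarkovKernel (glue K L) := by
  unfold glue
  exact Kernel.IsMarkovKernel.map _ measurable_gluemap

/-- one step -/
noncomputable def K1 (Q : Kernel S S) (f : S → ℝ) (hf : Measurable f) : Kernel S (S × ℝ) :=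
  Q ×ₖ Kernel.deterministic f hf

instance (Q : Kernel S S) [IsMarkovKernel Q] (f : S → ℝ) (hf : Measurable f) :
    IsMarkovKernel (K1 Q f hf) := by
  unfold K1; infer_instance

/-- the law of `(ξ_n, f(ξ_0) + ... + f(ξ_{n-1}))` for the chain started at `x` -/
noncomputable def KN (Q : Kernel S S) (f : S → ℝ) (hf : Measurable f) : ℕ → Kernel S (S × ℝ)
  | 0 => Kernel.deterministic (fun x => (x, 0)) (measurable_id.prodMk measurable_const)
  | n + 1 => glue (KN Q f hf n) (K1 Q f hf)

instance (Q : Kernel S S) [IsMarkovKernel Q] (f : S → ℝ) (hf : Measurable f) (n : ℕ) :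
    IsMarkovKernel (KN Q f hf n) := by
  induction n with
  | zero => unfold KN; infer_instance
  | succ n ih => unfold KN; infer_instance

/-- the averaging operator of the frozen statement -/
noncomputable def Pop (Q : Kernel S S) (h : S → ℝ) : S → ℝ := fun y => ∫ z, h z ∂(Q y)

lemma lintegral_glue (K L : Kernel S (S × ℝ)) [IsSFiniteKernel K] [IsSFiniteKernel L] (x : S)
    {F : S × ℝ → ℝ≥0∞} (hF : Measurable F) :
    ∫⁻ q, F q ∂(glue K L x) = ∫⁻ p, ∫⁻ q, F (q.1, p.2 + q.2) ∂(L p.1) ∂(K x) := by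
  unfold glue
  rw [Kernel.map_apply _ measurable_gluemap, lintegral_map hF measurable_gluemap]
  have h : Measurable (fun a : (S × ℝ) × (S × ℝ) => F (a.2.1, a.1.2 + a.2.2)) :=
    hF.comp measurable_gluemap
  rw [Kernel.lintegral_compProd _ _ _ h]
  rfl

lemma lintegral_K1 (Q : Kernel S S) [IsMarkovKernel Q] (f : S → ℝ) (hf : Measurable f) (x : S)
    {F : S × ℝ → ℝ≥0∞} (hF : Measurable F) :
    ∫⁻ q, F q ∂(K1 Q f hf x) = ∫⁻ z, F (z, f x) ∂(Q x) := by
  unfold K1
  rw [Kernel.prod_apply, Kernel.deterministic_apply, lintegral_prod _ hF.aemeasurable]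
  apply lintegral_congr
  intro z
  have h : Measurable (fun y : ℝ => F (z, y)) := hF.comp measurable_prodMk_left
  rw [lintegral_dirac' _ h]

lemma lintegral_KN_succ (Q : Kernel S S) [IsMarkovKernel Q] (f : S → ℝ) (hf : Measurable f)
    (n : ℕ) (x : S) {F : S × ℝ → ℝ≥0∞} (hF : Measurable F) :
    ∫⁻ q, F q ∂(KN Q f hf (n + 1) x)
      = ∫⁻ p, ∫⁻ z, F (z, p.2 + f p.1) ∂(Q p.1) ∂(KN Q f hf n x) := by
  show ∫⁻ q, F q ∂(glue (KN Q f hf n) (K1 Q f hf) x) = _
  rw [lintegral_glue _ _ _ hF]
  apply lintegral_congr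
  intro p
  rw [lintegral_K1 Q f hf p.1 (F := fun q => F (q.1, p.2 + q.2))]
  exact hF.comp (measurable_fst.prodMk (measurable_const.add measurable_snd))

lemma lintegral_KN_zero (Q : Kernel S S) (f : S → ℝ) (hf : Measurable f)
    (x : S) {F : S × ℝ → ℝ≥0∞} (hF : Measurable F) :
    ∫⁻ q, F q ∂(KN Q f hf 0 x) = F (x, 0) := by
  show ∫⁻ q, F q ∂(Kernel.deterministic (fun x => (x, (0:ℝ))) _ x) = _
  rw [Kernel.deterministic_apply, lintegral_dirac' _ hF]

lemma measurable_gluefun {F : S × ℝ → ℝ≥0∞} (hF : Measurable F) (c : ℝ) :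
    Measurable (fun q : S × ℝ => F (q.1, c + q.2)) :=
  hF.comp (measurable_fst.prodMk (measurable_const.add measurable_snd))

lemma measurable_lintegral_aux {T : Type*} [MeasurableSpace T] (L : Kernel S (S × ℝ))
    [IsSFiniteKernel L] {g : T → S} (hg : Measurable g) {F : T × (S × ℝ) → ℝ≥0∞}
    (hF : Measurable F) : Measurable (fun t => ∫⁻ q, F (t, q) ∂(L (g t))) := by
  have := Measurable.lintegral_kernel_prod_right' (κ := L.comap g hg) hF
  exact this

lemma glue_assoc (K L M : Kernel S (S × ℝ)) [IsMarkovKernel K] [IsMarkovKernel L]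
    [IsMarkovKernel M] : glue (glue K L) M = glue K (glue L M) := by
  apply Kernel.ext_fun
  intro x F hF
  have h1 : Measurable (fun t : (S × ℝ) × (S × ℝ) => F (t.2.1, t.1.2 + t.2.2)) :=
    hF.comp measurable_gluemap
  have h2 : Measurable (fun p : S × ℝ => ∫⁻ q, F (q.1, p.2 + q.2) ∂(M p.1)) :=
    measurable_lintegral_aux M measurable_fst h1
  rw [lintegral_glue _ _ _ hF, lintegral_glue _ _ _ h2, lintegral_glue _ _ _ hF]
  apply lintegral_congr
  intro p
  rw [lintegral_glue _ _ _ (measurable_gluefun hF p.2)]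
  apply lintegral_congr
  intro q
  apply lintegral_congr
  intro r
  rw [add_assoc]

lemma glue_zero (Q : Kernel S S) (f : S → ℝ) (hf : Measurable f)
    (K : Kernel S (S × ℝ)) [IsMarkovKernel K] : glue K (KN Q f hf 0) = K := by
  apply Kernel.ext_fun
  intro x F hF
  have : IsMarkovKernel (KN Q f hf 0) := by unfold KN; infer_instance
  rw [lintegral_glue _ _ _ hF]
  apply lintegral_congr
  intro p
  rw [lintegral_KN_zero Q f hf _ (measurable_gluefun hF p.2)]
  simp

lemma KN_add (Q : Kernel S S) [IsMarkovKernel Q] (f : S → ℝ) (hf : Measurable f) (a b : ℕ) :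
    KN Q f hf (a + b) = glue (KN Q f hf a) (KN Q f hf b) := by
  induction b with
  | zero => rw [add_zero, glue_zero]
  | succ b ih =>
    show glue (KN Q f hf (a + b)) (K1 Q f hf) = glue (KN Q f hf a) (glue (KN Q f hf b) (K1 Q f hf))
    rw [ih, glue_assoc]

end H61CLT
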