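import Pool.Agent.H61.CLT.Defs
import Pool.Agent.H61.CLT.CS

/-!
# Module MEANERG: mean ergodic theorem for the averaging operator of the chain
-/

set_option autoImplicit false
open MeasureTheory ProbabilityTheory
open scoped ENNReal Topology

namespace H61CLT

namespace ME

variable {S : Type*} [mS : MeasurableSpace S] {Q : Kernel S S} [IsMarkovKernel Q] {ν : Measure S}
  [IsProbabilityMeasure ν]

lemma ae_ae (hinv : ν.bind Q = ν) {p : S → Prop} (hp : ∀ᵐ y ∂ν, p y) :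
    ∀ᵐ x ∂ν, ∀ᵐ y ∂(Q x), p y :=
  Measure.ae_ae_of_ae_comp (by rw [hinv]; exact hp)

lemma Pop_sm {u : S → ℝ} (hu : StronglyMeasurable u) : StronglyMeasurable (Pop Q u) :=
  hu.integral_kernel

omit mS in
lemma sm_sq {mS : MeasurableSpace S} {u : S → ℝ} (hm : StronglyMeasurable u) :
    StronglyMeasurable (fun y => u y ^ 2) :=
  hm.pow 2

lemma Pop_congr (hinv : ν.bind Q = ν) {u w : S → ℝ} (h : u =ᵐ[ν] w) : Pop Q u =ᵐ[ν] Pop Q w := by
  filter_upwards [ae_ae hinv h] with x hx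
  exact integral_congr_ae hx

lemma ae_int (hinv : ν.bind Q = ν) {u : S → ℝ} (hu : Integrable u ν) :
    ∀ᵐ x ∂ν, Integrable u (Q x) :=
  Measure.ae_integrable_of_integrable_comp (by rw [hinv]; exact hu)

lemma int_Pop (hinv : ν.bind Q = ν) {u : S → ℝ} (hu : Integrable u ν) :
    ∫ x, Pop Q u x ∂ν = ∫ x, u x ∂ν := by
  have hu' : Integrable u (Q ∘ₘ ν) := by rw [hinv]; exact hu
  have h1 : Integrable (fun p : S × S => u p.2) (ν ⊗ₘ Q) :=
    (Measure.integrable_compProd_snd_iff hu'.1).2 hu'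
  have h2 := Measure.integral_compProd h1
  have h3 : ∫ p, u p.2 ∂(ν ⊗ₘ Q) = ∫ x, u x ∂((ν ⊗ₘ Q).map Prod.snd) := by
    rw [integral_map measurable_snd.aemeasurable]
    rw [← Measure.snd, Measure.snd_compProd]
    exact hu'.1
  rw [← Measure.snd, Measure.snd_compProd, hinv] at h3
  rw [← h3, h2]
  rfl

lemma integrable_Pop (hinv : ν.bind Q = ν) {u : S → ℝ} (hm : StronglyMeasurable u)
    (hu : Integrable u ν) : Integrable (Pop Q u) ν := by
  have hu' : Integrable u (Q ∘ₘ ν) := by rw [hinv]; exact hu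
  have h1 : Integrable (fun p : S × S => u p.2) (ν ⊗ₘ Q) :=
    (Measure.integrable_compProd_snd_iff hu'.1).2 hu'
  have h2 := Measure.integrable_integral_norm_of_integrable_comp hu'
  refine h2.mono' (Pop_sm hm).aestronglyMeasurable (Filter.Eventually.of_forall fun x => ?_)
  exact norm_integral_le_integral_norm _

/-- Jensen -/
lemma Pop_sq_le (hinv : ν.bind Q = ν) {u : S → ℝ} (hm : StronglyMeasurable u)
    (hu : Integrable (fun x => u x ^ 2) ν) : ∀ᵐ x ∂ν, Pop Q u x ^ 2 ≤ Pop Q (fun y => u y ^ 2) x := by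
  filter_upwards [ae_int hinv hu] with x hx
  exact sq_integral_le hm.aestronglyMeasurable hx

lemma integrable_Pop_sq (hinv : ν.bind Q = ν) {u : S → ℝ} (hm : StronglyMeasurable u)
    (hu : Integrable (fun x => u x ^ 2) ν) : Integrable (fun x => Pop Q u x ^ 2) ν := by
  have h1 := integrable_Pop hinv (hm.pow 2) hu
  refine h1.mono' ((Pop_sm hm).pow 2).aestronglyMeasurable ?_
  filter_upwards [Pop_sq_le hinv hm hu] with x hx
  rw [Real.norm_eq_abs, abs_of_nonneg (sq_nonneg _)]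
  exact hx

lemma int_Pop_sq_le (hinv : ν.bind Q = ν) {u : S → ℝ} (hm : StronglyMeasurable u)
    (hu : Integrable (fun x => u x ^ 2) ν) :
    ∫ x, Pop Q u x ^ 2 ∂ν ≤ ∫ x, u x ^ 2 ∂ν := by
  rw [← int_Pop hinv hu]
  exact integral_mono_ae (integrable_Pop_sq hinv hm hu) (integrable_Pop hinv (hm.pow 2) hu)
    (Pop_sq_le hinv hm hu)

lemma memLp_Pop (hinv : ν.bind Q = ν) {u : S → ℝ} (hm : StronglyMeasurable u)
    (hu : MemLp u 2 ν) : MemLp (Pop Q u) 2 ν := by
  rw [memLp_two_iff_integrable_sq (Pop_sm hm).aestronglyMeasurable]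
  exact integrable_Pop_sq hinv hm ((memLp_two_iff_integrable_sq hm.aestronglyMeasurable).1 hu)

lemma norm_sq_Lp (g : Lp ℝ 2 ν) : ‖g‖ ^ 2 = ∫ x, g x ^ 2 ∂ν := by
  rw [← real_inner_self_eq_norm_sq, L2.inner_def]
  refine integral_congr_ae (Filter.Eventually.of_forall fun x => ?_)
  simp [sq]

lemma sq_int_Lp (g : Lp ℝ 2 ν) : Integrable (fun x => g x ^ 2) ν :=
  (memLp_two_iff_integrable_sq (Lp.aestronglyMeasurable g)).1 (Lp.memLp g)

variable (Q ν) in
/-- the averaging operator on `L²` -/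
noncomputable def TL (hinv : ν.bind Q = ν) : Lp ℝ 2 ν →ₗ[ℝ] Lp ℝ 2 ν where
  toFun g := (memLp_Pop hinv (Lp.stronglyMeasurable g) (Lp.memLp g)).toLp
  map_add' g g' := by
    rw [← MemLp.toLp_add]
    apply MemLp.toLp_congr
    have i1 := ae_int hinv ((Lp.memLp g).integrable (by norm_num))
    have i2 := ae_int hinv ((Lp.memLp g').integrable (by norm_num))
    filter_upwards [Pop_congr hinv (Lp.coeFn_add g g'), i1, i2] with x hx h1 h2
    rw [hx]
    exact integral_add h1 h2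
  map_smul' c g := by
    rw [RingHom.id_apply, ← MemLp.toLp_const_smul]
    apply MemLp.toLp_congr
    filter_upwards [Pop_congr hinv (Lp.coeFn_smul c g)] with x hx
    rw [hx]
    exact integral_smul c _

lemma TL_coe (hinv : ν.bind Q = ν) (g : Lp ℝ 2 ν) : TL Q ν hinv g =ᵐ[ν] Pop Q g :=
  MemLp.coeFn_toLp (memLp_Pop hinv (Lp.stronglyMeasurable g) (Lp.memLp g))

lemma TL_norm (hinv : ν.bind Q = ν) (g : Lp ℝ 2 ν) : ‖TL Q ν hinv g‖ ≤ 1 * ‖g‖ := by
  rw [one_mul]
  have h1 : ‖TL Q ν hinv g‖ ^ 2 ≤ ‖g‖ ^ 2 := by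
    rw [norm_sq_Lp, norm_sq_Lp]
    have h2 : ∫ x, (TL Q ν hinv g) x ^ 2 ∂ν = ∫ x, Pop Q g x ^ 2 ∂ν := by
      apply integral_congr_ae
      filter_upwards [TL_coe hinv g] with x hx
      rw [hx]
    rw [h2]
    exact int_Pop_sq_le hinv (Lp.stronglyMeasurable g) (sq_int_Lp g)
  exact le_of_sq_le_sq h1 (norm_nonneg _)

variable (Q ν) in
noncomputable def TC (hinv : ν.bind Q = ν) : Lp ℝ 2 ν →L[ℝ] Lp ℝ 2 ν :=
  (TL Q ν hinv).mkContinuous 1 (TL_norm hinv)

lemma TC_coe (hinv : ν.bind Q = ν) (g : Lp ℝ 2 ν) : TC Q ν hinv g =ᵐ[ν] Pop Q g :=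
  TL_coe hinv g

/-- fixed functions are constant -/
lemma fixed_const (hinv : ν.bind Q = ν)
    (herg : ∀ A : Set S, MeasurableSet A →
      (∀ᵐ x ∂ν, Q x A = A.indicator (fun _ => (1 : ENNReal)) x) → ν A = 0 ∨ ν A = 1)
    (g : Lp ℝ 2 ν) (hg : Pop Q g =ᵐ[ν] g) : ∃ c : ℝ, g =ᵐ[ν] fun _ => c := by
  have hm := Lp.stronglyMeasurable g
  have hi := (Lp.memLp g).integrable (q := 2) (by norm_num)
  have hi2 := sq_int_Lp g
  -- variance
  have hV0 : ∀ x, 0 ≤ ∫ y, (g y - Pop Q g x) ^ 2 ∂(Q x) := fun x =>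
    integral_nonneg fun y => sq_nonneg _
  have hV : ∀ᵐ x ∂ν, ∫ y, (g y - Pop Q g x) ^ 2 ∂(Q x) =
      Pop Q (fun y => g y ^ 2) x - Pop Q g x ^ 2 := by
    filter_upwards [ae_int hinv hi, ae_int hinv hi2] with x h1 h2
    have e1 : ∀ y, (g y - Pop Q g x) ^ 2 =
        (1 * g y ^ 2 + (-2 * Pop Q g x) * g y) + Pop Q g x ^ 2 := by
      intro y; ring
    simp only [e1]
    rw [integral_lin h2 h1]
    unfold Pop
    ring
  have hVi : Integrable (fun x => Pop Q (fun y => g y ^ 2) x - Pop Q g x ^ 2) ν :=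
    (integrable_Pop hinv (sm_sq hm) hi2).sub (integrable_Pop_sq hinv hm hi2)
  have hV1 : ∫ x, (Pop Q (fun y => g y ^ 2) x - Pop Q g x ^ 2) ∂ν = 0 := by
    rw [integral_sub (integrable_Pop hinv (sm_sq hm) hi2) (integrable_Pop_sq hinv hm hi2),
      int_Pop hinv hi2]
    have : ∫ x, Pop Q g x ^ 2 ∂ν = ∫ x, g x ^ 2 ∂ν := by
      apply integral_congr_ae
      filter_upwards [hg] with x hx
      rw [hx]
    rw [this, sub_self]
  have hV2 : ∀ᵐ x ∂ν, Pop Q (fun y => g y ^ 2) x - Pop Q g x ^ 2 = 0 := by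
    have h3 : (0 : S → ℝ) ≤ᵐ[ν] fun x => Pop Q (fun y => g y ^ 2) x - Pop Q g x ^ 2 := by
      filter_upwards [hV] with x hx
      rw [← hx]
      exact hV0 x
    exact (integral_eq_zero_iff_of_nonneg_ae h3 hVi).1 hV1
  have hae : ∀ᵐ x ∂ν, ∀ᵐ y ∂(Q x), g y = g x := by
    filter_upwards [hV, hV2, hg, ae_int hinv hi, ae_int hinv hi2] with x h1 h2 h3 h4 h5
    rw [h2] at h1
    have h6 : Integrable (fun y => (g y - Pop Q g x) ^ 2) (Q x) := by
      have e1 : (fun y => (g y - Pop Q g x) ^ 2) =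
          fun y => (g y ^ 2 + (-2 * Pop Q g x) * g y) + Pop Q g x ^ 2 := by
        funext y; ring
      rw [e1]
      exact (h5.add (h4.const_mul _)).add (integrable_const _)
    have h7 := (integral_eq_zero_iff_of_nonneg_ae
      (Filter.Eventually.of_forall fun y => sq_nonneg _) h6).1 h1
    filter_upwards [h7] with y hy
    have h8 : g y - Pop Q g x = 0 := by
      have : (g y - Pop Q g x) ^ 2 = 0 := hy
      exact pow_eq_zero_iff (two_ne_zero) |>.1 this
    rw [← h3]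
    linarith
  have := Filter.exists_eventuallyEq_const_of_forall_separating (l := ae ν) (f := (g : S → ℝ))
    MeasurableSet (fun U hU => by
      have hA : MeasurableSet ((g : S → ℝ) ⁻¹' U) := hm.measurable hU
      have h1 := herg _ hA (by
        filter_upwards [hae] with x hx
        by_cases hxU : g x ∈ U
        · have h2 : ∀ᵐ y ∂(Q x), y ∈ (g : S → ℝ) ⁻¹' U := by
            filter_upwards [hx] with y hy
            show g y ∈ U
            rw [hy]; exact hxU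
          rw [Set.indicator_of_mem (show x ∈ (g : S → ℝ) ⁻¹' U from hxU)]
          rw [(prob_compl_eq_zero_iff hA).1 (by exact h2)]
        · have h2 : ∀ᵐ y ∂(Q x), y ∉ (g : S → ℝ) ⁻¹' U := by
            filter_upwards [hx] with y hy
            show ¬ g y ∈ U
            rw [hy]; exact hxU
          rw [Set.indicator_of_notMem (show x ∉ (g : S → ℝ) ⁻¹' U from hxU)]
          exact measure_eq_zero_iff_ae_notMem.2 h2)
      rcases h1 with h1 | h1
      · right
        exact measure_eq_zero_iff_ae_notMem.1 h1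
      · left
        have : ν ((g : S → ℝ) ⁻¹' U)ᶜ = 0 := (prob_compl_eq_zero_iff hA).2 h1
        exact this)
  obtain ⟨c, hc⟩ := this
  exact ⟨c, hc⟩

lemma iter_coe (hinv : ν.bind Q = ν) {h : S → ℝ} (hL : MemLp h 2 ν) (j : ℕ) :
    ((TC Q ν hinv)^[j] (hL.toLp h) : Lp ℝ 2 ν) =ᵐ[ν] (Pop Q)^[j] h := by
  induction j with
  | zero => exact hL.coeFn_toLp
  | succ j ih =>
    rw [Function.iterate_succ_apply', Function.iterate_succ_apply']
    exact (TC_coe hinv _).trans (Pop_congr hinv ih)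

lemma iter_int (hinv : ν.bind Q = ν) {h : S → ℝ} (hL : MemLp h 2 ν) (j : ℕ) :
    Integrable ((Pop Q)^[j] h) ν :=
  ((Lp.memLp _).integrable (by norm_num)).congr (iter_coe hinv hL j)

lemma iter_integral (hinv : ν.bind Q = ν) {h : S → ℝ} (hL : MemLp h 2 ν) (j : ℕ) :
    ∫ x, (Pop Q)^[j] h x ∂ν = ∫ x, h x ∂ν := by
  induction j with
  | zero => rfl
  | succ j ih =>
    rw [← ih, ← int_Pop hinv (iter_int hinv hL j)]
    simp only [Function.iterate_succ_apply']

lemma sum_coe (hinv : ν.bind Q = ν) {h : S → ℝ} (hL : MemLp h 2 ν) (N : ℕ) :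
    ((∑ j ∈ Finset.range N, (TC Q ν hinv)^[j] (hL.toLp h) : Lp ℝ 2 ν) : S → ℝ) =ᵐ[ν]
      fun x => ∑ j ∈ Finset.range N, (Pop Q)^[j] h x := by
  induction N with
  | zero =>
    simp only [Finset.range_zero, Finset.sum_empty]
    exact Lp.coeFn_zero ℝ 2 ν
  | succ N ih =>
    rw [Finset.sum_range_succ]
    filter_upwards [Lp.coeFn_add (∑ j ∈ Finset.range N, (TC Q ν hinv)^[j] (hL.toLp h))
      ((TC Q ν hinv)^[N] (hL.toLp h)), ih, iter_coe hinv hL N] with x h1 h2 h3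
    rw [h1, Pi.add_apply, h2, h3, Finset.sum_range_succ]

lemma avg_coe (hinv : ν.bind Q = ν) {h : S → ℝ} (hL : MemLp h 2 ν) (N : ℕ) :
    ((birkhoffAverage ℝ (TC Q ν hinv) id N (hL.toLp h) : Lp ℝ 2 ν) : S → ℝ) =ᵐ[ν]
      fun x => (1 / (N : ℝ)) * ∑ j ∈ Finset.range N, (Pop Q)^[j] h x := by
  unfold birkhoffAverage birkhoffSum
  simp only [id]
  filter_upwards [Lp.coeFn_smul (N : ℝ)⁻¹ (∑ j ∈ Finset.range N, (TC Q ν hinv)^[j] (hL.toLp h)),
    sum_coe hinv hL N] with x h1 h2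
  rw [h1, Pi.smul_apply, h2, smul_eq_mul, one_div]

lemma int_abs_le (g : Lp ℝ 2 ν) : ∫ x, |g x| ∂ν ≤ ‖g‖ := by
  have h1 : Integrable (fun x => |g x| ^ 2) ν := by
    simp only [sq_abs]
    exact sq_int_Lp g
  have h2 := sq_integral_le (μ := ν) (u := fun x => |g x|)
    (Lp.aestronglyMeasurable g).norm h1
  simp only [sq_abs] at h2
  rw [← norm_sq_Lp] at h2
  exact le_of_sq_le_sq h2 (norm_nonneg _)

end ME

variable {S : Type*} [mS : MeasurableSpace S]

open ME in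
/-- MODULE MEANERG -/
theorem mean_ergodic (Q : Kernel S S) [IsMarkovKernel Q] (ν : Measure S) [IsProbabilityMeasure ν]
    (hinv : ν.bind Q = ν)
    (herg : ∀ A : Set S, MeasurableSet A →
      (∀ᵐ x ∂ν, Q x A = A.indicator (fun _ => (1 : ENNReal)) x) → ν A = 0 ∨ ν A = 1)
    (h : S → ℝ) (hh : Measurable h) (hb : ∃ C : ℝ, ∀ x, |h x| ≤ C) :
    Filter.Tendsto (fun N : ℕ => ∫ x, |(1 / (N : ℝ)) * ∑ j ∈ Finset.range N, (Pop Q)^[j] h x
      - ∫ y, h y ∂ν| ∂ν) Filter.atTop (𝓝 0) := by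
  obtain ⟨C, hC⟩ := hb
  have hL : MemLp h 2 ν := MemLp.of_bound hh.aestronglyMeasurable C
    (Filter.Eventually.of_forall fun x => by rw [Real.norm_eq_abs]; exact hC x)
  set T := TC Q ν hinv with hT
  have hTn : ‖T‖ ≤ 1 := LinearMap.mkContinuous_norm_le _ zero_le_one _
  have hlim := T.tendsto_birkhoffAverage_orthogonalProjection hTn (hL.toLp h)
  set PH := (((T : Lp ℝ 2 ν →ₗ[ℝ] Lp ℝ 2 ν).eqLocus
    ((1 : Lp ℝ 2 ν →L[ℝ] Lp ℝ 2 ν) : Lp ℝ 2 ν →ₗ[ℝ] Lp ℝ 2 ν)).orthogonalProjectionOnto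
      (hL.toLp h)) with hPH
  have hfix : T (PH : Lp ℝ 2 ν) = (PH : Lp ℝ 2 ν) := by
    have := PH.2
    rw [LinearMap.mem_eqLocus] at this
    exact this
  obtain ⟨c, hc⟩ := fixed_const hinv herg (PH : Lp ℝ 2 ν) (by
    have h1 := TC_coe hinv (PH : Lp ℝ 2 ν)
    rw [← hT, hfix] at h1
    exact h1.symm)
  -- convergence to `c`
  have key : Filter.Tendsto (fun N : ℕ => ∫ x, |(1 / (N : ℝ)) *
      ∑ j ∈ Finset.range N, (Pop Q)^[j] h x - c| ∂ν) Filter.atTop (𝓝 0) := by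
    have h1 : Filter.Tendsto (fun N : ℕ => ‖birkhoffAverage ℝ T id N (hL.toLp h) -
        (PH : Lp ℝ 2 ν)‖) Filter.atTop (𝓝 0) := by
      have := (hlim.sub_const (PH : Lp ℝ 2 ν)).norm
      simpa using this
    refine squeeze_zero (fun N => integral_nonneg fun x => abs_nonneg _) (fun N => ?_) h1
    refine le_trans (le_of_eq ?_) (int_abs_le _)
    apply integral_congr_ae
    filter_upwards [avg_coe hinv hL N, hc,
      Lp.coeFn_sub (birkhoffAverage ℝ T id N (hL.toLp h)) (PH : Lp ℝ 2 ν)] with x h2 h3 h4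
    rw [h4, Pi.sub_apply, h2, h3]
  have hcE : ∫ y, h y ∂ν = c := by
    have h1 : ∀ᶠ N : ℕ in Filter.atTop, |∫ y, h y ∂ν - c| ≤ ∫ x, |(1 / (N : ℝ)) *
      ∑ j ∈ Finset.range N, (Pop Q)^[j] h x - c| ∂ν := by
      filter_upwards [Filter.eventually_gt_atTop 0] with N hN
      have hN0 : (N : ℝ) ≠ 0 := by positivity
      have hi : Integrable (fun x => ∑ j ∈ Finset.range N, (Pop Q)^[j] h x) ν :=
        integrable_finset_sum _ fun j _ => iter_int hinv hL j
      have h2 : ∫ x, ((1 / (N : ℝ)) * ∑ j ∈ Finset.range N, (Pop Q)^[j] h x - c) ∂ν =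
          ∫ y, h y ∂ν - c := by
        rw [integral_sub (hi.const_mul _) (integrable_const _), integral_const_mul,
          integral_finset_sum _ fun j _ => iter_int hinv hL j]
        simp only [iter_integral hinv hL]
        simp
        field_simp
      rw [← h2]
      exact abs_integral_le_integral_abs
    have h3 : |∫ y, h y ∂ν - c| ≤ 0 := ge_of_tendsto key h1
    have := abs_nonpos_iff.1 h3
    linarith
  rw [hcE]
  exact key

end H61CLT
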