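import Pool.Agent.H61.CLT.Defs

/-!
# The two conditional laws at the midpoint of a block
-/

set_option autoImplicit false
open MeasureTheory ProbabilityTheory
open scoped ENNReal Topology

namespace H61CLT

variable {S : Type*} [mS : MeasurableSpace S]

theorem midpoint (Q : Kernel S S) [IsMarkovKernel Q] (ν : Measure S) [IsProbabilityMeasure ν]
    (f : S → ℝ) (hf : Measurable f) (a b : ℕ)
    (hmarg : (ν ⊗ₘ KN Q f hf a).map (fun p => p.2.1) = ν)
    (τu τw : S → ℝ) (hu : Measurable τu) (hw : Measurable τw) :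
    ∃ κ κ' : Kernel S (ℝ × ℝ), IsMarkovKernel κ ∧ IsMarkovKernel κ' ∧
      (∀ y, κ' y = (KN Q f hf b y).map (fun p => (τw p.1, p.2))) ∧
      ν ⊗ₘ κ = (ν ⊗ₘ KN Q f hf a).map (fun p => (p.2.1, (τu p.1, p.2.2))) ∧
      (ν ⊗ₘ KN Q f hf (a + b)).map (fun p => ((τu p.1, τw p.2.1), p.2.2))
        = (ν ⊗ₘ (κ ×ₖ κ')).map
          (fun z => ((z.2.1.1, z.2.2.1), z.2.1.2 + z.2.2.2)) := by
  have hmy : Measurable (fun p : S × (S × ℝ) => p.2.1) := measurable_fst.comp measurable_snd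
  have hmz : Measurable (fun p : S × (S × ℝ) => (τu p.1, p.2.2)) :=
    (hu.comp measurable_fst).prodMk (measurable_snd.comp measurable_snd)
  have hmw : Measurable (fun p : S × ℝ => (τw p.1, p.2)) :=
    (hw.comp measurable_fst).prodMk measurable_snd
  let κ : Kernel S (ℝ × ℝ) :=
    condDistrib (fun p : S × (S × ℝ) => (τu p.1, p.2.2)) (fun p => p.2.1) (ν ⊗ₘ KN Q f hf a)
  let κ' : Kernel S (ℝ × ℝ) := (KN Q f hf b).map (fun p => (τw p.1, p.2))
  have hκ' : ∀ y, κ' y = (KN Q f hf b y).map (fun p => (τw p.1, p.2)) :=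
    fun y => Kernel.map_apply _ hmw y
  have i' : IsMarkovKernel κ' := Kernel.IsMarkovKernel.map _ hmw
  have i : IsMarkovKernel κ := by
    show IsMarkovKernel (condDistrib _ _ _)
    infer_instance
  have hdis : ν ⊗ₘ κ = (ν ⊗ₘ KN Q f hf a).map (fun p => (p.2.1, (τu p.1, p.2.2))) := by
    have := compProd_map_condDistrib (mβ := mS) (X := fun p : S × (S × ℝ) => p.2.1)
      (Y := fun p : S × (S × ℝ) => (τu p.1, p.2.2)) (μ := ν ⊗ₘ KN Q f hf a) hmz.aemeasurable
    rw [hmarg] at this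
    exact this
  refine ⟨κ, κ', i, i', hκ', hdis, ?_⟩
  have m1 : Measurable (fun p : S × (S × ℝ) => ((τu p.1, τw p.2.1), p.2.2)) :=
    ((hu.comp measurable_fst).prodMk (hw.comp hmy)).prodMk (measurable_snd.comp measurable_snd)
  have m2 : Measurable (fun z : S × ((ℝ × ℝ) × (ℝ × ℝ)) =>
      ((z.2.1.1, z.2.2.1), z.2.1.2 + z.2.2.2)) := by fun_prop
  apply Measure.ext_of_lintegral
  intro F hF
  have m1' : Measurable (fun p : S × (S × ℝ) => F ((τu p.1, τw p.2.1), p.2.2)) := hF.comp m1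
  have m2' : Measurable (fun z : S × ((ℝ × ℝ) × (ℝ × ℝ)) =>
      F ((z.2.1.1, z.2.2.1), z.2.1.2 + z.2.2.2)) := hF.comp m2
  rw [lintegral_map hF m1, lintegral_map hF m2,
    Measure.lintegral_compProd m1', Measure.lintegral_compProd m2']
  -- the inner function
  let H : S × (ℝ × ℝ) → ℝ≥0∞ := fun r => ∫⁻ q, F ((r.2.1, τw q.1), r.2.2 + q.2) ∂(KN Q f hf b r.1)
  have m3 : Measurable (fun t : (S × (ℝ × ℝ)) × (S × ℝ) =>
      F ((t.1.2.1, τw t.2.1), t.1.2.2 + t.2.2)) := by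
    apply hF.comp
    refine Measurable.prodMk (Measurable.prodMk ?_ ?_) ?_
    · fun_prop
    · exact hw.comp (measurable_fst.comp measurable_snd)
    · fun_prop
  have hH : Measurable H := measurable_lintegral_aux (KN Q f hf b) measurable_fst m3
  have L : ∫⁻ x, ∫⁻ q, F ((τu x, τw q.1), q.2) ∂(KN Q f hf (a + b) x) ∂ν
      = ∫⁻ y, ∫⁻ r, H (y, r) ∂(κ y) ∂ν := by
    have mH' : Measurable (fun p : S × (S × ℝ) => H (p.2.1, (τu p.1, p.2.2))) :=
      hH.comp (hmy.prodMk hmz)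
    rw [← Measure.lintegral_compProd hH, hdis, lintegral_map hH (hmy.prodMk hmz),
      Measure.lintegral_compProd mH']
    apply lintegral_congr
    intro x
    have m4 : Measurable (fun q : S × ℝ => F ((τu x, τw q.1), q.2)) :=
      hF.comp ((measurable_const.prodMk (hw.comp measurable_fst)).prodMk measurable_snd)
    rw [KN_add, lintegral_glue _ _ _ m4]
  have Rr : ∫⁻ y, ∫⁻ z, F ((z.1.1, z.2.1), z.1.2 + z.2.2) ∂((κ ×ₖ κ') y) ∂ν
      = ∫⁻ y, ∫⁻ r, H (y, r) ∂(κ y) ∂ν := by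
    apply lintegral_congr
    intro y
    have m5 : Measurable (fun z : (ℝ × ℝ) × (ℝ × ℝ) => F ((z.1.1, z.2.1), z.1.2 + z.2.2)) :=
      hF.comp (by fun_prop)
    rw [Kernel.prod_apply, lintegral_prod _ m5.aemeasurable]
    apply lintegral_congr
    intro r
    have m6 : Measurable (fun q : ℝ × ℝ => F ((r.1, q.1), r.2 + q.2)) := hF.comp (by fun_prop)
    rw [hκ' y, lintegral_map m6 hmw]
  exact L.trans Rr.symm

end H61CLT
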