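import Pool.Agent.H61.CLT.Mid
import Pool.Agent.H61.CLT.Core4
import Pool.Agent.H61.CLT.Helpers

/-!
# The recursion from a block of length `n` to a block of length `2 n`
-/

set_option autoImplicit false
set_option linter.unusedSectionVars false
open MeasureTheory ProbabilityTheory
open scoped ENNReal Topology

namespace H61CLT

variable {S : Type*} [mS : MeasurableSpace S]

section
variable (Q : Kernel S S) [IsMarkovKernel Q] (ν : Measure S) [IsProbabilityMeasure ν]
    (f : S → ℝ) (hf : Measurable f)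

/-- everything we need at the midpoint -/
structure MidData (n : ℕ) (τu τw : S → ℝ) (κ κ' : Kernel S (ℝ × ℝ)) : Prop where
  mark : IsMarkovKernel κ
  mark' : IsMarkovKernel κ'
  fwd : ∀ y, κ' y = (KN Q f hf n y).map (fun p => (τw p.1, p.2))
  bwd : ν ⊗ₘ κ = (ν ⊗ₘ KN Q f hf n).map (fun p => (p.2.1, (τu p.1, p.2.2)))
  dbl : (ν ⊗ₘ KN Q f hf (n + n)).map (fun p => ((τu p.1, τw p.2.1), p.2.2))
        = (ν ⊗ₘ (κ ×ₖ κ')).map
          (fun z => ((z.2.1.1, z.2.2.1), z.2.1.2 + z.2.2.2))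

variable {Q ν f hf}
variable {n : ℕ} {τu τw : S → ℝ} {κ κ' : Kernel S (ℝ × ℝ)}

lemma MidData.bwd_int (h : MidData Q ν f hf n τu τw κ κ') (hu : Measurable τu)
    {F : S × (ℝ × ℝ) → ℝ} (hF : Measurable F) :
    Integrable F (ν ⊗ₘ κ) ↔
      Integrable (fun p : S × (S × ℝ) => F (p.2.1, (τu p.1, p.2.2))) (ν ⊗ₘ KN Q f hf n) := by
  have hm : Measurable (fun p : S × (S × ℝ) => (p.2.1, (τu p.1, p.2.2))) :=
    (measurable_fst.comp measurable_snd).prodMk ((hu.comp measurable_fst).prodMk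
      (measurable_snd.comp measurable_snd))
  rw [h.bwd, integrable_map_measure hF.aestronglyMeasurable hm.aemeasurable]
  rfl

lemma MidData.bwd_integral (h : MidData Q ν f hf n τu τw κ κ') (hu : Measurable τu)
    {F : S × (ℝ × ℝ) → ℝ} (hF : Measurable F) :
    ∫ z, F z ∂(ν ⊗ₘ κ) = ∫ p, F (p.2.1, (τu p.1, p.2.2)) ∂(ν ⊗ₘ KN Q f hf n) := by
  have hm : Measurable (fun p : S × (S × ℝ) => (p.2.1, (τu p.1, p.2.2))) :=
    (measurable_fst.comp measurable_snd).prodMk ((hu.comp measurable_fst).prodMk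
      (measurable_snd.comp measurable_snd))
  rw [h.bwd, integral_map hm.aemeasurable hF.aestronglyMeasurable]

lemma MidData.fwd_integral (h : MidData Q ν f hf n τu τw κ κ') (hw : Measurable τw) (y : S)
    {F : ℝ × ℝ → ℝ} (hF : Measurable F) :
    ∫ z, F z ∂(κ' y) = ∫ p, F (τw p.1, p.2) ∂(KN Q f hf n y) := by
  have hm : Measurable (fun p : S × ℝ => (τw p.1, p.2)) :=
    (hw.comp measurable_fst).prodMk measurable_snd
  rw [h.fwd, integral_map hm.aemeasurable hF.aestronglyMeasurable]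

lemma MidData.fwd_int (h : MidData Q ν f hf n τu τw κ κ') (hw : Measurable τw) (y : S)
    {F : ℝ × ℝ → ℝ} (hF : Measurable F) :
    Integrable F (κ' y) ↔ Integrable (fun p : S × ℝ => F (τw p.1, p.2)) (KN Q f hf n y) := by
  have hm : Measurable (fun p : S × ℝ => (τw p.1, p.2)) :=
    (hw.comp measurable_fst).prodMk measurable_snd
  rw [h.fwd, integrable_map_measure hF.aestronglyMeasurable hm.aemeasurable]
  rfl

/-- integrability of a function of the first endpoint -/
lemma int_fst {g : S → ℝ} (hg : Integrable g ν) (n : ℕ) :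
    Integrable (fun p : S × (S × ℝ) => g p.1) (ν ⊗ₘ KN Q f hf n) := by
  have h1 : Integrable g ((ν ⊗ₘ KN Q f hf n).map Prod.fst) := by
    rw [← Measure.fst, Measure.fst_compProd]; exact hg
  exact (integrable_map_measure h1.aestronglyMeasurable measurable_fst.aemeasurable).1 h1

lemma integral_fst {g : S → ℝ} (hg : Measurable g) (n : ℕ) :
    ∫ p, g p.1 ∂(ν ⊗ₘ KN Q f hf n) = ∫ x, g x ∂ν := by
  have h1 : ∫ x, g x ∂((ν ⊗ₘ KN Q f hf n).map Prod.fst) = ∫ x, g x ∂ν := by
    rw [← Measure.fst, Measure.fst_compProd]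
  rw [← h1, integral_map measurable_fst.aemeasurable hg.aestronglyMeasurable]

/-- integrability of a function of the second endpoint -/
lemma int_end {Eb : ℕ → ℝ} (hs : Setup Q ν f hf Eb) {g : S → ℝ} (hg : Integrable g ν) (n : ℕ) :
    Integrable (fun p : S × (S × ℝ) => g p.2.1) (ν ⊗ₘ KN Q f hf n) := by
  have h1 : Integrable g ((ν ⊗ₘ KN Q f hf n).map (fun p => p.2.1)) := by
    rw [hs.marg]; exact hg
  exact (integrable_map_measure h1.aestronglyMeasurable
    (measurable_fst.comp measurable_snd).aemeasurable).1 h1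

lemma integral_end {Eb : ℕ → ℝ} (hs : Setup Q ν f hf Eb) {g : S → ℝ} (hg : Measurable g)
    (n : ℕ) : ∫ p, g p.2.1 ∂(ν ⊗ₘ KN Q f hf n) = ∫ x, g x ∂ν := by
  have h1 : ∫ x, g x ∂((ν ⊗ₘ KN Q f hf n).map (fun p => p.2.1)) = ∫ x, g x ∂ν := by
    rw [hs.marg]
  have hm : Measurable (fun p : S × (S × ℝ) => p.2.1) := measurable_fst.comp measurable_snd
  rw [← h1, integral_map hm.aemeasurable hg.aestronglyMeasurable]

lemma MidData.good_bwd {Eb : ℕ → ℝ} (hs : Setup Q ν f hf Eb)
    (h : MidData Q ν f hf n τu τw κ κ') (hu : Wt ν τu) : ∀ᵐ y ∂ν, Good (κ y) := by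
  have := h.mark
  have m1 : Measurable (fun z : S × (ℝ × ℝ) => z.2.1) := by fun_prop
  have m2 : Measurable (fun z : S × (ℝ × ℝ) => z.2.2 ^ 2) := by fun_prop
  have i1 : Integrable (fun z : S × (ℝ × ℝ) => z.2.1) (ν ⊗ₘ κ) :=
    (h.bwd_int hu.meas m1).2 (int_fst hu.int n)
  have i2 : Integrable (fun z : S × (ℝ × ℝ) => z.2.2 ^ 2) (ν ⊗ₘ κ) :=
    (h.bwd_int hu.meas m2).2 (hs.int2 n)
  have i3 : ∀ᵐ z ∂(ν ⊗ₘ κ), 1 ≤ z.2.1 := by
    rw [h.bwd, ae_map_iff]
    · filter_upwards with p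
      exact hu.one_le p.1
    · exact ((measurable_fst.comp measurable_snd).prodMk ((hu.meas.comp measurable_fst).prodMk
        (measurable_snd.comp measurable_snd))).aemeasurable
    · exact measurableSet_le measurable_const (measurable_fst.comp measurable_snd)
  filter_upwards [cp_ae_int i1, cp_ae_int i2, Measure.ae_ae_of_ae_compProd i3] with y h1 h2 h3
  exact ⟨inferInstance, h3, h1, h2⟩

lemma MidData.good_fwd {Eb : ℕ → ℝ} (hs : Setup Q ν f hf Eb)
    (h : MidData Q ν f hf n τu τw κ κ') (hw : Wt ν τw) : ∀ᵐ y ∂ν, Good (κ' y) := by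
  have := h.mark'
  filter_upwards [cp_ae_int (int_end hs hw.int n), cp_ae_int (hs.int2 n)] with y h1 h2
  refine ⟨inferInstance, ?_, ?_, ?_⟩
  · rw [h.fwd, ae_map_iff]
    · filter_upwards with p
      exact hw.one_le p.1
    · exact ((hw.meas.comp measurable_fst).prodMk measurable_snd).aemeasurable
    · exact measurableSet_le measurable_const measurable_fst
  · exact (h.fwd_int hw.meas y (F := fun p => p.1) measurable_fst).2 h1
  · exact (h.fwd_int hw.meas y (F := fun p => p.2 ^ 2) (measurable_snd.pow_const 2)).2 h2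

end

end H61CLT
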