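import Pool.Agent.H61.CLT.Rec

/-!
# The recursion: general form
-/

set_option autoImplicit false
set_option linter.unusedSectionVars false
open MeasureTheory ProbabilityTheory
open scoped ENNReal Topology

namespace H61CLT

variable {S : Type*} [mS : MeasurableSpace S]
variable {Q : Kernel S S} [IsMarkovKernel Q] {ν : Measure S} [IsProbabilityMeasure ν]
    {f : S → ℝ} {hf : Measurable f}
variable {n : ℕ} {τu τw : S → ℝ} {κ κ' : Kernel S (ℝ × ℝ)}

lemma upd_ge' {β A T : ℝ} (hT : 0 ≤ T) : T ≤ upd β A T := by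
  unfold upd
  split_ifs <;> linarith

lemma upd_le {β A T : ℝ} (hT : 0 ≤ T) : upd β A T ≤ 2 * T := by
  unfold upd
  split_ifs <;> linarith

lemma measurable_upd {β : ℝ} {a b : S → ℝ} (ha : Measurable a) (hb : Measurable b) :
    Measurable (fun y => upd β (a y) (b y)) := by
  unfold upd
  apply Measurable.ite
  · exact measurableSet_le (ha.mul (hb.inv.pow_const 2)) measurable_const
  · exact hb
  · exact hb.const_mul 2

lemma measurable_mT {κ : Kernel S (ℝ × ℝ)} [IsMarkovKernel κ] :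
    Measurable (fun y => mT (κ y)) := by
  unfold mT
  exact cp_meas (κ := κ) (F := fun z : S × (ℝ × ℝ) => z.2.1) (by fun_prop)

lemma measurable_mA {κ : Kernel S (ℝ × ℝ)} [IsMarkovKernel κ] :
    Measurable (fun y => mA (κ y)) := by
  unfold mA
  exact cp_meas (κ := κ) (F := fun z : S × (ℝ × ℝ) => z.2.2 ^ 2 / z.2.1) (by fun_prop)

lemma measurable_mM {κ : Kernel S (ℝ × ℝ)} [IsMarkovKernel κ] :
    Measurable (fun y => mM (κ y)) := by
  unfold mM
  exact cp_meas (κ := κ) (F := fun z : S × (ℝ × ℝ) => z.2.2) (by fun_prop)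

/-- a function of the form `F(y, p)` integrated over the backward kernel -/
lemma MidData.bwd_iter (h : MidData Q ν f hf n τu τw κ κ') (hu : Measurable τu)
    {F : S × (ℝ × ℝ) → ℝ} (hF : Measurable F)
    (hi : Integrable (fun p : S × (S × ℝ) => F (p.2.1, (τu p.1, p.2.2))) (ν ⊗ₘ KN Q f hf n)) :
    Integrable (fun y => ∫ p, F (y, p) ∂(κ y)) ν ∧
    ∫ y, ∫ p, F (y, p) ∂(κ y) ∂ν = ∫ p, F (p.2.1, (τu p.1, p.2.2)) ∂(ν ⊗ₘ KN Q f hf n) := by
  have := h.mark
  have h1 := (h.bwd_int hu hF).2 hi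
  refine ⟨cp_int h1, ?_⟩
  rw [← h.bwd_integral hu hF, Measure.integral_compProd h1]

/-- a function of the form `F(y, p)` integrated over the forward kernel -/
lemma MidData.fwd_iter (h : MidData Q ν f hf n τu τw κ κ') (hw : Measurable τw)
    {F : S × (ℝ × ℝ) → ℝ} (hF : Measurable F)
    (hi : Integrable (fun p : S × (S × ℝ) => F (p.1, (τw p.2.1, p.2.2))) (ν ⊗ₘ KN Q f hf n)) :
    Integrable (fun y => ∫ p, F (y, p) ∂(κ' y)) ν ∧
    ∫ y, ∫ p, F (y, p) ∂(κ' y) ∂ν = ∫ p, F (p.1, (τw p.2.1, p.2.2)) ∂(ν ⊗ₘ KN Q f hf n) := by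
  have := h.mark'
  have e : (fun y => ∫ p, F (y, p) ∂(κ' y))
      = fun y => ∫ p, F (y, (τw p.1, p.2)) ∂(KN Q f hf n y) := by
    funext y
    exact h.fwd_integral hw y (F := fun p => F (y, p)) (hF.comp measurable_prodMk_left)
  refine ⟨?_, ?_⟩
  · rw [e]; exact cp_int hi
  · rw [e, Measure.integral_compProd hi]

/-- the doubled block -/
lemma MidData.dbl_iter (h : MidData Q ν f hf n τu τw κ κ') (hu : Measurable τu)
    (hw : Measurable τw) {F : (ℝ × ℝ) × ℝ → ℝ} (hF : Measurable F)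
    (hi : Integrable (fun p : S × (S × ℝ) => F ((τu p.1, τw p.2.1), p.2.2))
      (ν ⊗ₘ KN Q f hf (n + n))) :
    Integrable (fun y => ∫ z, F ((z.1.1, z.2.1), z.1.2 + z.2.2) ∂((κ y).prod (κ' y))) ν ∧
    ∫ y, ∫ z, F ((z.1.1, z.2.1), z.1.2 + z.2.2) ∂((κ y).prod (κ' y)) ∂ν
      = ∫ p, F ((τu p.1, τw p.2.1), p.2.2) ∂(ν ⊗ₘ KN Q f hf (n + n)) := by
  have := h.mark
  have := h.mark'
  have m1 : Measurable (fun p : S × (S × ℝ) => ((τu p.1, τw p.2.1), p.2.2)) :=
    ((hu.comp measurable_fst).prodMk (hw.comp (measurable_fst.comp measurable_snd))).prodMk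
      (measurable_snd.comp measurable_snd)
  have m2 : Measurable (fun z : S × ((ℝ × ℝ) × (ℝ × ℝ)) =>
      ((z.2.1.1, z.2.2.1), z.2.1.2 + z.2.2.2)) := by fun_prop
  have i1 : Integrable F ((ν ⊗ₘ KN Q f hf (n + n)).map
      (fun p => ((τu p.1, τw p.2.1), p.2.2))) :=
    (integrable_map_measure hF.aestronglyMeasurable m1.aemeasurable).2 hi
  rw [h.dbl] at i1
  have i2 := (integrable_map_measure hF.aestronglyMeasurable m2.aemeasurable).1 i1
  have e1 : ∫ p, F ((τu p.1, τw p.2.1), p.2.2) ∂(ν ⊗ₘ KN Q f hf (n + n))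
      = ∫ q, F q ∂((ν ⊗ₘ KN Q f hf (n + n)).map (fun p => ((τu p.1, τw p.2.1), p.2.2))) := by
    rw [integral_map m1.aemeasurable hF.aestronglyMeasurable]
  have e2 : ∀ y, (κ ×ₖ κ') y = (κ y).prod (κ' y) := fun y => Kernel.prod_apply _ _ _
  constructor
  · have := cp_int i2
    simp_rw [e2] at this
    exact this
  · rw [e1, h.dbl, integral_map m2.aemeasurable hF.aestronglyMeasurable]
    have := Measure.integral_compProd i2
    simp_rw [e2] at this
    exact this.symm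

end H61CLT
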