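import Pool.Agent.H61.CLT.Rec2

/-!
# The recursion: proof
-/

set_option autoImplicit false
set_option linter.unusedSectionVars false
open MeasureTheory ProbabilityTheory
open scoped ENNReal Topology

namespace H61CLT

variable {S : Type*} [mS : MeasurableSpace S]
variable {Q : Kernel S S} [IsMarkovKernel Q] {ν : Measure S} [IsProbabilityMeasure ν]
    {f : S → ℝ} {hf : Measurable f}

/-- the core inequality as an assumption with general constants -/
def CoreIneq (β lam ϑ R R' g cM cV : ℝ) : Prop :=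
  ∀ μ1 μ2 : Measure (ℝ × ℝ), Good μ1 → Good μ2 →
    ∫ p, Psi ϑ R p.2 (p.1 * upd β (mA μ1) (mT μ2)) ∂μ1 + G β lam (upd β (mA μ1) (mT μ2))
    + ∫ p, Psi ϑ R p.2 (p.1 * upd β (mA μ2) (mT μ1)) ∂μ2 + G β lam (upd β (mA μ2) (mT μ1))
    + g * ((upd β (mA μ1) (mT μ2) - mT μ2) + (upd β (mA μ2) (mT μ1) - mT μ1))
    - cM * (mM μ1 ^ 2 + mM μ2 ^ 2) - cV * (mV μ1 + mV μ2)
    ≤ ∫ z, Psi ϑ R' (z.1.2 + z.2.2) (z.1.1 * z.2.1) ∂(μ1.prod μ2)
      + ∫ p, G β lam p.1 ∂μ1 + ∫ p, G β lam p.1 ∂μ2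

/-- the updated weight attached to kernels -/
lemma new_weight {κ κ' : Kernel S (ℝ × ℝ)} [IsMarkovKernel κ] [IsMarkovKernel κ'] {β : ℝ}
    (hg : ∀ᵐ y ∂ν, Good (κ y)) (hi : Integrable (fun y => mT (κ y)) ν) :
    Wt ν (fun y => max 1 (upd β (mA (κ' y)) (mT (κ y)))) ∧
    Measurable (fun y => max 0 (upd β (mA (κ' y)) (mT (κ y)) - mT (κ y))) ∧
    Integrable (fun y => max 0 (upd β (mA (κ' y)) (mT (κ y)) - mT (κ y))) ν ∧
    (∀ᵐ y ∂ν, max 1 (upd β (mA (κ' y)) (mT (κ y))) = upd β (mA (κ' y)) (mT (κ y)) ∧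
      max 0 (upd β (mA (κ' y)) (mT (κ y)) - mT (κ y))
        = upd β (mA (κ' y)) (mT (κ y)) - mT (κ y)) := by
  have mu : Measurable (fun y => upd β (mA (κ' y)) (mT (κ y))) :=
    measurable_upd measurable_mA measurable_mT
  have hae : ∀ᵐ y ∂ν, max 1 (upd β (mA (κ' y)) (mT (κ y))) = upd β (mA (κ' y)) (mT (κ y)) ∧
      max 0 (upd β (mA (κ' y)) (mT (κ y)) - mT (κ y))
        = upd β (mA (κ' y)) (mT (κ y)) - mT (κ y) := by
    filter_upwards [hg] with y hy
    have h1 := hy.one_le_T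
    have h2 := upd_ge' (β := β) (A := mA (κ' y)) (T := mT (κ y)) (by linarith)
    exact ⟨max_eq_right (by linarith), max_eq_right (by linarith)⟩
  refine ⟨⟨measurable_const.max mu, fun x => le_max_left _ _, ?_⟩,
    measurable_const.max (mu.sub measurable_mT), ?_, hae⟩
  · apply Integrable.mono' (hi.const_mul 2) (measurable_const.max mu).aestronglyMeasurable
    filter_upwards [hg, hae] with y hy h3
    have h1 := hy.one_le_T
    have h2 := upd_ge' (β := β) (A := mA (κ' y)) (T := mT (κ y)) (by linarith)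
    have h4 := upd_le (β := β) (A := mA (κ' y)) (T := mT (κ y)) (by linarith)
    rw [h3.1, Real.norm_eq_abs, abs_of_nonneg (by linarith)]
    exact h4
  · apply Integrable.mono' (hi.const_mul 2)
      (measurable_const.max (mu.sub measurable_mT)).aestronglyMeasurable
    filter_upwards [hg, hae] with y hy h3
    have h1 := hy.one_le_T
    have h2 := upd_ge' (β := β) (A := mA (κ' y)) (T := mT (κ y)) (by linarith)
    have h4 := upd_le (β := β) (A := mA (κ' y)) (T := mT (κ y)) (by linarith)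
    show ‖max 0 (upd β (mA (κ' y)) (mT (κ y)) - mT (κ y))‖ ≤ 2 * mT (κ y)
    rw [h3.2, Real.norm_eq_abs, abs_of_nonneg (by linarith)]
    linarith

theorem rec_gen {Eb : ℕ → ℝ} (hs : Setup Q ν f hf Eb) {β lam ϑ R R' g cM cV : ℝ}
    (hβ : 0 ≤ β) (hl : 0 ≤ lam) (hϑ : 0 ≤ ϑ) (hR : 0 ≤ R) (hR' : 0 ≤ R') (hcM : 0 ≤ cM)
    (hcore : CoreIneq β lam ϑ R R' g cM cV) (n : ℕ) (τu τw : S → ℝ)
    (hu : Wt ν τu) (hw : Wt ν τw) :
    ∃ τu' τw' ιu ιw : S → ℝ, Wt ν τu' ∧ Wt ν τw' ∧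
      Measurable ιu ∧ (∀ x, 0 ≤ ιu x) ∧ Integrable ιu ν ∧
      Measurable ιw ∧ (∀ x, 0 ≤ ιw x) ∧ Integrable ιw ν ∧
      (∀ g : S → ℝ, Measurable g → (∃ C : ℝ, ∀ x, |g x| ≤ C) →
        ∫ x, τu' x * g x ∂ν = ∫ p, τu p.1 * g p.2.1 ∂(ν ⊗ₘ KN Q f hf n) + ∫ x, ιu x * g x ∂ν) ∧
      JN Q ν f hf ϑ R n τu τw' + EG ν β lam τw' + (JN Q ν f hf ϑ R n τu' τw + EG ν β lam τu')
        + g * (∫ x, ιu x ∂ν + ∫ x, ιw x ∂ν) - cM * (Ef Q ν f hf n + Eb n)
        - cV * (2 * Vn Q ν f hf n)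
      ≤ JN Q ν f hf ϑ R' (n + n) τu τw + EG ν β lam τu + EG ν β lam τw := by
  obtain ⟨κ, κ', k1, k2, k3, k4, k5⟩ :=
    midpoint Q ν f hf n n (hs.marg n) τu τw hu.meas hw.meas
  have hM : MidData Q ν f hf n τu τw κ κ' := ⟨k1, k2, k3, k4, k5⟩
  have gb := hM.good_bwd hs hu
  have gf := hM.good_fwd hs hw
  -- mean weights
  obtain ⟨iTU, eTU⟩ := hM.bwd_iter hu.meas (F := fun z => z.2.1) (by fun_prop)
    (int_fst hu.int n)
  obtain ⟨iTW, eTW⟩ := hM.fwd_iter hw.meas (F := fun z => z.2.1) (by fun_prop)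
    (int_end hs hw.int n)
  obtain ⟨wu, mιu, iιu, aeu⟩ := new_weight (κ := κ) (κ' := κ') (β := β) gb iTU
  obtain ⟨ww, mιw, iιw, aew⟩ := new_weight (κ := κ') (κ' := κ) (β := β) gf iTW
  set τu' : S → ℝ := fun y => max 1 (upd β (mA (κ' y)) (mT (κ y))) with hτu'
  set τw' : S → ℝ := fun y => max 1 (upd β (mA (κ y)) (mT (κ' y))) with hτw'
  set ιu : S → ℝ := fun y => max 0 (upd β (mA (κ' y)) (mT (κ y)) - mT (κ y)) with hιu
  set ιw : S → ℝ := fun y => max 0 (upd β (mA (κ y)) (mT (κ' y)) - mT (κ' y)) with hιw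
  refine ⟨τu', τw', ιu, ιw, wu, ww, mιu, fun x => le_max_left _ _, iιu, mιw,
    fun x => le_max_left _ _, iιw, ?_, ?_⟩
  · -- duality
    intro g hg hb
    obtain ⟨C, hC⟩ := hb
    have mF : Measurable (fun z : S × (ℝ × ℝ) => z.2.1 * g z.1) :=
      (measurable_fst.comp measurable_snd).mul (hg.comp measurable_fst)
    have i0 : Integrable (fun p : S × (S × ℝ) => τu p.1 * g p.2.1) (ν ⊗ₘ KN Q f hf n) := by
      have h1 : Integrable (fun p : S × (S × ℝ) => τu p.1) (ν ⊗ₘ KN Q f hf n) :=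
        int_fst hu.int n
      refine Integrable.mul_bdd (c := C) h1 ?_ ?_
      · exact (hg.comp (measurable_fst.comp measurable_snd)).aestronglyMeasurable
      · filter_upwards with p
        exact hC _
    obtain ⟨j1, j2⟩ := hM.bwd_iter hu.meas mF i0
    have j3 : (fun y => ∫ p, p.1 * g y ∂(κ y)) = fun y => mT (κ y) * g y := by
      funext y
      rw [integral_mul_const]; rfl
    have j4 : Integrable (fun y => mT (κ y) * g y) ν := by rw [← j3]; exact j1
    have j5 : Integrable (fun y => ιu y * g y) ν := by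
      refine Integrable.mul_bdd (c := C) iιu hg.aestronglyMeasurable ?_
      filter_upwards with x
      exact hC _
    rw [← j2]
    show ∫ x, τu' x * g x ∂ν = ∫ y, ∫ p, p.1 * g y ∂(κ y) ∂ν + _
    rw [j3, ← integral_add j4 j5]
    apply integral_congr_ae
    filter_upwards [aeu] with y hy
    have e1 : τu' y = upd β (mA (κ' y)) (mT (κ y)) := hy.1
    have e2 : ιu y = upd β (mA (κ' y)) (mT (κ y)) - mT (κ y) := hy.2
    rw [e1, e2]
    ring
  · -- the inequality
    -- first block functional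
    have mP := measurable_Psi ϑ R
    have mF1 : Measurable (fun z : S × (ℝ × ℝ) => Psi ϑ R z.2.2 (z.2.1 * τw' z.1)) := by
      exact mP.comp ((measurable_snd.comp measurable_snd).prodMk
        ((measurable_fst.comp measurable_snd).mul (ww.meas.comp measurable_fst)))
    have iF1 : Integrable (fun p : S × (S × ℝ) => Psi ϑ R p.2.2 (τu p.1 * τw' p.2.1))
        (ν ⊗ₘ KN Q f hf n) := by
      refine Psi_integrable (measurable_snd.comp measurable_snd) ?_ (hs.int2 n) ?_ hϑ hR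
      · exact (hu.meas.comp measurable_fst).mul
          (ww.meas.comp (measurable_fst.comp measurable_snd))
      · filter_upwards with p
        exact mul_one_le (hu.one_le _) (ww.one_le _)
    obtain ⟨ia1, ea1⟩ := hM.bwd_iter hu.meas mF1 iF1
    -- second block functional
    have mF2 : Measurable (fun z : S × (ℝ × ℝ) => Psi ϑ R z.2.2 (z.2.1 * τu' z.1)) := by
      exact mP.comp ((measurable_snd.comp measurable_snd).prodMk
        ((measurable_fst.comp measurable_snd).mul (wu.meas.comp measurable_fst)))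
    have iF2 : Integrable (fun p : S × (S × ℝ) => Psi ϑ R p.2.2 (τw p.2.1 * τu' p.1))
        (ν ⊗ₘ KN Q f hf n) := by
      refine Psi_integrable (measurable_snd.comp measurable_snd) ?_ (hs.int2 n) ?_ hϑ hR
      · exact (hw.meas.comp (measurable_fst.comp measurable_snd)).mul
          (wu.meas.comp measurable_fst)
      · filter_upwards with p
        exact mul_one_le (hw.one_le _) (wu.one_le _)
    obtain ⟨ia2, ea2⟩ := hM.fwd_iter hw.meas mF2 iF2
    -- big block functional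
    have mF3 : Measurable (fun z : (ℝ × ℝ) × ℝ => Psi ϑ R' z.2 (z.1.1 * z.1.2)) := by
      have m0 : Measurable (fun z : (ℝ × ℝ) × ℝ => (z.2, z.1.1 * z.1.2)) := by fun_prop
      exact (measurable_Psi ϑ R').comp m0
    have iF3 : Integrable (fun p : S × (S × ℝ) => Psi ϑ R' p.2.2 (τu p.1 * τw p.2.1))
        (ν ⊗ₘ KN Q f hf (n + n)) := by
      refine Psi_integrable (measurable_snd.comp measurable_snd) ?_ (hs.int2 _) ?_ hϑ hR'
      · exact (hu.meas.comp measurable_fst).mul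
          (hw.meas.comp (measurable_fst.comp measurable_snd))
      · filter_upwards with p
        exact mul_one_le (hu.one_le _) (hw.one_le _)
    obtain ⟨ib, eb⟩ := hM.dbl_iter hu.meas hw.meas mF3 iF3
    -- penalties
    have mG := measurable_G β lam
    obtain ⟨ig1, eg1⟩ := hM.bwd_iter hu.meas (F := fun z => G β lam z.2.1)
      (mG.comp (measurable_fst.comp measurable_snd)) (int_fst (G_integrable hu hβ hl) n)
    obtain ⟨ig2, eg2⟩ := hM.fwd_iter hw.meas (F := fun z => G β lam z.2.1)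
      (mG.comp (measurable_fst.comp measurable_snd)) (int_end hs (G_integrable hw hβ hl) n)
    -- second moments
    obtain ⟨iv1, ev1⟩ := hM.bwd_iter hu.meas (F := fun z => z.2.2 ^ 2) (by fun_prop)
      (hs.int2 n)
    obtain ⟨iv2, ev2⟩ := hM.fwd_iter hw.meas (F := fun z => z.2.2 ^ 2) (by fun_prop)
      (hs.int2 n)
    have eg1' : ∫ y, ∫ p, G β lam p.1 ∂(κ y) ∂ν = EG ν β lam τu :=
      eg1.trans (integral_fst (g := fun x => G β lam (τu x)) (mG.comp hu.meas) n)
    have eg2' : ∫ y, ∫ p, G β lam p.1 ∂(κ' y) ∂ν = EG ν β lam τw :=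
      eg2.trans (integral_end hs (g := fun x => G β lam (τw x)) (mG.comp hw.meas) n)
    have ea1' : ∫ y, ∫ p, Psi ϑ R p.2 (p.1 * τw' y) ∂(κ y) ∂ν = JN Q ν f hf ϑ R n τu τw' := ea1
    have ea2' : ∫ y, ∫ p, Psi ϑ R p.2 (p.1 * τu' y) ∂(κ' y) ∂ν
        = JN Q ν f hf ϑ R n τu' τw := by
      refine ea2.trans ?_
      unfold JN
      apply integral_congr_ae
      filter_upwards with p
      show Psi ϑ R p.2.2 (τw p.2.1 * τu' p.1) = _
      rw [mul_comm]
    have eb' : ∫ y, ∫ z, Psi ϑ R' (z.1.2 + z.2.2) (z.1.1 * z.2.1) ∂((κ y).prod (κ' y)) ∂ν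
        = JN Q ν f hf ϑ R' (n + n) τu τw := eb
    -- means
    have im1 : Integrable (fun y => mM (κ y) ^ 2) ν := by
      apply Integrable.mono' iv1 (measurable_mM.pow_const 2).aestronglyMeasurable
      filter_upwards [gb] with y hy
      have := hy.prob
      rw [Real.norm_eq_abs, abs_of_nonneg (sq_nonneg _)]
      exact sq_integral_le measurable_snd.aestronglyMeasurable hy.int2
    have im2 : Integrable (fun y => mM (κ' y) ^ 2) ν := by
      apply Integrable.mono' iv2 (measurable_mM.pow_const 2).aestronglyMeasurable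
      filter_upwards [gf] with y hy
      have := hy.prob
      rw [Real.norm_eq_abs, abs_of_nonneg (sq_nonneg _)]
      exact sq_integral_le measurable_snd.aestronglyMeasurable hy.int2
    have em2 : ∫ y, mM (κ' y) ^ 2 ∂ν = Ef Q ν f hf n := by
      unfold Ef
      apply integral_congr_ae
      filter_upwards with y
      show mM (κ' y) ^ 2 = _
      congr 1
      exact hM.fwd_integral hw.meas y (F := fun p => p.2) measurable_snd
    have em1 : ∫ y, mM (κ y) ^ 2 ∂ν ≤ Eb n := by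
      apply dual_bound measurable_mM im1 (hs.backN n)
      intro g hg hb
      have hback := hs.back n g hg hb
      obtain ⟨C, hC⟩ := hb
      have mF : Measurable (fun z : S × (ℝ × ℝ) => z.2.2 * g z.1) :=
        (measurable_snd.comp measurable_snd).mul (hg.comp measurable_fst)
      have i0 : Integrable (fun p : S × (S × ℝ) => p.2.2 * g p.2.1) (ν ⊗ₘ KN Q f hf n) := by
        have h1 : Integrable (fun p : S × (S × ℝ) => p.2.2) (ν ⊗ₘ KN Q f hf n) :=
          integrable_of_sq (measurable_snd.comp measurable_snd).aestronglyMeasurable (hs.int2 n)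
        refine Integrable.mul_bdd (c := C) h1 ?_ ?_
        · exact (hg.comp (measurable_fst.comp measurable_snd)).aestronglyMeasurable
        · filter_upwards with p
          exact hC _
      obtain ⟨j1, j2⟩ := hM.bwd_iter hu.meas mF i0
      have j3 : (fun y => ∫ p, p.2 * g y ∂(κ y)) = fun y => mM (κ y) * g y := by
        funext y
        rw [integral_mul_const]; rfl
      have j4 : ∫ y, mM (κ y) * g y ∂ν = ∫ p, p.2.2 * g p.2.1 ∂(ν ⊗ₘ KN Q f hf n) := by
        rw [← j2, ← j3]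
      rw [j4]
      exact hback
    -- pointwise inequality
    have key : ∀ᵐ y ∂ν,
        ∫ p, Psi ϑ R p.2 (p.1 * τw' y) ∂(κ y) + G β lam (τw' y)
        + (∫ p, Psi ϑ R p.2 (p.1 * τu' y) ∂(κ' y) + G β lam (τu' y))
        + g * (ιu y + ιw y)
        ≤ ∫ z, Psi ϑ R' (z.1.2 + z.2.2) (z.1.1 * z.2.1) ∂((κ y).prod (κ' y))
        + (∫ p, G β lam p.1 ∂(κ y) + ∫ p, G β lam p.1 ∂(κ' y))
        + cM * (mM (κ y) ^ 2 + mM (κ' y) ^ 2)
        + cV * (∫ p, p.2 ^ 2 ∂(κ y) + ∫ p, p.2 ^ 2 ∂(κ' y)) := by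
      filter_upwards [gb, gf, aeu, aew] with y hy1 hy2 hy3 hy4
      have c := hcore (κ y) (κ' y) hy1 hy2
      have e1 : τu' y = upd β (mA (κ' y)) (mT (κ y)) := hy3.1
      have e2 : ιu y = upd β (mA (κ' y)) (mT (κ y)) - mT (κ y) := hy3.2
      have e3 : τw' y = upd β (mA (κ y)) (mT (κ' y)) := hy4.1
      have e4 : ιw y = upd β (mA (κ y)) (mT (κ' y)) - mT (κ' y) := hy4.2
      rw [e1, e2, e3, e4]
      have v1 : ∫ p, p.2 ^ 2 ∂(κ y) = mV (κ y) := rfl
      have v2 : ∫ p, p.2 ^ 2 ∂(κ' y) = mV (κ' y) := rfl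
      rw [v1, v2]
      linarith
    -- integrate
    have igw : Integrable (fun y => G β lam (τw' y)) ν := G_integrable ww hβ hl
    have igu : Integrable (fun y => G β lam (τu' y)) ν := G_integrable wu hβ hl
    have iL1 : Integrable (fun y => ∫ p, Psi ϑ R p.2 (p.1 * τw' y) ∂(κ y) + G β lam (τw' y)) ν :=
      ia1.add igw
    have iL2 : Integrable (fun y => ∫ p, Psi ϑ R p.2 (p.1 * τu' y) ∂(κ' y) + G β lam (τu' y)) ν :=
      ia2.add igu
    have iι : Integrable (fun y => ιu y + ιw y) ν := iιu.add iιw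
    have iL3 : Integrable (fun y => ∫ p, Psi ϑ R p.2 (p.1 * τw' y) ∂(κ y) + G β lam (τw' y)
        + (∫ p, Psi ϑ R p.2 (p.1 * τu' y) ∂(κ' y) + G β lam (τu' y))) ν := iL1.add iL2
    have iR1 : Integrable (fun y => ∫ p, G β lam p.1 ∂(κ y) + ∫ p, G β lam p.1 ∂(κ' y)) ν :=
      ig1.add ig2
    have iR2 : Integrable (fun y => mM (κ y) ^ 2 + mM (κ' y) ^ 2) ν := im1.add im2
    have iR3 : Integrable (fun y => ∫ p, p.2 ^ 2 ∂(κ y) + ∫ p, p.2 ^ 2 ∂(κ' y)) ν :=
      iv1.add iv2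
    have iR12 : Integrable (fun y =>
        ∫ z, Psi ϑ R' (z.1.2 + z.2.2) (z.1.1 * z.2.1) ∂((κ y).prod (κ' y))
        + (∫ p, G β lam p.1 ∂(κ y) + ∫ p, G β lam p.1 ∂(κ' y))) ν := ib.add iR1
    have iR123 : Integrable (fun y =>
        ∫ z, Psi ϑ R' (z.1.2 + z.2.2) (z.1.1 * z.2.1) ∂((κ y).prod (κ' y))
        + (∫ p, G β lam p.1 ∂(κ y) + ∫ p, G β lam p.1 ∂(κ' y))
        + cM * (mM (κ y) ^ 2 + mM (κ' y) ^ 2)) ν := iR12.add (iR2.const_mul cM)
    have iL : Integrable (fun y => ∫ p, Psi ϑ R p.2 (p.1 * τw' y) ∂(κ y) + G β lam (τw' y)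
        + (∫ p, Psi ϑ R p.2 (p.1 * τu' y) ∂(κ' y) + G β lam (τu' y))
        + g * (ιu y + ιw y)) ν := iL3.add (iι.const_mul g)
    have iR : Integrable (fun y =>
        ∫ z, Psi ϑ R' (z.1.2 + z.2.2) (z.1.1 * z.2.1) ∂((κ y).prod (κ' y))
        + (∫ p, G β lam p.1 ∂(κ y) + ∫ p, G β lam p.1 ∂(κ' y))
        + cM * (mM (κ y) ^ 2 + mM (κ' y) ^ 2)
        + cV * (∫ p, p.2 ^ 2 ∂(κ y) + ∫ p, p.2 ^ 2 ∂(κ' y))) ν := iR123.add (iR3.const_mul cV)
    have fin := integral_mono_ae iL iR key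
    rw [integral_add iL3 (iι.const_mul g), integral_add iL1 iL2, integral_add ia1 igw,
      integral_add ia2 igu, integral_const_mul, integral_add iιu iιw,
      integral_add iR123 (iR3.const_mul cV), integral_add iR12 (iR2.const_mul cM),
      integral_add ib iR1, integral_add ig1 ig2, integral_const_mul, integral_const_mul,
      integral_add im1 im2, integral_add iv1 iv2, ea1', ea2', eb', eg1', eg2', em2] at fin
    have ev1' : ∫ y, ∫ p, p.2 ^ 2 ∂(κ y) ∂ν = Vn Q ν f hf n := ev1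
    have ev2' : ∫ y, ∫ p, p.2 ^ 2 ∂(κ' y) ∂ν = Vn Q ν f hf n := ev2
    rw [ev1', ev2'] at fin
    have hcm := mul_le_mul_of_nonneg_left em1 hcM
    have d1 : ∫ y, G β lam (τw' y) ∂ν = EG ν β lam τw' := rfl
    have d2 : ∫ y, G β lam (τu' y) ∂ν = EG ν β lam τu' := rfl
    rw [d1, d2] at fin
    linarith

end H61CLT
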