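import Pool.Agent.H61.CLT.Rec3

/-!
# The two recursions
-/

set_option autoImplicit false
open MeasureTheory ProbabilityTheory
open scoped ENNReal Topology

namespace H61CLT

variable {S : Type*} [mS : MeasurableSpace S]

lemma coreIneqF {β lam : ℝ} (hl : 0 < lam) (hlb : lam ≤ β / 2) :
    CoreIneq β lam 0 0 0 β (9 * β / lam) 0 := by
  intro μ1 μ2 h1 h2
  have hT1 := h1.one_le_T
  have hT2 := h2.one_le_T
  have hw1 : 1 ≤ upd β (mA μ1) (mT μ2) := hT2.trans (upd_ge hT2)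
  have hw2 : 1 ≤ upd β (mA μ2) (mT μ1) := hT1.trans (upd_ge hT1)
  have c := coreF h1 h2 hl hlb
  rw [Psi_integral h1 le_rfl hw1, Psi_integral h2 le_rfl hw2]
  have e : ∫ z, Psi 0 0 (z.1.2 + z.2.2) (z.1.1 * z.2.1) ∂(μ1.prod μ2)
      = ∫ z, (z.1.2 + z.2.2) ^ 2 / (z.1.1 * z.2.1) ∂(μ1.prod μ2) := by
    apply integral_congr_ae
    filter_upwards with z
    unfold Psi
    ring
  rw [e]
  linarith

lemma coreIneqJ {β t R R' : ℝ} (hβ : 0 < β) (ht : 0 < t) (ht1 : t ≤ 1)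
    (hR : R * t ^ 2 = √β) (hR' : 5 / 4 * R ≤ R') :
    CoreIneq β (β / 2) (1 / 16) R R' 0 18 (4 * t) := by
  intro μ1 μ2 h1 h2
  have c := coreJ h1 h2 hβ ht ht1 hR hR'
  linarith

theorem recF (Q : Kernel S S) [IsMarkovKernel Q] (ν : Measure S) [IsProbabilityMeasure ν]
    (f : S → ℝ) (hf : Measurable f) (Eb : ℕ → ℝ) (hs : Setup Q ν f hf Eb)
    {β lam : ℝ} (hl : 0 < lam) (hlb : lam ≤ β / 2) (n : ℕ)
    (τu τw : S → ℝ) (hu : Wt ν τu) (hw : Wt ν τw) :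
    ∃ τu' τw' ιu ιw : S → ℝ, Wt ν τu' ∧ Wt ν τw' ∧
      Measurable ιu ∧ (∀ x, 0 ≤ ιu x) ∧ Integrable ιu ν ∧
      Measurable ιw ∧ (∀ x, 0 ≤ ιw x) ∧ Integrable ιw ν ∧
      (∀ g : S → ℝ, Measurable g → (∃ C : ℝ, ∀ x, |g x| ≤ C) →
        ∫ x, τu' x * g x ∂ν = ∫ p, τu p.1 * g p.2.1 ∂(ν ⊗ₘ KN Q f hf n) + ∫ x, ιu x * g x ∂ν) ∧
      JN Q ν f hf 0 0 n τu τw' + EG ν β lam τw' + (JN Q ν f hf 0 0 n τu' τw + EG ν β lam τu')
        + β * (∫ x, ιu x ∂ν + ∫ x, ιw x ∂ν) - 9 * β / lam * (Ef Q ν f hf n + Eb n)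
      ≤ JN Q ν f hf 0 0 (n + n) τu τw + EG ν β lam τu + EG ν β lam τw := by
  have hβ : 0 ≤ β := by linarith
  obtain ⟨τu', τw', ιu, ιw, a1, a2, a3, a4, a5, a6, a7, a8, a9, a10⟩ :=
    rec_gen hs hβ hl.le le_rfl le_rfl le_rfl (by positivity) (coreIneqF hl hlb) n τu τw hu hw
  refine ⟨τu', τw', ιu, ιw, a1, a2, a3, a4, a5, a6, a7, a8, a9, ?_⟩
  linarith

theorem recJ (Q : Kernel S S) [IsMarkovKernel Q] (ν : Measure S) [IsProbabilityMeasure ν]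
    (f : S → ℝ) (hf : Measurable f) (Eb : ℕ → ℝ) (hs : Setup Q ν f hf Eb)
    {β t R R' : ℝ} (hβ : 0 < β) (ht : 0 < t) (ht1 : t ≤ 1) (hR : R * t ^ 2 = √β)
    (hR' : 5 / 4 * R ≤ R') (n : ℕ)
    (τu τw : S → ℝ) (hu : Wt ν τu) (hw : Wt ν τw) :
    ∃ τu' τw' : S → ℝ, Wt ν τu' ∧ Wt ν τw' ∧
      JN Q ν f hf (1 / 16) R n τu τw' + EG ν β (β / 2) τw'
        + (JN Q ν f hf (1 / 16) R n τu' τw + EG ν β (β / 2) τu')
        - 18 * (Ef Q ν f hf n + Eb n) - 8 * t * Vn Q ν f hf n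
      ≤ JN Q ν f hf (1 / 16) R' (n + n) τu τw + EG ν β (β / 2) τu + EG ν β (β / 2) τw := by
  have hR0 : 0 ≤ R := by
    by_contra hcon
    push Not at hcon
    have h1 : R * t ^ 2 < 0 := mul_neg_of_neg_of_pos hcon (by positivity)
    have h2 := Real.sqrt_nonneg β
    linarith
  have hR'0 : 0 ≤ R' := by linarith
  obtain ⟨τu', τw', ιu, ιw, a1, a2, a3, a4, a5, a6, a7, a8, a9, a10⟩ :=
    rec_gen hs hβ.le (by positivity) (by norm_num) hR0 hR'0 (by norm_num)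
      (coreIneqJ hβ ht ht1 hR hR') n τu τw hu hw
  refine ⟨τu', τw', a1, a2, ?_⟩
  linarith

end H61CLT
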