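import Pool.Agent.H61.CLT.Defs
import Pool.Agent.H61.CLT.CS

/-!
# One-step formulas for the joint law of `(ξ_0, ξ_n, S_n)`
-/

set_option autoImplicit false
open MeasureTheory ProbabilityTheory
open scoped ENNReal Topology

namespace H61CLT

variable {S : Type*} [mS : MeasurableSpace S]

/-- the map adding one step -/
def stepmap (f : S → ℝ) (t : (S × ℝ) × S) : S × ℝ := (t.2, t.1.2 + f t.1.1)

lemma measurable_stepmap {f : S → ℝ} (hf : Measurable f) : Measurable (stepmap f) :=
  measurable_snd.prodMk ((measurable_snd.comp measurable_fst).add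
    (hf.comp (measurable_fst.comp measurable_fst)))

lemma KN_succ_apply (Q : Kernel S S) [IsMarkovKernel Q] (f : S → ℝ) (hf : Measurable f)
    (n : ℕ) (x : S) :
    KN Q f hf (n + 1) x
      = ((KN Q f hf n x) ⊗ₘ (Q.comap Prod.fst measurable_fst)).map (stepmap f) := by
  apply Measure.ext_of_lintegral
  intro F hF
  have hF' : Measurable (fun t : (S × ℝ) × S => F (stepmap f t)) :=
    hF.comp (measurable_stepmap hf)
  rw [lintegral_KN_succ Q f hf n x hF, lintegral_map hF (measurable_stepmap hf),
    Measure.lintegral_compProd hF']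
  rfl

/-- the map adding one step, on the joint law -/
def stepmap' (f : S → ℝ) (t : (S × (S × ℝ)) × S) : S × (S × ℝ) :=
  (t.1.1, (t.2, t.1.2.2 + f t.1.2.1))

lemma measurable_stepmap' {f : S → ℝ} (hf : Measurable f) : Measurable (stepmap' f) := by
  unfold stepmap'
  have h1 : Measurable (fun t : (S × (S × ℝ)) × S => f t.1.2.1) :=
    hf.comp (measurable_fst.comp (measurable_snd.comp measurable_fst))
  have h2 : Measurable (fun t : (S × (S × ℝ)) × S => t.1.2.2) := by fun_prop
  have h3 : Measurable (fun t : (S × (S × ℝ)) × S => t.1.1) := by fun_prop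
  exact h3.prodMk (measurable_snd.prodMk (h2.add h1))

lemma measurable_mid : Measurable (fun p : S × (S × ℝ) => p.2.1) :=
  measurable_fst.comp measurable_snd

lemma joint_succ (Q : Kernel S S) [IsMarkovKernel Q] (ν : Measure S) [IsProbabilityMeasure ν]
    (f : S → ℝ) (hf : Measurable f) (n : ℕ) :
    ν ⊗ₘ KN Q f hf (n + 1)
      = ((ν ⊗ₘ KN Q f hf n) ⊗ₘ (Q.comap (fun p : S × (S × ℝ) => p.2.1) measurable_mid)).map
          (stepmap' f) := by
  apply Measure.ext_of_lintegral
  intro F hF
  have hF' : Measurable (fun t : (S × (S × ℝ)) × S => F (stepmap' f t)) :=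
    hF.comp (measurable_stepmap' hf)
  rw [Measure.lintegral_compProd hF, lintegral_map hF (measurable_stepmap' hf),
    Measure.lintegral_compProd hF', Measure.lintegral_compProd]
  · apply lintegral_congr
    intro x
    rw [lintegral_KN_succ Q f hf n x (F := fun q => F (x, q)) (hF.comp measurable_prodMk_left)]
    rfl
  · exact Measurable.lintegral_kernel_prod_right' hF'

lemma joint_zero (Q : Kernel S S) [IsMarkovKernel Q] (ν : Measure S) [IsProbabilityMeasure ν]
    (f : S → ℝ) (hf : Measurable f) {F : S × (S × ℝ) → ℝ≥0∞} (hF : Measurable F) :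
    ∫⁻ p, F p ∂(ν ⊗ₘ KN Q f hf 0) = ∫⁻ x, F (x, (x, 0)) ∂ν := by
  rw [Measure.lintegral_compProd hF]
  apply lintegral_congr
  intro x
  rw [lintegral_KN_zero Q f hf x (F := fun q => F (x, q)) (hF.comp measurable_prodMk_left)]

lemma joint_zero_eq (Q : Kernel S S) [IsMarkovKernel Q] (ν : Measure S) [IsProbabilityMeasure ν]
    (f : S → ℝ) (hf : Measurable f) :
    ν ⊗ₘ KN Q f hf 0 = ν.map (fun x => (x, (x, 0))) := by
  have hm : Measurable (fun x : S => (x, (x, (0 : ℝ)))) :=
    measurable_id.prodMk (measurable_id.prodMk measurable_const)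
  apply Measure.ext_of_lintegral
  intro F hF
  rw [joint_zero Q ν f hf hF, lintegral_map hF hm]

/-- the law of `ξ_n` is `ν` -/
lemma joint_marg (Q : Kernel S S) [IsMarkovKernel Q] (ν : Measure S) [IsProbabilityMeasure ν]
    (hinv : ν.bind Q = ν) (f : S → ℝ) (hf : Measurable f) (n : ℕ) :
    (ν ⊗ₘ KN Q f hf n).map (fun p => p.2.1) = ν := by
  induction n with
  | zero =>
    have hm : Measurable (fun x : S => (x, (x, (0 : ℝ)))) :=
      measurable_id.prodMk (measurable_id.prodMk measurable_const)
    rw [joint_zero_eq, Measure.map_map measurable_mid hm]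
    exact Measure.map_id
  | succ n ih =>
    rw [joint_succ]
    apply Measure.ext_of_lintegral
    intro F hF
    have hG : Measurable (fun y => ∫⁻ z, F z ∂(Q y)) := hF.lintegral_kernel
    have hF1 : Measurable (fun p : S × (S × ℝ) => F p.2.1) := hF.comp measurable_mid
    have hF2 : Measurable (fun t : (S × (S × ℝ)) × S => F (stepmap' f t).2.1) :=
      hF1.comp (measurable_stepmap' hf)
    rw [lintegral_map hF measurable_mid,
      lintegral_map hF1 (measurable_stepmap' hf),
      Measure.lintegral_compProd hF2]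
    have e : ∫⁻ y, F y ∂ν = ∫⁻ y, ∫⁻ z, F z ∂(Q y) ∂ν := by
      conv_lhs => rw [← hinv]
      rw [Measure.lintegral_bind (Kernel.aemeasurable _) hF.aemeasurable]
    rw [e]
    conv_rhs => rw [← ih]
    rw [lintegral_map hG measurable_mid]
    rfl

lemma integrable_mid {Q : Kernel S S} [IsMarkovKernel Q] {ν : Measure S} [IsProbabilityMeasure ν]
    {f : S → ℝ} {hf : Measurable f} {n : ℕ}
    (hmarg : (ν ⊗ₘ KN Q f hf n).map (fun p => p.2.1) = ν) {g : S → ℝ}
    (hg : Measurable g) (hgi : Integrable g ν) :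
    Integrable (fun p => g p.2.1) (ν ⊗ₘ KN Q f hf n) := by
  rw [← hmarg] at hgi
  exact (integrable_map_measure hg.aestronglyMeasurable measurable_mid.aemeasurable).1 hgi

lemma integral_mid {Q : Kernel S S} [IsMarkovKernel Q] {ν : Measure S} [IsProbabilityMeasure ν]
    {f : S → ℝ} {hf : Measurable f} {n : ℕ}
    (hmarg : (ν ⊗ₘ KN Q f hf n).map (fun p => p.2.1) = ν) {g : S → ℝ}
    (hg : Measurable g) :
    ∫ p, g p.2.1 ∂(ν ⊗ₘ KN Q f hf n) = ∫ x, g x ∂ν := by
  conv_rhs => rw [← hmarg]
  rw [integral_map measurable_mid.aemeasurable hg.aestronglyMeasurable]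

/-- second moments are finite -/
lemma joint_int2 (Q : Kernel S S) [IsMarkovKernel Q] (ν : Measure S) [IsProbabilityMeasure ν]
    (hinv : ν.bind Q = ν) (f : S → ℝ) (hf : Measurable f) (hfL : MemLp f 2 ν) (n : ℕ) :
    Integrable (fun p : S × (S × ℝ) => p.2.2 ^ 2) (ν ⊗ₘ KN Q f hf n) := by
  induction n with
  | zero =>
    have hm : Measurable (fun x : S => (x, (x, (0 : ℝ)))) :=
      measurable_id.prodMk (measurable_id.prodMk measurable_const)
    rw [joint_zero_eq, integrable_map_measure _ hm.aemeasurable]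
    · have : ((fun p : S × (S × ℝ) => p.2.2 ^ 2) ∘ fun x : S => (x, (x, (0 : ℝ))))
          = fun _ => (0 : ℝ) := by
        funext x; simp
      rw [this]
      exact integrable_const _
    · have : Measurable (fun p : S × (S × ℝ) => p.2.2 ^ 2) := by fun_prop
      exact this.aestronglyMeasurable
  | succ n ih =>
    have hm2 : Measurable (fun p : S × (S × ℝ) => p.2.2 ^ 2) := by fun_prop
    have hm1 : Measurable (fun p : S × (S × ℝ) => p.2.2) := by fun_prop
    have hfm : Measurable (fun p : S × (S × ℝ) => f p.2.1) := hf.comp measurable_mid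
    rw [joint_succ, integrable_map_measure hm2.aestronglyMeasurable
      (measurable_stepmap' hf).aemeasurable]
    have hsum : Integrable (fun p : S × (S × ℝ) => (p.2.2 + f p.2.1) ^ 2)
        (ν ⊗ₘ KN Q f hf n) := by
      have h1 : Integrable (fun p : S × (S × ℝ) => f p.2.1 ^ 2) (ν ⊗ₘ KN Q f hf n) :=
        integrable_mid (joint_marg Q ν hinv f hf n) (g := fun x => f x ^ 2) (hf.pow_const 2)
          hfL.integrable_sq
      apply Integrable.mono' ((ih.const_mul 2).add (h1.const_mul 2))
      · exact ((hm1.add hfm).pow_const 2).aestronglyMeasurable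
      · filter_upwards with p
        show ‖(p.2.2 + f p.2.1) ^ 2‖ ≤ 2 * p.2.2 ^ 2 + 2 * f p.2.1 ^ 2
        rw [Real.norm_of_nonneg (sq_nonneg _)]
        nlinarith [sq_nonneg (p.2.2 - f p.2.1)]
    have e : ((fun p : S × (S × ℝ) => p.2.2 ^ 2) ∘ stepmap' f)
        = (fun p : S × (S × ℝ) => (p.2.2 + f p.2.1) ^ 2) ∘ Prod.fst := by
      funext t; rfl
    rw [e]
    have hfst : ((ν ⊗ₘ KN Q f hf n) ⊗ₘ
        (Q.comap (fun p : S × (S × ℝ) => p.2.1) measurable_mid)).map Prod.fst
        = ν ⊗ₘ KN Q f hf n := Measure.fst_compProd _ _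
    rw [← hfst] at hsum
    exact (integrable_map_measure ((hm1.add hfm).pow_const 2).aestronglyMeasurable
      measurable_fst.aemeasurable).1 hsum

end H61CLT
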