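import Pool.Agent.H61.CLT.Rec4
import Pool.Agent.H61.CLT.Setup1
import Pool.Agent.H61.CLT.MeanErg

/-!
# Averaging operators on bounded functions, and the leaf estimate
-/

set_option autoImplicit false
set_option linter.unusedSectionVars false
open MeasureTheory ProbabilityTheory
open scoped ENNReal Topology

namespace H61CLT

variable {S : Type*} [mS : MeasurableSpace S]
variable {Q : Kernel S S} [IsMarkovKernel Q] {ν : Measure S} [IsProbabilityMeasure ν]
    {f : S → ℝ} {hf : Measurable f}

/-- measurable with values in `[0, L]` -/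
structure Bd (L : ℝ) (g : S → ℝ) : Prop where
  meas : Measurable g
  nonneg : ∀ x, 0 ≤ g x
  le : ∀ x, g x ≤ L

namespace Bd

variable {L : ℝ} {g g' : S → ℝ}

lemma abs_le (h : Bd L g) (x : S) : |g x| ≤ L := by
  rw [abs_of_nonneg (h.nonneg x)]; exact h.le x

lemma int (h : Bd L g) (μ : Measure S) [IsFiniteMeasure μ] : Integrable g μ :=
  Integrable.mono' (integrable_const L) h.meas.aestronglyMeasurable
    (Filter.Eventually.of_forall h.abs_le)

lemma pop (h : Bd L g) : Bd L (Pop Q g) where
  meas := (ME.Pop_sm h.meas.stronglyMeasurable).measurable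
  nonneg := fun x => integral_nonneg h.nonneg
  le := fun x => by
    calc Pop Q g x ≤ ∫ _z, L ∂(Q x) :=
          integral_mono (h.int _) (integrable_const _) h.le
      _ = L := by simp

lemma iter (h : Bd L g) (n : ℕ) : Bd L ((Pop Q)^[n] g) := by
  induction n with
  | zero => exact h
  | succ n ih => rw [Function.iterate_succ_apply']; exact ih.pop

lemma pop_add (h : Bd L g) (h' : Bd L g') :
    Pop Q (fun x => g x + g' x) = fun x => Pop Q g x + Pop Q g' x := by
  funext x
  exact integral_add (h.int _) (h'.int _)

lemma pop_half (h : Bd L g) (h' : Bd L g') :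
    Pop Q (fun x => (g x + g' x) / 2) = fun x => (Pop Q g x + Pop Q g' x) / 2 := by
  funext x
  show ∫ y, (g y + g' y) / 2 ∂(Q x) = _
  rw [integral_div, integral_add (h.int _) (h'.int _)]
  rfl

lemma half (h : Bd L g) (h' : Bd L g') : Bd L (fun x => (g x + g' x) / 2) where
  meas := (h.meas.add h'.meas).div_const 2
  nonneg := fun x => by have := h.nonneg x; have := h'.nonneg x; positivity
  le := fun x => by have := h.le x; have := h'.le x; linarith

lemma iter_half (h : Bd L g) (h' : Bd L g') (n : ℕ) :
    (Pop Q)^[n] (fun x => (g x + g' x) / 2)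
      = fun x => ((Pop Q)^[n] g x + (Pop Q)^[n] g' x) / 2 := by
  induction n with
  | zero => rfl
  | succ n ih =>
    rw [Function.iterate_succ_apply', ih, pop_half (h.iter n) (h'.iter n),
      Function.iterate_succ_apply', Function.iterate_succ_apply']

end Bd

/-- the marginal of the kernel is the iterated averaging operator -/
lemma KN_pop {L : ℝ} {g : S → ℝ} (h : Bd L g) (n : ℕ) (x : S) :
    ∫ p, g p.1 ∂(KN Q f hf n x) = (Pop Q)^[n] g x := by
  have hm1 : ∀ {g : S → ℝ}, Bd L g → Measurable (fun p : S × ℝ => g p.1) :=
    fun h => h.meas.comp measurable_fst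
  induction n generalizing g with
  | zero =>
    show ∫ p, g p.1 ∂(Kernel.deterministic (fun x => (x, (0:ℝ))) _ x) = g x
    rw [Kernel.deterministic_apply, integral_dirac' _ _ (hm1 h).stronglyMeasurable]
  | succ n ih =>
    rw [Function.iterate_succ_apply, ← ih h.pop]
    rw [KN_succ_apply, integral_map (measurable_stepmap hf).aemeasurable
      (hm1 h).aestronglyMeasurable]
    have hi : Integrable (fun t : (S × ℝ) × S => g (stepmap f t).1)
        ((KN Q f hf n x) ⊗ₘ (Q.comap Prod.fst measurable_fst)) := by
      apply Integrable.mono' (integrable_const L)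
      · exact (h.meas.comp (measurable_fst.comp (measurable_stepmap hf))).aestronglyMeasurable
      · filter_upwards with t
        exact h.abs_le _
    rw [Measure.integral_compProd hi]
    rfl

end H61CLT
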