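import Pool.Agent.H61.CLT.VL1

/-!
# The leaf estimate and the linear induction
-/

set_option autoImplicit false
set_option linter.unusedSectionVars false
open MeasureTheory ProbabilityTheory
open scoped ENNReal Topology

namespace H61CLT

variable {S : Type*} [mS : MeasurableSpace S]

/-- normalised functional -/
noncomputable def hN (Q : Kernel S S) (ν : Measure S) (f : S → ℝ) (hf : Measurable f)
    (β lam : ℝ) (q : ℕ) (τu τw : S → ℝ) : ℝ :=
  JN Q ν f hf 0 0 (2 ^ q) τu τw / 2 ^ q + EG ν β lam τu + EG ν β lam τw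

/-- truncated conditional second moment -/
noncomputable def VLt (Q : Kernel S S) (f : S → ℝ) (hf : Measurable f) (L : ℝ) (q : ℕ) :
    S → ℝ := fun x => ∫ p, min (p.2 ^ 2 / 2 ^ q) L ∂(KN Q f hf (2 ^ q) x)

/-- partial averages -/
noncomputable def Av (Q : Kernel S S) (g : S → ℝ) (q0 : ℕ) : ℕ → S → ℝ
  | 0 => g
  | K + 1 => fun x => (Av Q g q0 K x + (Pop Q)^[2 ^ (q0 + K)] (Av Q g q0 K) x) / 2

/-- normalised errors -/
noncomputable def eN (Q : Kernel S S) (ν : Measure S) (f : S → ℝ) (hf : Measurable f)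
    (Eb : ℕ → ℝ) (q : ℕ) : ℝ := (Ef Q ν f hf (2 ^ q) + Eb (2 ^ q)) / 2 ^ q

variable {Q : Kernel S S} [IsMarkovKernel Q] {ν : Measure S} [IsProbabilityMeasure ν]
    {f : S → ℝ} {hf : Measurable f}

lemma Av_bd {L : ℝ} {g : S → ℝ} (h : Bd L g) (q0 K : ℕ) : Bd L (Av Q g q0 K) := by
  induction K with
  | zero => exact h
  | succ K ih => exact ih.half (ih.iter _)

lemma VLt_bd {L : ℝ} (hL : 0 ≤ L) (q : ℕ) : Bd L (VLt Q f hf L q) where
  meas := cp_meas (κ := KN Q f hf (2 ^ q)) (F := fun z : S × (S × ℝ) =>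
    min (z.2.2 ^ 2 / 2 ^ q) L) (by fun_prop)
  nonneg := fun x => integral_nonneg (fun p => le_min (by positivity) hL)
  le := fun x => by
    show ∫ p, min (p.2 ^ 2 / 2 ^ q) L ∂(KN Q f hf (2 ^ q) x) ≤ L
    calc ∫ p, min (p.2 ^ 2 / 2 ^ q) L ∂(KN Q f hf (2 ^ q) x)
        ≤ ∫ _p, L ∂(KN Q f hf (2 ^ q) x) := by
          apply integral_mono_of_nonneg
          · filter_upwards with p
            exact le_min (by positivity) hL
          · exact integrable_const _
          · filter_upwards with p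
            exact min_le_right _ _
      _ = L := by simp

lemma G_scaleL (n β lam t : ℝ) : G (n * β) (n * lam) t = n * G β lam t := by
  unfold G; ring

lemma EG_scaleL (n β lam : ℝ) (τ : S → ℝ) : EG ν (n * β) (n * lam) τ = n * EG ν β lam τ := by
  unfold EG
  simp_rw [G_scaleL]
  rw [integral_const_mul]

lemma leafL_pt {a b c y x2 L β lam : ℝ} (ha : 1 ≤ a) (hb : 1 ≤ b) (hc : 1 ≤ c) (hy : 0 ≤ y)
    (hyL : y ≤ L) (hyx : y ≤ x2) (hL : L ≤ β / 2) (hl : 0 ≤ lam) (hlb : lam ≤ β / 2) :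
    2 / c * y + G β lam c + (β - lam / c ^ 2) * (a - c) - 1 / c ^ 2 * (a * y)
      ≤ x2 / (a * b) + G β lam a + G β lam b := by
  have ha0 : 0 < a := by linarith
  have hb0 : 0 < b := by linarith
  have hc0 : 0 < c := by linarith
  have h1 : 2 / c - a / c ^ 2 ≤ 1 / a := by
    have : 1 / a - (2 / c - a / c ^ 2) = (c - a) ^ 2 / (a * c ^ 2) := by
      field_simp; ring
    have h0 : 0 ≤ (c - a) ^ 2 / (a * c ^ 2) := by positivity
    linarith
  have h2 : 1 / a - (b - 1) ≤ 1 / (a * b) := by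
    have h3 : 2 - b ≤ 1 / b := by
      rw [le_div_iff₀ hb0]; nlinarith [sq_nonneg (b - 1)]
    have h4 : 1 / a * (2 - b) ≤ 1 / a * (1 / b) := by
      apply mul_le_mul_of_nonneg_left h3; positivity
    have h5 : 1 / a ≤ 1 := by rw [div_le_one ha0]; exact ha
    have h6 : 1 / (a * b) = 1 / a * (1 / b) := by field_simp
    nlinarith
  have h3 : y / (a * b) ≤ x2 / (a * b) := by gcongr
  have h4 : y * (2 / c - a / c ^ 2 - (b - 1)) ≤ y / (a * b) := by
    rw [div_eq_mul_one_div y]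
    apply mul_le_mul_of_nonneg_left _ hy
    linarith
  have h5 : y * (b - 1) ≤ L * (b - 1) := by
    apply mul_le_mul_of_nonneg_right hyL; linarith
  have h6 : L * (b - 1) ≤ β / 2 * (b - 1) := by
    apply mul_le_mul_of_nonneg_right hL; linarith
  have h7 : β / 2 * (b - 1) ≤ G β lam b := by
    unfold G
    have h8 : 1 - b⁻¹ ≤ b - 1 := by
      have : 2 - b ≤ b⁻¹ := by rw [inv_eq_one_div, le_div_iff₀ hb0]; nlinarith [sq_nonneg (b - 1)]
      linarith
    have h9 : 0 ≤ 1 - b⁻¹ := by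
      have := inv_le_one_of_one_le₀ hb; linarith
    have h10 : lam * (1 - b⁻¹) ≤ β / 2 * (1 - b⁻¹) := by gcongr
    have h11 : β / 2 * (1 - b⁻¹) ≤ β / 2 * (b - 1) := by
      apply mul_le_mul_of_nonneg_left h8; linarith
    nlinarith
  have h8 : G β lam c + (β - lam / c ^ 2) * (a - c) ≤ G β lam a := by
    unfold G
    have h9 : lam * (2 / c - a / c ^ 2) ≤ lam * (1 / a) := by gcongr
    have h10 : lam / c ^ 2 * (a - c) = lam * (a / c ^ 2) - lam * (1 / c) := by
      field_simp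
    have h11 : lam * (c⁻¹ - 1) = lam * (1 / c) - lam := by rw [one_div]; ring
    have h12 : lam * (a⁻¹ - 1) = lam * (1 / a) - lam := by rw [one_div]; ring
    rw [h11, h12]
    have h13 : lam * (2 / c - a / c ^ 2) = 2 * (lam * (1 / c)) - lam * (a / c ^ 2) := by
      field_simp
    rw [h13] at h9
    nlinarith
  have h9 : y * (2 / c - a / c ^ 2 - (b - 1)) = 2 / c * y - 1 / c ^ 2 * (a * y) - y * (b - 1) := by
    field_simp
  linarith

lemma leafL {Eb : ℕ → ℝ} (hs : Setup Q ν f hf Eb) {β lam L c : ℝ} (hc : 1 ≤ c) (hL0 : 0 ≤ L)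
    (hL : L ≤ β / 2) (hl : 0 ≤ lam) (hlb : lam ≤ β / 2) (q : ℕ) (τu τw : S → ℝ)
    (hu : Wt ν τu) (hw : Wt ν τw) :
    2 / c * ∫ x, VLt Q f hf L q x ∂ν + G β lam c + (β - lam / c ^ 2) * (∫ x, τu x ∂ν - c)
      - 1 / c ^ 2 * ∫ x, τu x * VLt Q f hf L q x ∂ν ≤ hN Q ν f hf β lam q τu τw := by
  have hβ : 0 ≤ β := by linarith
  set P := ν ⊗ₘ KN Q f hf (2 ^ q) with hP
  have my : Measurable (fun p : S × (S × ℝ) => min (p.2.2 ^ 2 / 2 ^ q) L) := by fun_prop
  have mt : Measurable (fun p : S × (S × ℝ) => τu p.1) := hu.meas.comp measurable_fst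
  have yb : ∀ p : S × (S × ℝ), |min (p.2.2 ^ 2 / 2 ^ q) L| ≤ L := by
    intro p
    rw [abs_of_nonneg (le_min (by positivity) hL0)]
    exact min_le_right _ _
  have iy : Integrable (fun p : S × (S × ℝ) => min (p.2.2 ^ 2 / 2 ^ q) L) P :=
    Integrable.mono' (integrable_const L) my.aestronglyMeasurable
      (Filter.Eventually.of_forall yb)
  have iu : Integrable (fun p : S × (S × ℝ) => τu p.1) P := int_fst hu.int _
  have iuy : Integrable (fun p : S × (S × ℝ) => τu p.1 * min (p.2.2 ^ 2 / 2 ^ q) L) P :=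
    Integrable.mul_bdd (c := L) iu my.aestronglyMeasurable (Filter.Eventually.of_forall yb)
  have iJ : Integrable (fun p : S × (S × ℝ) => Psi 0 0 p.2.2 (τu p.1 * τw p.2.1)) P := by
    refine Psi_integrable (measurable_snd.comp measurable_snd) ?_ (hs.int2 _) ?_ le_rfl le_rfl
    · exact (hu.meas.comp measurable_fst).mul
        (hw.meas.comp (measurable_fst.comp measurable_snd))
    · filter_upwards with p
      exact mul_one_le (hu.one_le _) (hw.one_le _)
  have iG1 : Integrable (fun p : S × (S × ℝ) => G β lam (τu p.1)) P :=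
    int_fst (G_integrable hu hβ hl) _
  have iG2 : Integrable (fun p : S × (S × ℝ) => G β lam (τw p.2.1)) P :=
    int_end hs (G_integrable hw hβ hl) _
  have hpt : ∀ p : S × (S × ℝ),
      (2 / c) * min (p.2.2 ^ 2 / 2 ^ q) L + (β - lam / c ^ 2) * τu p.1
        - 1 / c ^ 2 * (τu p.1 * min (p.2.2 ^ 2 / 2 ^ q) L)
        + (G β lam c - (β - lam / c ^ 2) * c)
      ≤ Psi 0 0 p.2.2 (τu p.1 * τw p.2.1) / 2 ^ q + G β lam (τu p.1) + G β lam (τw p.2.1) := by
    intro p
    have h := leafL_pt (a := τu p.1) (b := τw p.2.1) (c := c) (y := min (p.2.2 ^ 2 / 2 ^ q) L)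
      (x2 := p.2.2 ^ 2 / 2 ^ q) (L := L) (β := β) (lam := lam) (hu.one_le _) (hw.one_le _) hc
      (le_min (by positivity) hL0) (min_le_right _ _) (min_le_left _ _) hL hl hlb
    have e : Psi 0 0 p.2.2 (τu p.1 * τw p.2.1) / 2 ^ q
        = p.2.2 ^ 2 / 2 ^ q / (τu p.1 * τw p.2.1) := by
      unfold Psi
      rw [zero_mul, sub_zero, div_div, div_div, mul_comm]
    rw [e]
    linarith
  have i1 : Integrable (fun p : S × (S × ℝ) => (2 / c) * min (p.2.2 ^ 2 / 2 ^ q) L
      + (β - lam / c ^ 2) * τu p.1) P := (iy.const_mul _).add (iu.const_mul _)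
  have i2 : Integrable (fun p : S × (S × ℝ) => (2 / c) * min (p.2.2 ^ 2 / 2 ^ q) L
      + (β - lam / c ^ 2) * τu p.1 - 1 / c ^ 2 * (τu p.1 * min (p.2.2 ^ 2 / 2 ^ q) L)) P :=
    i1.sub (iuy.const_mul _)
  have i3 : Integrable (fun p : S × (S × ℝ) => (2 / c) * min (p.2.2 ^ 2 / 2 ^ q) L
      + (β - lam / c ^ 2) * τu p.1 - 1 / c ^ 2 * (τu p.1 * min (p.2.2 ^ 2 / 2 ^ q) L)
      + (G β lam c - (β - lam / c ^ 2) * c)) P := i2.add (integrable_const _)
  have i4 : Integrable (fun p : S × (S × ℝ) => Psi 0 0 p.2.2 (τu p.1 * τw p.2.1) / 2 ^ q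
      + G β lam (τu p.1)) P := (iJ.div_const _).add iG1
  have i5 : Integrable (fun p : S × (S × ℝ) => Psi 0 0 p.2.2 (τu p.1 * τw p.2.1) / 2 ^ q
      + G β lam (τu p.1) + G β lam (τw p.2.1)) P := i4.add iG2
  have fin := integral_mono i3 i5 hpt
  rw [integral_add i2 (integrable_const _), integral_sub i1 (iuy.const_mul _),
    integral_add (iy.const_mul _) (iu.const_mul _), integral_add i4 iG2,
    integral_add (iJ.div_const _) iG1, integral_const_mul, integral_const_mul,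
    integral_const_mul, integral_div] at fin
  have e1 : ∫ p : S × (S × ℝ), min (p.2.2 ^ 2 / 2 ^ q) L ∂P = ∫ x, VLt Q f hf L q x ∂ν := by
    rw [hP, Measure.integral_compProd iy]
    rfl
  have e2 : ∫ p : S × (S × ℝ), τu p.1 * min (p.2.2 ^ 2 / 2 ^ q) L ∂P
      = ∫ x, τu x * VLt Q f hf L q x ∂ν := by
    rw [hP, Measure.integral_compProd iuy]
    apply integral_congr_ae
    filter_upwards with x
    show ∫ p, τu x * min (p.2 ^ 2 / 2 ^ q) L ∂(KN Q f hf (2 ^ q) x) = _
    rw [integral_const_mul]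
    rfl
  have e3 : ∫ p : S × (S × ℝ), τu p.1 ∂P = ∫ x, τu x ∂ν := integral_fst hu.meas _
  have e4 : ∫ p : S × (S × ℝ), G β lam (τu p.1) ∂P = EG ν β lam τu :=
    integral_fst ((measurable_G β lam).comp hu.meas) _
  have e5 : ∫ p : S × (S × ℝ), G β lam (τw p.2.1) ∂P = EG ν β lam τw :=
    integral_end hs ((measurable_G β lam).comp hw.meas) _
  have e6 : ∫ _p : S × (S × ℝ), (G β lam c - (β - lam / c ^ 2) * c) ∂P
      = G β lam c - (β - lam / c ^ 2) * c := by
    rw [integral_const, probReal_univ, one_smul]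
  rw [e1, e2, e3, e4, e5, e6] at fin
  unfold hN JN
  linarith

end H61CLT
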