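import Pool.Agent.H61.CLT.VL2

/-!
# The linear induction
-/

set_option autoImplicit false
set_option linter.unusedSectionVars false
open MeasureTheory ProbabilityTheory
open scoped ENNReal Topology

namespace H61CLT

variable {S : Type*} [mS : MeasurableSpace S]
variable {Q : Kernel S S} [IsMarkovKernel Q] {ν : Measure S} [IsProbabilityMeasure ν]
    {f : S → ℝ} {hf : Measurable f}

lemma hN_step {Eb : ℕ → ℝ} (hs : Setup Q ν f hf Eb) {β lam : ℝ} (hl : 0 < lam)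
    (hlb : lam ≤ β / 2) (q : ℕ) (τu τw : S → ℝ) (hu : Wt ν τu) (hw : Wt ν τw) :
    ∃ τu' τw' ιu : S → ℝ, Wt ν τu' ∧ Wt ν τw' ∧
      Measurable ιu ∧ (∀ x, 0 ≤ ιu x) ∧ Integrable ιu ν ∧
      (∀ g : S → ℝ, Measurable g → (∃ C : ℝ, ∀ x, |g x| ≤ C) →
        ∫ x, τu' x * g x ∂ν
          = ∫ p, τu p.1 * g p.2.1 ∂(ν ⊗ₘ KN Q f hf (2 ^ q)) + ∫ x, ιu x * g x ∂ν) ∧
      (hN Q ν f hf β lam q τu τw' + hN Q ν f hf β lam q τu' τw) / 2
        - 9 * β / (2 * lam) * eN Q ν f hf Eb q ≤ hN Q ν f hf β lam (q + 1) τu τw := by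
  have hn : (0 : ℝ) < 2 ^ q := by positivity
  obtain ⟨τu', τw', ιu, ιw, a1, a2, a3, a4, a5, a6, a7, a8, a9, a10⟩ :=
    recF Q ν f hf Eb hs (β := 2 ^ q * β) (lam := 2 ^ q * lam) (by positivity)
      (by nlinarith) (2 ^ q) τu τw hu hw
  refine ⟨τu', τw', ιu, a1, a2, a3, a4, a5, a9, ?_⟩
  rw [EG_scaleL, EG_scaleL, EG_scaleL, EG_scaleL] at a10
  have h2 : (2 ^ q + 2 ^ q : ℕ) = 2 ^ (q + 1) := by ring
  rw [h2] at a10
  have hι : 0 ≤ 2 ^ q * β * (∫ x, ιu x ∂ν + ∫ x, ιw x ∂ν) := by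
    have h3 : 0 ≤ ∫ x, ιu x ∂ν := integral_nonneg a4
    have h4 : 0 ≤ ∫ x, ιw x ∂ν := integral_nonneg a7
    have h5 : 0 ≤ β := by linarith
    positivity
  have e1 : 9 * (2 ^ q * β) / (2 ^ q * lam) = 9 * β / lam := by
    field_simp
  rw [e1] at a10
  unfold hN eN
  have e2 : (2 : ℝ) ^ (q + 1) = 2 * 2 ^ q := by ring
  rw [e2]
  generalize JN Q ν f hf 0 0 (2 ^ (q + 1)) τu τw = J0 at *
  generalize JN Q ν f hf 0 0 (2 ^ q) τu τw' = J1 at *
  generalize JN Q ν f hf 0 0 (2 ^ q) τu' τw = J2 at *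
  generalize (2 : ℝ) ^ q = N at *
  generalize EG ν β lam τw' = g1 at *
  generalize EG ν β lam τu' = g2 at *
  generalize EG ν β lam τw = g3 at *
  generalize EG ν β lam τu = g4 at *
  generalize Ef Q ν f hf (2 ^ q) + Eb (2 ^ q) = E at *
  have h6 : J1 + N * g1 + (J2 + N * g2) - 9 * β / lam * E ≤ J0 + N * g4 + N * g3 := by linarith
  have h7 : (J1 + N * g1 + (J2 + N * g2) - 9 * β / lam * E) / (2 * N)
      ≤ (J0 + N * g4 + N * g3) / (2 * N) := by gcongr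
  have e3 : (J1 + N * g1 + (J2 + N * g2) - 9 * β / lam * E) / (2 * N)
      = (J1 / N + g1 + (J2 / N + g2)) / 2 - 9 * β / (2 * lam) * (E / N) := by
    field_simp
  have e4 : (J0 + N * g4 + N * g3) / (2 * N) = J0 / (2 * N) + g4 / 2 + g3 / 2 := by
    field_simp
  rw [e3, e4] at h7
  linarith

/-- the linear induction -/
theorem lin_ind {Eb : ℕ → ℝ} (hs : Setup Q ν f hf Eb) {β lam L c : ℝ} (hc : 1 ≤ c)
    (hL0 : 0 ≤ L) (hL : L ≤ β / 2) (hl : 0 < lam) (hlb : lam ≤ β / 2) (q0 K : ℕ) :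
    ∀ τu τw : S → ℝ, Wt ν τu → Wt ν τw →
    2 / c * ∫ x, VLt Q f hf L q0 x ∂ν + G β lam c + (β - lam / c ^ 2) * (∫ x, τu x ∂ν - c)
      - 1 / c ^ 2 * ∫ x, τu x * Av Q (VLt Q f hf L q0) q0 K x ∂ν
      - 9 * β / (2 * lam) * ∑ j ∈ Finset.range K, eN Q ν f hf Eb (q0 + j)
      ≤ hN Q ν f hf β lam (q0 + K) τu τw := by
  induction K with
  | zero =>
    intro τu τw hu hw
    have := leafL hs hc hL0 hL hl.le hlb q0 τu τw hu hw
    simpa [Av] using this
  | succ K ih =>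
    intro τu τw hu hw
    have hβ : 0 < β := by linarith
    obtain ⟨τu', τw', ιu, a1, a2, a3, a4, a5, a6, a7⟩ :=
      hN_step hs hl hlb (q0 + K) τu τw hu hw
    have hA : Bd L (Av Q (VLt Q f hf L q0) q0 K) := Av_bd (VLt_bd hL0 q0) q0 K
    have b1 := ih τu τw' hu a2
    have b2 := ih τu' τw a1 hw
    have c1 := a6 (fun _ => 1) measurable_const ⟨1, fun x => by simp⟩
    simp only [mul_one] at c1
    have c1' : ∫ p : S × (S × ℝ), τu p.1 ∂(ν ⊗ₘ KN Q f hf (2 ^ (q0 + K))) = ∫ x, τu x ∂ν :=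
      integral_fst hu.meas _
    rw [c1'] at c1
    have c2 := a6 (Av Q (VLt Q f hf L q0) q0 K) hA.meas ⟨L, hA.abs_le⟩
    have iτA : ∀ g : S → ℝ, Bd L g → Integrable (fun x => τu x * g x) ν := fun g hg =>
      Integrable.mul_bdd (c := L) hu.int hg.meas.aestronglyMeasurable
        (Filter.Eventually.of_forall hg.abs_le)
    have c3 : ∫ p : S × (S × ℝ), τu p.1 * Av Q (VLt Q f hf L q0) q0 K p.2.1
        ∂(ν ⊗ₘ KN Q f hf (2 ^ (q0 + K)))
        = ∫ x, τu x * (Pop Q)^[2 ^ (q0 + K)] (Av Q (VLt Q f hf L q0) q0 K) x ∂ν := by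
      have i0 : Integrable (fun p : S × (S × ℝ) => τu p.1 * Av Q (VLt Q f hf L q0) q0 K p.2.1)
          (ν ⊗ₘ KN Q f hf (2 ^ (q0 + K))) := by
        refine Integrable.mul_bdd (c := L) (int_fst hu.int _) ?_ ?_
        · exact (hA.meas.comp (measurable_fst.comp measurable_snd)).aestronglyMeasurable
        · filter_upwards with p
          exact hA.abs_le _
      rw [Measure.integral_compProd i0]
      apply integral_congr_ae
      filter_upwards with x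
      show ∫ p, τu x * Av Q (VLt Q f hf L q0) q0 K p.1 ∂(KN Q f hf (2 ^ (q0 + K)) x) = _
      rw [integral_const_mul, KN_pop hA]
    rw [c3] at c2
    have c4 : ∫ x, τu x * Av Q (VLt Q f hf L q0) q0 (K + 1) x ∂ν
        = (∫ x, τu x * Av Q (VLt Q f hf L q0) q0 K x ∂ν
          + ∫ x, τu x * (Pop Q)^[2 ^ (q0 + K)] (Av Q (VLt Q f hf L q0) q0 K) x ∂ν) / 2 := by
      rw [← integral_add (iτA _ hA) (iτA _ (hA.iter _)), ← integral_div]
      apply integral_congr_ae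
      filter_upwards with x
      show τu x * ((Av Q (VLt Q f hf L q0) q0 K x
        + (Pop Q)^[2 ^ (q0 + K)] (Av Q (VLt Q f hf L q0) q0 K) x) / 2) = _
      ring
    have c5 : ∫ x, ιu x * Av Q (VLt Q f hf L q0) q0 K x ∂ν ≤ L * ∫ x, ιu x ∂ν := by
      rw [← integral_const_mul]
      apply integral_mono
      · exact Integrable.mul_bdd (c := L) a5 hA.meas.aestronglyMeasurable
          (Filter.Eventually.of_forall hA.abs_le)
      · exact a5.const_mul L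
      · intro x
        show ιu x * Av Q (VLt Q f hf L q0) q0 K x ≤ L * ιu x
        rw [mul_comm]
        exact mul_le_mul_of_nonneg_right (hA.le x) (a4 x)
    have c6 : 0 ≤ ∫ x, ιu x ∂ν := integral_nonneg a4
    have c7 : 0 ≤ ∫ x, ιu x * Av Q (VLt Q f hf L q0) q0 K x ∂ν :=
      integral_nonneg (fun x => mul_nonneg (a4 x) (hA.nonneg x))
    rw [Finset.sum_range_succ, c4, ← add_assoc q0 K 1]
    rw [c1, c2] at b2
    have hc0 : 0 < c := by linarith
    have hcc : 1 / c ^ 2 ≤ 1 := by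
      rw [div_le_one (by positivity)]; nlinarith
    have hcc0 : 0 ≤ 1 / c ^ 2 := by positivity
    have hlc : lam / c ^ 2 ≤ lam := div_le_self hl.le (by nlinarith)
    have d1 : 1 / c ^ 2 * ∫ x, ιu x * Av Q (VLt Q f hf L q0) q0 K x ∂ν
        ≤ (β - lam / c ^ 2) * ∫ x, ιu x ∂ν := by
      calc 1 / c ^ 2 * ∫ x, ιu x * Av Q (VLt Q f hf L q0) q0 K x ∂ν
          ≤ 1 * ∫ x, ιu x * Av Q (VLt Q f hf L q0) q0 K x ∂ν := by gcongr
        _ ≤ L * ∫ x, ιu x ∂ν := by linarith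
        _ ≤ (β - lam / c ^ 2) * ∫ x, ιu x ∂ν := by
          apply mul_le_mul_of_nonneg_right _ c6
          linarith
    generalize ∫ x, ιu x * Av Q (VLt Q f hf L q0) q0 K x ∂ν = I1 at *
    generalize ∫ x, ιu x ∂ν = I2 at *
    generalize ∫ x, τu x * Av Q (VLt Q f hf L q0) q0 K x ∂ν = I3 at *
    generalize ∫ x, τu x * (Pop Q)^[2 ^ (q0 + K)] (Av Q (VLt Q f hf L q0) q0 K) x ∂ν = I4 at *
    generalize ∫ x, τu x ∂ν = I5 at *
    generalize ∑ j ∈ Finset.range K, eN Q ν f hf Eb (q0 + j) = I6 at *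
    generalize (β - lam / c ^ 2) = B at *
    generalize 1 / c ^ 2 = D at *
    generalize 9 * β / (2 * lam) = F at *
    nlinarith

end H61CLT
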