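import Pool.Agent.H61.CLT.VL3
import Pool.Agent.H61.CLT.Setup

/-!
# The backward conditional expectation of a weight
-/

set_option autoImplicit false
set_option linter.unusedSectionVars false
open MeasureTheory ProbabilityTheory
open scoped ENNReal Topology

namespace H61CLT

variable {S : Type*} [mS : MeasurableSpace S]
variable {Q : Kernel S S} [IsMarkovKernel Q] {ν : Measure S} [IsProbabilityMeasure ν]
    {f : S → ℝ} {hf : Measurable f}

lemma bwd_weight {Eb : ℕ → ℝ} (hs : Setup Q ν f hf Eb) (r : ℕ) (τ : S → ℝ)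
    (hm : Measurable τ) (h1 : ∀ x, 1 ≤ τ x) (h2 : ∀ x, τ x ≤ 2) :
    ∃ τr : S → ℝ, Wt ν τr ∧ (∀ x, τr x ≤ 2) ∧
      (∀ (L : ℝ) (g : S → ℝ), Bd L g → ∫ x, τr x * g x ∂ν = ∫ x, τ x * (Pop Q)^[r] g x ∂ν) ∧
      (∀ V : S → ℝ, Measurable V → (∀ x, 0 ≤ V x) → Integrable V ν →
        ∫ x, V x / τr x ∂ν ≤ ∫ x, (Pop Q)^[r] V x / τ x ∂ν) := by
  have hi : Integrable τ ν :=
    Integrable.mono' (integrable_const (2 : ℝ)) hm.aestronglyMeasurable
      (Filter.Eventually.of_forall fun x => by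
        rw [Real.norm_eq_abs, abs_of_nonneg (by linarith [h1 x])]; exact h2 x)
  have hτ : Wt ν τ := ⟨hm, h1, hi⟩
  have hW1 : Wt ν (fun _ : S => (1 : ℝ)) := ⟨measurable_const, fun _ => le_rfl, integrable_const _⟩
  obtain ⟨κ, κ', k1, k2, k3, k4, k5⟩ :=
    midpoint Q ν f hf r r (hs.marg r) τ (fun _ => 1) hm measurable_const
  have hM : MidData Q ν f hf r τ (fun _ => 1) κ κ' := ⟨k1, k2, k3, k4, k5⟩
  have gb := hM.good_bwd hs hτ
  -- the mean weight is at most 2
  have m2 : MeasurableSet {z : S × (ℝ × ℝ) | z.2.1 ≤ 2} :=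
    measurableSet_le (measurable_fst.comp measurable_snd) measurable_const
  have i3 : ∀ᵐ z ∂(ν ⊗ₘ κ), z.2.1 ≤ 2 := by
    rw [hM.bwd, ae_map_iff]
    · filter_upwards with p
      exact h2 p.1
    · exact ((measurable_fst.comp measurable_snd).prodMk ((hm.comp measurable_fst).prodMk
        (measurable_snd.comp measurable_snd))).aemeasurable
    · exact m2
  have hT2 : ∀ᵐ y ∂ν, mT (κ y) ≤ 2 := by
    filter_upwards [gb, Measure.ae_ae_of_ae_compProd i3] with y hy h3
    have := hy.prob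
    unfold mT
    calc ∫ p, p.1 ∂(κ y) ≤ ∫ _p, (2 : ℝ) ∂(κ y) :=
          integral_mono_ae hy.int1 (integrable_const _) h3
      _ = 2 := by simp
  have mτr : Measurable (fun y => max 1 (min 2 (mT (κ y)))) :=
    measurable_const.max (measurable_const.min measurable_mT)
  have hae : ∀ᵐ y ∂ν, max 1 (min 2 (mT (κ y))) = mT (κ y) := by
    filter_upwards [gb, hT2] with y hy h3
    rw [min_eq_right h3, max_eq_right hy.one_le_T]
  have hb2 : ∀ y, max 1 (min 2 (mT (κ y))) ≤ 2 := fun y =>
    max_le (by norm_num) (min_le_left _ _)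
  refine ⟨fun y => max 1 (min 2 (mT (κ y))), ⟨mτr, fun y => le_max_left _ _, ?_⟩, hb2, ?_, ?_⟩
  · exact Integrable.mono' (integrable_const (2 : ℝ)) mτr.aestronglyMeasurable
      (Filter.Eventually.of_forall fun y => by
        rw [Real.norm_eq_abs, abs_of_nonneg (by positivity)]; exact hb2 y)
  · intro L g hg
    have mF : Measurable (fun z : S × (ℝ × ℝ) => z.2.1 * g z.1) :=
      (measurable_fst.comp measurable_snd).mul (hg.meas.comp measurable_fst)
    have i0 : Integrable (fun p : S × (S × ℝ) => τ p.1 * g p.2.1) (ν ⊗ₘ KN Q f hf r) := by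
      refine Integrable.mul_bdd (c := L) (int_fst hi _) ?_ ?_
      · exact (hg.meas.comp (measurable_fst.comp measurable_snd)).aestronglyMeasurable
      · filter_upwards with p
        exact hg.abs_le _
    obtain ⟨j1, j2⟩ := hM.bwd_iter hm mF i0
    have j3 : (fun y => ∫ p, p.1 * g y ∂(κ y)) = fun y => mT (κ y) * g y := by
      funext y
      rw [integral_mul_const]; rfl
    have j4 : ∫ y, mT (κ y) * g y ∂ν = ∫ p, τ p.1 * g p.2.1 ∂(ν ⊗ₘ KN Q f hf r) := by
      rw [← j2, ← j3]
    have j5 : ∫ x, max 1 (min 2 (mT (κ x))) * g x ∂ν = ∫ y, mT (κ y) * g y ∂ν := by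
      apply integral_congr_ae
      filter_upwards [hae] with y hy
      rw [hy]
    rw [j5, j4, Measure.integral_compProd i0]
    apply integral_congr_ae
    filter_upwards with x
    show ∫ p, τ x * g p.1 ∂(KN Q f hf r x) = _
    rw [integral_const_mul, KN_pop hg]
  · intro V hV hV0 hVi
    have mF : Measurable (fun z : S × (ℝ × ℝ) => z.2.1⁻¹ * V z.1) :=
      (measurable_fst.comp measurable_snd).inv.mul (hV.comp measurable_fst)
    have i1 : Integrable (fun p : S × (S × ℝ) => V p.2.1) (ν ⊗ₘ KN Q f hf r) :=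
      int_end hs hVi r
    have i0 : Integrable (fun p : S × (S × ℝ) => (τ p.1)⁻¹ * V p.2.1) (ν ⊗ₘ KN Q f hf r) := by
      refine Integrable.bdd_mul (c := 1) i1 ?_ ?_
      · exact (hm.comp measurable_fst).inv.aestronglyMeasurable
      · filter_upwards with p
        have := h1 p.1
        rw [Real.norm_eq_abs, abs_of_nonneg (by positivity)]
        exact inv_le_one_of_one_le₀ this
    obtain ⟨j1, j2⟩ := hM.bwd_iter hm mF i0
    have j3 : (fun y => ∫ p, p.1⁻¹ * V y ∂(κ y)) = fun y => mU (κ y) * V y := by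
      funext y
      rw [integral_mul_const]; rfl
    have j1' : Integrable (fun y => mU (κ y) * V y) ν := by rw [← j3]; exact j1
    have j4 : ∫ y, mU (κ y) * V y ∂ν = ∫ p, (τ p.1)⁻¹ * V p.2.1 ∂(ν ⊗ₘ KN Q f hf r) := by
      rw [← j2, ← j3]
    have j5 : ∫ p, (τ p.1)⁻¹ * V p.2.1 ∂(ν ⊗ₘ KN Q f hf r)
        = ∫ x, (Pop Q)^[r] V x / τ x ∂ν := by
      rw [Measure.integral_compProd i0]
      apply integral_congr_ae
      filter_upwards [KN_mean_end Q ν hs.inv f hf r V hV hVi] with x hx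
      show ∫ p, (τ x)⁻¹ * V p.1 ∂(KN Q f hf r x) = _
      rw [integral_const_mul, hx, div_eq_inv_mul]
    rw [← j5, ← j4]
    apply integral_mono_ae _ j1'
    · filter_upwards [gb, hae] with y hy h3
      show V y / max 1 (min 2 (mT (κ y))) ≤ mU (κ y) * V y
      rw [h3, div_eq_mul_inv, mul_comm]
      apply mul_le_mul_of_nonneg_right _ (hV0 y)
      have := hy.delta_nonneg
      linarith
    · apply Integrable.mono' hVi (hV.div mτr).aestronglyMeasurable
      filter_upwards with y
      show ‖V y / max 1 (min 2 (mT (κ y)))‖ ≤ V y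
      have h0 := hV0 y
      rw [Real.norm_eq_abs, abs_of_nonneg (by positivity)]
      exact div_le_self h0 (le_max_left _ _)

end H61CLT
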