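import Pool.Agent.H61.CLT.VL4

/-!
# Averages of averages; auxiliary facts for the key lower bound
-/

set_option autoImplicit false
set_option linter.unusedSectionVars false
open MeasureTheory ProbabilityTheory
open scoped ENNReal Topology

namespace H61CLT

variable {S : Type*} [mS : MeasurableSpace S]
variable {Q : Kernel S S} [IsMarkovKernel Q] {ν : Measure S} [IsProbabilityMeasure ν]
    {f : S → ℝ} {hf : Measurable f}

lemma pop_sum {L : ℝ} {G : ℕ → S → ℝ} (hG : ∀ i, Bd L (G i)) (s : Finset ℕ) :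
    Pop Q (fun x => ∑ i ∈ s, G i x) = fun x => ∑ i ∈ s, Pop Q (G i) x := by
  funext x
  exact integral_finsetSum s (fun i _ => (hG i).int _)

lemma iter_sum {L : ℝ} {G : ℕ → S → ℝ} (hG : ∀ i, Bd L (G i)) (s : Finset ℕ) (n : ℕ) :
    (Pop Q)^[n] (fun x => ∑ i ∈ s, G i x) = fun x => ∑ i ∈ s, (Pop Q)^[n] (G i) x := by
  induction n with
  | zero => rfl
  | succ n ih =>
    rw [Function.iterate_succ_apply', ih, pop_sum (fun i => (hG i).iter n)]
    simp_rw [Function.iterate_succ_apply']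

/-- the average over residues of the partial averages is the full Cesaro average -/
lemma Av_sum {L : ℝ} {g : S → ℝ} (hg : Bd L g) (q0 K : ℕ) (x : S) :
    ∑ r ∈ Finset.range (2 ^ q0), (Pop Q)^[r] (Av Q g q0 K) x
      = (1 / 2 ^ K) * ∑ j ∈ Finset.range (2 ^ (q0 + K)), (Pop Q)^[j] g x := by
  induction K generalizing x with
  | zero => simp [Av]
  | succ K ih =>
    have hA : Bd L (Av Q g q0 K) := Av_bd hg q0 K
    set n := 2 ^ (q0 + K) with hn
    have h1 : ∀ r, (Pop Q)^[r] (Av Q g q0 (K + 1)) x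
        = ((Pop Q)^[r] (Av Q g q0 K) x + (Pop Q)^[n] ((Pop Q)^[r] (Av Q g q0 K)) x) / 2 := by
      intro r
      have : Av Q g q0 (K + 1) = fun x => (Av Q g q0 K x + (Pop Q)^[n] (Av Q g q0 K) x) / 2 := rfl
      rw [this, hA.iter_half (hA.iter n)]
      have e : (Pop Q)^[r] ((Pop Q)^[n] (Av Q g q0 K)) = (Pop Q)^[n] ((Pop Q)^[r] (Av Q g q0 K)) := by
        rw [← Function.iterate_add_apply, ← Function.iterate_add_apply, add_comm]
      rw [e]
    simp_rw [h1]
    rw [← Finset.sum_div, Finset.sum_add_distrib, ih]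
    have h2 : ∑ r ∈ Finset.range (2 ^ q0), (Pop Q)^[n] ((Pop Q)^[r] (Av Q g q0 K)) x
        = (Pop Q)^[n] (fun x => ∑ r ∈ Finset.range (2 ^ q0), (Pop Q)^[r] (Av Q g q0 K) x) x := by
      rw [iter_sum (fun i => hA.iter i)]
    have h3 : (fun x => ∑ r ∈ Finset.range (2 ^ q0), (Pop Q)^[r] (Av Q g q0 K) x)
        = fun x => (1 / 2 ^ K) * ∑ j ∈ Finset.range n, (Pop Q)^[j] g x := by
      funext x; exact ih x
    rw [h2, h3, Pop_const_mul, iter_sum (fun i => hg.iter i)]
    have h4 : ∑ j ∈ Finset.range (2 ^ (q0 + (K + 1))), (Pop Q)^[j] g x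
        = ∑ j ∈ Finset.range n, (Pop Q)^[j] g x
          + ∑ j ∈ Finset.range n, (Pop Q)^[n] ((Pop Q)^[j] g) x := by
      have e1 : 2 ^ (q0 + (K + 1)) = n + n := by rw [hn]; ring
      rw [e1, Finset.sum_range_add]
      congr 1
      apply Finset.sum_congr rfl
      intro j _
      rw [Function.iterate_add_apply]
    rw [h4]
    have h5 : (2 : ℝ) ^ (K + 1) = 2 * 2 ^ K := by ring
    rw [h5]
    field_simp

lemma pop_one (n : ℕ) : (Pop Q)^[n] (fun _ => (1 : ℝ)) = fun _ => 1 := by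
  induction n with
  | zero => rfl
  | succ n ih =>
    rw [Function.iterate_succ_apply', ih]
    funext x
    show ∫ _z, (1 : ℝ) ∂(Q x) = 1
    simp

lemma one_bd : Bd (1 : ℝ) (fun _ : S => (1 : ℝ)) :=
  ⟨measurable_const, fun _ => zero_le_one, fun _ => le_rfl⟩

/-- the functional with trivial second weight -/
lemma hN_one {Eb : ℕ → ℝ} (hs : Setup Q ν f hf Eb) {β lam : ℝ} (hβ : 0 ≤ β) (hl : 0 ≤ lam)
    (q : ℕ) (τ : S → ℝ) (hτ : Wt ν τ) (V : S → ℝ)
    (hV : ∀ x, V x = (∫ p, p.2 ^ 2 ∂(KN Q f hf (2 ^ q) x)) / 2 ^ q) :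
    hN Q ν f hf β lam q τ (fun _ => 1) ≤ ∫ x, V x / τ x ∂ν + β * (∫ x, τ x ∂ν - 1) := by
  have h1 : JN Q ν f hf 0 0 (2 ^ q) τ (fun _ => 1) / 2 ^ q = ∫ x, V x / τ x ∂ν := by
    have i0 : Integrable (fun p : S × (S × ℝ) => Psi 0 0 p.2.2 (τ p.1 * 1))
        (ν ⊗ₘ KN Q f hf (2 ^ q)) := by
      refine Psi_integrable (measurable_snd.comp measurable_snd) ?_ (hs.int2 _) ?_ le_rfl le_rfl
      · exact (hτ.meas.comp measurable_fst).mul measurable_const
      · filter_upwards with p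
        exact mul_one_le (hτ.one_le _) le_rfl
    unfold JN
    rw [Measure.integral_compProd i0, ← integral_div]
    apply integral_congr_ae
    filter_upwards with x
    have e : ∀ p : S × ℝ, Psi 0 0 p.2 (τ x * 1) = (τ x)⁻¹ * p.2 ^ 2 := by
      intro p
      unfold Psi
      rw [mul_one, zero_mul, sub_zero, div_eq_inv_mul]
    show (∫ p, Psi 0 0 p.2 (τ x * 1) ∂(KN Q f hf (2 ^ q) x)) / 2 ^ q = V x / τ x
    simp_rw [e]
    rw [integral_const_mul, hV]
    have := hτ.one_le x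
    field_simp
  have h2 : EG ν β lam (fun _ : S => (1 : ℝ)) = 0 := by
    unfold EG G
    simp
  have h3 : EG ν β lam τ ≤ β * (∫ x, τ x ∂ν - 1) := by
    unfold EG
    have h4 : ∫ x, G β lam (τ x) ∂ν ≤ ∫ x, (β * τ x + 0 * τ x + (-β)) ∂ν := by
      apply integral_mono (G_integrable hτ hβ hl) (integrable_lin hτ.int hτ.int _ _ _)
      intro x
      have h5 := hτ.one_le x
      have h6 : (τ x)⁻¹ ≤ 1 := inv_le_one_of_one_le₀ h5
      show G β lam (τ x) ≤ β * τ x + 0 * τ x + (-β)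
      unfold G
      nlinarith
    rw [integral_lin hτ.int hτ.int] at h4
    linarith
  unfold hN
  rw [h1, h2]
  linarith

end H61CLT
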