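import Pool.Agent.H61.CLT.VL5

/-!
# The key lower bound for the conditional second moments
-/

set_option autoImplicit false
set_option linter.unusedSectionVars false
open MeasureTheory ProbabilityTheory
open scoped ENNReal Topology

namespace H61CLT

variable {S : Type*} [mS : MeasurableSpace S]
variable {Q : Kernel S S} [IsMarkovKernel Q] {ν : Measure S} [IsProbabilityMeasure ν]
    {f : S → ℝ} {hf : Measurable f}

/-- the deterministic computation at a fixed scale -/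
lemma key_fixed {Eb : ℕ → ℝ} (hs : Setup Q ν f hf Eb) {β lam L e1 e2 e3 : ℝ}
    (hL0 : 0 ≤ L) (hL : L ≤ β / 2) (hl : 0 < lam) (hlb : lam ≤ β / 2) (q0 K : ℕ)
    (V : S → ℝ) (hVm : Measurable V) (hV0 : ∀ x, 0 ≤ V x) (hVi : Integrable V ν)
    (hV : ∀ x, V x = (∫ p, p.2 ^ 2 ∂(KN Q f hf (2 ^ (q0 + K)) x)) / 2 ^ (q0 + K))
    (h1 : 9 * β / (2 * lam) * ∑ j ∈ Finset.range K, eN Q ν f hf Eb (q0 + j) ≤ e1)
    (h2 : ∀ r ∈ Finset.range (2 ^ q0), ∫ x, |(Pop Q)^[r] V x - V x| ∂ν ≤ e2)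
    (h3 : ∫ x, |(1 / ((2 ^ (q0 + K) : ℕ) : ℝ)) * ∑ j ∈ Finset.range (2 ^ (q0 + K)),
      (Pop Q)^[j] (VLt Q f hf L q0) x - ∫ y, VLt Q f hf L q0 y ∂ν| ∂ν ≤ e3)
    (τ : S → ℝ) (hτm : Measurable τ) (hτ1 : ∀ x, 1 ≤ τ x) (hτ2 : ∀ x, τ x ≤ 2) :
    (∫ x, VLt Q f hf L q0 x ∂ν) / (∫ x, τ x ∂ν) - (e1 + e2 + 2 * e3 + lam)
      ≤ ∫ x, V x / τ x ∂ν := by
  have hβ : 0 ≤ β := by linarith
  set g := VLt Q f hf L q0 with hgdef
  have hg : Bd L g := VLt_bd hL0 q0
  set A := Av Q g q0 K with hAdef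
  have hA : Bd L A := Av_bd hg q0 K
  have hτi : Integrable τ ν :=
    Integrable.mono' (integrable_const (2 : ℝ)) hτm.aestronglyMeasurable
      (Filter.Eventually.of_forall fun x => by
        rw [Real.norm_eq_abs, abs_of_nonneg (by linarith [hτ1 x])]; exact hτ2 x)
  set c := ∫ x, τ x ∂ν with hcdef
  have hc1 : 1 ≤ c := by
    calc (1 : ℝ) = ∫ _x, (1 : ℝ) ∂ν := by simp
      _ ≤ c := integral_mono (integrable_const _) hτi hτ1
  have hc2 : c ≤ 2 := by
    calc c ≤ ∫ _x, (2 : ℝ) ∂ν := integral_mono hτi (integrable_const _) hτ2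
      _ = 2 := by simp
  have hc0 : 0 < c := by linarith
  set Eg := ∫ x, g x ∂ν with hEg
  have hEg0 : 0 ≤ Eg := integral_nonneg hg.nonneg
  -- integrability of iterates of V
  have hPV : ∀ r, Measurable ((Pop Q)^[r] V) ∧ Integrable ((Pop Q)^[r] V) ν := by
    intro r
    induction r with
    | zero => exact ⟨hVm, hVi⟩
    | succ r ih =>
      rw [Function.iterate_succ_apply']
      exact ⟨measurable_Pop Q ih.1, integrable_Pop Q ν hs.inv ih.1 ih.2⟩
  have div_int : ∀ W : S → ℝ, Measurable W → Integrable W ν →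
      Integrable (fun x => W x / τ x) ν := by
    intro W hWm hWi
    apply Integrable.mono' hWi.norm (hWm.div hτm).aestronglyMeasurable
    filter_upwards with x
    show ‖W x / τ x‖ ≤ ‖W x‖
    rw [norm_div, Real.norm_eq_abs (τ x), abs_of_nonneg (by linarith [hτ1 x])]
    exact div_le_self (norm_nonneg _) (hτ1 x)
  -- the inequality for each residue
  have hr : ∀ r ∈ Finset.range (2 ^ q0),
      2 / c * Eg - 1 / c ^ 2 * ∫ x, τ x * (Pop Q)^[r] A x ∂ν - (e1 + e2 + lam)
        ≤ ∫ x, V x / τ x ∂ν := by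
    intro r hrm
    obtain ⟨τr, b1, b2, b3, b4⟩ := bwd_weight hs r τ hτm hτ1 hτ2
    have hW1 : Wt ν (fun _ : S => (1 : ℝ)) :=
      ⟨measurable_const, fun _ => le_rfl, integrable_const _⟩
    have c1 := lin_ind hs (c := c) hc1 hL0 hL hl hlb q0 K τr (fun _ => 1) b1 hW1
    have c2 := hN_one hs hβ hl.le (q0 + K) τr b1 V hV
    have c3 : ∫ x, τr x ∂ν = c := by
      have := b3 1 (fun _ => 1) one_bd
      simp only [pop_one, mul_one] at this
      exact this
    have c4 := b3 L A hA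
    have c5 := b4 V hVm hV0 hVi
    have c6 : ∫ x, (Pop Q)^[r] V x / τ x ∂ν ≤ ∫ x, V x / τ x ∂ν + e2 := by
      have i1 := div_int _ (hPV r).1 (hPV r).2
      have i2 := div_int _ hVm hVi
      have i3 : Integrable (fun x => |(Pop Q)^[r] V x - V x|) ν := ((hPV r).2.sub hVi).abs
      have h4 : ∫ x, (Pop Q)^[r] V x / τ x ∂ν
          ≤ ∫ x, (V x / τ x + |(Pop Q)^[r] V x - V x|) ∂ν := by
        apply integral_mono i1 (i2.add i3)
        intro x
        show (Pop Q)^[r] V x / τ x ≤ V x / τ x + |(Pop Q)^[r] V x - V x|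
        have h5 : (Pop Q)^[r] V x / τ x - V x / τ x = ((Pop Q)^[r] V x - V x) / τ x := by ring
        have h6 : ((Pop Q)^[r] V x - V x) / τ x ≤ |(Pop Q)^[r] V x - V x| / τ x := by
          have := hτ1 x
          gcongr
          exact le_abs_self _
        have h7 : |(Pop Q)^[r] V x - V x| / τ x ≤ |(Pop Q)^[r] V x - V x| :=
          div_le_self (abs_nonneg _) (hτ1 x)
        linarith
      rw [integral_add i2 i3] at h4
      linarith [h2 r hrm]
    rw [c3, c4] at c1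
    rw [c3] at c2
    have hG : β * (c - 1) - lam ≤ G β lam c := by
      unfold G
      have : 0 ≤ c⁻¹ := by positivity
      nlinarith
    have h8 : (β - lam / c ^ 2) * (c - c) = 0 := by ring
    rw [h8] at c1
    linarith
  -- sum over residues
  have hN0 : (0 : ℝ) < ((2 ^ q0 : ℕ) : ℝ) := by positivity
  have iτA : ∀ r, Integrable (fun x => τ x * (Pop Q)^[r] A x) ν := fun r =>
    Integrable.mul_bdd (c := L) hτi (hA.iter r).meas.aestronglyMeasurable
      (Filter.Eventually.of_forall (hA.iter r).abs_le)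
  have hsum : ∑ r ∈ Finset.range (2 ^ q0),
      (2 / c * Eg - 1 / c ^ 2 * ∫ x, τ x * (Pop Q)^[r] A x ∂ν - (e1 + e2 + lam))
        ≤ ∑ _r ∈ Finset.range (2 ^ q0), ∫ x, V x / τ x ∂ν := Finset.sum_le_sum hr
  rw [Finset.sum_const, Finset.card_range, Finset.sum_sub_distrib, Finset.sum_sub_distrib,
    Finset.sum_const, Finset.sum_const, Finset.card_range, ← Finset.mul_sum,
    ← integral_finsetSum _ (fun r _ => iτA r)] at hsum
  simp only [nsmul_eq_mul] at hsum
  -- the sum inside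
  have hin : (fun x => ∑ r ∈ Finset.range (2 ^ q0), τ x * (Pop Q)^[r] A x)
      = fun x => ((2 ^ q0 : ℕ) : ℝ) * (τ x * ((1 / ((2 ^ (q0 + K) : ℕ) : ℝ))
        * ∑ j ∈ Finset.range (2 ^ (q0 + K)), (Pop Q)^[j] g x)) := by
    funext x
    rw [← Finset.mul_sum, Av_sum hg q0 K x]
    have : ((2 ^ (q0 + K) : ℕ) : ℝ) = 2 ^ q0 * 2 ^ K := by push_cast; ring
    rw [this]
    push_cast
    field_simp
  rw [hin, integral_const_mul] at hsum
  set Cn : S → ℝ := fun x => (1 / ((2 ^ (q0 + K) : ℕ) : ℝ))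
        * ∑ j ∈ Finset.range (2 ^ (q0 + K)), (Pop Q)^[j] g x with hCn
  have hCm : Measurable Cn := by
    apply Measurable.const_mul
    exact Finset.measurable_sum _ (fun j _ => (hg.iter j).meas)
  have hCi : Integrable Cn ν := by
    apply Integrable.const_mul
    exact integrable_finsetSum _ (fun j _ => (hg.iter j).int ν)
  have iCE : Integrable (fun x => Cn x - Eg) ν := hCi.sub (integrable_const _)
  have hτC : ∫ x, τ x * Cn x ∂ν ≤ c * Eg + 2 * e3 := by
    have i1 : Integrable (fun x => τ x * Cn x) ν :=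
      Integrable.bdd_mul (c := 2) hCi hτm.aestronglyMeasurable
        (Filter.Eventually.of_forall fun x => by
          rw [Real.norm_eq_abs, abs_of_nonneg (by linarith [hτ1 x])]; exact hτ2 x)
    have h4 : ∫ x, τ x * Cn x ∂ν ≤ ∫ x, (τ x * Eg + 2 * |Cn x - Eg|) ∂ν := by
      apply integral_mono i1 ((hτi.mul_const Eg).add (iCE.abs.const_mul 2))
      intro x
      show τ x * Cn x ≤ τ x * Eg + 2 * |Cn x - Eg|
      have h5 : τ x * (Cn x - Eg) ≤ τ x * |Cn x - Eg| := by
        have := hτ1 x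
        gcongr
        exact le_abs_self _
      have h6 : τ x * |Cn x - Eg| ≤ 2 * |Cn x - Eg| := by
        have := hτ2 x
        gcongr
      linarith
    rw [integral_add (hτi.mul_const Eg) (iCE.abs.const_mul 2), integral_mul_const,
      integral_const_mul] at h4
    have h7 : ∫ x, |Cn x - Eg| ∂ν ≤ e3 := h3
    linarith
  -- conclude
  generalize ∫ x, V x / τ x ∂ν = W at *
  generalize ∫ x, τ x * Cn x ∂ν = Z at *
  have h9 : ((2 ^ q0 : ℕ) : ℝ) * (2 / c * Eg - 1 / c ^ 2 * Z - (e1 + e2 + lam))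
      ≤ ((2 ^ q0 : ℕ) : ℝ) * W := by
    refine le_trans (le_of_eq ?_) hsum
    ring
  have h10 := le_of_mul_le_mul_left h9 hN0
  have h11 : 1 / c ^ 2 * Z ≤ 1 / c ^ 2 * (c * Eg + 2 * e3) := by
    apply mul_le_mul_of_nonneg_left hτC; positivity
  have he3 : 0 ≤ e3 := le_trans (integral_nonneg fun x => abs_nonneg _) h3
  have h12 : 1 / c ^ 2 * (c * Eg + 2 * e3) ≤ Eg / c + 2 * e3 := by
    have h13 : 1 / c ^ 2 * (c * Eg + 2 * e3) = Eg / c + 1 / c ^ 2 * (2 * e3) := by
      field_simp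
    have h14 : 1 / c ^ 2 ≤ 1 := by
      rw [div_le_one (by positivity)]; nlinarith
    have h15 : 1 / c ^ 2 * (2 * e3) ≤ 1 * (2 * e3) := by gcongr
    linarith
  have h16 : 2 / c * Eg = Eg / c + Eg / c := by field_simp; ring
  linarith

end H61CLT
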