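import Pool.Agent.H61.CLT.VL6

/-!
# The key lower bound: choice of the parameters
-/

set_option autoImplicit false
set_option linter.unusedSectionVars false
open MeasureTheory ProbabilityTheory Filter
open scoped ENNReal Topology

namespace H61CLT

variable {S : Type*} [mS : MeasurableSpace S]
variable {Q : Kernel S S} [IsMarkovKernel Q] {ν : Measure S} [IsProbabilityMeasure ν]
    {f : S → ℝ} {hf : Measurable f}

lemma eN_nonneg {Eb : ℕ → ℝ} (hs : Setup Q ν f hf Eb) (q : ℕ) : 0 ≤ eN Q ν f hf Eb q := by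
  unfold eN
  have h1 : 0 ≤ Ef Q ν f hf (2 ^ q) := integral_nonneg fun x => sq_nonneg _
  have h2 := hs.backN (2 ^ q)
  positivity

lemma eN_summable {Eb : ℕ → ℝ} (hs : Setup Q ν f hf Eb) : Summable (eN Q ν f hf Eb) := by
  have := hs.forwS.add hs.backS
  refine this.congr (fun q => ?_)
  unfold eN
  ring

lemma VLt_integral_ge {Eb : ℕ → ℝ} (hs : Setup Q ν f hf Eb) {L R e : ℝ} (hL : 0 ≤ L)
    (hRL : R ≤ L) (q : ℕ)
    (h : ∫ p, (if R ≤ p.2.2 ^ 2 / 2 ^ q then p.2.2 ^ 2 / 2 ^ q else 0)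
        ∂(ν ⊗ₘ KN Q f hf (2 ^ q)) ≤ e) :
    Vn Q ν f hf (2 ^ q) / 2 ^ q - e ≤ ∫ x, VLt Q f hf L q x ∂ν := by
  have i0 : Integrable (fun p : S × (S × ℝ) => p.2.2 ^ 2 / 2 ^ q) (ν ⊗ₘ KN Q f hf (2 ^ q)) :=
    (hs.int2 _).div_const _
  have my : Measurable (fun p : S × (S × ℝ) => min (p.2.2 ^ 2 / 2 ^ q) L) := by fun_prop
  have iy : Integrable (fun p : S × (S × ℝ) => min (p.2.2 ^ 2 / 2 ^ q) L)
      (ν ⊗ₘ KN Q f hf (2 ^ q)) := by
    refine Integrable.mono' (integrable_const L) my.aestronglyMeasurable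
      (Filter.Eventually.of_forall fun p => ?_)
    rw [Real.norm_eq_abs, abs_of_nonneg (le_min (by positivity) hL)]
    exact min_le_right _ _
  have mz : Measurable (fun p : S × (S × ℝ) =>
      (if R ≤ p.2.2 ^ 2 / 2 ^ q then p.2.2 ^ 2 / 2 ^ q else 0)) := by
    apply Measurable.ite
    · exact measurableSet_le measurable_const (by fun_prop)
    · fun_prop
    · exact measurable_const
  have iz : Integrable (fun p : S × (S × ℝ) =>
      (if R ≤ p.2.2 ^ 2 / 2 ^ q then p.2.2 ^ 2 / 2 ^ q else 0)) (ν ⊗ₘ KN Q f hf (2 ^ q)) := by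
    refine Integrable.mono' i0 mz.aestronglyMeasurable (Filter.Eventually.of_forall fun p => ?_)
    rw [Real.norm_eq_abs]
    split_ifs
    · rw [abs_of_nonneg (by positivity)]
    · simp only [abs_zero]; positivity
  have h1 : ∫ p : S × (S × ℝ), p.2.2 ^ 2 / 2 ^ q ∂(ν ⊗ₘ KN Q f hf (2 ^ q))
      ≤ ∫ p : S × (S × ℝ), (min (p.2.2 ^ 2 / 2 ^ q) L
        + (if R ≤ p.2.2 ^ 2 / 2 ^ q then p.2.2 ^ 2 / 2 ^ q else 0))
          ∂(ν ⊗ₘ KN Q f hf (2 ^ q)) := by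
    apply integral_mono i0 (iy.add iz)
    intro p
    show p.2.2 ^ 2 / 2 ^ q ≤ min (p.2.2 ^ 2 / 2 ^ q) L
        + (if R ≤ p.2.2 ^ 2 / 2 ^ q then p.2.2 ^ 2 / 2 ^ q else 0)
    have h0 : 0 ≤ p.2.2 ^ 2 / 2 ^ q := by positivity
    rcases le_total (p.2.2 ^ 2 / 2 ^ q) L with hc | hc
    · rw [min_eq_left hc]
      split_ifs <;> linarith
    · rw [min_eq_right hc, if_pos (hRL.trans hc)]
      linarith
  rw [integral_add iy iz, integral_div] at h1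
  have e1 : ∫ p : S × (S × ℝ), min (p.2.2 ^ 2 / 2 ^ q) L ∂(ν ⊗ₘ KN Q f hf (2 ^ q))
      = ∫ x, VLt Q f hf L q x ∂ν := by
    rw [Measure.integral_compProd iy]
    rfl
  rw [e1] at h1
  unfold Vn
  linarith

theorem vl_key {Eb : ℕ → ℝ} (hs : Setup Q ν f hf Eb)
    (herg : ∀ A : Set S, MeasurableSet A →
      (∀ᵐ x ∂ν, Q x A = A.indicator (fun _ => (1 : ENNReal)) x) → ν A = 0 ∨ ν A = 1)
    (v : ℝ) (hv : Tendsto (fun q : ℕ => Vn Q ν f hf (2 ^ q) / 2 ^ q) atTop (𝓝 v))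
    (hUI : ∀ ε : ℝ, 0 < ε → ∃ R : ℝ, ∀ᶠ q : ℕ in atTop,
      ∫ p, (if R ≤ p.2.2 ^ 2 / 2 ^ q then p.2.2 ^ 2 / 2 ^ q else 0)
        ∂(ν ⊗ₘ KN Q f hf (2 ^ q)) ≤ ε)
    (V : ℕ → S → ℝ) (hVdef : ∀ q x, V q x = (∫ p, p.2 ^ 2 ∂(KN Q f hf (2 ^ q) x)) / 2 ^ q)
    (hshift : ∀ r : ℕ, Tendsto (fun q : ℕ => ∫ x, |(Pop Q)^[r] (V q) x - V q x| ∂ν)
      atTop (𝓝 0)) :
    ∀ ε : ℝ, 0 < ε → ∀ᶠ q : ℕ in atTop, ∀ τ : S → ℝ, Measurable τ → (∀ x, 1 ≤ τ x) →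
      (∀ x, τ x ≤ 2) → v / (∫ x, τ x ∂ν) - ε ≤ ∫ x, V q x / τ x ∂ν := by
  intro ε hε
  have hVf : ∀ q, V q = fun x => (∫ p, p.2 ^ 2 ∂(KN Q f hf (2 ^ q) x)) / 2 ^ q :=
    fun q => funext (hVdef q)
  have hVm : ∀ q, Measurable (V q) := by
    intro q
    rw [hVf]
    exact (cp_meas (κ := KN Q f hf (2 ^ q)) (F := fun z : S × (S × ℝ) => z.2.2 ^ 2)
      (by fun_prop)).div_const _
  have hV0 : ∀ q x, 0 ≤ V q x := by
    intro q x
    rw [hVdef]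
    have : 0 ≤ ∫ p, p.2 ^ 2 ∂(KN Q f hf (2 ^ q) x) := integral_nonneg fun p => sq_nonneg _
    positivity
  have hVi : ∀ q, Integrable (V q) ν := by
    intro q
    rw [hVf]
    exact (cp_int (hs.int2 (2 ^ q))).div_const _
  set e := min (ε / 8) (1 / 2) with he
  have he0 : 0 < e := lt_min (by positivity) (by norm_num)
  have he1 : e ≤ ε / 8 := min_le_left _ _
  have he2 : e ≤ 1 / 2 := min_le_right _ _
  obtain ⟨R, hR⟩ := hUI e he0
  set L := max R 1 with hLdef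
  have hL1 : 1 ≤ L := le_max_right _ _
  have hRL : R ≤ L := le_max_left _ _
  have hL0 : 0 ≤ L := by linarith
  -- choice of q0
  have ev1 : ∀ᶠ q : ℕ in atTop, v - e < Vn Q ν f hf (2 ^ q) / 2 ^ q :=
    hv.eventually_const_lt (by linarith)
  have tail : Tendsto (fun i : ℕ => 9 * (2 * L) / (2 * e) * ∑' k, eN Q ν f hf Eb (k + i))
      atTop (𝓝 (9 * (2 * L) / (2 * e) * 0)) :=
    (tendsto_sum_nat_add (eN Q ν f hf Eb)).const_mul _
  rw [mul_zero] at tail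
  have ev2 : ∀ᶠ q : ℕ in atTop, 9 * (2 * L) / (2 * e) * ∑' k, eN Q ν f hf Eb (k + q) < e :=
    tail.eventually_lt_const he0
  obtain ⟨q0, hq1, hq2, hq3⟩ := (hR.and (ev1.and ev2)).exists
  have hEg : v - 2 * e ≤ ∫ x, VLt Q f hf L q0 x ∂ν := by
    have := VLt_integral_ge hs hL0 hRL q0 hq1
    linarith
  have htail : ∀ K : ℕ, 9 * (2 * L) / (2 * e) * ∑ j ∈ Finset.range K, eN Q ν f hf Eb (q0 + j)
      ≤ e := by
    intro K
    have h1 : ∑ j ∈ Finset.range K, eN Q ν f hf Eb (q0 + j)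
        ≤ ∑' k, eN Q ν f hf Eb (k + q0) := by
      have h2 : Summable (fun k => eN Q ν f hf Eb (k + q0)) :=
        (summable_nat_add_iff q0).2 (eN_summable hs)
      have h3 := h2.sum_le_tsum (Finset.range K) (fun i _ => eN_nonneg hs _)
      refine le_trans (le_of_eq ?_) h3
      apply Finset.sum_congr rfl
      intro j _
      rw [add_comm]
    have h4 : 9 * (2 * L) / (2 * e) * ∑ j ∈ Finset.range K, eN Q ν f hf Eb (q0 + j)
        ≤ 9 * (2 * L) / (2 * e) * ∑' k, eN Q ν f hf Eb (k + q0) := by gcongr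
    linarith
  -- eventual properties
  have ev3 : ∀ᶠ q : ℕ in atTop, ∀ r ∈ Finset.range (2 ^ q0),
      ∫ x, |(Pop Q)^[r] (V q) x - V q x| ∂ν ≤ e := by
    rw [Filter.eventually_all_finset]
    intro r _
    exact ((hshift r).eventually_lt_const he0).mono fun q hq => hq.le
  have hg : Bd L (VLt Q f hf L q0) := VLt_bd hL0 q0
  have me := mean_ergodic Q ν hs.inv herg (VLt Q f hf L q0) hg.meas ⟨L, hg.abs_le⟩
  have hpow : Tendsto (fun q : ℕ => 2 ^ q) atTop atTop :=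
    tendsto_pow_atTop_atTop_of_one_lt (by norm_num)
  have me2 := me.comp hpow
  have ev4 : ∀ᶠ q : ℕ in atTop, ∫ x, |(1 / ((2 ^ q : ℕ) : ℝ)) * ∑ j ∈ Finset.range (2 ^ q),
      (Pop Q)^[j] (VLt Q f hf L q0) x - ∫ y, VLt Q f hf L q0 y ∂ν| ∂ν ≤ e :=
    (me2.eventually_lt_const he0).mono fun q hq => hq.le
  filter_upwards [ev3, ev4, Filter.eventually_ge_atTop q0] with q h3 h4 hq τ hτm hτ1 hτ2
  obtain ⟨K, rfl⟩ := Nat.exists_eq_add_of_le hq
  have key := key_fixed hs (β := 2 * L) (lam := e) (L := L) (e1 := e) (e2 := e) (e3 := e)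
    hL0 (by linarith) he0 (by linarith) q0 K (V (q0 + K)) (hVm _) (hV0 _) (hVi _)
    (hVdef _) (htail K) h3 h4 τ hτm hτ1 hτ2
  have hτi : Integrable τ ν :=
    Integrable.mono' (integrable_const (2 : ℝ)) hτm.aestronglyMeasurable
      (Filter.Eventually.of_forall fun x => by
        rw [Real.norm_eq_abs, abs_of_nonneg (by linarith [hτ1 x])]; exact hτ2 x)
  have hc1 : 1 ≤ ∫ x, τ x ∂ν := by
    calc (1 : ℝ) = ∫ _x, (1 : ℝ) ∂ν := by simp
      _ ≤ _ := integral_mono (integrable_const _) hτi hτ1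
  have h5 : (v - 2 * e) / (∫ x, τ x ∂ν) ≤ (∫ x, VLt Q f hf L q0 x ∂ν) / (∫ x, τ x ∂ν) := by
    gcongr
  have h6 : (v - 2 * e) / (∫ x, τ x ∂ν) = v / (∫ x, τ x ∂ν) - 2 * e / (∫ x, τ x ∂ν) := by
    rw [sub_div]
  have h7 : 2 * e / (∫ x, τ x ∂ν) ≤ 2 * e := div_le_self (by positivity) hc1
  linarith

end H61CLT
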